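import Pool.Agent.MP_67227b_nt.Mo.MoDefs
import Pool.Agent.BrunHooley.Mertens

set_option autoImplicit false

open Filter Topology Set MeasureTheory Complex
open scoped Real ContDiff ArithmeticFunction

namespace Pool.Agent.MP_67227b_nt.Mo

open Pool.Agent.Lib.ZetaCount_helper33 Pool.Agent.MP_67227b_nt

namespace PrimeSqAux

open Pool.Agent.BrunHooley.MertensAux

/-- `∑_{d ≤ n} Λ(d)^2/d` -/
noncomputable def AA (n : ℕ) : ℝ := ∑ d ∈ Finset.Ioc 0 n, Λ d ^ 2 / d

/-- `∑_{d ≤ n} Λ(d) log d/d` -/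
noncomputable def B (n : ℕ) : ℝ := ∑ d ∈ Finset.Ioc 0 n, Λ d * Real.log d / d

lemma Ioc_succ_sum (f : ℕ → ℝ) (n : ℕ) :
    ∑ d ∈ Finset.Ioc 0 (n + 1), f d = (∑ d ∈ Finset.Ioc 0 n, f d) + f (n + 1) := by
  rw [← Finset.insert_Ioc_right_eq_Ioc_add_one (Nat.zero_le n), Finset.sum_insert (by simp)]
  ring

lemma A_nonneg (n : ℕ) : 0 ≤ AA n := Finset.sum_nonneg fun d _ => by positivity

lemma exists_nonprime : ∃ C : ℝ, 0 ≤ C ∧ ∀ n : ℕ,
    ∑ d ∈ Finset.Ioc 0 n, (if d.Prime then 0 else Λ d) / d ≤ C := by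
  have h := ArithmeticFunction.vonMangoldt.summable_residueClass_non_primes_div (q := 1) 0
  have e : (fun n : ℕ ↦ (if n.Prime then 0 else ArithmeticFunction.vonMangoldt.residueClass (q := 1) 0 n) / (n : ℝ))
      = fun n : ℕ => (if n.Prime then 0 else Λ n) / (n : ℝ) := by
    funext n
    have : ArithmeticFunction.vonMangoldt.residueClass (q := 1) 0 n = Λ n := by
      rw [ArithmeticFunction.vonMangoldt.residueClass, Set.indicator_of_mem]
      simp only [Set.mem_ofPred_eq]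
      exact Subsingleton.elim _ _
    rw [this]
  rw [e] at h
  have hn : ∀ n : ℕ, 0 ≤ (if n.Prime then 0 else Λ n) / (n : ℝ) := by
    intro n
    split_ifs
    · simp
    · positivity
  exact ⟨_, tsum_nonneg hn, fun n => h.sum_le_tsum _ fun i _ => hn i⟩

lemma A_le_B (n : ℕ) : AA n ≤ B n := by
  refine Finset.sum_le_sum fun d hd => ?_
  have h0 := (Finset.mem_Ioc.1 hd).1
  have hd0 : (0 : ℝ) < d := by exact_mod_cast h0
  have h1 : Λ d ≤ Real.log d := ArithmeticFunction.vonMangoldt_le_log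
  have h2 : 0 ≤ Λ d := ArithmeticFunction.vonMangoldt_nonneg
  gcongr
  nlinarith

lemma exists_B_sub_A : ∃ C : ℝ, 0 ≤ C ∧ ∀ n : ℕ, n ≠ 0 → B n - AA n ≤ C * Real.log n := by
  obtain ⟨C, hC, h⟩ := exists_nonprime
  refine ⟨C, hC, fun n hn => ?_⟩
  have hl : 0 ≤ Real.log n := Real.log_natCast_nonneg n
  calc B n - AA n = ∑ d ∈ Finset.Ioc 0 n, (Λ d * Real.log d / d - Λ d ^ 2 / d) := by
        rw [B, AA, Finset.sum_sub_distrib]
    _ ≤ ∑ d ∈ Finset.Ioc 0 n, ((if d.Prime then 0 else Λ d) / d) * Real.log n := by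
        refine Finset.sum_le_sum fun d hd => ?_
        obtain ⟨h0, h1⟩ := Finset.mem_Ioc.1 hd
        have hd0 : (0 : ℝ) < d := by exact_mod_cast h0
        split_ifs with hp
        · rw [ArithmeticFunction.vonMangoldt_apply_prime hp]
          simp only [zero_div, zero_mul]
          apply le_of_eq
          ring
        · have h2 : 0 ≤ Λ d := ArithmeticFunction.vonMangoldt_nonneg
          have h3 : Real.log d ≤ Real.log n := Real.log_le_log hd0 (by exact_mod_cast h1)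
          have h4 : 0 ≤ Λ d ^ 2 / d := by positivity
          have h5 : Λ d * Real.log d / d ≤ Λ d / d * Real.log n := by
            rw [div_mul_eq_mul_div]
            gcongr
          linarith
    _ = (∑ d ∈ Finset.Ioc 0 n, (if d.Prime then 0 else Λ d) / d) * Real.log n := by
        rw [Finset.sum_mul]
    _ ≤ C * Real.log n := mul_le_mul_of_nonneg_right (h n) hl

lemma B_bound (n : ℕ) (hn : 1 ≤ n) :
    |B n - M n * Real.log n + Real.log n ^ 2 / 2| ≤ 8 * Real.log n := by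
  induction n, hn using Nat.le_induction with
  | base => simp [B]
  | succ n hn ih =>
    have hn0 : (0 : ℝ) < n := by exact_mod_cast hn
    have eB : B (n + 1) = B n + Λ (n + 1) * Real.log ((n + 1 : ℕ) : ℝ) / ((n + 1 : ℕ) : ℝ) :=
      Ioc_succ_sum (fun d => Λ d * Real.log d / d) n
    have eM : M (n + 1) = M n + Λ (n + 1) / ((n + 1 : ℕ) : ℝ) :=
      Ioc_succ_sum (fun d => Λ d / d) n
    have l0 : Real.log n ≤ Real.log ((n + 1 : ℕ) : ℝ) :=
      Real.log_le_log hn0 (by push_cast; linarith)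
    have l1 : Real.log ((n + 1 : ℕ) : ℝ) ≤ Real.log n + 1 := by
      have h1 : Real.log ((n + 1 : ℕ) : ℝ) ≤ Real.log (Real.exp 1 * n) := by
        apply Real.log_le_log (by positivity)
        push_cast
        have := Real.add_one_le_exp (1 : ℝ)
        have h2 : (1 : ℝ) ≤ n := by exact_mod_cast hn
        nlinarith
      rw [Real.log_mul (Real.exp_pos 1).ne' hn0.ne', Real.log_exp] at h1
      linarith
    have h1 := M_ge n (by omega)
    have h2 := M_le n (by omega)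
    have h4 : Real.log 4 ≤ 3 := by
      have := Real.log_le_sub_one_of_pos (show (0 : ℝ) < 4 by norm_num)
      linarith
    have e : B (n + 1) - M (n + 1) * Real.log ((n + 1 : ℕ) : ℝ) + Real.log ((n + 1 : ℕ) : ℝ) ^ 2 / 2
        = (B n - M n * Real.log n + Real.log n ^ 2 / 2) +
          (Real.log ((n + 1 : ℕ) : ℝ) - Real.log n) *
            ((Real.log ((n + 1 : ℕ) : ℝ) + Real.log n) / 2 - M n) := by
      rw [eB, eM]
      ring
    rw [e]
    have h5 : |(Real.log ((n + 1 : ℕ) : ℝ) + Real.log n) / 2 - M n| ≤ 8 := by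
      rw [abs_le]
      constructor <;> linarith
    have h6 : 0 ≤ Real.log ((n + 1 : ℕ) : ℝ) - Real.log n := by linarith
    calc |(B n - M n * Real.log n + Real.log n ^ 2 / 2) +
          (Real.log ((n + 1 : ℕ) : ℝ) - Real.log n) *
            ((Real.log ((n + 1 : ℕ) : ℝ) + Real.log n) / 2 - M n)|
        ≤ 8 * Real.log n + |(Real.log ((n + 1 : ℕ) : ℝ) - Real.log n) *
            ((Real.log ((n + 1 : ℕ) : ℝ) + Real.log n) / 2 - M n)| :=
          (abs_add_le _ _).trans (by linarith)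
      _ ≤ 8 * Real.log n + (Real.log ((n + 1 : ℕ) : ℝ) - Real.log n) * 8 := by
          rw [abs_mul, abs_of_nonneg h6]
          gcongr
      _ = 8 * Real.log ((n + 1 : ℕ) : ℝ) := by ring

lemma exists_A_nat : ∃ C : ℝ, 0 ≤ C ∧ ∀ n : ℕ, n ≠ 0 →
    |AA n - Real.log n ^ 2 / 2| ≤ C * Real.log n := by
  obtain ⟨C, hC, h⟩ := exists_B_sub_A
  refine ⟨C + 16, by linarith, fun n hn => ?_⟩
  have h1 := h n hn
  have h2 := A_le_B n
  have h3 := abs_le.1 (B_bound n (by omega))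
  have h4 := M_ge n hn
  have h5 := M_le n hn
  have h6 : Real.log 4 ≤ 3 := by
    have := Real.log_le_sub_one_of_pos (show (0 : ℝ) < 4 by norm_num)
    linarith
  have hl : 0 ≤ Real.log n := Real.log_natCast_nonneg n
  have h7 : Real.log n * Real.log n - Real.log n ≤ M n * Real.log n := by nlinarith
  have h8 : M n * Real.log n ≤ Real.log n * Real.log n + 7 * Real.log n := by nlinarith
  rw [abs_le]
  constructor <;> nlinarith [h3.1, h3.2]

/-- Real version. -/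
lemma exists_A_real : ∃ C : ℝ, 0 ≤ C ∧ ∀ y : ℝ, 0 ≤ y →
    |AA ⌊Real.exp y⌋₊ - y ^ 2 / 2| ≤ C * (y + 1) := by
  obtain ⟨C, hC, h⟩ := exists_A_nat
  refine ⟨C + 2, by linarith, fun y hy => ?_⟩
  set n := ⌊Real.exp y⌋₊ with hn
  have he : 1 ≤ Real.exp y := Real.one_le_exp hy
  have hn1 : 1 ≤ n := by
    rw [hn]
    exact Nat.le_floor (by simpa using he)
  have hn0 : (0 : ℝ) < n := by exact_mod_cast hn1
  have h1 : (n : ℝ) ≤ Real.exp y := Nat.floor_le (Real.exp_pos y).le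
  have h2 : Real.exp y < n + 1 := Nat.lt_floor_add_one _
  have l1 : Real.log n ≤ y := by
    rw [Real.log_le_iff_le_exp hn0]
    exact h1
  have l2 : y ≤ Real.log n + 1 := by
    have h3 : Real.exp y ≤ Real.exp (Real.log n + 1) := by
      rw [Real.exp_add, Real.exp_log hn0]
      have := Real.add_one_le_exp (1 : ℝ)
      have h4 : (1 : ℝ) ≤ n := by exact_mod_cast hn1
      nlinarith
    exact Real.exp_le_exp.1 h3
  have l0 : 0 ≤ Real.log n := Real.log_natCast_nonneg n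
  have h3 := abs_le.1 (h n (by omega))
  have h4 : |Real.log n ^ 2 / 2 - y ^ 2 / 2| ≤ y + 1 := by
    rw [abs_le]
    constructor <;> nlinarith
  have h4' := abs_le.1 h4
  have h5 : C * Real.log n ≤ C * (y + 1) := by
    apply mul_le_mul_of_nonneg_left _ hC
    linarith
  rw [abs_le]
  constructor <;> nlinarith [h3.1, h3.2, h4'.1, h4'.2]

lemma bump_one {ψ : ℝ → ℂ} {δ : ℝ} (hδ1 : δ ≤ 1) (hψ : Bump δ ψ) : ψ 1 = 0 := by
  have hc : Continuous ψ := hψ.smooth.continuous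
  have h1 : Tendsto ψ (𝓝[>] (1 : ℝ)) (𝓝 (ψ 1)) := hc.continuousAt.tendsto.mono_left nhdsWithin_le_nhds
  have h2 : Tendsto ψ (𝓝[>] (1 : ℝ)) (𝓝 0) := by
    apply tendsto_const_nhds.congr'
    filter_upwards [self_mem_nhdsWithin] with x hx
    have hx' : 1 < x := hx
    exact (hψ.supp x (by rw [abs_of_pos (by linarith)]; linarith)).symm
  exact tendsto_nhds_unique h1 h2

lemma deriv_int {ψ : ℝ → ℂ} {δ : ℝ} (hδ1 : δ ≤ 1) (hψ : Bump δ ψ) (y : ℝ) (hy : 0 ≤ y)
    (hy1 : y ≤ 1) :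
    ψ y = -∫ x in (0 : ℝ)..1, (if y ≤ x then deriv ψ x else 0) := by
  have hc : Continuous (deriv ψ) := hψ.smooth.continuous_deriv (by simp)
  have hd : ∀ x, HasDerivAt ψ (deriv ψ x) x := fun x =>
    ((hψ.smooth.differentiable (by simp)) x).hasDerivAt
  have h1 : ∫ x in y..1, deriv ψ x = ψ 1 - ψ y :=
    intervalIntegral.integral_eq_sub_of_hasDerivAt (fun x _ => hd x) (hc.intervalIntegrable _ _)
  rw [bump_one hδ1 hψ] at h1
  have h2 : ∫ x in (0 : ℝ)..1, (if y ≤ x then deriv ψ x else 0) = ∫ x in y..1, deriv ψ x := by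
    rw [intervalIntegral.integral_of_le zero_le_one, intervalIntegral.integral_of_le hy1,
      ← integral_Icc_eq_integral_Ioc, ← integral_Icc_eq_integral_Ioc]
    have : (fun x => if y ≤ x then deriv ψ x else 0) = (Set.Ici y).indicator (deriv ψ) := by
      funext x
      simp [Set.indicator, Set.mem_Ici]
    rw [this, setIntegral_indicator measurableSet_Ici]
    congr 2
    ext x
    simp only [Set.mem_inter_iff, Set.mem_Icc, Set.mem_Ici]
    constructor
    · rintro ⟨⟨_, h⟩, h'⟩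
      exact ⟨h', h⟩
    · rintro ⟨h, h'⟩
      exact ⟨⟨by linarith, h'⟩, h⟩
  rw [h2, h1]
  ring

lemma intble {ψ : ℝ → ℂ} (hc : Continuous (deriv ψ)) (y : ℝ) :
    IntervalIntegrable (fun x => if y ≤ x then deriv ψ x else 0) volume 0 1 := by
  rw [intervalIntegrable_iff_integrableOn_Ioc_of_le zero_le_one]
  have : (fun x => if y ≤ x then deriv ψ x else 0) = (Set.Ici y).indicator (deriv ψ) := by
    funext x
    simp [Set.indicator, Set.mem_Ici]
  rw [this]
  apply Integrable.indicator _ measurableSet_Ici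
  exact (hc.integrableOn_Icc (a := 0) (b := 1)).mono_set Ioc_subset_Icc_self

/-- Abel summation. -/
lemma abel {ψ : ℝ → ℂ} {δ : ℝ} (hδ1 : δ ≤ 1) (hψ : Bump δ ψ) {L : ℝ} (hL : 0 < L) :
    ∑ n ∈ Finset.range (⌊Real.exp L⌋₊ + 1), ((Λ n ^ 2 / n : ℝ) : ℂ) * ψ (Real.log n / L) =
      -∫ x in (0 : ℝ)..1, (AA ⌊Real.exp (x * L)⌋₊ : ℂ) * deriv ψ x := by
  have hc : Continuous (deriv ψ) := hψ.smooth.continuous_deriv (by simp)
  have h1 : ∑ n ∈ Finset.range (⌊Real.exp L⌋₊ + 1), ((Λ n ^ 2 / n : ℝ) : ℂ) * ψ (Real.log n / L)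
      = ∑ n ∈ Finset.range (⌊Real.exp L⌋₊ + 1), ((Λ n ^ 2 / n : ℝ) : ℂ) *
        (-∫ x in (0 : ℝ)..1, (if Real.log n / L ≤ x then deriv ψ x else 0)) := by
    refine Finset.sum_congr rfl fun n hn => ?_
    rcases Nat.eq_zero_or_pos n with rfl | h0
    · simp
    have hn1 : n ≤ ⌊Real.exp L⌋₊ := by
      have := Finset.mem_range.1 hn
      omega
    have hn0 : (0 : ℝ) < n := by exact_mod_cast h0
    have h2 : (n : ℝ) ≤ Real.exp L := (Nat.le_floor_iff (Real.exp_pos L).le).1 hn1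
    have h3 : Real.log n ≤ L := (Real.log_le_iff_le_exp hn0).2 h2
    rw [← deriv_int hδ1 hψ (Real.log n / L) (div_nonneg (Real.log_natCast_nonneg n) hL.le)
      ((div_le_one hL).2 h3)]
  rw [h1]
  have h2 : ∑ n ∈ Finset.range (⌊Real.exp L⌋₊ + 1), ((Λ n ^ 2 / n : ℝ) : ℂ) *
        (-∫ x in (0 : ℝ)..1, (if Real.log n / L ≤ x then deriv ψ x else 0))
      = -∫ x in (0 : ℝ)..1, ∑ n ∈ Finset.range (⌊Real.exp L⌋₊ + 1), ((Λ n ^ 2 / n : ℝ) : ℂ) *
        (if Real.log n / L ≤ x then deriv ψ x else 0) := by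
    rw [intervalIntegral.integral_finsetSum]
    · rw [← Finset.sum_neg_distrib]
      refine Finset.sum_congr rfl fun n _ => ?_
      rw [intervalIntegral.integral_const_mul]
      ring
    · intro n _
      exact (intble hc _).const_mul _
  rw [h2]
  congr 1
  apply intervalIntegral.integral_congr
  intro x hx
  rw [uIcc_of_le zero_le_one] at hx
  obtain ⟨hx0, hx1⟩ := hx
  simp only
  rw [AA]
  push_cast
  rw [Finset.sum_mul]
  have e : Finset.Ioc 0 ⌊Real.exp (x * L)⌋₊ ⊆ Finset.range (⌊Real.exp L⌋₊ + 1) := by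
    intro n hn
    obtain ⟨h3, h4⟩ := Finset.mem_Ioc.1 hn
    rw [Finset.mem_range]
    have h5 : ⌊Real.exp (x * L)⌋₊ ≤ ⌊Real.exp L⌋₊ := by
      apply Nat.floor_mono
      apply Real.exp_le_exp.2
      nlinarith
    omega
  rw [← Finset.sum_subset e]
  · refine Finset.sum_congr rfl fun n hn => ?_
    obtain ⟨h3, h4⟩ := Finset.mem_Ioc.1 hn
    have hn0 : (0 : ℝ) < n := by exact_mod_cast h3
    have h5 : (n : ℝ) ≤ Real.exp (x * L) := (Nat.le_floor_iff (Real.exp_pos _).le).1 h4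
    have h6 : Real.log n / L ≤ x := by
      rw [div_le_iff₀ hL]
      exact (Real.log_le_iff_le_exp hn0).2 h5
    rw [if_pos h6]
  · intro n _ hn
    rcases Nat.eq_zero_or_pos n with rfl | h0
    · simp
    have hn0 : (0 : ℝ) < n := by exact_mod_cast h0
    rw [if_neg, mul_zero]
    intro h6
    rw [div_le_iff₀ hL] at h6
    apply hn
    rw [Finset.mem_Ioc]
    exact ⟨h0, (Nat.le_floor_iff (Real.exp_pos _).le).2 ((Real.log_le_iff_le_exp hn0).1 h6)⟩

lemma limit_int {ψ : ℝ → ℂ} {δ : ℝ} (hδ1 : δ ≤ 1) (hψ : Bump δ ψ) :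
    ∫ x in Ioi (0 : ℝ), (x : ℂ) * ψ x = -∫ x in (0 : ℝ)..1, ((x ^ 2 / 2 : ℝ) : ℂ) * deriv ψ x := by
  have hc : Continuous (deriv ψ) := hψ.smooth.continuous_deriv (by simp)
  have hd : ∀ x, HasDerivAt ψ (deriv ψ x) x := fun x =>
    ((hψ.smooth.differentiable (by simp)) x).hasDerivAt
  have h0 : ∫ x in Ioi (0 : ℝ), (x : ℂ) * ψ x = ∫ x in (0 : ℝ)..1, (x : ℂ) * ψ x := by
    rw [intervalIntegral.integral_of_le zero_le_one]
    apply setIntegral_eq_of_subset_of_forall_sdiff_eq_zero measurableSet_Ioi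
    · intro x hx
      exact hx.1
    · rintro x ⟨hx, hx'⟩
      have hx0 : 0 < x := hx
      have : 1 < x := by
        by_contra h
        exact hx' ⟨hx0, not_lt.1 h⟩
      rw [hψ.supp x (by rw [abs_of_pos hx0]; linarith), mul_zero]
  rw [h0]
  have hu : ∀ x : ℝ, HasDerivAt (fun x : ℝ => ((x ^ 2 / 2 : ℝ) : ℂ)) (x : ℂ) x := by
    intro x
    have : HasDerivAt (fun x : ℝ => x ^ 2 / 2) x x := by
      have := (hasDerivAt_pow 2 x).div_const 2
      simpa using this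
    exact this.ofReal_comp
  have h1 := intervalIntegral.integral_mul_deriv_eq_deriv_mul (a := 0) (b := 1)
    (u := fun x : ℝ => ((x ^ 2 / 2 : ℝ) : ℂ)) (v := ψ) (u' := fun x : ℝ => (x : ℂ)) (v' := deriv ψ)
    (fun x _ => hu x) (fun x _ => hd x) (Complex.continuous_ofReal.intervalIntegrable _ _)
    (hc.intervalIntegrable _ _)
  rw [h1, bump_one hδ1 hψ]
  simp

end PrimeSqAux

open PrimeSqAux

/-- The diagonal: `∑ Λ(n)^2 / n` with a smooth weight in `log n / L`. -/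
theorem tendsto_prime_sq {ψ : ℝ → ℂ} {δ : ℝ} (hδ : 0 ≤ δ) (hδ1 : δ ≤ 1) (hψ : Bump δ ψ) :
    Tendsto (fun L : ℝ => (1 / (L : ℂ) ^ 2) * ∑ n ∈ Finset.range (⌊Real.exp L⌋₊ + 1),
      ((Λ n ^ 2 / n : ℝ) : ℂ) * ψ (Real.log n / L)) atTop
      (𝓝 (∫ x in Ioi (0 : ℝ), (x : ℂ) * ψ x)) := by
  have hc : Continuous (deriv ψ) := hψ.smooth.continuous_deriv (by simp)
  obtain ⟨C, hC, hA⟩ := exists_A_real
  obtain ⟨D, hD⟩ : ∃ D : ℝ, ∀ x ∈ Set.Icc (0 : ℝ) 1, ‖deriv ψ x‖ ≤ D :=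
    isCompact_Icc.exists_bound_of_continuousOn hc.continuousOn
  have hD0 : 0 ≤ D := (norm_nonneg _).trans (hD 0 ⟨le_rfl, zero_le_one⟩)
  rw [limit_int hδ1 hψ, tendsto_iff_norm_sub_tendsto_zero]
  have hlim : Tendsto (fun L : ℝ => (2 * C * D) * L⁻¹) atTop (𝓝 0) := by
    have := (tendsto_inv_atTop_zero (𝕜 := ℝ)).const_mul (2 * C * D)
    simpa using this
  refine squeeze_zero' (Eventually.of_forall fun _ => norm_nonneg _) ?_ hlim
  filter_upwards [eventually_ge_atTop 1] with L hL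
  have hL0 : 0 < L := by linarith
  have hLc : (L : ℂ) ≠ 0 := by exact_mod_cast hL0.ne'
  rw [abel hδ1 hψ hL0]
  -- integrability of the step function times the derivative
  have hI : IntervalIntegrable (fun x => (AA ⌊Real.exp (x * L)⌋₊ : ℂ) * deriv ψ x) volume 0 1 := by
    have hm : Measurable fun x : ℝ => (AA ⌊Real.exp (x * L)⌋₊ : ℂ) := by
      have h1 : Measurable fun x : ℝ => ⌊Real.exp (x * L)⌋₊ :=
        Nat.measurable_floor.comp (by fun_prop)
      have h2 : Measurable fun n : ℕ => (AA n : ℂ) := measurable_from_nat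
      exact h2.comp h1
    have hb : ∀ x ∈ Set.Icc (0 : ℝ) 1, ‖(AA ⌊Real.exp (x * L)⌋₊ : ℂ)‖ ≤ C * (L + 1) + L ^ 2 := by
      intro x hx
      have h1 := hA (x * L) (mul_nonneg hx.1 hL0.le)
      rw [Complex.norm_real, Real.norm_eq_abs]
      have h2 := abs_le.1 h1
      have h3 : x * L ≤ L := by nlinarith [hx.2]
      have h4 : 0 ≤ x * L := mul_nonneg hx.1 hL0.le
      have h5 : (x * L) ^ 2 ≤ L ^ 2 := by nlinarith
      have h6 : C * (x * L + 1) ≤ C * (L + 1) := by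
        apply mul_le_mul_of_nonneg_left _ hC
        linarith
      rw [abs_le]
      constructor
      · nlinarith [h2.1, A_nonneg ⌊Real.exp (x * L)⌋₊, mul_nonneg hC (show 0 ≤ L + 1 by linarith), sq_nonneg L]
      · nlinarith [h2.2]
    rw [intervalIntegrable_iff_integrableOn_Ioc_of_le zero_le_one]
    refine Integrable.mono' (g := fun _ => (C * (L + 1) + L ^ 2) * D) ?_ ?_ ?_
    · exact integrable_const _
    · exact (hm.mul hc.measurable).aestronglyMeasurable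
    · filter_upwards [ae_restrict_mem measurableSet_Ioc] with x hx
      have hx' : x ∈ Set.Icc (0 : ℝ) 1 := ⟨hx.1.le, hx.2⟩
      rw [norm_mul]
      exact mul_le_mul (hb x hx') (hD x hx') (norm_nonneg _) ((norm_nonneg _).trans (hb x hx'))
  have hI2 : IntervalIntegrable (fun x : ℝ => ((x ^ 2 / 2 : ℝ) : ℂ) * deriv ψ x) volume 0 1 :=
    Continuous.intervalIntegrable (by fun_prop) _ _
  have e : (1 / (L : ℂ) ^ 2) * (-∫ x in (0 : ℝ)..1, (AA ⌊Real.exp (x * L)⌋₊ : ℂ) * deriv ψ x) -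
      -∫ x in (0 : ℝ)..1, ((x ^ 2 / 2 : ℝ) : ℂ) * deriv ψ x =
      ∫ x in (0 : ℝ)..1, (((x ^ 2 / 2 : ℝ) : ℂ) * deriv ψ x -
        (1 / (L : ℂ) ^ 2) * ((AA ⌊Real.exp (x * L)⌋₊ : ℂ) * deriv ψ x)) := by
    rw [intervalIntegral.integral_sub hI2 (hI.const_mul _), intervalIntegral.integral_const_mul]
    ring
  rw [e]
  have hbound : ∀ x ∈ Set.uIoc (0 : ℝ) 1, ‖((x ^ 2 / 2 : ℝ) : ℂ) * deriv ψ x -
        (1 / (L : ℂ) ^ 2) * ((AA ⌊Real.exp (x * L)⌋₊ : ℂ) * deriv ψ x)‖ ≤ 2 * C * D * L⁻¹ := by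
    intro x hx
    rw [uIoc_of_le zero_le_one] at hx
    have hx' : x ∈ Set.Icc (0 : ℝ) 1 := ⟨hx.1.le, hx.2⟩
    have e2 : ((x ^ 2 / 2 : ℝ) : ℂ) * deriv ψ x -
        (1 / (L : ℂ) ^ 2) * ((AA ⌊Real.exp (x * L)⌋₊ : ℂ) * deriv ψ x) =
        (((x * L) ^ 2 / 2 - AA ⌊Real.exp (x * L)⌋₊ : ℝ) : ℂ) * ((1 / L ^ 2 : ℝ) : ℂ) * deriv ψ x := by
      push_cast
      field_simp
    rw [e2, norm_mul, norm_mul, Complex.norm_real, Complex.norm_real, Real.norm_eq_abs,
      Real.norm_eq_abs, abs_sub_comm, abs_of_pos (by positivity : (0 : ℝ) < 1 / L ^ 2)]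
    have h1 := hA (x * L) (mul_nonneg hx'.1 hL0.le)
    have h3 : x * L + 1 ≤ 2 * L := by nlinarith [hx'.2]
    have h4 : C * (x * L + 1) ≤ C * (2 * L) := mul_le_mul_of_nonneg_left h3 hC
    calc |AA ⌊Real.exp (x * L)⌋₊ - (x * L) ^ 2 / 2| * (1 / L ^ 2) * ‖deriv ψ x‖
        ≤ (C * (2 * L)) * (1 / L ^ 2) * D := by
          gcongr
          · exact h1.trans h4
          · exact hD x hx'
      _ = 2 * C * D * L⁻¹ := by
          field_simp
  have h7 := intervalIntegral.norm_integral_le_of_norm_le_const hbound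
  simpa using h7

end Pool.Agent.MP_67227b_nt.Mo
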