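import Pool.Agent.MP_67227b_nt.Mo.Decay

set_option autoImplicit false

open Filter Topology Set MeasureTheory Complex
open scoped Real ContDiff ArithmeticFunction

namespace Pool.Agent.MP_67227b_nt.Mo

open Pool.Agent.Lib.ZetaCount_helper33 Pool.Agent.MP_67227b_nt

lemma four_tri_cos {c : ℝ} (hc : c ≠ 0) :
    ∫ x in (0 : ℝ)..1, (1 - x) * Real.cos (c * x) = (1 - Real.cos c) / c ^ 2 := by
  have h : ∀ x ∈ uIcc (0 : ℝ) 1,
      HasDerivAt (fun x => (1 - x) * Real.sin (c * x) / c - Real.cos (c * x) / c ^ 2)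
        ((1 - x) * Real.cos (c * x)) x := by
    intro x _
    have h1 : HasDerivAt (fun x : ℝ => c * x) c x := by simpa using (hasDerivAt_id x).const_mul c
    have h2 := h1.sin
    have h3 := h1.cos
    have h4 : HasDerivAt (fun x : ℝ => 1 - x) (-1) x := by
      simpa using (hasDerivAt_id x).const_sub 1
    refine (((h4.mul h2).div_const c).sub (h3.div_const (c ^ 2))).congr_deriv ?_
    field_simp
    ring
  rw [intervalIntegral.integral_eq_sub_of_hasDerivAt h
    (Continuous.intervalIntegrable (by fun_prop) _ _)]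
  simp
  field_simp
  ring

lemma four_tri_cos_zero : ∫ x in (0 : ℝ)..1, (1 - x) = 1 / 2 := by
  have h : ∀ x ∈ uIcc (0 : ℝ) 1, HasDerivAt (fun x : ℝ => x - x ^ 2 / 2) (1 - x) x := by
    intro x _
    refine ((hasDerivAt_id x).sub (((hasDerivAt_id x).pow 2).div_const 2)).congr_deriv ?_
    simp
  rw [intervalIntegral.integral_eq_sub_of_hasDerivAt h
    (Continuous.intervalIntegrable (by fun_prop) _ _)]
  norm_num

lemma four_sinc (u : ℝ) :
    ∫ x in (0 : ℝ)..1, (1 - x) * Real.cos (2 * π * u * x) = Real.sinc (π * u) ^ 2 / 2 := by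
  by_cases hu : u = 0
  · subst hu
    simp [four_tri_cos_zero]
  · have hpu : π * u ≠ 0 := mul_ne_zero Real.pi_ne_zero hu
    rw [four_tri_cos (c := 2 * π * u) (by
      rw [mul_assoc]; exact mul_ne_zero two_ne_zero hpu), Real.sinc_of_ne_zero hpu]
    have h1 : Real.cos (2 * π * u) = 1 - 2 * Real.sin (π * u) ^ 2 := by
      rw [mul_assoc, Real.cos_two_mul, Real.cos_sq']
      ring
    rw [h1]
    field_simp
    ring

/-- The triangle and the square of sinc. -/
lemma four_tri_exp (u : ℝ) :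
    ∫ x in (-1 : ℝ)..1, ((1 - |x| : ℝ) : ℂ) * Complex.exp (2 * π * I * x * u) =
      ((Real.sinc (π * u) ^ 2 : ℝ) : ℂ) := by
  have hc : Continuous fun x : ℝ => ((1 - |x| : ℝ) : ℂ) * Complex.exp (2 * π * I * x * u) := by
    fun_prop
  rw [← intervalIntegral.integral_add_adjacent_intervals (hc.intervalIntegrable (-1) 0)
    (hc.intervalIntegrable 0 1)]
  have h1 : ∫ x in (-1 : ℝ)..0, ((1 - |x| : ℝ) : ℂ) * Complex.exp (2 * π * I * x * u) =
      ∫ x in (0 : ℝ)..1, ((1 - |x| : ℝ) : ℂ) * Complex.exp (-(2 * π * I * x * u)) := by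
    have := intervalIntegral.integral_comp_neg (a := (0 : ℝ)) (b := 1)
      (fun x : ℝ => ((1 - |x| : ℝ) : ℂ) * Complex.exp (2 * π * I * x * u))
    simp only [neg_zero] at this
    rw [← this]
    refine intervalIntegral.integral_congr fun x _ => ?_
    simp only [abs_neg]
    congr 2
    push_cast
    ring
  rw [h1, ← intervalIntegral.integral_add
    (Continuous.intervalIntegrable (by fun_prop) _ _) (hc.intervalIntegrable 0 1)]
  have h2 : ∀ x ∈ uIcc (0 : ℝ) 1,
      ((1 - |x| : ℝ) : ℂ) * Complex.exp (-(2 * π * I * x * u)) +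
        ((1 - |x| : ℝ) : ℂ) * Complex.exp (2 * π * I * x * u) =
      ((2 * ((1 - x) * Real.cos (2 * π * u * x)) : ℝ) : ℂ) := by
    intro x hx
    rw [uIcc_of_le zero_le_one] at hx
    rw [abs_of_nonneg hx.1]
    push_cast
    rw [Complex.cos]
    have e1 : 2 * π * I * x * u = 2 * π * u * x * I := by ring
    have e2 : -(2 * π * I * x * u) = -(2 * π * u * x) * I := by ring
    rw [e1, show -(2 * (π : ℂ) * u * x * I) = -(2 * π * u * x) * I by ring]
    ring
  rw [intervalIntegral.integral_congr h2, intervalIntegral.integral_ofReal,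
    intervalIntegral.integral_const_mul, four_sinc]
  congr 1
  ring

lemma four_integrable {η : ℝ → ℂ} {δ : ℝ} (hη : Bump δ η) : Integrable η := by
  have hc : HasCompactSupport η := by
    refine HasCompactSupport.intro (isCompact_Icc (a := -δ) (b := δ)) ?_
    intro x hx
    apply hη.supp
    by_contra h
    exact hx (abs_le.1 (not_lt.1 h))
  exact hη.smooth.continuous.integrable_of_hasCompactSupport hc

lemma four_gs_exp {η : ℝ → ℂ} {δ : ℝ} (hδ : 0 ≤ δ) (hη : Bump δ η) (v : ℝ) :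
    ∫ t : ℝ, gs η (t : ℂ) * Complex.exp (2 * π * I * v * t) = η (-v) := by
  have h := integral_gs_exp hδ hη 0 (-v)
  simp only [ofReal_zero, zero_mul, add_zero, mul_zero, Real.exp_zero, ofReal_one, mul_one,
    neg_zero] at h
  rw [← h]
  refine integral_congr_ae (Eventually.of_forall fun t => ?_)
  simp only
  congr 2
  push_cast
  ring

lemma four_integrable_gs {η : ℝ → ℂ} {δ : ℝ} (hδ : 0 ≤ δ) (hη : Bump δ η) :
    Integrable fun t : ℝ => gs η (t : ℂ) := by
  simpa using integrable_gs hδ hη 0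

/-- The sine-kernel side. -/
theorem integral_gs_sine {η : ℝ → ℂ} {δ : ℝ} (hδ : 0 ≤ δ) (hδ1 : δ ≤ 1) (hη : Bump δ η) :
    ∫ u : ℝ, gs η (u : ℂ) * ((1 - Real.sinc (π * u) ^ 2 : ℝ) : ℂ) =
      η 0 + (∫ x : ℝ, ((|x| : ℝ) : ℂ) * η x) - ∫ x : ℝ, η x := by
  have hg := four_integrable_gs hδ hη
  have hgc : Continuous fun t : ℝ => gs η (t : ℂ) :=
    (continuous_gs hδ hη).comp continuous_ofReal
  have hsc : Continuous fun u : ℝ => ((Real.sinc (π * u) ^ 2 : ℝ) : ℂ) := by
    have := Real.continuous_sinc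
    fun_prop
  have hgs : Integrable fun u : ℝ => gs η (u : ℂ) * ((Real.sinc (π * u) ^ 2 : ℝ) : ℂ) := by
    refine hg.norm.mono' (hgc.mul hsc).aestronglyMeasurable (Eventually.of_forall fun u => ?_)
    rw [norm_mul, norm_real, Real.norm_eq_abs, abs_of_nonneg (sq_nonneg _)]
    have h1 : Real.sinc (π * u) ^ 2 ≤ 1 := by
      have := Real.abs_sinc_le_one (π * u)
      rw [← sq_abs]
      exact pow_le_one₀ (abs_nonneg _) this
    exact mul_le_of_le_one_right (norm_nonneg _) h1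
  have hsplit : ∫ u : ℝ, gs η (u : ℂ) * ((1 - Real.sinc (π * u) ^ 2 : ℝ) : ℂ) =
      (∫ u : ℝ, gs η (u : ℂ)) - ∫ u : ℝ, gs η (u : ℂ) * ((Real.sinc (π * u) ^ 2 : ℝ) : ℂ) := by
    rw [← integral_sub hg hgs]
    refine integral_congr_ae (Eventually.of_forall fun u => ?_)
    simp only
    push_cast
    ring
  have h0 : ∫ u : ℝ, gs η (u : ℂ) = η 0 := by
    have := four_gs_exp hδ hη 0
    simpa using this
  -- the sinc part
  have h1 : ∫ u : ℝ, gs η (u : ℂ) * ((Real.sinc (π * u) ^ 2 : ℝ) : ℂ) =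
      ∫ x in (-1 : ℝ)..1, ((1 - |x| : ℝ) : ℂ) * η (-x) := by
    have e1 : ∀ u : ℝ, gs η (u : ℂ) * ((Real.sinc (π * u) ^ 2 : ℝ) : ℂ) =
        ∫ x in Ioc (-1 : ℝ) 1,
          gs η (u : ℂ) * (((1 - |x| : ℝ) : ℂ) * Complex.exp (2 * π * I * x * u)) := by
      intro u
      rw [integral_const_mul, ← intervalIntegral.integral_of_le (by norm_num : (-1 : ℝ) ≤ 1),
        four_tri_exp]
    simp only [e1]
    rw [integral_integral_swap]
    · rw [intervalIntegral.integral_of_le (by norm_num : (-1 : ℝ) ≤ 1)]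
      refine integral_congr_ae (Eventually.of_forall fun x => ?_)
      simp only
      rw [← four_gs_exp hδ hη x, ← integral_const_mul]
      refine integral_congr_ae (Eventually.of_forall fun u => ?_)
      simp only
      ring
    · have hdom : Integrable (fun z : ℝ × ℝ => ‖gs η (z.1 : ℂ)‖ * (1 : ℝ))
          (volume.prod (volume.restrict (Ioc (-1 : ℝ) 1))) :=
        Integrable.mul_prod hg.norm (integrable_const 1)
      have hcont : Continuous (Function.uncurry fun (u x : ℝ) =>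
          gs η (u : ℂ) * (((1 - |x| : ℝ) : ℂ) * Complex.exp (2 * π * I * x * u))) := by
        have : Continuous fun z : ℝ × ℝ => gs η (z.1 : ℂ) := hgc.comp continuous_fst
        simp only [Function.uncurry_def]
        fun_prop
      refine hdom.mono' hcont.aestronglyMeasurable ?_
      have hae : ∀ᵐ z : ℝ × ℝ ∂(volume.prod (volume.restrict (Ioc (-1 : ℝ) 1))),
          z.2 ∈ Ioc (-1 : ℝ) 1 := by
        have h := ae_restrict_mem (μ := (volume : Measure ℝ)) (measurableSet_Ioc (a := (-1 : ℝ)) (b := 1))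
        exact Measure.quasiMeasurePreserving_snd.ae h
      filter_upwards [hae] with z hz
      simp only [Function.uncurry_def, norm_mul, mul_one]
      have h3 : ‖Complex.exp (2 * π * I * z.2 * z.1)‖ = 1 := by
        rw [show 2 * (π : ℂ) * I * z.2 * z.1 = ((2 * π * z.2 * z.1 : ℝ) : ℂ) * I by
          push_cast; ring]
        exact norm_exp_ofReal_mul_I _
      rw [h3, mul_one, norm_real, Real.norm_eq_abs]
      have h4 : |(1 - |z.2|)| ≤ 1 := by
        have h5 : |z.2| ≤ 1 := abs_le.2 ⟨hz.1.le, hz.2⟩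
        rw [abs_le]
        constructor
        · linarith
        · linarith [abs_nonneg z.2]
      exact mul_le_of_le_one_right (norm_nonneg _) h4
  have h2 : ∫ x in (-1 : ℝ)..1, ((1 - |x| : ℝ) : ℂ) * η (-x) =
      ∫ x in (-1 : ℝ)..1, ((1 - |x| : ℝ) : ℂ) * η x := by
    have := intervalIntegral.integral_comp_neg (a := (-1 : ℝ)) (b := 1)
      (fun x : ℝ => ((1 - |x| : ℝ) : ℂ) * η x)
    simp only [neg_neg, abs_neg] at this
    exact this
  have h3 : ∫ x in (-1 : ℝ)..1, ((1 - |x| : ℝ) : ℂ) * η x =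
      ∫ x : ℝ, ((1 - |x| : ℝ) : ℂ) * η x := by
    apply intervalIntegral.integral_eq_integral_of_support_subset
    intro x hx
    rw [Function.mem_support] at hx
    have hx1 : |x| < 1 := by
      by_contra h
      rw [not_lt] at h
      apply hx
      rcases h.eq_or_lt with h | h
      · rw [← h]; simp
      · rw [hη.supp x (lt_of_le_of_lt hδ1 h), mul_zero]
    exact ⟨(abs_lt.1 hx1).1, (abs_lt.1 hx1).2.le⟩
  have hη1 : Integrable η := four_integrable hη
  have hη2 : Integrable fun x : ℝ => ((|x| : ℝ) : ℂ) * η x := by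
    refine (hη1.norm.const_mul δ).mono'
      ((by fun_prop : Continuous fun x : ℝ => ((|x| : ℝ) : ℂ)).mul
        hη.smooth.continuous).aestronglyMeasurable (Eventually.of_forall fun x => ?_)
    rw [norm_mul, norm_real, Real.norm_eq_abs, abs_abs]
    by_cases hx : |x| ≤ δ
    · exact mul_le_mul_of_nonneg_right hx (norm_nonneg _)
    · rw [hη.supp x (not_le.1 hx)]; simp
  have h4 : ∫ x : ℝ, ((1 - |x| : ℝ) : ℂ) * η x =
      (∫ x : ℝ, η x) - ∫ x : ℝ, ((|x| : ℝ) : ℂ) * η x := by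
    rw [← integral_sub hη1 hη2]
    refine integral_congr_ae (Eventually.of_forall fun x => ?_)
    simp only
    push_cast
    ring
  rw [hsplit, h0, h1, h2, h3, h4]
  ring

theorem gs_zero (η : ℝ → ℂ) : gs η 0 = ∫ x : ℝ, η x := by
  simp [gs]

/-- The product formula without the change of variables. -/
lemma four_product {η₁ η₂ : ℝ → ℂ} {δ₁ δ₂ : ℝ} (hδ₂ : 0 ≤ δ₂)
    (h₁ : Bump δ₁ η₁) (h₂ : Bump δ₂ η₂) (c : ℝ) :
    ∫ s : ℝ, gs η₁ ((c + s : ℝ) : ℂ) * gs η₂ (s : ℂ) =
      gs (fun ξ => η₁ ξ * η₂ (-ξ)) (c : ℂ) := by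
  have hg := four_integrable_gs hδ₂ h₂
  have hgc : Continuous fun t : ℝ => gs η₂ (t : ℂ) :=
    (continuous_gs hδ₂ h₂).comp continuous_ofReal
  have hη1 : Integrable η₁ := four_integrable h₁
  have e1 : ∀ s : ℝ, gs η₁ ((c + s : ℝ) : ℂ) * gs η₂ (s : ℂ) =
      ∫ v : ℝ, η₁ v * Complex.exp (2 * π * I * v * ((c + s : ℝ) : ℂ)) * gs η₂ (s : ℂ) := by
    intro s
    rw [integral_mul_const]
    rfl
  simp only [e1]
  rw [integral_integral_swap]
  · change _ = ∫ v : ℝ, (η₁ v * η₂ (-v)) * Complex.exp (2 * π * I * v * (c : ℂ))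
    refine integral_congr_ae (Eventually.of_forall fun v => ?_)
    simp only
    have e2 : ∀ s : ℝ, η₁ v * Complex.exp (2 * π * I * v * ((c + s : ℝ) : ℂ)) * gs η₂ (s : ℂ) =
        (η₁ v * Complex.exp (2 * π * I * v * (c : ℂ))) *
          (gs η₂ (s : ℂ) * Complex.exp (2 * π * I * v * s)) := by
      intro s
      have : Complex.exp (2 * π * I * v * ((c + s : ℝ) : ℂ)) =
          Complex.exp (2 * π * I * v * s) * Complex.exp (2 * π * I * v * c) := by
        rw [← Complex.exp_add]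
        congr 1
        push_cast
        ring
      rw [this]
      ring
    simp only [e2]
    rw [integral_const_mul, four_gs_exp hδ₂ h₂ v]
    ring
  · have hdom : Integrable (fun z : ℝ × ℝ => ‖gs η₂ (z.1 : ℂ)‖ * ‖η₁ z.2‖)
        (volume.prod volume) := Integrable.mul_prod hg.norm hη1.norm
    have hcont : Continuous (Function.uncurry fun (s v : ℝ) =>
        η₁ v * Complex.exp (2 * π * I * v * ((c + s : ℝ) : ℂ)) * gs η₂ (s : ℂ)) := by
      have hA : Continuous fun z : ℝ × ℝ => gs η₂ (z.1 : ℂ) := hgc.comp continuous_fst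
      have hB : Continuous fun z : ℝ × ℝ => η₁ z.2 := h₁.smooth.continuous.comp continuous_snd
      simp only [Function.uncurry_def]
      exact (hB.mul (by fun_prop)).mul hA
    refine hdom.mono' hcont.aestronglyMeasurable (Eventually.of_forall fun z => ?_)
    simp only [Function.uncurry_def, norm_mul]
    have h3 : ‖Complex.exp (2 * π * I * z.2 * ((c + z.1 : ℝ) : ℂ))‖ = 1 := by
      rw [show 2 * (π : ℂ) * I * z.2 * ((c + z.1 : ℝ) : ℂ) =
        ((2 * π * z.2 * (c + z.1) : ℝ) : ℂ) * I by push_cast; ring]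
      exact norm_exp_ofReal_mul_I _
    rw [h3, mul_one, mul_comm]

/-- The product formula. -/
theorem integral_gs_mul_gs {η₁ η₂ : ℝ → ℂ} {δ₁ δ₂ : ℝ} (hδ₁ : 0 ≤ δ₁) (hδ₂ : 0 ≤ δ₂)
    (h₁ : Bump δ₁ η₁) (h₂ : Bump δ₂ η₂) {L : ℝ} (hL : 0 < L) (a b : ℝ) :
    ∫ t : ℝ, gs η₁ (((a - t) * L / (2 * π) : ℝ) : ℂ) * gs η₂ (((b - t) * L / (2 * π) : ℝ) : ℂ) =
      ((2 * π / L : ℝ) : ℂ) * gs (fun ξ => η₁ ξ * η₂ (-ξ)) (((a - b) * L / (2 * π) : ℝ) : ℂ) := by
  set F : ℝ → ℂ := fun s => gs η₁ (((a - b) * L / (2 * π) + s : ℝ) : ℂ) * gs η₂ (s : ℂ) with hF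
  have hLp : L / (2 * π) ≠ 0 := (div_pos hL (by positivity)).ne'
  have e : ∀ t : ℝ, gs η₁ (((a - t) * L / (2 * π) : ℝ) : ℂ) *
      gs η₂ (((b - t) * L / (2 * π) : ℝ) : ℂ) = F ((b - t) * (L / (2 * π))) := by
    intro t
    simp only [hF]
    congr 2
    · push_cast; ring
    · push_cast; ring
  simp only [e]
  have h1 : ∫ t : ℝ, F ((b - t) * (L / (2 * π))) = ∫ t : ℝ, F (t * (L / (2 * π))) :=
    integral_sub_left_eq_self (fun t => F (t * (L / (2 * π)))) volume b
  rw [h1, Measure.integral_comp_mul_right, ← four_product hδ₂ h₁ h₂, inv_div,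
    abs_of_pos (by positivity), Complex.real_smul]

theorem exists_cutoff {δ δ' : ℝ} (hδ : 0 ≤ δ) (h : δ < δ') :
    ∃ η : ℝ → ℂ, Bump δ' η ∧ ∀ v : ℝ, |v| ≤ δ → η v = 1 := by
  let f : ContDiffBump (0 : ℝ) := ⟨(δ + δ') / 2, δ', by linarith, by linarith⟩
  refine ⟨fun v => ((f v : ℝ) : ℂ), ⟨?_, ?_⟩, ?_⟩
  · exact ofRealCLM.contDiff.comp f.contDiff
  · intro v hv
    have : f v = 0 := f.zero_of_le_dist (by rw [Real.dist_eq, sub_zero]; exact hv.le)
    simp [this]
  · intro v hv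
    have : f v = 1 := by
      apply f.one_of_mem_closedBall
      rw [Metric.mem_closedBall, Real.dist_eq, sub_zero]
      show |v| ≤ (δ + δ') / 2
      linarith
    simp [this]

end Pool.Agent.MP_67227b_nt.Mo
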