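import Pool.Agent.MP_67227b_nt.Mo.Zeros
import Pool.Agent.MP_67227b_nt.Mo.Four

set_option autoImplicit false

open Filter Topology Set MeasureTheory Complex
open scoped Real ContDiff ArithmeticFunction

namespace Pool.Agent.MP_67227b_nt.Mo

open Pool.Agent.Lib.ZetaCount_helper33 Pool.Agent.MP_67227b_nt

namespace ED92

/-! ### Weights -/

/-- The full weight. -/
noncomputable def wZ (t : ℝ) : ℝ := ∑' u : Zer, mu u / (1 + (t - ord u) ^ 2)

/-- The truncated weight. -/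
noncomputable def wT (T t : ℝ) : ℝ :=
  ∑ j ∈ PT goodFamily_zeta T, (1 + (t - zetaOrdinate j) ^ 2)⁻¹

/-- The truncated linear statistic. -/
noncomputable def SZT (L T : ℝ) (η : ℝ → ℂ) (t : ℝ) : ℂ :=
  ∑ j ∈ PT goodFamily_zeta T, gs η (((zetaOrdinate j - t) * L / (2 * π) : ℝ) : ℂ)

theorem mu_nonneg (u : Zer) : 0 ≤ mu u := Nat.cast_nonneg _

theorem mu_div_nonneg (t : ℝ) (u : Zer) : 0 ≤ mu u / (1 + (t - ord u) ^ 2) :=
  div_nonneg (mu_nonneg u) (by positivity)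

theorem ord_pos_idx (j : ZetaZeroIdx) : 0 < zetaOrdinate j := goodFamily_zeta.pos j

theorem ord_le_idx {T : ℝ} {j : ZetaZeroIdx} (hj : j ∈ PT goodFamily_zeta T) :
    zetaOrdinate j ≤ T := (mem_PT _ _ _).1 hj

theorem wT_nonneg (T t : ℝ) : 0 ≤ wT T t := Finset.sum_nonneg fun _ _ => by positivity

theorem wZ_nonneg (t : ℝ) : 0 ≤ wZ t := tsum_nonneg (mu_div_nonneg t)

theorem wT_le_wZ (hRH : RiemannHypothesis) (T t : ℝ) : wT T t ≤ wZ t := by
  unfold wT wZ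
  rw [sum_PT_eq_real T (fun g => (1 + (t - g) ^ 2)⁻¹)]
  have hle : ∀ u : Zer, mu u * (if 0 < ord u ∧ ord u ≤ T then (1 + (t - ord u) ^ 2)⁻¹ else 0) ≤
      mu u / (1 + (t - ord u) ^ 2) := by
    intro u
    split_ifs with h
    · rw [div_eq_mul_inv]
    · rw [mul_zero]; exact mu_div_nonneg t u
  have hnn : ∀ u : Zer, 0 ≤
      mu u * (if 0 < ord u ∧ ord u ≤ T then (1 + (t - ord u) ^ 2)⁻¹ else 0) := by
    intro u
    apply mul_nonneg (mu_nonneg u)
    split_ifs <;> positivity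
  exact Summable.tsum_le_tsum hle (Summable.of_nonneg_of_le hnn hle (summable_zer hRH t))
    (summable_zer hRH t)

theorem exists_wZ (hRH : RiemannHypothesis) : ∃ C : ℝ, 0 < C ∧ ∀ T t : ℝ, 0 ≤ t → t ≤ T →
    wZ t ≤ C * Real.log (T + 3) := by
  obtain ⟨C, hC, h⟩ := exists_density hRH
  refine ⟨C, hC, fun T t ht htT => (h t).trans ?_⟩
  rw [abs_of_nonneg ht]
  exact mul_le_mul_of_nonneg_left (Real.log_le_log (by linarith) (by linarith)) hC.le

theorem exists_wT (hRH : RiemannHypothesis) : ∃ C : ℝ, 0 < C ∧ ∀ T t : ℝ, 0 ≤ T →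
    wT T t ≤ C * Real.log (T + 3) := by
  obtain ⟨C, hC, h⟩ := exists_wZ hRH
  refine ⟨C, hC, fun T t hT => ?_⟩
  rcases lt_or_ge t 0 with ht | ht
  · refine le_trans ?_ ((wT_le_wZ hRH T 0).trans (h T 0 le_rfl hT))
    refine Finset.sum_le_sum fun j hj => ?_
    have h1 := ord_pos_idx j
    apply inv_anti₀ (by positivity)
    nlinarith
  rcases le_or_gt t T with htT | htT
  · exact (wT_le_wZ hRH T t).trans (h T t ht htT)
  · refine le_trans ?_ ((wT_le_wZ hRH T T).trans (h T T hT le_rfl))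
    refine Finset.sum_le_sum fun j hj => ?_
    have h1 := ord_le_idx hj
    apply inv_anti₀ (by positivity)
    nlinarith

theorem integrable_wterm (g : ℝ) : Integrable fun t : ℝ => (1 + (t - g) ^ 2)⁻¹ :=
  integrable_inv_one_add_sq.comp_sub_right g

theorem integrable_wT (T : ℝ) : Integrable (wT T) := by
  unfold wT
  exact integrable_finsetSum _ fun j _ => integrable_wterm _

theorem integral_wT (T : ℝ) : ∫ t, wT T t = π * (PT goodFamily_zeta T).card := by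
  unfold wT
  rw [integral_finsetSum _ fun j _ => integrable_wterm _]
  have : ∀ j : ZetaZeroIdx, ∫ t : ℝ, (1 + (t - zetaOrdinate j) ^ 2)⁻¹ = π := by
    intro j
    rw [integral_sub_right_eq_self (fun t : ℝ => (1 + t ^ 2)⁻¹) (zetaOrdinate j)]
    exact integral_univ_inv_one_add_sq
  simp only [this, Finset.sum_const, nsmul_eq_mul]
  ring

/-! ### Bounds for the terms -/

/-- The decay bound used below. -/
def DB (C : ℝ) (η : ℝ → ℂ) : Prop := ∀ x : ℝ, ‖gs η (x : ℂ)‖ ≤ C / (1 + x ^ 2) ^ 2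

theorem term2 {C L : ℝ} {η : ℝ → ℂ} (hC : 0 < C) (h : DB C η) (hL : 2 * π ≤ L) (g t : ℝ) :
    ‖gs η (((g - t) * L / (2 * π) : ℝ) : ℂ)‖ ≤ C / (1 + (t - g) ^ 2) ^ 2 := by
  refine (h _).trans ?_
  have hpi := Real.pi_pos
  have h1 : (t - g) ^ 2 ≤ ((g - t) * L / (2 * π)) ^ 2 := by
    have h2 : 1 ≤ L / (2 * π) := by
      rw [le_div_iff₀ (by positivity)]; linarith
    have h3 : (g - t) * L / (2 * π) = (g - t) * (L / (2 * π)) := by ring
    rw [h3, mul_pow]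
    have h4 : 1 ≤ (L / (2 * π)) ^ 2 := one_le_pow₀ h2
    nlinarith [sq_nonneg (g - t)]
  gcongr

theorem term1 {C L : ℝ} {η : ℝ → ℂ} (hC : 0 < C) (h : DB C η) (hL : 2 * π ≤ L) (g t : ℝ) :
    ‖gs η (((g - t) * L / (2 * π) : ℝ) : ℂ)‖ ≤ C * (1 + (t - g) ^ 2)⁻¹ := by
  refine (term2 hC h hL g t).trans ?_
  rw [← div_eq_mul_inv]
  have h1 : 0 ≤ (t - g) ^ 2 := sq_nonneg _
  apply div_le_div_of_nonneg_left hC.le (by positivity)
  nlinarith

theorem term_far {C L A : ℝ} {η : ℝ → ℂ} (hC : 0 < C) (h : DB C η) (hL : 2 * π ≤ L)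
    (hA : 0 < A) (g t : ℝ) (hgt : A ≤ |t - g|) :
    ‖gs η (((g - t) * L / (2 * π) : ℝ) : ℂ)‖ ≤ C / A ^ 2 * (1 + (t - g) ^ 2)⁻¹ := by
  refine (term2 hC h hL g t).trans ?_
  have h1 : A ^ 2 ≤ (t - g) ^ 2 := by
    rw [← sq_abs (t - g)]
    exact pow_le_pow_left₀ hA.le hgt 2
  rw [← div_eq_mul_inv, div_div]
  apply div_le_div_of_nonneg_left hC.le (by positivity)
  rw [sq (1 + (t - g) ^ 2)]
  apply mul_le_mul_of_nonneg_right _ (by positivity)
  linarith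

theorem norm_SZT_le {C L : ℝ} {η : ℝ → ℂ} (hC : 0 < C) (h : DB C η) (hL : 2 * π ≤ L) (T t : ℝ) :
    ‖SZT L T η t‖ ≤ C * wT T t := by
  unfold SZT wT
  refine (norm_sum_le _ _).trans ?_
  rw [Finset.mul_sum]
  exact Finset.sum_le_sum fun j _ => term1 hC h hL _ _

theorem norm_SZT_far {C L A : ℝ} {η : ℝ → ℂ} (hC : 0 < C) (h : DB C η) (hL : 2 * π ≤ L)
    (hA : 0 < A) (T t : ℝ) (ht : ∀ j ∈ PT goodFamily_zeta T, A ≤ |t - zetaOrdinate j|) :
    ‖SZT L T η t‖ ≤ C / A ^ 2 * wT T t := by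
  unfold SZT wT
  refine (norm_sum_le _ _).trans ?_
  rw [Finset.mul_sum]
  exact Finset.sum_le_sum fun j hj => term_far hC h hL hA _ _ (ht j hj)

theorem norm_mu_mul (u : Zer) (z : ℂ) : ‖(mu u : ℂ) * z‖ = mu u * ‖z‖ := by
  rw [norm_mul, Complex.norm_real, Real.norm_of_nonneg (mu_nonneg u)]

theorem mu_term1 {C L : ℝ} {η : ℝ → ℂ} (hC : 0 < C) (h : DB C η) (hL : 2 * π ≤ L) (t : ℝ)
    (u : Zer) : ‖(mu u : ℂ) * gs η (((ord u - t) * L / (2 * π) : ℝ) : ℂ)‖ ≤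
      C * (mu u / (1 + (t - ord u) ^ 2)) := by
  rw [norm_mu_mul]
  calc mu u * ‖gs η (((ord u - t) * L / (2 * π) : ℝ) : ℂ)‖
      ≤ mu u * (C * (1 + (t - ord u) ^ 2)⁻¹) :=
        mul_le_mul_of_nonneg_left (term1 hC h hL _ _) (mu_nonneg u)
    _ = C * (mu u / (1 + (t - ord u) ^ 2)) := by rw [div_eq_mul_inv]; ring

theorem summable_SZ (hRH : RiemannHypothesis) {C L : ℝ} {η : ℝ → ℂ} (hC : 0 < C) (h : DB C η)
    (hL : 2 * π ≤ L) (t : ℝ) :
    Summable fun u : Zer => (mu u : ℂ) * gs η (((ord u - t) * L / (2 * π) : ℝ) : ℂ) :=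
  Summable.of_norm_bounded ((summable_zer hRH t).mul_left C) fun u => mu_term1 hC h hL t u

theorem norm_SZ_le (hRH : RiemannHypothesis) {C L : ℝ} {η : ℝ → ℂ} (hC : 0 < C) (h : DB C η)
    (hL : 2 * π ≤ L) (t : ℝ) : ‖SZ L η t‖ ≤ C * wZ t := by
  unfold SZ wZ
  rw [← tsum_mul_left]
  exact tsum_of_norm_bounded ((summable_zer hRH t).mul_left C).hasSum
    fun u => mu_term1 hC h hL t u

theorem norm_SZ_sub_SZT (hRH : RiemannHypothesis) {C L A T t : ℝ} {η : ℝ → ℂ} (hC : 0 < C)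
    (h : DB C η) (hL : 2 * π ≤ L) (hA : 0 < A) (h1 : A ≤ t) (h2 : t ≤ T - A) :
    ‖SZ L η t - SZT L T η t‖ ≤ C / A ^ 2 * wZ t := by
  have hSZT : SZT L T η t = ∑' u : Zer, (mu u : ℂ) * (if 0 < ord u ∧ ord u ≤ T then
      gs η (((ord u - t) * L / (2 * π) : ℝ) : ℂ) else 0) :=
    sum_PT_eq T (fun g => gs η (((g - t) * L / (2 * π) : ℝ) : ℂ))
  have hs1 := summable_SZ hRH hC h hL t
  have hs2 : Summable fun u : Zer => (mu u : ℂ) * (if 0 < ord u ∧ ord u ≤ T then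
      gs η (((ord u - t) * L / (2 * π) : ℝ) : ℂ) else 0) := by
    refine Summable.of_norm_bounded ((summable_zer hRH t).mul_left C) fun u => ?_
    split_ifs with hu
    · exact mu_term1 hC h hL t u
    · rw [mul_zero, norm_zero]
      exact mul_nonneg hC.le (mu_div_nonneg t u)
  rw [hSZT, SZ, ← hs1.tsum_sub hs2]
  unfold wZ
  rw [← tsum_mul_left]
  refine tsum_of_norm_bounded ((summable_zer hRH t).mul_left _).hasSum fun u => ?_
  rw [← mul_sub, norm_mu_mul]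
  split_ifs with hu
  · rw [sub_self, norm_zero, mul_zero]
    exact mul_nonneg (by positivity) (mu_div_nonneg t u)
  · rw [sub_zero]
    have hfar : A ≤ |t - ord u| := by
      rcases le_or_gt (ord u) 0 with h0 | h0
      · exact le_trans (by linarith) (le_abs_self _)
      · have h3 : T < ord u := by
          by_contra hcon
          exact hu ⟨h0, not_lt.1 hcon⟩
        rw [abs_sub_comm]
        exact le_trans (by linarith) (le_abs_self _)
    calc mu u * ‖gs η (((ord u - t) * L / (2 * π) : ℝ) : ℂ)‖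
        ≤ mu u * (C / A ^ 2 * (1 + (t - ord u) ^ 2)⁻¹) :=
          mul_le_mul_of_nonneg_left (term_far hC h hL hA _ _ hfar) (mu_nonneg u)
      _ = C / A ^ 2 * (mu u / (1 + (t - ord u) ^ 2)) := by
          rw [div_eq_mul_inv (mu u)]; ring

theorem continuous_term {η : ℝ → ℂ} (hg : Continuous (gs η)) (L g : ℝ) :
    Continuous fun t : ℝ => gs η (((g - t) * L / (2 * π) : ℝ) : ℂ) := by
  apply hg.comp
  fun_prop

theorem continuous_SZT {η : ℝ → ℂ} (hg : Continuous (gs η)) (L T : ℝ) :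
    Continuous (SZT L T η) := by
  unfold SZT
  exact continuous_finsetSum _ fun j _ => continuous_term hg L _

theorem continuous_SZ (hRH : RiemannHypothesis) {C L : ℝ} {η : ℝ → ℂ} (hC : 0 < C) (h : DB C η)
    (hL : 2 * π ≤ L) (hg : Continuous (gs η)) : Continuous (SZ L η) := by
  rw [continuous_iff_continuousAt]
  intro t₀
  have hcont : ContinuousOn (SZ L η) (Icc (t₀ - 1) (t₀ + 1)) := by
    unfold SZ
    refine continuousOn_tsum (u := fun u : Zer => 3 * C * (mu u / (1 + (t₀ - ord u) ^ 2)))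
      (fun u => (continuous_const.mul (continuous_term hg L _)).continuousOn)
      ((summable_zer hRH t₀).mul_left _) ?_
    intro u t ht
    refine (mu_term1 hC h hL t u).trans ?_
    have h1 : mu u / (1 + (t - ord u) ^ 2) ≤ 3 * (mu u / (1 + (t₀ - ord u) ^ 2)) := by
      rw [mul_div_assoc', div_le_div_iff₀ (by positivity) (by positivity)]
      have h2 : (t₀ - t) ^ 2 ≤ 1 := by
        have := ht.1
        have := ht.2
        nlinarith
      have h3 : 1 + (t₀ - ord u) ^ 2 ≤ 3 * (1 + (t - ord u) ^ 2) := by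
        nlinarith [sq_nonneg (t₀ - t - (t - ord u))]
      calc mu u * (1 + (t₀ - ord u) ^ 2) ≤ mu u * (3 * (1 + (t - ord u) ^ 2)) :=
            mul_le_mul_of_nonneg_left h3 (mu_nonneg u)
        _ = 3 * mu u * (1 + (t - ord u) ^ 2) := by ring
    calc C * (mu u / (1 + (t - ord u) ^ 2)) ≤ C * (3 * (mu u / (1 + (t₀ - ord u) ^ 2))) :=
          mul_le_mul_of_nonneg_left h1 hC.le
      _ = 3 * C * (mu u / (1 + (t₀ - ord u) ^ 2)) := by ring
  exact hcont.continuousAt (Icc_mem_nhds (by linarith) (by linarith))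

/-! ### The integral over the line -/

theorem integrable_prod_term {C₁ C₂ L : ℝ} {η₁ η₂ : ℝ → ℂ} (hC₁ : 0 < C₁) (hC₂ : 0 < C₂)
    (h₁ : DB C₁ η₁) (h₂ : DB C₂ η₂) (hg₁ : Continuous (gs η₁)) (hg₂ : Continuous (gs η₂))
    (hL : 2 * π ≤ L) (a b : ℝ) :
    Integrable fun t : ℝ => gs η₁ (((a - t) * L / (2 * π) : ℝ) : ℂ) *
      gs η₂ (((b - t) * L / (2 * π) : ℝ) : ℂ) := by
  refine Integrable.mono' ((integrable_wterm a).const_mul (C₁ * C₂))
    ((continuous_term hg₁ L a).mul (continuous_term hg₂ L b)).aestronglyMeasurable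
    (ae_of_all _ fun t => ?_)
  rw [norm_mul]
  have e1 := term1 hC₁ h₁ hL a t
  have e2 : ‖gs η₂ (((b - t) * L / (2 * π) : ℝ) : ℂ)‖ ≤ C₂ := by
    refine (term1 hC₂ h₂ hL b t).trans ?_
    have : (1 + (t - b) ^ 2)⁻¹ ≤ 1 := inv_le_one_of_one_le₀ (by nlinarith [sq_nonneg (t - b)])
    calc C₂ * (1 + (t - b) ^ 2)⁻¹ ≤ C₂ * 1 := mul_le_mul_of_nonneg_left this hC₂.le
      _ = C₂ := mul_one _
  calc ‖gs η₁ (((a - t) * L / (2 * π) : ℝ) : ℂ)‖ * ‖gs η₂ (((b - t) * L / (2 * π) : ℝ) : ℂ)‖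
      ≤ (C₁ * (1 + (t - a) ^ 2)⁻¹) * C₂ :=
        mul_le_mul e1 e2 (norm_nonneg _) (by positivity)
    _ = C₁ * C₂ * (1 + (t - a) ^ 2)⁻¹ := by ring

theorem SZT_mul_SZT (L T : ℝ) (η₁ η₂ : ℝ → ℂ) (t : ℝ) : SZT L T η₁ t * SZT L T η₂ t =
    ∑ i ∈ PT goodFamily_zeta T, ∑ j ∈ PT goodFamily_zeta T,
      gs η₁ (((zetaOrdinate i - t) * L / (2 * π) : ℝ) : ℂ) *
        gs η₂ (((zetaOrdinate j - t) * L / (2 * π) : ℝ) : ℂ) := by
  unfold SZT
  rw [Finset.sum_mul_sum]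

theorem integrable_SZT_mul {C₁ C₂ L : ℝ} {η₁ η₂ : ℝ → ℂ} (hC₁ : 0 < C₁) (hC₂ : 0 < C₂)
    (h₁ : DB C₁ η₁) (h₂ : DB C₂ η₂) (hg₁ : Continuous (gs η₁)) (hg₂ : Continuous (gs η₂))
    (hL : 2 * π ≤ L) (T : ℝ) :
    Integrable fun t : ℝ => SZT L T η₁ t * SZT L T η₂ t := by
  simp only [SZT_mul_SZT]
  exact integrable_finsetSum _ fun i _ => integrable_finsetSum _ fun j _ =>
    integrable_prod_term hC₁ hC₂ h₁ h₂ hg₁ hg₂ hL _ _

theorem integral_SZT_mul {C₁ C₂ L δ₁ δ₂ : ℝ} {η₁ η₂ : ℝ → ℂ} (hC₁ : 0 < C₁) (hC₂ : 0 < C₂)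
    (h₁ : DB C₁ η₁) (h₂ : DB C₂ η₂) (hg₁ : Continuous (gs η₁)) (hg₂ : Continuous (gs η₂))
    (hL : 2 * π ≤ L) (T : ℝ) (hδ₁ : 0 ≤ δ₁) (hδ₂ : 0 ≤ δ₂) (hb₁ : Bump δ₁ η₁) (hb₂ : Bump δ₂ η₂) :
    ∫ t : ℝ, SZT L T η₁ t * SZT L T η₂ t = ((2 * π / L : ℝ) : ℂ) *
      ∑ i ∈ PT goodFamily_zeta T, ∑ j ∈ PT goodFamily_zeta T,
        gs (fun ξ => η₁ ξ * η₂ (-ξ))
          (((zetaOrdinate i - zetaOrdinate j) * L / (2 * π) : ℝ) : ℂ) := by
  have hLpos : 0 < L := lt_of_lt_of_le (by positivity) hL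
  simp only [SZT_mul_SZT]
  rw [integral_finsetSum _ fun i _ => integrable_finsetSum _ fun j _ =>
    integrable_prod_term hC₁ hC₂ h₁ h₂ hg₁ hg₂ hL _ _]
  rw [Finset.mul_sum]
  refine Finset.sum_congr rfl fun i _ => ?_
  rw [integral_finsetSum _ fun j _ =>
    integrable_prod_term hC₁ hC₂ h₁ h₂ hg₁ hg₂ hL _ _, Finset.mul_sum]
  refine Finset.sum_congr rfl fun j _ => ?_
  exact integral_gs_mul_gs hδ₁ hδ₂ hb₁ hb₂ hLpos _ _

/-! ### The main estimate -/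

/-- Inside the main range. -/
theorem main_range (hRH : RiemannHypothesis) {C₁ C₂ D L A T t : ℝ} {η₁ η₂ : ℝ → ℂ} (hC₁ : 0 < C₁)
    (hC₂ : 0 < C₂) (h₁ : DB C₁ η₁) (h₂ : DB C₂ η₂) (hL : 2 * π ≤ L) (hA : 0 < A)
    (ht1 : A ≤ t) (ht2 : t ≤ T - A) (hD : wZ t ≤ D) (hDT : wT T t ≤ D) :
    ‖SZ L η₁ t * SZ L η₂ t - SZT L T η₁ t * SZT L T η₂ t‖ ≤ 2 * C₁ * C₂ * D ^ 2 / A ^ 2 := by
  have e1 := norm_SZ_sub_SZT hRH hC₁ h₁ hL hA ht1 ht2
  have e2 := norm_SZ_sub_SZT hRH hC₂ h₂ hL hA ht1 ht2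
  have e3 := norm_SZ_le hRH hC₂ h₂ hL t
  have e4 := norm_SZT_le hC₁ h₁ hL T t
  have hw := wZ_nonneg t
  have hD0 : 0 ≤ D := hw.trans hD
  have e1' : ‖SZ L η₁ t - SZT L T η₁ t‖ ≤ C₁ / A ^ 2 * D :=
    e1.trans (mul_le_mul_of_nonneg_left hD (by positivity))
  have e2' : ‖SZ L η₂ t - SZT L T η₂ t‖ ≤ C₂ / A ^ 2 * D :=
    e2.trans (mul_le_mul_of_nonneg_left hD (by positivity))
  have e3' : ‖SZ L η₂ t‖ ≤ C₂ * D := e3.trans (mul_le_mul_of_nonneg_left hD hC₂.le)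
  have e4' : ‖SZT L T η₁ t‖ ≤ C₁ * D := e4.trans (mul_le_mul_of_nonneg_left hDT hC₁.le)
  have hid : SZ L η₁ t * SZ L η₂ t - SZT L T η₁ t * SZT L T η₂ t =
      (SZ L η₁ t - SZT L T η₁ t) * SZ L η₂ t + SZT L T η₁ t * (SZ L η₂ t - SZT L T η₂ t) := by ring
  rw [hid]
  refine (norm_add_le _ _).trans ?_
  rw [norm_mul, norm_mul]
  calc ‖SZ L η₁ t - SZT L T η₁ t‖ * ‖SZ L η₂ t‖ + ‖SZT L T η₁ t‖ * ‖SZ L η₂ t - SZT L T η₂ t‖
      ≤ (C₁ / A ^ 2 * D) * (C₂ * D) + (C₁ * D) * (C₂ / A ^ 2 * D) := by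
        apply add_le_add
        · exact mul_le_mul e1' e3' (norm_nonneg _) (by positivity)
        · exact mul_le_mul e4' e2' (norm_nonneg _) (by positivity)
    _ = 2 * C₁ * C₂ * D ^ 2 / A ^ 2 := by
        field_simp
        ring

/-- The majorant outside the main range. -/
noncomputable def Gm (A T K D : ℝ) (t : ℝ) : ℝ :=
  K * D ^ 2 * ((Icc (-A) A).indicator 1 t + (Icc (T - A) (T + A)).indicator 1 t) +
    K * D / A ^ 2 * wT T t

theorem integrable_Gm (A T K D : ℝ) : Integrable (Gm A T K D) := by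
  unfold Gm
  refine Integrable.add (Integrable.const_mul (Integrable.add ?_ ?_) _)
    ((integrable_wT T).const_mul _)
  · exact (integrable_indicator_iff measurableSet_Icc).2 (by
      simp only [Pi.one_def]
      exact integrableOn_const (by simp))
  · exact (integrable_indicator_iff measurableSet_Icc).2 (by
      simp only [Pi.one_def]
      exact integrableOn_const (by simp))

theorem Gm_nonneg {A T K D : ℝ} (hK : 0 ≤ K) (hD : 0 ≤ D) (t : ℝ) : 0 ≤ Gm A T K D t := by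
  unfold Gm
  have h1 : 0 ≤ (Icc (-A) A).indicator (1 : ℝ → ℝ) t :=
    indicator_nonneg (fun _ _ => zero_le_one) t
  have h2 : 0 ≤ (Icc (T - A) (T + A)).indicator (1 : ℝ → ℝ) t :=
    indicator_nonneg (fun _ _ => zero_le_one) t
  have h3 := wT_nonneg T t
  positivity

theorem integral_Gm {A T K D : ℝ} (hA : 0 ≤ A) : ∫ t, Gm A T K D t =
    K * D ^ 2 * (4 * A) + K * D / A ^ 2 * (π * (PT goodFamily_zeta T).card) := by
  have hi1 : Integrable ((Icc (-A) A).indicator (1 : ℝ → ℝ)) :=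
    (integrable_indicator_iff measurableSet_Icc).2 (by
      simp only [Pi.one_def]
      exact integrableOn_const (by simp))
  have hi2 : Integrable ((Icc (T - A) (T + A)).indicator (1 : ℝ → ℝ)) :=
    (integrable_indicator_iff measurableSet_Icc).2 (by
      simp only [Pi.one_def]
      exact integrableOn_const (by simp))
  have hi12 : Integrable fun t : ℝ => (Icc (-A) A).indicator (1 : ℝ → ℝ) t +
      (Icc (T - A) (T + A)).indicator (1 : ℝ → ℝ) t := hi1.add hi2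
  unfold Gm
  rw [integral_add (hi12.const_mul _) ((integrable_wT T).const_mul _),
    integral_const_mul, integral_const_mul, integral_wT]
  have h3 : ∫ t, ((Icc (-A) A).indicator (1 : ℝ → ℝ) t +
      (Icc (T - A) (T + A)).indicator (1 : ℝ → ℝ) t) = 4 * A := by
    rw [integral_add hi1 hi2, integral_indicator_one measurableSet_Icc,
      integral_indicator_one measurableSet_Icc]
    simp only [measureReal_def, Real.volume_Icc]
    rw [ENNReal.toReal_ofReal (by linarith), ENNReal.toReal_ofReal (by linarith)]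
    ring
  rw [h3]

theorem outside {C₁ C₂ D L A T t : ℝ} {η₁ η₂ : ℝ → ℂ} (hC₁ : 0 < C₁)
    (hC₂ : 0 < C₂) (h₁ : DB C₁ η₁) (h₂ : DB C₂ η₂) (hL : 2 * π ≤ L) (hA : 0 < A)
    (ht : t ∉ Ioc A (T - A)) (hDT : wT T t ≤ D) :
    ‖SZT L T η₁ t * SZT L T η₂ t‖ ≤ Gm A T (C₁ * C₂) D t := by
  have e1 := norm_SZT_le hC₁ h₁ hL T t
  have e2 := norm_SZT_le hC₂ h₂ hL T t
  have hw := wT_nonneg T t
  have hD0 : 0 ≤ D := hw.trans hDT
  have hi1 : 0 ≤ (Icc (-A) A).indicator (1 : ℝ → ℝ) t :=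
    indicator_nonneg (fun _ _ => zero_le_one) t
  have hi2 : 0 ≤ (Icc (T - A) (T + A)).indicator (1 : ℝ → ℝ) t :=
    indicator_nonneg (fun _ _ => zero_le_one) t
  rw [norm_mul]
  have e1' : ‖SZT L T η₁ t‖ ≤ C₁ * D := e1.trans (mul_le_mul_of_nonneg_left hDT hC₁.le)
  have e2' : ‖SZT L T η₂ t‖ ≤ C₂ * D := e2.trans (mul_le_mul_of_nonneg_left hDT hC₂.le)
  have hnear : 1 ≤ (Icc (-A) A).indicator (1 : ℝ → ℝ) t +
      (Icc (T - A) (T + A)).indicator (1 : ℝ → ℝ) t →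
      ‖SZT L T η₁ t‖ * ‖SZT L T η₂ t‖ ≤ Gm A T (C₁ * C₂) D t := by
    intro h
    unfold Gm
    calc ‖SZT L T η₁ t‖ * ‖SZT L T η₂ t‖ ≤ (C₁ * D) * (C₂ * D) :=
          mul_le_mul e1' e2' (norm_nonneg _) (by positivity)
      _ = C₁ * C₂ * D ^ 2 * 1 + 0 := by ring
      _ ≤ _ := by
          apply add_le_add
          · exact mul_le_mul_of_nonneg_left h (by positivity)
          · positivity
  by_cases c1 : t ∈ Icc (-A) A
  · apply hnear
    rw [indicator_of_mem c1]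
    simp only [Pi.one_apply]
    linarith
  by_cases c2 : t ∈ Icc (T - A) (T + A)
  · apply hnear
    rw [indicator_of_mem c2]
    simp only [Pi.one_apply]
    linarith
  have hfar : ∀ j ∈ PT goodFamily_zeta T, A ≤ |t - zetaOrdinate j| := by
    intro j hj
    have o1 := ord_pos_idx j
    have o2 := ord_le_idx hj
    have hcase : t < -A ∨ T + A < t := by
      by_contra hcon
      push Not at hcon
      obtain ⟨k1, k2⟩ := hcon
      have k3 : A < t := by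
        by_contra hc
        exact c1 ⟨k1, not_lt.1 hc⟩
      have k4 : t < T - A := by
        by_contra hc
        exact c2 ⟨not_lt.1 hc, k2⟩
      exact ht ⟨k3, k4.le⟩
    rcases hcase with hc | hc
    · rw [abs_sub_comm]
      exact le_trans (by linarith) (le_abs_self _)
    · exact le_trans (by linarith) (le_abs_self _)
  have e3 := norm_SZT_far hC₁ h₁ hL hA T t hfar
  unfold Gm
  calc ‖SZT L T η₁ t‖ * ‖SZT L T η₂ t‖ ≤ (C₁ / A ^ 2 * wT T t) * (C₂ * D) :=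
        mul_le_mul e3 e2' (norm_nonneg _) (by positivity)
    _ = 0 + C₁ * C₂ * D / A ^ 2 * wT T t := by ring
    _ ≤ _ := by
        apply add_le_add
        · positivity
        · exact le_rfl

/-- The error for a fixed height. -/
theorem edge_error (hRH : RiemannHypothesis) {C₁ C₂ D L A T δ₁ δ₂ : ℝ} {η₁ η₂ : ℝ → ℂ}
    (hC₁ : 0 < C₁) (hC₂ : 0 < C₂) (h₁ : DB C₁ η₁) (h₂ : DB C₂ η₂) (hg₁ : Continuous (gs η₁))
    (hg₂ : Continuous (gs η₂)) (hL : 2 * π ≤ L) (hA : 0 < A) (hAT : A ≤ T - A)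
    (hδ₁ : 0 ≤ δ₁) (hδ₂ : 0 ≤ δ₂) (hb₁ : Bump δ₁ η₁) (hb₂ : Bump δ₂ η₂)
    (hD : ∀ t, 0 ≤ t → t ≤ T → wZ t ≤ D) (hDT : ∀ t, wT T t ≤ D) :
    ‖((2 * π / L : ℝ) : ℂ) *
      (∑ i ∈ PT goodFamily_zeta T, ∑ j ∈ PT goodFamily_zeta T,
        gs (fun ξ => η₁ ξ * η₂ (-ξ))
          (((zetaOrdinate i - zetaOrdinate j) * L / (2 * π) : ℝ) : ℂ)) -
      ∫ t in A..(T - A), SZ L η₁ t * SZ L η₂ t‖ ≤
      C₁ * C₂ * D ^ 2 * (4 * A) + C₁ * C₂ * D / A ^ 2 * (π * (PT goodFamily_zeta T).card) +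
        2 * C₁ * C₂ * D ^ 2 / A ^ 2 * T := by
  rw [← integral_SZT_mul hC₁ hC₂ h₁ h₂ hg₁ hg₂ hL T hδ₁ hδ₂ hb₁ hb₂]
  have hint := integrable_SZT_mul hC₁ hC₂ h₁ h₂ hg₁ hg₂ hL T
  have hD0 : 0 ≤ D := (wT_nonneg T 0).trans (hDT 0)
  have hsplit : ∫ t, SZT L T η₁ t * SZT L T η₂ t =
      (∫ t in A..(T - A), SZT L T η₁ t * SZT L T η₂ t) +
        ∫ t in (Ioc A (T - A))ᶜ, SZT L T η₁ t * SZT L T η₂ t := by
    rw [intervalIntegral.integral_of_le hAT]
    exact (integral_add_compl measurableSet_Ioc hint).symm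
  have hcont1 : Continuous fun t => SZ L η₁ t * SZ L η₂ t :=
    (continuous_SZ hRH hC₁ h₁ hL hg₁).mul (continuous_SZ hRH hC₂ h₂ hL hg₂)
  have hcont2 : Continuous fun t => SZT L T η₁ t * SZT L T η₂ t :=
    (continuous_SZT hg₁ L T).mul (continuous_SZT hg₂ L T)
  have hid : (∫ t, SZT L T η₁ t * SZT L T η₂ t) - ∫ t in A..(T - A), SZ L η₁ t * SZ L η₂ t =
      (∫ t in (Ioc A (T - A))ᶜ, SZT L T η₁ t * SZT L T η₂ t) -
        ∫ t in A..(T - A), (SZ L η₁ t * SZ L η₂ t - SZT L T η₁ t * SZT L T η₂ t) := by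
    rw [hsplit, intervalIntegral.integral_sub (hcont1.intervalIntegrable _ _)
      (hcont2.intervalIntegrable _ _)]
    ring
  rw [hid]
  refine (norm_sub_le _ _).trans ?_
  apply add_le_add
  · have hb : ‖∫ t in (Ioc A (T - A))ᶜ, SZT L T η₁ t * SZT L T η₂ t‖ ≤
        ∫ t in (Ioc A (T - A))ᶜ, Gm A T (C₁ * C₂) D t := by
      refine norm_integral_le_of_norm_le (integrable_Gm _ _ _ _).integrableOn ?_
      refine (ae_restrict_iff' measurableSet_Ioc.compl).2 (ae_of_all _ fun t ht => ?_)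
      exact outside hC₁ hC₂ h₁ h₂ hL hA ht (hDT t)
    refine hb.trans ?_
    rw [← integral_Gm hA.le]
    exact setIntegral_le_integral (integrable_Gm _ _ _ _)
      (ae_of_all _ fun t => Gm_nonneg (by positivity) hD0 t)
  · have hb : ‖∫ t in A..(T - A), (SZ L η₁ t * SZ L η₂ t - SZT L T η₁ t * SZT L T η₂ t)‖ ≤
        2 * C₁ * C₂ * D ^ 2 / A ^ 2 * |T - A - A| := by
      apply intervalIntegral.norm_integral_le_of_norm_le_const
      intro t ht
      rw [uIoc_of_le hAT] at ht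
      exact main_range hRH hC₁ hC₂ h₁ h₂ hL hA ht.1.le ht.2
        (hD t (hA.le.trans ht.1.le) (by linarith [ht.2])) (hDT t)
    refine hb.trans ?_
    apply mul_le_mul_of_nonneg_left _ (by positivity)
    rw [abs_of_nonneg (by linarith)]
    linarith

/-! ### Asymptotics -/

theorem tendsto_log_sq_mul_rpow {b : ℝ} (hb : 0 < b) :
    Tendsto (fun T : ℝ => Real.log T ^ 2 * T ^ (-b)) atTop (𝓝 0) := by
  have h := (isLittleO_log_rpow_rpow_atTop 2 hb).tendsto_div_nhds_zero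
  refine h.congr' ?_
  filter_upwards [eventually_gt_atTop 1] with T hT
  rw [Real.rpow_neg (by linarith), ← div_eq_mul_inv]
  congr 1
  exact_mod_cast Real.rpow_natCast (Real.log T) 2

theorem eventually_card : ∀ᶠ T : ℝ in atTop,
    ((PT goodFamily_zeta T).card : ℝ) ≤ T * Real.log T := by
  have h := goodFamily_zeta.count
  have h1 : ∀ᶠ T : ℝ in atTop, ({j | zetaOrdinate j ≤ T}.ncard : ℝ) / zeroScale T < 2 :=
    h.eventually_lt_const (by norm_num)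
  filter_upwards [h1, eventually_gt_atTop 1] with T hT hT1
  rw [card_PT]
  have hz := zeroScale_pos hT1
  rw [div_lt_iff₀ hz] at hT
  refine hT.le.trans ?_
  unfold zeroScale
  have hlog : 0 < Real.log T := Real.log_pos hT1
  have hpi : 1 ≤ π := by linarith [Real.pi_gt_three]
  have h5 : 2 * (T / (2 * π) * Real.log T) = T * Real.log T / π := by
    field_simp
  rw [h5]
  exact div_le_self (by positivity) hpi

end ED92

open ED92 in
/-- The double sum over the zeros up to `T` is the mean of the product of the linear statistics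
over the main range. -/
theorem edge (hRH : RiemannHypothesis) {η₁ η₂ : ℝ → ℂ} {δ₁ δ₂ a : ℝ} (hδ₁ : 0 ≤ δ₁)
    (hδ₂ : 0 ≤ δ₂) (h₁ : Bump δ₁ η₁) (h₂ : Bump δ₂ η₂) (ha : 0 < a) (ha1 : a < 1) :
    Tendsto (fun T : ℝ =>
      (∑ i ∈ PT goodFamily_zeta T, ∑ j ∈ PT goodFamily_zeta T,
        gs (fun ξ => η₁ ξ * η₂ (-ξ))
          (((zetaOrdinate i - zetaOrdinate j) * Real.log T / (2 * π) : ℝ) : ℂ)) / (zeroScale T : ℂ) -
      (1 / (T : ℂ)) * ∫ t in (T ^ a)..(T - T ^ a), SZ (Real.log T) η₁ t * SZ (Real.log T) η₂ t)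
      atTop (𝓝 0) := by
  obtain ⟨C₁, hC₁, hB₁⟩ := gs_real_bound hδ₁ h₁ 2
  obtain ⟨C₂, hC₂, hB₂⟩ := gs_real_bound hδ₂ h₂ 2
  have hg₁ := continuous_gs hδ₁ h₁
  have hg₂ := continuous_gs hδ₂ h₂
  obtain ⟨D₁, hD₁, hZ⟩ := exists_wZ hRH
  obtain ⟨D₂, hD₂, hW⟩ := exists_wT hRH
  set D₀ : ℝ := max D₁ D₂ with hD₀
  have hD₀pos : 0 < D₀ := lt_max_of_lt_left hD₁
  set K : ℝ := C₁ * C₂ * D₀ ^ 2 * 16 with hK
  set K' : ℝ := C₁ * C₂ * D₀ * (2 * π) + 8 * C₁ * C₂ * D₀ ^ 2 with hK'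
  have hlim : Tendsto (fun T : ℝ => K * (Real.log T ^ 2 * T ^ (-(1 - a))) +
      K' * (Real.log T ^ 2 * T ^ (-(2 * a)))) atTop (𝓝 0) := by
    have e1 := (tendsto_log_sq_mul_rpow (b := 1 - a) (by linarith)).const_mul K
    have e2 := (tendsto_log_sq_mul_rpow (b := 2 * a) (by linarith)).const_mul K'
    simpa using e1.add e2
  have hratio : Tendsto (fun T : ℝ => T ^ a / T) atTop (𝓝 0) := by
    have := tendsto_rpow_neg_atTop (y := 1 - a) (by linarith)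
    refine this.congr' ?_
    filter_upwards [eventually_gt_atTop 0] with T hT
    rw [show -(1 - a) = a - 1 by ring, Real.rpow_sub hT, Real.rpow_one]
  have hhalf : ∀ᶠ T : ℝ in atTop, T ^ a / T < 1 / 2 :=
    hratio.eventually_lt_const (by norm_num)
  have hLev : ∀ᶠ T : ℝ in atTop, 2 * π ≤ Real.log T :=
    Real.tendsto_log_atTop.eventually_ge_atTop _
  refine squeeze_zero_norm' ?_ hlim
  filter_upwards [hhalf, hLev, eventually_card, eventually_gt_atTop 3] with T hT hL hcard hT3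
  have hT0 : 0 < T := by linarith
  have hlogpos : 0 < Real.log T := Real.log_pos (by linarith)
  have hA : 0 < T ^ a := Real.rpow_pos_of_pos hT0 a
  have hAT : T ^ a ≤ T - T ^ a := by
    rw [div_lt_iff₀ hT0] at hT
    linarith
  have hlog3 : Real.log (T + 3) ≤ 2 * Real.log T := by
    rw [← Real.log_rpow hT0]
    apply Real.log_le_log (by linarith)
    have : T ^ (2 : ℝ) = T ^ 2 := by exact_mod_cast Real.rpow_natCast T 2
    rw [this]
    nlinarith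
  have hDZ : ∀ t, 0 ≤ t → t ≤ T → wZ t ≤ D₀ * (2 * Real.log T) := by
    intro t ht htT
    refine (hZ T t ht htT).trans ?_
    exact mul_le_mul (le_max_left _ _) hlog3 (Real.log_nonneg (by linarith)) hD₀pos.le
  have hDT : ∀ t, wT T t ≤ D₀ * (2 * Real.log T) := by
    intro t
    refine (hW T t hT0.le).trans ?_
    exact mul_le_mul (le_max_right _ _) hlog3 (Real.log_nonneg (by linarith)) hD₀pos.le
  have herr := edge_error hRH hC₁ hC₂ hB₁ hB₂ hg₁ hg₂ hL hA hAT hδ₁ hδ₂ h₁ h₂ hDZ hDT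
  set X := ∑ i ∈ PT goodFamily_zeta T, ∑ j ∈ PT goodFamily_zeta T,
        gs (fun ξ => η₁ ξ * η₂ (-ξ))
          (((zetaOrdinate i - zetaOrdinate j) * Real.log T / (2 * π) : ℝ) : ℂ) with hX
  set Y := ∫ t in (T ^ a)..(T - T ^ a), SZ (Real.log T) η₁ t * SZ (Real.log T) η₂ t with hY
  have hid : X / (zeroScale T : ℂ) - (1 / (T : ℂ)) * Y =
      (1 / (T : ℂ)) * (((2 * π / Real.log T : ℝ) : ℂ) * X - Y) := by
    have hTc : (T : ℂ) ≠ 0 := by exact_mod_cast hT0.ne'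
    have hLc : ((Real.log T : ℝ) : ℂ) ≠ 0 := by exact_mod_cast hlogpos.ne'
    have hpc : (π : ℂ) ≠ 0 := by exact_mod_cast Real.pi_ne_zero
    unfold zeroScale
    push_cast
    field_simp
  rw [hid, norm_mul]
  have hnT : ‖(1 / (T : ℂ))‖ = 1 / T := by
    rw [norm_div, norm_one, Complex.norm_real, Real.norm_of_nonneg hT0.le]
  rw [hnT]
  have hA2 : (T ^ a) ^ 2 = T ^ (2 * a) := by
    rw [← Real.rpow_natCast (T ^ a) 2, ← Real.rpow_mul hT0.le]
    congr 1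
    push_cast; ring
  have hA2inv : T ^ (-(2 * a)) = 1 / (T ^ a) ^ 2 := by
    rw [hA2, Real.rpow_neg hT0.le, one_div]
  have hA1 : T ^ (-(1 - a)) = T ^ a / T := by
    rw [show -(1 - a) = a - 1 by ring, Real.rpow_sub hT0, Real.rpow_one]
  rw [hA2inv, hA1]
  calc 1 / T * ‖((2 * π / Real.log T : ℝ) : ℂ) * X - Y‖
      ≤ 1 / T * (C₁ * C₂ * (D₀ * (2 * Real.log T)) ^ 2 * (4 * T ^ a) +
          C₁ * C₂ * (D₀ * (2 * Real.log T)) / (T ^ a) ^ 2 *
            (π * (PT goodFamily_zeta T).card) +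
          2 * C₁ * C₂ * (D₀ * (2 * Real.log T)) ^ 2 / (T ^ a) ^ 2 * T) :=
        mul_le_mul_of_nonneg_left herr (by positivity)
    _ ≤ 1 / T * (C₁ * C₂ * (D₀ * (2 * Real.log T)) ^ 2 * (4 * T ^ a) +
          C₁ * C₂ * (D₀ * (2 * Real.log T)) / (T ^ a) ^ 2 *
            (π * (T * Real.log T)) +
          2 * C₁ * C₂ * (D₀ * (2 * Real.log T)) ^ 2 / (T ^ a) ^ 2 * T) := by
        gcongr
    _ = K * (Real.log T ^ 2 * (T ^ a / T)) + K' * (Real.log T ^ 2 * (1 / (T ^ a) ^ 2)) := by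
        rw [hK, hK']
        field_simp
        ring

end Pool.Agent.MP_67227b_nt.Mo
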