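import Pool.Agent.MP_67227b_nt.Mo.MoDefs

set_option autoImplicit false

open Filter Topology Set MeasureTheory Complex
open scoped Real ContDiff ArithmeticFunction

namespace Pool.Agent.MP_67227b_nt.Mo

open Pool.Agent.Lib.ZetaCount_helper33 Pool.Agent.MP_67227b_nt

/-- Integrals over `Fin 1 → ℝ`. -/
lemma integral_fin_one (F : (Fin 1 → ℝ) → ℂ) : ∫ ξ, F ξ = ∫ v : ℝ, F (fun _ => v) := by
  have h := (volume_preserving_funUnique (Fin 1) ℝ).integral_comp'
    (g := fun v : ℝ => F (fun _ => v))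
  rw [← h]
  apply integral_congr_ae
  apply Eventually.of_forall
  intro ξ
  simp only
  congr 1
  ext i
  rw [Subsingleton.elim i default]
  rfl

lemma synth_one (φ : (Fin 1 → ℝ) → ℂ) (u : Fin 1 → ℝ) :
    synth φ u = gs (fun v => φ (fun _ => v)) (u 0 : ℂ) := by
  rw [synth, integral_fin_one, gs]
  apply integral_congr_ae
  apply Eventually.of_forall
  intro v
  simp only [ee, Finset.univ_unique, Fin.default_eq_zero, Finset.sum_singleton]
  congr 2
  push_cast
  ring

lemma sineDet_one (u : Fin 1 → ℝ) : sineDet 1 u = 1 - Real.sinc (π * u 0) ^ 2 := by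
  have h1 : (Fin.snoc u (0 : ℝ) : Fin 2 → ℝ) 0 = u 0 := by
    have := Fin.snoc_castSucc (α := fun _ => ℝ) (0 : ℝ) u 0
    simpa using this
  have h2 : (Fin.snoc u (0 : ℝ) : Fin 2 → ℝ) 1 = 0 := by
    have := Fin.snoc_last (α := fun _ => ℝ) (0 : ℝ) u
    simpa using this
  rw [sineDet, Matrix.det_fin_two]
  simp only [sineMatrix, Matrix.of_apply, h1, h2, sub_self, mul_zero, Real.sinc_zero, sub_zero,
    zero_sub, mul_neg, Real.sinc_neg]
  ring

/-- Band-limited test functions in one variable. -/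
lemma exists_bump {φ : (Fin 1 → ℝ) → ℂ} (hφ : IsBand {ξ : Fin 1 → ℝ | |ξ 0| < 1} φ) :
    ∃ δ : ℝ, 0 ≤ δ ∧ δ < 1 ∧ Bump δ (fun v => φ (fun _ => v)) := by
  obtain ⟨hs, hc, hsub⟩ := hφ
  have hsm : ContDiff ℝ ∞ (fun v : ℝ => φ (fun _ => v)) := by
    apply hs.comp
    rw [contDiff_pi]
    intro _
    exact contDiff_id
  rcases (tsupport φ).eq_empty_or_nonempty with he | hne
  · refine ⟨0, le_rfl, one_pos, hsm, fun v _ => ?_⟩
    by_contra h
    have : (fun _ => v) ∈ tsupport φ := subset_tsupport φ h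
    rw [he] at this
    exact this
  · obtain ⟨ξ, hξ, hmax⟩ := hc.isCompact.exists_isMaxOn hne
      (f := fun ξ : Fin 1 → ℝ => |ξ 0|) (by fun_prop)
    refine ⟨|ξ 0|, abs_nonneg _, hsub hξ, hsm, fun v hv => ?_⟩
    by_contra h
    have h1 : (fun _ => v) ∈ tsupport φ := subset_tsupport φ h
    have h2 := hmax h1
    simp only [mem_ofPred_eq] at h2
    linarith

variable {J : Type*} {γ : J → ℝ}

/-- Sums over pairs of distinct indices. -/
lemma tupleSum_one (h : GoodFamily γ) (T : ℝ) (f : (Fin 1 → ℝ) → ℂ) :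
    tupleSum γ 1 T f = (∑ i ∈ PT h T, ∑ j ∈ PT h T,
      f (fun _ => (γ i - γ j) * (Real.log T / (2 * π)))) - (PT h T).card * f (fun _ => 0) := by
  classical
  set F : (Fin 2 → J) → ℂ := fun j => f (fun i : Fin 1 => (γ (j i.castSucc) -
    γ (j (Fin.last 1))) * (Real.log T / (2 * π))) with hF
  set s : Finset (J × J) := (PT h T ×ˢ PT h T).filter (fun p => p.1 ≠ p.2) with hs
  have hset : {j : Fin (1 + 1) → J | Function.Injective j ∧ ∀ i, γ (j i) ≤ T} =
      (fun p : J × J => ![p.1, p.2]) '' (s : Set (J × J)) := by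
    ext j
    simp only [mem_ofPred_eq, mem_image, Finset.mem_coe, hs, Finset.mem_filter,
      Finset.mem_product, mem_PT]
    constructor
    · rintro ⟨h1, h2⟩
      refine ⟨(j 0, j 1), ⟨⟨h2 0, h2 1⟩, fun h3 => ?_⟩, ?_⟩
      · exact absurd (h1 h3) (by decide)
      · ext i
        fin_cases i <;> rfl
    · rintro ⟨p, ⟨⟨h1, h2⟩, h3⟩, rfl⟩
      refine ⟨?_, ?_⟩
      · intro a b hab
        fin_cases a <;> fin_cases b <;> simp_all
      · intro i
        fin_cases i
        · exact h1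
        · exact h2
  have hinj : Set.InjOn (fun p : J × J => (![p.1, p.2] : Fin 2 → J)) (s : Set (J × J)) := by
    intro p _ q _ hpq
    have h0 := congrFun hpq 0
    have h1 := congrFun hpq 1
    simp only [Matrix.cons_val_zero, Matrix.cons_val_one] at h0 h1
    exact Prod.ext h0 h1
  have e1 : tupleSum γ 1 T f = ∑ p ∈ s, f (fun _ => (γ p.1 - γ p.2) * (Real.log T / (2 * π))) := by
    rw [tupleSum, hset, finsum_mem_image hinj, finsum_mem_coe_finset]
    apply Finset.sum_congr rfl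
    intro p _
    congr 1
    ext i
    rw [Subsingleton.elim i 0]
    rfl
  have e2 : ∑ p ∈ PT h T ×ˢ PT h T, f (fun _ => (γ p.1 - γ p.2) * (Real.log T / (2 * π))) =
      ∑ i ∈ PT h T, ∑ j ∈ PT h T, f (fun _ => (γ i - γ j) * (Real.log T / (2 * π))) :=
    Finset.sum_product _ _ _
  have e3 : ∑ p ∈ (PT h T ×ˢ PT h T).filter (fun p => ¬ p.1 ≠ p.2),
      f (fun _ => (γ p.1 - γ p.2) * (Real.log T / (2 * π))) = (PT h T).card * f (fun _ => 0) := by
    have e4 : (PT h T ×ˢ PT h T).filter (fun p => ¬ p.1 ≠ p.2) = (PT h T).image (fun i => (i, i)) := by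
      ext p
      simp only [Finset.mem_filter, Finset.mem_product, not_not, Finset.mem_image]
      constructor
      · rintro ⟨⟨h1, _⟩, h3⟩
        exact ⟨p.1, h1, Prod.ext rfl h3⟩
      · rintro ⟨i, hi, rfl⟩
        exact ⟨⟨hi, hi⟩, rfl⟩
    rw [e4, Finset.sum_image (fun i _ j _ hij => (Prod.mk.inj hij).1)]
    simp
  rw [e1, ← e2, ← Finset.sum_filter_add_sum_filter_not (PT h T ×ˢ PT h T)
    (fun p => p.1 ≠ p.2), e3]
  ring

end Pool.Agent.MP_67227b_nt.Mo
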