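import Pool.Agent.MP_67227b_nt.Mo.Compare
import Pool.Agent.MP_67227b_nt.Mo.Edge
import Pool.Agent.MP_67227b_nt.Mo.MoPair

set_option autoImplicit false

open Filter Topology Set MeasureTheory Complex
open scoped Real ContDiff ArithmeticFunction

namespace Pool.Agent.MP_67227b_nt.Mo

open Pool.Agent.Lib.ZetaCount_helper33 Pool.Agent.MP_67227b_nt

lemma Bump.mono {η : ℝ → ℂ} {δ δ' : ℝ} (h : Bump δ η) (hd : δ ≤ δ') : Bump δ' η where
  smooth := h.smooth
  supp := fun v hv => h.supp v (hd.trans_lt hv)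

/-- The sum over all pairs of zeros, the diagonal included. -/
theorem tendsto_pairs (hRH : RiemannHypothesis) {η : ℝ → ℂ} {δ : ℝ} (hδ : 0 ≤ δ) (hδ1 : δ < 1)
    (hη : Bump δ η) :
    Tendsto (fun T : ℝ => (∑ i ∈ PT goodFamily_zeta T, ∑ j ∈ PT goodFamily_zeta T,
        gs η (((zetaOrdinate i - zetaOrdinate j) * Real.log T / (2 * π) : ℝ) : ℂ)) /
          (zeroScale T : ℂ)) atTop
      (𝓝 (η 0 + ∫ x : ℝ, ((|x| : ℝ) : ℂ) * η x)) := by
  obtain ⟨η₂, h₂, hone⟩ := exists_cutoff hδ (show δ < (1 + δ) / 2 by linarith)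
  have hδ' : 0 ≤ (1 + δ) / 2 := by linarith
  have h₁ : Bump ((1 + δ) / 2) η := hη.mono (by linarith)
  have hprod : (fun ξ => η ξ * η₂ (-ξ)) = η := by
    ext ξ
    by_cases hξ : |ξ| ≤ δ
    · rw [hone (-ξ) (by rwa [abs_neg]), mul_one]
    · rw [hη.supp ξ (not_le.mp hξ), zero_mul]
  have hprod2 : ∀ x : ℝ, η x * η₂ (-x) = η x := fun x => congrFun hprod x
  have hm := mean_SZ hRH (a := (3 + δ) / 4) hδ' (by linarith) (by linarith) h₁ h₂
  have he := edge hRH hδ' hδ' h₁ h₂ (a := (3 + δ) / 4) (by linarith) (by linarith)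
  simp only [hprod] at he
  simp only [hprod2, hone 0 (by simpa using hδ), mul_one] at hm
  have h3 := he.add hm
  simp only [zero_add] at h3
  refine h3.congr (fun T => ?_)
  ring

/-- Montgomery's theorem. -/
theorem montgomery (hRH : RiemannHypothesis) :
    SmoothedCorrelation zetaOrdinate 1 {ξ : Fin 1 → ℝ | |ξ 0| < 1} := by
  intro φ hφ
  obtain ⟨δ, hδ, hδ1, hη⟩ := exists_bump hφ
  set η : ℝ → ℂ := fun v => φ (fun _ => v) with hηdef
  have h1 := tendsto_pairs hRH hδ hδ1 hη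
  have h2 : Tendsto (fun T : ℝ => ((PT goodFamily_zeta T).card : ℂ) / (zeroScale T : ℂ)) atTop
      (𝓝 1) := by
    have h3 := goodFamily_zeta.count
    have h4 : Tendsto (fun T : ℝ => ((({j | zetaOrdinate j ≤ T}.ncard : ℝ) / zeroScale T : ℝ) : ℂ))
        atTop (𝓝 ((1 : ℝ) : ℂ)) := (continuous_ofReal.tendsto _).comp h3
    rw [ofReal_one] at h4
    refine h4.congr (fun T => ?_)
    rw [card_PT]
    push_cast
    rfl
  have h5 := h1.sub (h2.mul_const (gs η 0))
  have hval : ∫ u, synth φ u * (sineDet 1 u : ℂ) =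
      η 0 + (∫ x : ℝ, ((|x| : ℝ) : ℂ) * η x) - 1 * gs η 0 := by
    rw [integral_fin_one, one_mul, gs_zero, ← integral_gs_sine hδ hδ1.le hη]
    apply integral_congr_ae
    apply Eventually.of_forall
    intro u
    simp only
    rw [synth_one, sineDet_one]
  rw [hval]
  refine h5.congr (fun T => ?_)
  rw [tupleSum_one goodFamily_zeta]
  simp only [synth_one]
  rw [sub_div, ofReal_zero]
  congr 1
  · congr 1
    apply Finset.sum_congr rfl
    intro i _
    apply Finset.sum_congr rfl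
    intro j _
    congr 2
    ring
  · ring

end Pool.Agent.MP_67227b_nt.Mo
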