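import Pool.Agent.MP_67227b_nt.Mo.MeanBB

set_option autoImplicit false

open Filter Topology Set MeasureTheory Complex
open scoped Real ContDiff ArithmeticFunction

namespace Pool.Agent.MP_67227b_nt.Mo

open Pool.Agent.Lib.ZetaCount_helper33 Pool.Agent.MP_67227b_nt

namespace MeanMainAux

lemma tendsto_rpow_div {a : ℝ} (ha1 : a < 1) : Tendsto (fun T : ℝ => T ^ a / T) atTop (𝓝 0) := by
  have h := tendsto_rpow_neg_atTop (y := 1 - a) (by linarith)
  refine h.congr' ?_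
  filter_upwards [eventually_gt_atTop 0] with T hT
  rw [neg_sub, Real.rpow_sub_one hT.ne']

lemma eventually_ok {a : ℝ} (ha : 0 < a) (ha1 : a < 1) : ∀ᶠ T : ℝ in atTop,
    3 ≤ T ∧ 1 ≤ T ^ a ∧ T ^ a ≤ T - T ^ a ∧ T - T ^ a ≤ T ∧ 1 ≤ Real.log T := by
  filter_upwards [eventually_ge_atTop 3,
    (tendsto_rpow_div ha1).eventually (gt_mem_nhds (show (0 : ℝ) < 1 / 2 by norm_num))] with T h3 hT
  have h1 : 1 ≤ T ^ a := Real.one_le_rpow (by linarith) ha.le
  have hT0 : 0 < T := by linarith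
  rw [div_lt_iff₀ hT0] at hT
  refine ⟨h3, h1, by linarith, by linarith, ?_⟩
  rw [Real.le_log_iff_exp_le hT0]
  linarith [Real.exp_one_lt_d9]

lemma continuous_dT (L : ℝ) : Continuous (dT L) := by
  unfold dT
  exact (continuous_archF_pt32.add (continuous_archF_pt32.comp continuous_neg)).div_const _

lemma continuous_BT (L : ℝ) (η : ℝ → ℂ) : Continuous (BT L η) := by
  unfold BT
  fun_prop

lemma dT_sub_one {C : ℝ} (hC : ∀ t : ℝ,
    ‖archF (pt32 t) - ((Real.log (|t| + 2) / 2 : ℝ) : ℂ)‖ ≤ C) {T t : ℝ} (hT : 3 ≤ T)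
    (hL : 1 ≤ Real.log T) (h1 : 1 ≤ t) (h2 : t ≤ T) :
    ‖dT (Real.log T) t - 1‖ ≤ (2 * C + 2 + Real.log (T / t)) / Real.log T := by
  have hL0 : (0 : ℝ) < Real.log T := by linarith
  have hLc : ((Real.log T : ℝ) : ℂ) ≠ 0 := by exact_mod_cast hL0.ne'
  have e : dT (Real.log T) t - 1 =
      ((archF (pt32 t) - ((Real.log (|t| + 2) / 2 : ℝ) : ℂ)) +
        (archF (pt32 (-t)) - ((Real.log (|-t| + 2) / 2 : ℝ) : ℂ)) +
        ((Real.log (t + 2) - Real.log T : ℝ) : ℂ)) / ((Real.log T : ℝ) : ℂ) := by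
    rw [abs_neg, abs_of_nonneg (by linarith : (0 : ℝ) ≤ t)]
    unfold dT
    field_simp
    push_cast
    ring
  rw [e, norm_div, norm_real, Real.norm_eq_abs, abs_of_pos hL0]
  refine div_le_div_of_nonneg_right ?_ hL0.le
  have h3 : |Real.log (t + 2) - Real.log T| ≤ 2 + Real.log (T / t) := by
    have ht0 : 0 < t := by linarith
    have hT0 : 0 < T := by linarith
    have h4 : Real.log (T / t) = Real.log T - Real.log t := Real.log_div hT0.ne' ht0.ne'
    have h5 : Real.log t ≤ Real.log T := Real.log_le_log ht0 h2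
    have h6 : Real.log t ≤ Real.log (t + 2) := Real.log_le_log ht0 (by linarith)
    have h7 : Real.log (t + 2) ≤ Real.log (T + 2) := Real.log_le_log (by linarith) (by linarith)
    have h8 : Real.log (T + 2) - Real.log T ≤ 2 := by
      rw [← Real.log_div (by linarith) hT0.ne']
      have h9 := Real.log_le_sub_one_of_pos (show 0 < (T + 2) / T by positivity)
      have h10 : (T + 2) / T - 1 = 2 / T := by field_simp; ring
      rw [h10] at h9
      have h11 : 2 / T ≤ 2 := by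
        rw [div_le_iff₀ hT0]
        linarith
      linarith
    rw [abs_le]
    constructor <;> linarith
  have h4 := hC t
  have h5 := hC (-t)
  calc _ ≤ ‖(archF (pt32 t) - ((Real.log (|t| + 2) / 2 : ℝ) : ℂ)) +
        (archF (pt32 (-t)) - ((Real.log (|-t| + 2) / 2 : ℝ) : ℂ))‖ +
          ‖((Real.log (t + 2) - Real.log T : ℝ) : ℂ)‖ := norm_add_le _ _
    _ ≤ (C + C) + (2 + Real.log (T / t)) := by
        rw [norm_real, Real.norm_eq_abs]
        exact add_le_add ((norm_add_le _ _).trans (add_le_add h4 h5)) h3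
    _ = 2 * C + 2 + Real.log (T / t) := by ring

lemma log_sq_le {x : ℝ} (hx : 1 ≤ x) : Real.log x ^ 2 ≤ 16 * x ^ (1 / 2 : ℝ) := by
  have h1 := Real.log_le_rpow_div (show 0 ≤ x by linarith) (show (0 : ℝ) < 1 / 4 by norm_num)
  have h2 : 0 ≤ Real.log x := Real.log_nonneg hx
  have h3 : x ^ (1 / 4 : ℝ) / (1 / 4) = 4 * x ^ (1 / 4 : ℝ) := by ring
  rw [h3] at h1
  have h4 : (x ^ (1 / 4 : ℝ)) ^ 2 = x ^ (1 / 2 : ℝ) := by
    rw [← Real.rpow_natCast, ← Real.rpow_mul (by linarith)]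
    norm_num
  calc Real.log x ^ 2 ≤ (4 * x ^ (1 / 4 : ℝ)) ^ 2 := by gcongr
    _ = 16 * x ^ (1 / 2 : ℝ) := by rw [mul_pow, h4]; norm_num

/-- The quantitative form. -/
lemma exists_mean_d {a : ℝ} (ha : 0 < a) (ha1 : a < 1) : ∃ K : ℝ, 0 < K ∧ ∀ᶠ T : ℝ in atTop,
    (∫ t in (T ^ a)..(T - T ^ a), ‖dT (Real.log T) t - 1‖ ^ 2) ≤ K * T / Real.log T ^ 2 := by
  obtain ⟨C, hC0, hC⟩ := exists_arch_bound
  refine ⟨2 * (2 * C + 2) ^ 2 + 64, by positivity, ?_⟩
  filter_upwards [eventually_ok ha ha1] with T hT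
  obtain ⟨h3, hA, hAB, hB, hL⟩ := hT
  have hT0 : 0 < T := by linarith
  have hL0 : 0 < Real.log T := by linarith
  have hr : IntervalIntegrable (fun t : ℝ => t ^ (-(1 / 2) : ℝ)) volume (T ^ a) (T - T ^ a) :=
    intervalIntegral.intervalIntegrable_rpow' (by norm_num)
  have hi : ∫ t in (T ^ a)..(T - T ^ a), t ^ (-(1 / 2) : ℝ) ≤ 2 * T ^ (1 / 2 : ℝ) := by
    rw [integral_rpow (Or.inl (by norm_num))]
    have e1 : (-(1 / 2) : ℝ) + 1 = 1 / 2 := by norm_num
    rw [e1]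
    have h4 : (T - T ^ a) ^ (1 / 2 : ℝ) ≤ T ^ (1 / 2 : ℝ) :=
      Real.rpow_le_rpow (by linarith) hB (by norm_num)
    have h5 : 0 ≤ (T ^ a) ^ (1 / 2 : ℝ) := by positivity
    rw [div_le_iff₀ (by norm_num)]
    linarith
  have hmono : ∫ t in (T ^ a)..(T - T ^ a), ‖dT (Real.log T) t - 1‖ ^ 2 ≤
      ∫ t in (T ^ a)..(T - T ^ a),
        (2 * (2 * C + 2) ^ 2 + 32 * T ^ (1 / 2 : ℝ) * t ^ (-(1 / 2) : ℝ)) / Real.log T ^ 2 := by
    apply intervalIntegral.integral_mono_on hAB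
    · exact (((continuous_dT _).sub continuous_const).norm.pow 2).intervalIntegrable _ _
    · exact (intervalIntegrable_const.add (hr.const_mul _)).div_const _
    · intro t ht
      have h1t : 1 ≤ t := hA.trans ht.1
      have h2t : t ≤ T := ht.2.trans hB
      have ht0 : 0 < t := by linarith
      have h6 := dT_sub_one hC h3 hL h1t h2t
      have h7 : 1 ≤ T / t := by rwa [one_le_div ht0]
      have h8 := log_sq_le h7
      have h9 : (T / t) ^ (1 / 2 : ℝ) = T ^ (1 / 2 : ℝ) * t ^ (-(1 / 2) : ℝ) := by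
        rw [Real.div_rpow hT0.le ht0.le, Real.rpow_neg ht0.le]
        rfl
      have h10 : 0 ≤ Real.log (T / t) := Real.log_nonneg h7
      calc ‖dT (Real.log T) t - 1‖ ^ 2 ≤ ((2 * C + 2 + Real.log (T / t)) / Real.log T) ^ 2 := by
            gcongr
        _ = (2 * C + 2 + Real.log (T / t)) ^ 2 / Real.log T ^ 2 := by rw [div_pow]
        _ ≤ (2 * (2 * C + 2) ^ 2 + 32 * T ^ (1 / 2 : ℝ) * t ^ (-(1 / 2) : ℝ)) /
            Real.log T ^ 2 := by
            refine div_le_div_of_nonneg_right ?_ (by positivity)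
            rw [h9] at h8
            nlinarith [sq_nonneg (2 * C + 2 - Real.log (T / t))]
  refine hmono.trans ?_
  rw [intervalIntegral.integral_div, intervalIntegral.integral_add intervalIntegrable_const
    (hr.const_mul _), intervalIntegral.integral_const, intervalIntegral.integral_const_mul]
  refine div_le_div_of_nonneg_right ?_ (by positivity)
  have h6 : T ^ (1 / 2 : ℝ) * T ^ (1 / 2 : ℝ) = T := by
    rw [← Real.rpow_add hT0]
    norm_num
  have h7 : 32 * T ^ (1 / 2 : ℝ) * ∫ t in (T ^ a)..(T - T ^ a), t ^ (-(1 / 2) : ℝ) ≤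
      32 * T ^ (1 / 2 : ℝ) * (2 * T ^ (1 / 2 : ℝ)) := by gcongr
  have h8 : 32 * T ^ (1 / 2 : ℝ) * (2 * T ^ (1 / 2 : ℝ)) = 64 * T := by
    rw [show 32 * T ^ (1 / 2 : ℝ) * (2 * T ^ (1 / 2 : ℝ)) =
      64 * (T ^ (1 / 2 : ℝ) * T ^ (1 / 2 : ℝ)) by ring, h6]
  have h9 : (T - T ^ a - T ^ a) • (2 * (2 * C + 2) ^ 2) ≤ T * (2 * (2 * C + 2) ^ 2) := by
    rw [smul_eq_mul]
    have : T - T ^ a - T ^ a ≤ T := by linarith
    gcongr
  rw [h8] at h7
  linarith

end MeanMainAux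

open MeanMainAux

theorem mean_d {a : ℝ} (ha : 0 < a) (ha1 : a < 1) :
    Tendsto (fun T : ℝ => (1 / T) * ∫ t in (T ^ a)..(T - T ^ a), ‖dT (Real.log T) t - 1‖ ^ 2) atTop
      (𝓝 0) := by
  obtain ⟨K, hK, h⟩ := exists_mean_d ha ha1
  have h1 : Tendsto (fun T : ℝ => K / Real.log T ^ 2) atTop (𝓝 0) := by
    refine Tendsto.const_div_atTop ?_ K
    exact (tendsto_pow_atTop (by norm_num)).comp Real.tendsto_log_atTop
  refine squeeze_zero' ?_ ?_ h1
  · filter_upwards [eventually_ok ha ha1] with T hT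
    have hT0 : 0 < T := by linarith [hT.1]
    refine mul_nonneg (by positivity) (intervalIntegral.integral_nonneg hT.2.2.1 fun t _ => ?_)
    positivity
  · filter_upwards [h, eventually_ok ha ha1] with T h hT
    have hT0 : 0 < T := by linarith [hT.1]
    calc _ ≤ (1 / T) * (K * T / Real.log T ^ 2) := by gcongr
      _ = K / Real.log T ^ 2 := by field_simp

/-- The mean squares of the main terms are bounded. -/
theorem mean_normsq_main {η : ℝ → ℂ} {δ a : ℝ} (hδ : 0 ≤ δ) (hδ1 : δ < 1) (ha : 0 < a)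
    (ha1 : a < 1) (h : Bump δ η) :
    ∃ C : ℝ, 0 < C ∧ ∀ᶠ T : ℝ in atTop,
      (∫ t in (T ^ a)..(T - T ^ a), ‖η 0 * dT (Real.log T) t + BT (Real.log T) η t‖ ^ 2)
        ≤ C * T := by
  obtain ⟨K, hK, h1⟩ := exists_mean_d ha ha1
  obtain ⟨B, hB, h2⟩ := mean_normsq_B hδ hδ1 ha ha1 h
  refine ⟨4 * ‖η 0‖ ^ 2 * (1 + K) + 2 * B, by positivity, ?_⟩
  filter_upwards [h1, h2, eventually_ok ha ha1] with T h1 h2 hT
  obtain ⟨h3, hA, hAB, hBT, hL⟩ := hT
  have hT0 : 0 < T := by linarith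
  have hL0 : 0 < Real.log T := by linarith
  have c1 : IntervalIntegrable (fun t : ℝ => ‖dT (Real.log T) t - 1‖ ^ 2) volume (T ^ a)
      (T - T ^ a) :=
    (((continuous_dT _).sub continuous_const).norm.pow 2).intervalIntegrable _ _
  have c2 : IntervalIntegrable (fun t : ℝ => ‖BT (Real.log T) η t‖ ^ 2) volume (T ^ a)
      (T - T ^ a) := ((continuous_BT _ _).norm.pow 2).intervalIntegrable _ _
  have hmono : (∫ t in (T ^ a)..(T - T ^ a),
        ‖η 0 * dT (Real.log T) t + BT (Real.log T) η t‖ ^ 2) ≤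
      ∫ t in (T ^ a)..(T - T ^ a), ((4 * ‖η 0‖ ^ 2 + (4 * ‖η 0‖ ^ 2) *
        ‖dT (Real.log T) t - 1‖ ^ 2) + 2 * ‖BT (Real.log T) η t‖ ^ 2) := by
    apply intervalIntegral.integral_mono_on hAB
    · exact (((continuous_const.mul (continuous_dT _)).add
        (continuous_BT _ _)).norm.pow 2).intervalIntegrable _ _
    · exact (intervalIntegrable_const.add (c1.const_mul _)).add (c2.const_mul _)
    · intro t _
      have e1 : ‖η 0 * dT (Real.log T) t + BT (Real.log T) η t‖ ≤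
          ‖η 0‖ * (1 + ‖dT (Real.log T) t - 1‖) + ‖BT (Real.log T) η t‖ := by
        refine (norm_add_le _ _).trans ?_
        rw [norm_mul]
        have : ‖dT (Real.log T) t‖ ≤ 1 + ‖dT (Real.log T) t - 1‖ := by
          have := norm_add_le (1 : ℂ) (dT (Real.log T) t - 1)
          rw [add_sub_cancel, norm_one] at this
          exact this
        gcongr
      set x := ‖dT (Real.log T) t - 1‖
      set y := ‖BT (Real.log T) η t‖
      set z := ‖η 0‖
      have hx : 0 ≤ x := norm_nonneg _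
      have hy : 0 ≤ y := norm_nonneg _
      have hz : 0 ≤ z := norm_nonneg _
      calc _ ≤ (z * (1 + x) + y) ^ 2 := by gcongr
        _ ≤ 2 * (z * (1 + x)) ^ 2 + 2 * y ^ 2 := by nlinarith [sq_nonneg (z * (1 + x) - y)]
        _ ≤ _ := by nlinarith [sq_nonneg (z * (1 - x))]
  refine hmono.trans ?_
  rw [intervalIntegral.integral_add (intervalIntegrable_const.add (c1.const_mul _))
    (c2.const_mul _), intervalIntegral.integral_add intervalIntegrable_const (c1.const_mul _),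
    intervalIntegral.integral_const, intervalIntegral.integral_const_mul,
    intervalIntegral.integral_const_mul, smul_eq_mul]
  have h4 : K * T / Real.log T ^ 2 ≤ K * T := by
    apply div_le_self (by positivity)
    nlinarith
  have h5 : (T - T ^ a - T ^ a) * (4 * ‖η 0‖ ^ 2) ≤ T * (4 * ‖η 0‖ ^ 2) := by
    have : T - T ^ a - T ^ a ≤ T := by linarith
    gcongr
  have h6 : 4 * ‖η 0‖ ^ 2 * ∫ t in (T ^ a)..(T - T ^ a), ‖dT (Real.log T) t - 1‖ ^ 2 ≤
      4 * ‖η 0‖ ^ 2 * (K * T) := by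
    gcongr
    exact h1.trans h4
  nlinarith

/-- The mean square of the main terms. -/
theorem mean_main {η₁ η₂ : ℝ → ℂ} {δ a : ℝ} (hδ : 0 ≤ δ) (hδ1 : δ < 1) (ha : 0 < a) (ha1 : a < 1)
    (h₁ : Bump δ η₁) (h₂ : Bump δ η₂) :
    Tendsto (fun T : ℝ => (1 / (T : ℂ)) * ∫ t in (T ^ a)..(T - T ^ a),
      (η₁ 0 * dT (Real.log T) t + BT (Real.log T) η₁ t) *
        (η₂ 0 * dT (Real.log T) t + BT (Real.log T) η₂ t)) atTop
      (𝓝 (η₁ 0 * η₂ 0 + ∫ x : ℝ, ((|x| : ℝ) : ℂ) * (η₁ x * η₂ (-x)))) := by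
  obtain ⟨K, hK, hd⟩ := exists_mean_d ha ha1
  obtain ⟨B₁, hB₁, hb1⟩ := mean_normsq_main hδ hδ1 ha ha1 h₁
  obtain ⟨B₂, hB₂, hb2⟩ := mean_normsq_B hδ hδ1 ha ha1 h₂
  have hBB := mean_BB hδ hδ1 ha ha1 h₁ h₂
  have hB1 := mean_B hδ hδ1 ha ha1 h₁
  have hB2 := mean_B hδ hδ1 ha ha1 h₂
  -- the main part
  have hlen : Tendsto (fun T : ℝ => (((T - T ^ a - T ^ a) / T : ℝ) : ℂ)) atTop (𝓝 1) := by
    have h1 : Tendsto (fun T : ℝ => (T - T ^ a - T ^ a) / T) atTop (𝓝 1) := by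
      have h2 := ((tendsto_rpow_div ha1).const_mul 2).const_sub 1
      rw [mul_zero, sub_zero] at h2
      refine h2.congr' ?_
      filter_upwards [eventually_gt_atTop 0] with T hT
      field_simp
      ring
    exact_mod_cast (continuous_ofReal.tendsto 1).comp h1
  have hmain : Tendsto (fun T : ℝ => (1 / (T : ℂ)) * ∫ t in (T ^ a)..(T - T ^ a),
      (η₁ 0 + BT (Real.log T) η₁ t) * (η₂ 0 + BT (Real.log T) η₂ t)) atTop
      (𝓝 (η₁ 0 * η₂ 0 + ∫ x : ℝ, ((|x| : ℝ) : ℂ) * (η₁ x * η₂ (-x)))) := by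
    have h3 := (((hlen.const_mul (η₁ 0 * η₂ 0)).add (hB2.const_mul (η₁ 0))).add
      (hB1.const_mul (η₂ 0))).add hBB
    simp only [mul_one, mul_zero, add_zero] at h3
    refine h3.congr' ?_
    filter_upwards [eventually_gt_atTop 0] with T hT
    have c1 : IntervalIntegrable (fun t : ℝ => BT (Real.log T) η₁ t) volume (T ^ a)
      (T - T ^ a) := (continuous_BT _ _).intervalIntegrable _ _
    have c2 : IntervalIntegrable (fun t : ℝ => BT (Real.log T) η₂ t) volume (T ^ a)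
      (T - T ^ a) := (continuous_BT _ _).intervalIntegrable _ _
    have c3 : IntervalIntegrable (fun t : ℝ => BT (Real.log T) η₁ t * BT (Real.log T) η₂ t)
      volume (T ^ a) (T - T ^ a) :=
      ((continuous_BT _ _).mul (continuous_BT _ _)).intervalIntegrable _ _
    have e : ∫ t in (T ^ a)..(T - T ^ a),
        (η₁ 0 + BT (Real.log T) η₁ t) * (η₂ 0 + BT (Real.log T) η₂ t) =
        (((T - T ^ a - T ^ a : ℝ) : ℂ) * (η₁ 0 * η₂ 0) +
          η₁ 0 * ∫ t in (T ^ a)..(T - T ^ a), BT (Real.log T) η₂ t) +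
          η₂ 0 * (∫ t in (T ^ a)..(T - T ^ a), BT (Real.log T) η₁ t) +
          ∫ t in (T ^ a)..(T - T ^ a), BT (Real.log T) η₁ t * BT (Real.log T) η₂ t := by
      rw [← intervalIntegral.integral_const_mul, ← intervalIntegral.integral_const_mul]
      have e0 : (((T - T ^ a - T ^ a : ℝ) : ℂ) * (η₁ 0 * η₂ 0)) =
          ∫ _ in (T ^ a)..(T - T ^ a), η₁ 0 * η₂ 0 := by
        rw [intervalIntegral.integral_const]
        rfl
      rw [e0, ← intervalIntegral.integral_add intervalIntegrable_const (c2.const_mul _),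
        ← intervalIntegral.integral_add (intervalIntegrable_const.add (c2.const_mul _))
          (c1.const_mul _),
        ← intervalIntegral.integral_add ((intervalIntegrable_const.add (c2.const_mul _)).add
          (c1.const_mul _)) c3]
      congr 1
      funext t
      ring
    rw [e]
    have hTc : (T : ℂ) ≠ 0 := by exact_mod_cast hT.ne'
    push_cast
    field_simp
  -- the error
  have herr : Tendsto (fun T : ℝ => (1 / (T : ℂ)) * ∫ t in (T ^ a)..(T - T ^ a),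
      ((η₁ 0 * dT (Real.log T) t + BT (Real.log T) η₁ t) *
        (η₂ 0 * dT (Real.log T) t + BT (Real.log T) η₂ t) -
      (η₁ 0 + BT (Real.log T) η₁ t) * (η₂ 0 + BT (Real.log T) η₂ t))) atTop (𝓝 0) := by
    rw [tendsto_zero_iff_norm_tendsto_zero]
    have hlim : Tendsto (fun T : ℝ =>
        ((‖η₂ 0‖ + ‖η₁ 0‖) * K / 2 + ‖η₂ 0‖ * B₁ / 2 + ‖η₁ 0‖ * (2 * ‖η₂ 0‖ ^ 2 + 2 * B₂) / 2) /
          Real.log T) atTop (𝓝 0) :=
      Real.tendsto_log_atTop.const_div_atTop _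
    refine squeeze_zero' (Eventually.of_forall fun T => norm_nonneg _) ?_ hlim
    filter_upwards [hd, hb1, hb2, eventually_ok ha ha1] with T hd hb1 hb2 hT
    obtain ⟨h3, hA, hAB, hBT, hL⟩ := hT
    have hT0 : 0 < T := by linarith
    have hL0 : 0 < Real.log T := by linarith
    set L := Real.log T with hLdef
    have c1 : IntervalIntegrable (fun t : ℝ => ‖dT L t - 1‖ ^ 2) volume (T ^ a)
        (T - T ^ a) :=
      (((continuous_dT _).sub continuous_const).norm.pow 2).intervalIntegrable _ _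
    have c2 : IntervalIntegrable (fun t : ℝ => ‖η₁ 0 * dT L t + BT L η₁ t‖ ^ 2) volume (T ^ a)
        (T - T ^ a) := (((continuous_const.mul (continuous_dT _)).add
        (continuous_BT _ _)).norm.pow 2).intervalIntegrable _ _
    have c3 : IntervalIntegrable (fun t : ℝ => ‖BT L η₂ t‖ ^ 2) volume (T ^ a)
        (T - T ^ a) := ((continuous_BT _ _).norm.pow 2).intervalIntegrable _ _
    have hpt : ∀ t : ℝ, ‖(η₁ 0 * dT L t + BT L η₁ t) * (η₂ 0 * dT L t + BT L η₂ t) -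
        (η₁ 0 + BT L η₁ t) * (η₂ 0 + BT L η₂ t)‖ ≤
        (((‖η₂ 0‖ + ‖η₁ 0‖) * (L / 2)) * ‖dT L t - 1‖ ^ 2 +
          (‖η₂ 0‖ / (2 * L)) * ‖η₁ 0 * dT L t + BT L η₁ t‖ ^ 2) +
          ((‖η₁ 0‖ / (2 * L) * (2 * ‖η₂ 0‖ ^ 2)) + (‖η₁ 0‖ / L) * ‖BT L η₂ t‖ ^ 2) := by
      intro t
      have e1 : (η₁ 0 * dT L t + BT L η₁ t) * (η₂ 0 * dT L t + BT L η₂ t) -
        (η₁ 0 + BT L η₁ t) * (η₂ 0 + BT L η₂ t) =
        (dT L t - 1) * (η₂ 0 * (η₁ 0 * dT L t + BT L η₁ t)) +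
          (dT L t - 1) * (η₁ 0 * (η₂ 0 + BT L η₂ t)) := by ring
      rw [e1]
      have hy2 : ‖η₂ 0 + BT L η₂ t‖ ^ 2 ≤ 2 * ‖η₂ 0‖ ^ 2 + 2 * ‖BT L η₂ t‖ ^ 2 := by
        have := norm_add_le (η₂ 0) (BT L η₂ t)
        have h0 := norm_nonneg (η₂ 0 + BT L η₂ t)
        nlinarith [sq_nonneg (‖η₂ 0‖ - ‖BT L η₂ t‖), norm_nonneg (η₂ 0), norm_nonneg (BT L η₂ t)]
      refine (norm_add_le _ _).trans ?_
      rw [norm_mul, norm_mul, norm_mul, norm_mul]
      set x := ‖dT L t - 1‖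
      set y := ‖η₁ 0 * dT L t + BT L η₁ t‖
      set w := ‖η₂ 0 + BT L η₂ t‖
      set z₁ := ‖η₁ 0‖
      set z₂ := ‖η₂ 0‖
      have hz₁ : 0 ≤ z₁ := norm_nonneg _
      have hz₂ : 0 ≤ z₂ := norm_nonneg _
      have am : ∀ p q : ℝ, p * q ≤ L / 2 * p ^ 2 + 1 / (2 * L) * q ^ 2 := by
        intro p q
        have h7 : L / 2 * p ^ 2 + 1 / (2 * L) * q ^ 2 - p * q = (L * p - q) ^ 2 / (2 * L) := by
          field_simp
          ring
        have h8 : 0 ≤ (L * p - q) ^ 2 / (2 * L) := by positivity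
        linarith
      have a1 := mul_le_mul_of_nonneg_left (am x y) hz₂
      have a2 := mul_le_mul_of_nonneg_left (am x w) hz₁
      have a3 : 1 / (2 * L) * w ^ 2 ≤ 1 / (2 * L) * (2 * z₂ ^ 2 + 2 * ‖BT L η₂ t‖ ^ 2) := by
        gcongr
      have a4 := mul_le_mul_of_nonneg_left a3 hz₁
      calc x * (z₂ * y) + x * (z₁ * w) = z₂ * (x * y) + z₁ * (x * w) := by ring
        _ ≤ z₂ * (L / 2 * x ^ 2 + 1 / (2 * L) * y ^ 2) +
            (z₁ * (L / 2 * x ^ 2) +
              z₁ * (1 / (2 * L) * (2 * z₂ ^ 2 + 2 * ‖BT L η₂ t‖ ^ 2))) := by linarith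
        _ = _ := by
            field_simp
            ring
    have hint : ‖∫ t in (T ^ a)..(T - T ^ a),
      ((η₁ 0 * dT L t + BT L η₁ t) * (η₂ 0 * dT L t + BT L η₂ t) -
      (η₁ 0 + BT L η₁ t) * (η₂ 0 + BT L η₂ t))‖ ≤
      ∫ t in (T ^ a)..(T - T ^ a), (((((‖η₂ 0‖ + ‖η₁ 0‖) * (L / 2)) * ‖dT L t - 1‖ ^ 2 +
          (‖η₂ 0‖ / (2 * L)) * ‖η₁ 0 * dT L t + BT L η₁ t‖ ^ 2) +
          ((‖η₁ 0‖ / (2 * L) * (2 * ‖η₂ 0‖ ^ 2)) + (‖η₁ 0‖ / L) * ‖BT L η₂ t‖ ^ 2))) := by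
      refine intervalIntegral.norm_integral_le_of_norm_le hAB (ae_of_all _ fun t _ => hpt t) ?_
      exact ((c1.const_mul _).add (c2.const_mul _)).add
        (intervalIntegrable_const.add (c3.const_mul _))
    rw [intervalIntegral.integral_add ((c1.const_mul _).add (c2.const_mul _))
        (intervalIntegrable_const.add (c3.const_mul _)),
      intervalIntegral.integral_add (c1.const_mul _) (c2.const_mul _),
      intervalIntegral.integral_add intervalIntegrable_const (c3.const_mul _),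
      intervalIntegral.integral_const, intervalIntegral.integral_const_mul,
      intervalIntegral.integral_const_mul, intervalIntegral.integral_const_mul,
      smul_eq_mul] at hint
    rw [norm_mul, norm_div, norm_one, norm_real, Real.norm_eq_abs, abs_of_pos hT0]
    have k1 : (‖η₂ 0‖ + ‖η₁ 0‖) * (L / 2) *
        (∫ t in (T ^ a)..(T - T ^ a), ‖dT L t - 1‖ ^ 2) ≤
        (‖η₂ 0‖ + ‖η₁ 0‖) * (L / 2) * (K * T / L ^ 2) := by gcongr
    have k2 : ‖η₂ 0‖ / (2 * L) *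
        (∫ t in (T ^ a)..(T - T ^ a), ‖η₁ 0 * dT L t + BT L η₁ t‖ ^ 2) ≤
        ‖η₂ 0‖ / (2 * L) * (B₁ * T) := by gcongr
    have k3 : ‖η₁ 0‖ / L * (∫ t in (T ^ a)..(T - T ^ a), ‖BT L η₂ t‖ ^ 2) ≤
        ‖η₁ 0‖ / L * (B₂ * T) := by gcongr
    have k4 : (T - T ^ a - T ^ a) * (‖η₁ 0‖ / (2 * L) * (2 * ‖η₂ 0‖ ^ 2)) ≤
        T * (‖η₁ 0‖ / (2 * L) * (2 * ‖η₂ 0‖ ^ 2)) := by
      have : T - T ^ a - T ^ a ≤ T := by linarith
      gcongr
    calc _ ≤ 1 / T * ((‖η₂ 0‖ + ‖η₁ 0‖) * (L / 2) * (K * T / L ^ 2) +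
          ‖η₂ 0‖ / (2 * L) * (B₁ * T) + (T * (‖η₁ 0‖ / (2 * L) * (2 * ‖η₂ 0‖ ^ 2)) +
          ‖η₁ 0‖ / L * (B₂ * T))) := by
          refine mul_le_mul_of_nonneg_left ?_ (by positivity)
          linarith
      _ = _ := by
          field_simp
  have hsum := hmain.add herr
  rw [add_zero] at hsum
  refine hsum.congr fun T => ?_
  rw [← mul_add, ← intervalIntegral.integral_add]
  · congr 2
    funext t
    ring
  · exact ((continuous_const.add (continuous_BT _ _)).mul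
      (continuous_const.add (continuous_BT _ _))).intervalIntegrable _ _
  · exact ((((continuous_const.mul (continuous_dT _)).add (continuous_BT _ _)).mul
      ((continuous_const.mul (continuous_dT _)).add (continuous_BT _ _))).sub
      ((continuous_const.add (continuous_BT _ _)).mul
      (continuous_const.add (continuous_BT _ _)))).intervalIntegrable _ _

end Pool.Agent.MP_67227b_nt.Mo
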