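import Pool.Agent.MP_67227b_nt.Mo.ExplicitL
import Pool.Agent.MP_67227b_nt.Mo.MeanMain

set_option autoImplicit false

open Filter Topology Set MeasureTheory Complex
open scoped Real ContDiff ArithmeticFunction

namespace Pool.Agent.MP_67227b_nt.Mo

open Pool.Agent.Lib.ZetaCount_helper33 Pool.Agent.MP_67227b_nt

/-- The main term of the explicit formula. -/
noncomputable def AZ (L : ℝ) (η : ℝ → ℂ) (t : ℝ) : ℂ := η 0 * dT L t + BT L η t

lemma continuous_AZ (L : ℝ) (η : ℝ → ℂ) : Continuous (AZ L η) := by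
  unfold AZ dT BT
  apply Continuous.add
  · apply Continuous.mul continuous_const
    apply Continuous.div_const
    exact continuous_archF_pt32.add (continuous_archF_pt32.comp continuous_neg)
  · apply Continuous.mul continuous_const
    apply continuous_finsetSum
    intro n _
    fun_prop

lemma measurable_SZ (hRH : RiemannHypothesis) {η : ℝ → ℂ} {δ L : ℝ} (hδ : 0 ≤ δ) (hL : 0 < L)
    (hη : Bump δ η) : Measurable (SZ L η) := by
  have hterm : ∀ (t : ℝ) (u : Zer), (mu u : ℂ) * gs η (((ord u - t) * L / (2 * π) : ℝ) : ℂ) =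
      (mu u : ℂ) * gs (hsc L η t) (ord u) := by
    intro t u
    rw [gs_hsc hL]
    congr 2
    push_cast
    ring
  have hδL : 0 ≤ δ * L / (2 * π) := by positivity
  refine measurable_of_tendsto_metrizable (f := fun (n : ℕ) (t : ℝ) => ∑ u ∈ ZZ (n : ℝ),
    (mu u : ℂ) * gs η (((ord u - t) * L / (2 * π) : ℝ) : ℂ)) ?_ ?_
  · intro n
    apply Continuous.measurable
    apply continuous_finsetSum
    intro u _
    apply Continuous.mul continuous_const
    apply (continuous_gs hδ hη).comp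
    fun_prop
  · rw [tendsto_pi_nhds]
    intro t
    have h1 := (summable_gs hRH hδL (bump_hsc hL hη t)).hasSum
    simp only [← hterm] at h1
    exact h1.comp ((tendsto_ZZ hRH).comp tendsto_natCast_atTop_atTop)

lemma key_bound {e : ℝ} {S₁ S₂ A₁ A₂ : ℂ} (h1 : ‖S₁ - A₁‖ ≤ e) (h2 : ‖S₂ - A₂‖ ≤ e) :
    ‖S₁ * S₂ - A₁ * A₂‖ ≤ e ^ 2 + e * (2 + ‖A₁‖ ^ 2 + ‖A₂‖ ^ 2) := by
  have he : 0 ≤ e := (norm_nonneg _).trans h1
  have h3 : S₁ * S₂ - A₁ * A₂ = (S₁ - A₁) * (S₂ - A₂) + A₁ * (S₂ - A₂) + (S₁ - A₁) * A₂ := by ring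
  rw [h3]
  have h4 : ‖(S₁ - A₁) * (S₂ - A₂)‖ ≤ e ^ 2 := by
    rw [norm_mul, sq]
    exact mul_le_mul h1 h2 (norm_nonneg _) he
  have h5 : ‖A₁ * (S₂ - A₂)‖ ≤ e * (1 + ‖A₁‖ ^ 2) := by
    rw [norm_mul, mul_comm]
    apply mul_le_mul h2 _ (norm_nonneg _) he
    nlinarith [norm_nonneg A₁, sq_nonneg (‖A₁‖ - 1)]
  have h6 : ‖(S₁ - A₁) * A₂‖ ≤ e * (1 + ‖A₂‖ ^ 2) := by
    rw [norm_mul]
    apply mul_le_mul h1 _ (norm_nonneg _) he
    nlinarith [norm_nonneg A₂, sq_nonneg (‖A₂‖ - 1)]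
  refine (norm_add_le _ _).trans ?_
  have h7 := norm_add_le ((S₁ - A₁) * (S₂ - A₂)) (A₁ * (S₂ - A₂))
  nlinarith

/-- The mean square of the linear statistics. -/
theorem mean_SZ (hRH : RiemannHypothesis) {η₁ η₂ : ℝ → ℂ} {δ a : ℝ} (hδ : 0 ≤ δ) (hδa : δ < a)
    (ha1 : a < 1) (h₁ : Bump δ η₁) (h₂ : Bump δ η₂) :
    Tendsto (fun T : ℝ => (1 / (T : ℂ)) * ∫ t in (T ^ a)..(T - T ^ a),
      SZ (Real.log T) η₁ t * SZ (Real.log T) η₂ t) atTop
      (𝓝 (η₁ 0 * η₂ 0 + ∫ x : ℝ, ((|x| : ℝ) : ℂ) * (η₁ x * η₂ (-x)))) := by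
  have ha : 0 < a := hδ.trans_lt hδa
  have hδ1 : δ < 1 := hδa.trans ha1
  obtain ⟨C₁, hC₁, hb₁⟩ := explicit_L hRH hδ hδ1 h₁
  obtain ⟨C₂, hC₂, hb₂⟩ := explicit_L hRH hδ hδ1 h₂
  obtain ⟨M₁, hM₁, hm₁⟩ := mean_normsq_main hδ hδ1 ha ha1 h₁
  obtain ⟨M₂, hM₂, hm₂⟩ := mean_normsq_main hδ hδ1 ha ha1 h₂
  have hmain := mean_main hδ hδ1 ha ha1 h₁ h₂
  set C := C₁ + C₂ with hC
  -- the error
  have herr : Tendsto (fun T : ℝ => (1 / (T : ℂ)) * (∫ t in (T ^ a)..(T - T ^ a),
      SZ (Real.log T) η₁ t * SZ (Real.log T) η₂ t) - (1 / (T : ℂ)) *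
      ∫ t in (T ^ a)..(T - T ^ a), AZ (Real.log T) η₁ t * AZ (Real.log T) η₂ t) atTop (𝓝 0) := by
    have hlim : Tendsto (fun T : ℝ => (C * T ^ (δ - a)) ^ 2 + C * T ^ (δ - a) * (2 + M₁ + M₂))
        atTop (𝓝 0) := by
      have h1 : Tendsto (fun T : ℝ => T ^ (δ - a)) atTop (𝓝 0) := by
        have h2 := tendsto_rpow_neg_atTop (show 0 < a - δ by linarith)
        rw [neg_sub] at h2
        exact h2
      have h3 := ((h1.const_mul C).pow 2).add ((h1.const_mul C).mul_const (2 + M₁ + M₂))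
      simpa using h3
    apply squeeze_zero_norm' _ hlim
    have hord : ∀ᶠ T : ℝ in atTop, T ^ a ≤ T - T ^ a := by
      have h1 : Tendsto (fun T : ℝ => T ^ (a - 1)) atTop (𝓝 0) := by
        have h2 := tendsto_rpow_neg_atTop (show 0 < 1 - a by linarith)
        rw [neg_sub] at h2
        exact h2
      filter_upwards [h1.eventually (ge_mem_nhds (show (0 : ℝ) < 1 / 2 by norm_num)),
        eventually_gt_atTop 0] with T hT hT0
      rw [Real.rpow_sub_one hT0.ne', div_le_iff₀ hT0] at hT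
      linarith
    filter_upwards [hm₁, hm₂, hord, eventually_ge_atTop (Real.exp 1)] with T h3 h4 h5 h6
    have hT0 : 0 < T := (Real.exp_pos 1).trans_le h6
    have hT1 : 1 ≤ T := (Real.one_le_exp zero_le_one).trans h6
    have hL : 1 ≤ Real.log T := by
      rw [← Real.log_exp 1]
      exact Real.log_le_log (Real.exp_pos 1) h6
    have hL0 : 0 < Real.log T := by linarith
    set L := Real.log T with hLdef
    have hexp : Real.exp (δ * L) = T ^ δ := by
      rw [Real.rpow_def_of_pos hT0, mul_comm]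
    have hTa : 0 < T ^ a := Real.rpow_pos_of_pos hT0 a
    -- pointwise bounds
    have hp : ∀ t : ℝ, ‖SZ L η₁ t - AZ L η₁ t‖ ≤ C * Real.exp (δ * L) / (1 + |t|) ∧
        ‖SZ L η₂ t - AZ L η₂ t‖ ≤ C * Real.exp (δ * L) / (1 + |t|) := by
      intro t
      have hpos : 0 < 1 + |t| := by positivity
      constructor
      · refine (hb₁ L hL t).trans ?_
        gcongr
        linarith
      · refine (hb₂ L hL t).trans ?_
        gcongr
        linarith
    -- integrability
    have hcA₁ := continuous_AZ L η₁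
    have hcA₂ := continuous_AZ L η₂
    have hmS : Measurable fun t => SZ L η₁ t * SZ L η₂ t - AZ L η₁ t * AZ L η₂ t :=
      ((measurable_SZ hRH hδ hL0 h₁).mul (measurable_SZ hRH hδ hL0 h₂)).sub
        (hcA₁.mul hcA₂).measurable
    have hintd : IntervalIntegrable (fun t => SZ L η₁ t * SZ L η₂ t - AZ L η₁ t * AZ L η₂ t)
        volume (T ^ a) (T - T ^ a) := by
      have hg : IntervalIntegrable (fun t => (C * Real.exp (δ * L)) ^ 2 +
          C * Real.exp (δ * L) * (2 + ‖AZ L η₁ t‖ ^ 2 + ‖AZ L η₂ t‖ ^ 2))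
          volume (T ^ a) (T - T ^ a) := by
        apply Continuous.intervalIntegrable
        fun_prop
      apply hg.mono_fun hmS.aestronglyMeasurable
      apply Eventually.of_forall
      intro t
      have hE : 0 ≤ C * Real.exp (δ * L) := by positivity
      have hle : C * Real.exp (δ * L) / (1 + |t|) ≤ C * Real.exp (δ * L) := by
        apply div_le_self hE
        linarith [abs_nonneg t]
      have h7 := key_bound ((hp t).1.trans hle) ((hp t).2.trans hle)
      simp only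
      rw [Real.norm_of_nonneg (by positivity)]
      exact h7
    have hintA : IntervalIntegrable (fun t => AZ L η₁ t * AZ L η₂ t)
        volume (T ^ a) (T - T ^ a) := (hcA₁.mul hcA₂).intervalIntegrable _ _
    have hintS : IntervalIntegrable (fun t => SZ L η₁ t * SZ L η₂ t)
        volume (T ^ a) (T - T ^ a) := by
      have := hintd.add hintA
      refine this.congr ?_
      intro t _
      simp
    rw [← mul_sub, ← intervalIntegral.integral_sub hintS hintA, norm_mul]
    have hn1 : ‖(1 / (T : ℂ))‖ = 1 / T := by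
      rw [norm_div, norm_one, norm_real, Real.norm_of_nonneg hT0.le]
    rw [hn1]
    set e := C * T ^ (δ - a) with he
    have he0 : 0 ≤ e := by positivity
    have hbd : ‖∫ t in (T ^ a)..(T - T ^ a), (SZ L η₁ t * SZ L η₂ t - AZ L η₁ t * AZ L η₂ t)‖ ≤
        ∫ t in (T ^ a)..(T - T ^ a), (e ^ 2 + e * (2 + ‖AZ L η₁ t‖ ^ 2 + ‖AZ L η₂ t‖ ^ 2)) := by
      apply intervalIntegral.norm_integral_le_of_norm_le h5
      · apply Eventually.of_forall
        intro t ht
        have ht1 : T ^ a ≤ t := ht.1.le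
        have hle : C * Real.exp (δ * L) / (1 + |t|) ≤ e := by
          rw [he, hexp, Real.rpow_sub hT0, mul_div_assoc]
          gcongr
          rw [abs_of_pos (hTa.trans_le ht1)]
          linarith
        exact key_bound ((hp t).1.trans hle) ((hp t).2.trans hle)
      · apply Continuous.intervalIntegrable
        fun_prop
    have hi1 : IntervalIntegrable (fun t => ‖AZ L η₁ t‖ ^ 2) volume (T ^ a) (T - T ^ a) := by
      apply Continuous.intervalIntegrable
      fun_prop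
    have hi2 : IntervalIntegrable (fun t => ‖AZ L η₂ t‖ ^ 2) volume (T ^ a) (T - T ^ a) := by
      apply Continuous.intervalIntegrable
      fun_prop
    have hval : ∫ t in (T ^ a)..(T - T ^ a), (e ^ 2 + e * (2 + ‖AZ L η₁ t‖ ^ 2 +
        ‖AZ L η₂ t‖ ^ 2)) = (T - T ^ a - T ^ a) * (e ^ 2 + e * 2) +
        e * (∫ t in (T ^ a)..(T - T ^ a), ‖AZ L η₁ t‖ ^ 2) +
        e * ∫ t in (T ^ a)..(T - T ^ a), ‖AZ L η₂ t‖ ^ 2 := by
      have h8 : (fun t => e ^ 2 + e * (2 + ‖AZ L η₁ t‖ ^ 2 + ‖AZ L η₂ t‖ ^ 2)) =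
          fun t => (e ^ 2 + e * 2) + e * ‖AZ L η₁ t‖ ^ 2 + e * ‖AZ L η₂ t‖ ^ 2 := by
        ext t
        ring
      rw [h8, intervalIntegral.integral_add (by
          apply IntervalIntegrable.add _ (hi1.const_mul e)
          exact intervalIntegrable_const) (hi2.const_mul e),
        intervalIntegral.integral_add intervalIntegrable_const (hi1.const_mul e),
        intervalIntegral.integral_const, intervalIntegral.integral_const_mul,
        intervalIntegral.integral_const_mul, smul_eq_mul]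
    rw [hval] at hbd
    have h9 : (T - T ^ a - T ^ a) * (e ^ 2 + e * 2) ≤ T * (e ^ 2 + e * 2) := by
      apply mul_le_mul_of_nonneg_right _ (by positivity)
      linarith
    have h10 : e * (∫ t in (T ^ a)..(T - T ^ a), ‖AZ L η₁ t‖ ^ 2) ≤ e * (M₁ * T) :=
      mul_le_mul_of_nonneg_left h3 he0
    have h11 : e * (∫ t in (T ^ a)..(T - T ^ a), ‖AZ L η₂ t‖ ^ 2) ≤ e * (M₂ * T) :=
      mul_le_mul_of_nonneg_left h4 he0
    calc 1 / T * ‖∫ t in (T ^ a)..(T - T ^ a),
          (SZ L η₁ t * SZ L η₂ t - AZ L η₁ t * AZ L η₂ t)‖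
        ≤ 1 / T * (T * (e ^ 2 + e * (2 + M₁ + M₂))) := by
          apply mul_le_mul_of_nonneg_left _ (by positivity)
          refine hbd.trans ?_
          nlinarith
      _ = e ^ 2 + e * (2 + M₁ + M₂) := by
          field_simp
  have hfin := herr.add hmain
  simp only [zero_add] at hfin
  refine hfin.congr (fun T => ?_)
  simp only [AZ]
  ring

end Pool.Agent.MP_67227b_nt.Mo
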