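import Pool.Agent.MP_67227b_nt.Mo.LamPow
import Pool.Agent.MP_67227b_nt.Mo.MeanMain

set_option autoImplicit false

open Filter Topology Set MeasureTheory Complex
open scoped Real ContDiff ArithmeticFunction

namespace Pool.Agent.MP_67227b_nt.Mo

open Pool.Agent.Lib.ZetaCount_helper33 Pool.Agent.MP_67227b_nt

namespace MomentBAux

open MeanBBAux

/-- A finite exponential sum with frequencies `-log n`. -/
noncomputable def DP (S : Finset ℕ) (a : ℕ → ℂ) (t : ℝ) : ℂ :=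
  ∑ n ∈ S, a n * E (-(Real.log n)) t

theorem DP_continuous (S : Finset ℕ) (a : ℕ → ℂ) : Continuous (DP S a) := by
  unfold DP
  exact continuous_finsetSum _ fun n _ => continuous_const.mul (E_continuous _)

theorem E_prod {q : ℕ} (l : Fin q → ℝ) (t : ℝ) : ∏ i, E (l i) t = E (∑ i, l i) t := by
  unfold E
  rw [← Complex.exp_sum]
  congr 1
  push_cast
  rw [Finset.mul_sum]

theorem E_conj (l t : ℝ) : (starRingEnd ℂ) (E l t) = E (-l) t := by
  unfold E
  rw [← Complex.exp_conj]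
  congr 1
  simp

/-- The `q`-th power. -/
theorem DP_pow (S : Finset ℕ) (a : ℕ → ℂ) (q : ℕ) (t : ℝ) :
    DP S a t ^ q = ∑ n ∈ Fintype.piFinset fun _ : Fin q => S,
      (∏ i, a (n i)) * E (-(∑ i, Real.log (n i))) t := by
  have h := Finset.prod_univ_sum (fun _ : Fin q => S) (fun _ n => a n * E (-(Real.log n)) t)
  rw [Finset.prod_const, Finset.card_univ, Fintype.card_fin] at h
  unfold DP
  rw [h]
  refine Finset.sum_congr rfl fun n _ => ?_
  rw [Finset.prod_mul_distrib, E_prod, Finset.sum_neg_distrib]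

/-- The moment as a double sum. -/
theorem int_moment (S : Finset ℕ) (a : ℕ → ℂ) (q : ℕ) (A B : ℝ) :
    ((∫ t in A..B, ‖DP S a t‖ ^ (2 * q) : ℝ) : ℂ) =
      ∑ n ∈ Fintype.piFinset fun _ : Fin q => S, ∑ m ∈ Fintype.piFinset fun _ : Fin q => S,
        (∏ i, a (n i)) * (starRingEnd ℂ) (∏ i, a (m i)) *
          ∫ t in A..B, E (∑ i, Real.log (m i) - ∑ i, Real.log (n i)) t := by
  rw [← intervalIntegral.integral_ofReal]
  have h1 : ∀ t : ℝ, ((‖DP S a t‖ ^ (2 * q) : ℝ) : ℂ) =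
      ∑ n ∈ Fintype.piFinset fun _ : Fin q => S, ∑ m ∈ Fintype.piFinset fun _ : Fin q => S,
        (∏ i, a (n i)) * (starRingEnd ℂ) (∏ i, a (m i)) *
          E (∑ i, Real.log (m i) - ∑ i, Real.log (n i)) t := by
    intro t
    have h2 : ((‖DP S a t‖ ^ (2 * q) : ℝ) : ℂ) =
        DP S a t ^ q * (starRingEnd ℂ) (DP S a t ^ q) := by
      rw [Complex.mul_conj, Complex.normSq_eq_norm_sq, norm_pow, ← pow_mul, mul_comm q 2]
    rw [h2, DP_pow, map_sum, Finset.sum_mul_sum]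
    refine Finset.sum_congr rfl fun n _ => Finset.sum_congr rfl fun m _ => ?_
    rw [map_mul, E_conj, neg_neg, sub_eq_add_neg, ← E_mul]
    ring
  simp only [h1]
  rw [intervalIntegral.integral_finsetSum]
  · refine Finset.sum_congr rfl fun n _ => ?_
    rw [intervalIntegral.integral_finsetSum]
    · refine Finset.sum_congr rfl fun m _ => ?_
      rw [intervalIntegral.integral_const_mul]
    · intro m _
      exact (continuous_const.mul (E_continuous _)).intervalIntegrable _ _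
  · intro n _
    exact (continuous_finsetSum _ fun m _ =>
      continuous_const.mul (E_continuous _)).intervalIntegrable _ _

/-- `|log N - log M|` from below. -/
theorem log_sub_log {N M : ℕ} {Y : ℝ} (hN : 1 ≤ N) (hM : 1 ≤ M) (hNY : (N : ℝ) ≤ Y)
    (hMY : (M : ℝ) ≤ Y) (h : N ≠ M) : 1 / Y ≤ |Real.log M - Real.log N| := by
  wlog hlt : N < M generalizing N M
  · rw [abs_sub_comm]
    exact this hM hN hMY hNY h.symm (lt_of_le_of_ne (not_lt.1 hlt) h.symm)
  have hN0 : (0 : ℝ) < N := by exact_mod_cast hN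
  have hM0 : (0 : ℝ) < M := by exact_mod_cast hM
  have hY : 0 < Y := hM0.trans_le hMY
  have hlt' : (N : ℝ) + 1 ≤ M := by exact_mod_cast hlt
  refine le_trans ?_ (le_abs_self _)
  rw [← Real.log_div hM0.ne' hN0.ne']
  have h1 := Real.one_sub_inv_le_log_of_pos (div_pos hM0 hN0)
  refine le_trans ?_ h1
  rw [inv_div]
  have : 1 / Y ≤ 1 / (M : ℝ) := one_div_le_one_div_of_le hM0 hMY
  refine this.trans ?_
  rw [div_le_iff₀ hM0, sub_mul, div_mul_cancel₀ _ hM0.ne']
  linarith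

/-- Bound for the moments of a finite exponential sum. -/
theorem moment_le (q N : ℕ) (S : Finset ℕ) (hS : S ⊆ Finset.range (N + 1)) (hS1 : ∀ n ∈ S, 1 ≤ n)
    (a : ℕ → ℂ) {Y K L B : ℝ} (hY : 1 ≤ Y) (hSY : ∀ n ∈ S, (n : ℝ) ≤ Y) (hL : 0 < L)
    (hYL : Real.log Y ≤ L) (hK : 0 ≤ K)
    (hB : 0 ≤ B) (ha : ∀ n ∈ S, ‖a n‖ ≤ K / L * (Λ n / Real.sqrt n)) :
    ∫ t in (0 : ℝ)..B, ‖DP S a t‖ ^ (2 * q) ≤
      B * ((K / L) ^ 2 * (∑ n ∈ S, Λ n / n) * (q * L)) ^ q +
        2 * Y ^ q * (∑ n ∈ S, ‖a n‖) ^ (2 * q) := by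
  classical
  set P := Fintype.piFinset fun _ : Fin q => S with hP
  have hmem : ∀ n ∈ P, ∀ i, n i ∈ S := fun n hn => Fintype.mem_piFinset.1 hn
  have hpos : ∀ n ∈ P, 1 ≤ ∏ i, n i := fun n hn =>
    Finset.one_le_prod' fun i _ => hS1 _ (hmem n hn i)
  have hle : ∀ n ∈ P, ((∏ i, n i : ℕ) : ℝ) ≤ Y ^ q := by
    intro n hn
    push_cast
    calc ∏ i, (n i : ℝ) ≤ ∏ _i : Fin q, Y :=
          Finset.prod_le_prod (fun i _ => Nat.cast_nonneg _) fun i _ => hSY _ (hmem n hn i)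
      _ = Y ^ q := by simp
  have hlog : ∀ n ∈ P, ∑ i, Real.log (n i) = Real.log ((∏ i, n i : ℕ) : ℝ) := by
    intro n hn
    push_cast
    rw [Real.log_prod]
    intro i _
    have := hS1 _ (hmem n hn i)
    have : (0 : ℝ) < n i := by exact_mod_cast this
    exact this.ne'
  have hYq : (1 : ℝ) ≤ Y ^ q := one_le_pow₀ hY
  -- one pair
  have hpair : ∀ n ∈ P, ∀ m ∈ P,
      ‖∫ t in (0 : ℝ)..B, E (∑ i, Real.log (m i) - ∑ i, Real.log (n i)) t‖ ≤
        (if ∏ i, m i = ∏ i, n i then B else 0) + 2 * Y ^ q := by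
    intro n hn m hm
    rw [hlog n hn, hlog m hm]
    split_ifs with h
    · rw [h, sub_self, int_E_zero, sub_zero, Complex.norm_real, Real.norm_of_nonneg hB]
      have : 0 ≤ 2 * Y ^ q := by positivity
      linarith
    · rw [zero_add]
      have h1 := log_sub_log (hpos n hn) (hpos m hm) (hle n hn) (hle m hm) (Ne.symm h)
      have h2 : 0 < |Real.log ((∏ i, m i : ℕ) : ℝ) - Real.log ((∏ i, n i : ℕ) : ℝ)| :=
        lt_of_lt_of_le (by positivity) h1
      refine (int_E_le (abs_pos.1 h2) _ _).trans ?_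
      rw [div_le_iff₀ h2]
      have h3 := mul_le_mul_of_nonneg_left h1 (show 0 ≤ 2 * Y ^ q by positivity)
      have h4 : 2 * Y ^ q * (1 / Y ^ q) = 2 := by field_simp
      linarith
  have hprod : ∀ f : ℕ → ℝ, ∑ n ∈ P, ∏ i, f (n i) = (∑ n ∈ S, f n) ^ q := by
    intro f
    have h := Finset.prod_univ_sum (fun _ : Fin q => S) (fun _ n => f n)
    rw [Finset.prod_const, Finset.card_univ, Fintype.card_fin] at h
    exact h.symm
  have hKL : 0 ≤ K / L := div_nonneg hK hL.le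
  have hA : ∀ m ∈ P, ‖∏ i, a (m i)‖ ≤ (K / L) ^ q * (∏ i, Λ (m i)) / Real.sqrt (∏ i, m i : ℕ) := by
    intro m hm
    rw [norm_prod]
    calc ∏ i, ‖a (m i)‖ ≤ ∏ i, (K / L * (Λ (m i) / Real.sqrt (m i))) :=
          Finset.prod_le_prod (fun i _ => norm_nonneg _) fun i _ => ha _ (hmem m hm i)
      _ = _ := by
          rw [Finset.prod_mul_distrib, Finset.prod_const, Finset.card_univ, Fintype.card_fin,
            Finset.prod_div_distrib, mul_div_assoc]
          congr 2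
          push_cast
          rw [Real.sqrt_eq_rpow, ← Real.finset_prod_rpow _ _ (fun i _ => Nat.cast_nonneg _)]
          exact Finset.prod_congr rfl fun i _ => Real.sqrt_eq_rpow _
  -- the diagonal
  have hin : ∀ n ∈ P, ∑ m ∈ P, ‖∏ i, a (m i)‖ * (if ∏ i, m i = ∏ i, n i then B else 0) ≤
      B * ((K / L) ^ q * (q * L) ^ q / Real.sqrt (∏ i, n i : ℕ)) := by
    intro n hn
    have hn0 : (0 : ℝ) < ((∏ i, n i : ℕ) : ℝ) := by exact_mod_cast hpos n hn
    have hs0 : 0 < Real.sqrt ((∏ i, n i : ℕ) : ℝ) := Real.sqrt_pos.2 hn0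
    calc ∑ m ∈ P, ‖∏ i, a (m i)‖ * (if ∏ i, m i = ∏ i, n i then B else 0)
        ≤ ∑ m ∈ P.filter (fun m => ∏ i, m i = ∏ i, n i),
            B * ((K / L) ^ q * (∏ i, Λ (m i)) / Real.sqrt (∏ i, n i : ℕ)) := by
          rw [Finset.sum_filter]
          refine Finset.sum_le_sum fun m hm => ?_
          split_ifs with h
          · rw [mul_comm]
            refine mul_le_mul_of_nonneg_left ?_ hB
            rw [← h]
            exact hA m hm
          · rw [mul_zero]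
      _ = B * ((K / L) ^ q / Real.sqrt (∏ i, n i : ℕ)) *
            ∑ m ∈ P.filter (fun m => ∏ i, m i = ∏ i, n i), ∏ i, Λ (m i) := by
          rw [Finset.mul_sum]
          exact Finset.sum_congr rfl fun m _ => by ring
      _ ≤ B * ((K / L) ^ q / Real.sqrt (∏ i, n i : ℕ)) * (q * L) ^ q := by
          refine mul_le_mul_of_nonneg_left ?_ (by positivity)
          calc ∑ m ∈ P.filter (fun m => ∏ i, m i = ∏ i, n i), ∏ i, Λ (m i)
              ≤ ∑ m ∈ (Fintype.piFinset fun _ : Fin q => Finset.range (N + 1)).filter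
                  (fun m => ∏ i, m i = ∏ i, n i), ∏ i, Λ (m i) := by
                refine Finset.sum_le_sum_of_subset_of_nonneg ?_ fun m _ _ =>
                  Finset.prod_nonneg fun i _ => ArithmeticFunction.vonMangoldt_nonneg
                refine Finset.filter_subset_filter _ ?_
                intro m hm
                exact Fintype.mem_piFinset.2 fun i => hS (hmem m hm i)
            _ ≤ Real.log ((∏ i, n i : ℕ) : ℝ) ^ q :=
                sum_prod_lam_le q N _ (Nat.pos_iff_ne_zero.1 (hpos n hn))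
            _ ≤ (q * L) ^ q := by
                refine pow_le_pow_left₀ (Real.log_natCast_nonneg _) ?_ q
                calc Real.log ((∏ i, n i : ℕ) : ℝ) ≤ Real.log (Y ^ q) :=
                      Real.log_le_log hn0 (hle n hn)
                  _ = q * Real.log Y := by rw [Real.log_pow]
                  _ ≤ q * L := by gcongr
      _ = _ := by ring
  have hdiag : ∑ n ∈ P, ‖∏ i, a (n i)‖ *
      ∑ m ∈ P, ‖∏ i, a (m i)‖ * (if ∏ i, m i = ∏ i, n i then B else 0) ≤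
      B * ((K / L) ^ 2 * (∑ n ∈ S, Λ n / n) * (q * L)) ^ q := by
    calc ∑ n ∈ P, ‖∏ i, a (n i)‖ *
          ∑ m ∈ P, ‖∏ i, a (m i)‖ * (if ∏ i, m i = ∏ i, n i then B else 0)
        ≤ ∑ n ∈ P, ((K / L) ^ q * (∏ i, Λ (n i)) / Real.sqrt (∏ i, n i : ℕ)) *
            (B * ((K / L) ^ q * (q * L) ^ q / Real.sqrt (∏ i, n i : ℕ))) := by
          refine Finset.sum_le_sum fun n hn => ?_
          refine mul_le_mul (hA n hn) (hin n hn) ?_ ?_
          · refine Finset.sum_nonneg fun m _ => mul_nonneg (norm_nonneg _) ?_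
            split_ifs
            · exact hB
            · exact le_rfl
          · exact (norm_nonneg _).trans (hA n hn)
      _ = B * ((K / L) ^ 2 * (q * L)) ^ q * ∑ n ∈ P, ∏ i, (Λ (n i) / (n i : ℝ)) := by
          rw [Finset.mul_sum]
          refine Finset.sum_congr rfl fun n hn => ?_
          have hn0 : (0 : ℝ) < ((∏ i, n i : ℕ) : ℝ) := by exact_mod_cast hpos n hn
          have hs0 : 0 < Real.sqrt ((∏ i, n i : ℕ) : ℝ) := Real.sqrt_pos.2 hn0
          have hs : Real.sqrt ((∏ i, n i : ℕ) : ℝ) ^ 2 = ∏ i, (n i : ℝ) := by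
            rw [Real.sq_sqrt hn0.le]; push_cast; rfl
          have e : ((K / L) ^ 2 * (q * L)) ^ q = (K / L) ^ q * (K / L) ^ q * (q * L) ^ q := by
            rw [mul_pow, ← pow_mul, two_mul, pow_add]
          rw [Finset.prod_div_distrib, ← hs, e]
          generalize (K / L) ^ q = r
          generalize (q * L) ^ q = u
          field_simp
      _ = _ := by
          rw [hprod (fun n => Λ n / n)]
          rw [mul_assoc, ← mul_pow]
          congr 2
          ring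
  -- conclusion
  have h0 : 0 ≤ ∫ t in (0 : ℝ)..B, ‖DP S a t‖ ^ (2 * q) :=
    intervalIntegral.integral_nonneg hB fun t _ => by positivity
  have h1 : ∫ t in (0 : ℝ)..B, ‖DP S a t‖ ^ (2 * q) =
      ‖((∫ t in (0 : ℝ)..B, ‖DP S a t‖ ^ (2 * q) : ℝ) : ℂ)‖ := by
    rw [Complex.norm_real, Real.norm_of_nonneg h0]
  rw [h1, int_moment]
  calc _ ≤ ∑ n ∈ P, ∑ m ∈ P, ‖∏ i, a (n i)‖ * ‖∏ i, a (m i)‖ *
        ((if ∏ i, m i = ∏ i, n i then B else 0) + 2 * Y ^ q) := by
        refine (norm_sum_le _ _).trans (Finset.sum_le_sum fun n hn => ?_)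
        refine (norm_sum_le _ _).trans (Finset.sum_le_sum fun m hm => ?_)
        rw [norm_mul, norm_mul, RCLike.norm_conj]
        exact mul_le_mul_of_nonneg_left (hpair n hn m hm) (by positivity)
    _ = ∑ n ∈ P, ‖∏ i, a (n i)‖ *
          (∑ m ∈ P, ‖∏ i, a (m i)‖ * (if ∏ i, m i = ∏ i, n i then B else 0)) +
        2 * Y ^ q * ((∑ n ∈ P, ‖∏ i, a (n i)‖) * ∑ m ∈ P, ‖∏ i, a (m i)‖) := by
        rw [Finset.sum_mul_sum, Finset.mul_sum, ← Finset.sum_add_distrib]
        refine Finset.sum_congr rfl fun n _ => ?_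
        rw [Finset.mul_sum, Finset.mul_sum, ← Finset.sum_add_distrib]
        refine Finset.sum_congr rfl fun m _ => ?_
        ring
    _ ≤ _ := by
        refine add_le_add hdiag (le_of_eq ?_)
        have h2 : ∑ n ∈ P, ‖∏ i, a (n i)‖ = (∑ n ∈ S, ‖a n‖) ^ q := by
          rw [← hprod]
          exact Finset.sum_congr rfl fun n _ => norm_prod _ _
        rw [h2, ← pow_add, two_mul q]

/-- Bound for a short sum with the coefficients of the prime polynomial. -/
theorem moment_short (q : ℕ) {K δ T L : ℝ} (hK : 0 ≤ K) (hδ : 0 ≤ δ) (hδ1 : δ ≤ 1 / (3 * q + 1))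
    (hT : 1 ≤ T) (hL : 6 ≤ L) (hLT : L = Real.log T) (a : ℕ → ℂ)
    (ha : ∀ n ∈ Finset.Ioc 0 ⌊T ^ δ⌋₊, ‖a n‖ ≤ K / L * (Λ n / Real.sqrt n)) :
    ∫ t in (0 : ℝ)..(2 * T), ‖DP (Finset.Ioc 0 ⌊T ^ δ⌋₊) a t‖ ^ (2 * q) ≤
      (2 * (2 * q * K ^ 2) ^ q + 2 * K ^ (2 * q)) * T := by
  have hT0 : 0 < T := by linarith
  have hL0 : 0 < L := by linarith
  have hq3 : (0 : ℝ) < 3 * q + 1 := by positivity
  have hδle : δ ≤ 1 := by
    refine hδ1.trans ?_
    rw [div_le_one hq3]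
    have : (0 : ℝ) ≤ q := Nat.cast_nonneg q
    linarith
  have hY1 : 1 ≤ T ^ δ := Real.one_le_rpow hT hδ
  have hYT : T ^ δ ≤ T := by
    calc T ^ δ ≤ T ^ (1 : ℝ) := Real.rpow_le_rpow_of_exponent_le hT hδle
      _ = T := Real.rpow_one T
  have hN1 : 1 ≤ ⌊T ^ δ⌋₊ := Nat.le_floor (by exact_mod_cast hY1)
  have hSY : ∀ n ∈ Finset.Ioc 0 ⌊T ^ δ⌋₊, (n : ℝ) ≤ T ^ δ := by
    intro n hn
    exact (Nat.le_floor_iff (by positivity)).1 (Finset.mem_Ioc.1 hn).2
  have hlogY : Real.log (T ^ δ) ≤ L := by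
    rw [hLT]
    exact Real.log_le_log (by positivity) hYT
  have h1 := moment_le q ⌊T ^ δ⌋₊ (Finset.Ioc 0 ⌊T ^ δ⌋₊)
    (fun n hn => Finset.mem_range.2 (Nat.lt_succ_of_le (Finset.mem_Ioc.1 hn).2))
    (fun n hn => (Finset.mem_Ioc.1 hn).1) a (B := 2 * T) hY1 hSY hL0 hlogY hK (by linarith) ha
  refine h1.trans ?_
  rw [add_mul]
  refine add_le_add ?_ ?_
  · -- the diagonal
    have hM : ∑ n ∈ Finset.Ioc 0 ⌊T ^ δ⌋₊, Λ n / n ≤ 2 * L := by
      have h2 := Pool.Agent.BrunHooley.MertensAux.M_le ⌊T ^ δ⌋₊ (by omega)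
      have h3 : Real.log ⌊T ^ δ⌋₊ ≤ L := by
        refine le_trans ?_ hlogY
        refine Real.log_le_log (by exact_mod_cast hN1) (Nat.floor_le (by positivity))
      have h4 : Real.log 4 ≤ 2 := by
        have : Real.log 4 = 2 * Real.log 2 := by
          rw [show (4 : ℝ) = 2 ^ 2 by norm_num, Real.log_pow]; norm_num
        rw [this]
        have := Real.log_two_lt_d9
        linarith
      have h5 : Pool.Agent.BrunHooley.MertensAux.M ⌊T ^ δ⌋₊ =
          ∑ n ∈ Finset.Ioc 0 ⌊T ^ δ⌋₊, Λ n / n := rfl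
      rw [← h5]
      linarith
    have hM0 : 0 ≤ ∑ n ∈ Finset.Ioc 0 ⌊T ^ δ⌋₊, Λ n / n := Finset.sum_nonneg fun n _ =>
      div_nonneg ArithmeticFunction.vonMangoldt_nonneg (Nat.cast_nonneg n)
    have h6 : (K / L) ^ 2 * (∑ n ∈ Finset.Ioc 0 ⌊T ^ δ⌋₊, Λ n / n) * (q * L) ≤
        2 * q * K ^ 2 := by
      calc (K / L) ^ 2 * (∑ n ∈ Finset.Ioc 0 ⌊T ^ δ⌋₊, Λ n / n) * (q * L)
          ≤ (K / L) ^ 2 * (2 * L) * (q * L) := by gcongr
        _ = 2 * q * K ^ 2 := by field_simp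
    calc 2 * T * ((K / L) ^ 2 * (∑ n ∈ Finset.Ioc 0 ⌊T ^ δ⌋₊, Λ n / n) * (q * L)) ^ q
        ≤ 2 * T * (2 * q * K ^ 2) ^ q := by gcongr
      _ = 2 * (2 * q * K ^ 2) ^ q * T := by ring
  · -- off the diagonal
    have h2 : ∑ n ∈ Finset.Ioc 0 ⌊T ^ δ⌋₊, ‖a n‖ ≤ K * T ^ δ := by
      calc ∑ n ∈ Finset.Ioc 0 ⌊T ^ δ⌋₊, ‖a n‖ ≤ ∑ n ∈ Finset.Ioc 0 ⌊T ^ δ⌋₊, K := by
            refine Finset.sum_le_sum fun n hn => (ha n hn).trans ?_
            have hn1 : 1 ≤ n := (Finset.mem_Ioc.1 hn).1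
            have hn1' : (1 : ℝ) ≤ n := by exact_mod_cast hn1
            have hsq : 1 ≤ Real.sqrt n := by
              rw [← Real.sqrt_one]; exact Real.sqrt_le_sqrt hn1'
            have hlam : Λ n ≤ L := by
              refine ArithmeticFunction.vonMangoldt_le_log.trans (le_trans ?_ hlogY)
              exact Real.log_le_log (by linarith) (hSY n hn)
            have h3 : Λ n / Real.sqrt n ≤ L := by
              refine le_trans (div_le_self ArithmeticFunction.vonMangoldt_nonneg hsq) hlam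
            calc K / L * (Λ n / Real.sqrt n) ≤ K / L * L := by gcongr
              _ = K := by field_simp
        _ = ⌊T ^ δ⌋₊ * K := by rw [Finset.sum_const, Nat.card_Ioc, nsmul_eq_mul, Nat.sub_zero]
        _ ≤ K * T ^ δ := by
            rw [mul_comm]
            exact mul_le_mul_of_nonneg_left (Nat.floor_le (by positivity)) hK
    have h3 : (T ^ δ) ^ q * (T ^ δ) ^ (2 * q) ≤ T := by
      rw [← pow_add, ← Real.rpow_natCast, ← Real.rpow_mul hT0.le]
      calc T ^ (δ * ((q + 2 * q : ℕ) : ℝ)) ≤ T ^ (1 : ℝ) := by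
            refine Real.rpow_le_rpow_of_exponent_le hT ?_
            push_cast
            calc δ * ((q : ℝ) + 2 * q) ≤ 1 / (3 * q + 1) * ((q : ℝ) + 2 * q) := by gcongr
              _ ≤ 1 := by
                rw [one_div, inv_mul_le_iff₀ hq3]
                linarith
        _ = T := Real.rpow_one T
    have h0 : 0 ≤ ∑ n ∈ Finset.Ioc 0 ⌊T ^ δ⌋₊, ‖a n‖ := Finset.sum_nonneg fun n _ => norm_nonneg _
    calc 2 * (T ^ δ) ^ q * (∑ n ∈ Finset.Ioc 0 ⌊T ^ δ⌋₊, ‖a n‖) ^ (2 * q)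
        ≤ 2 * (T ^ δ) ^ q * (K * T ^ δ) ^ (2 * q) := by gcongr
      _ = 2 * K ^ (2 * q) * ((T ^ δ) ^ q * (T ^ δ) ^ (2 * q)) := by rw [mul_pow]; ring
      _ ≤ 2 * K ^ (2 * q) * T := by gcongr

end MomentBAux

open MomentBAux MeanBBAux

/-- The moments of the prime polynomial are bounded if it is short. -/
theorem moment_BT (q : ℕ) : ∃ δ₀ : ℝ, 0 < δ₀ ∧ ∀ (η : ℝ → ℂ) (δ : ℝ), 0 ≤ δ → δ ≤ δ₀ →
    Bump δ η → ∃ C : ℝ, 0 < C ∧ ∀ᶠ T : ℝ in atTop,
      ∫ t in (0 : ℝ)..(2 * T), ‖BT (Real.log T) η t‖ ^ (2 * q) ≤ C * T := by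
  refine ⟨1 / (3 * q + 1), by positivity, ?_⟩
  intro η δ hδ hδ1 hη
  obtain ⟨K, hK0, hK⟩ := bump_bdd hη
  set C₁ : ℝ := 2 * (2 * q * K ^ 2) ^ q + 2 * K ^ (2 * q) with hC₁
  have hC₁0 : 0 < C₁ := by positivity
  refine ⟨2 ^ (2 * q - 1) * (C₁ + C₁), by positivity, ?_⟩
  filter_upwards [eventually_ge_atTop (1 : ℝ), Real.tendsto_log_atTop.eventually_ge_atTop 6]
    with T hT hL
  have hT0 : 0 < T := by linarith
  set L := Real.log T with hLdef
  have hL0 : 0 < L := by linarith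
  have hq3 : (0 : ℝ) < 3 * q + 1 := by positivity
  have hδle : δ ≤ 1 := by
    refine hδ1.trans ?_
    rw [div_le_one hq3]
    have : (0 : ℝ) ≤ q := Nat.cast_nonneg q
    linarith
  have hYT : T ^ δ ≤ T := by
    calc T ^ δ ≤ T ^ (1 : ℝ) := Real.rpow_le_rpow_of_exponent_le hT hδle
      _ = T := Real.rpow_one T
  have hN : ⌊T ^ δ⌋₊ ≤ ⌊Real.exp L⌋₊ := by
    rw [hLdef, Real.exp_log hT0]
    exact Nat.floor_le_floor hYT
  have hN2 : Real.exp (δ * L) < (⌊T ^ δ⌋₊ : ℝ) + 1 := by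
    rw [hLdef, mul_comm, ← Real.rpow_def_of_pos hT0]
    exact Nat.lt_floor_add_one _
  set S := Finset.Ioc 0 ⌊T ^ δ⌋₊ with hS
  let a : ℕ → ℂ := fun n => -(1 / L : ℂ) * ((cf n : ℂ) * η (Real.log n / L))
  let b : ℕ → ℂ := fun n => -(1 / L : ℂ) * ((cf n : ℂ) * (starRingEnd ℂ) (η (-(Real.log n / L))))
  have hcoef : ∀ (n : ℕ) (z : ℂ), ‖z‖ ≤ K →
      ‖-(1 / L : ℂ) * ((cf n : ℂ) * z)‖ ≤ K / L * (Λ n / Real.sqrt n) := by
    intro n z hz
    rw [norm_mul, norm_mul, norm_neg, norm_div, norm_one, Complex.norm_real, Complex.norm_real,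
      Real.norm_of_nonneg hL0.le, Real.norm_of_nonneg (cf_nonneg n)]
    calc 1 / L * (cf n * ‖z‖) ≤ 1 / L * (cf n * K) := by
          have := cf_nonneg n
          gcongr
      _ = K / L * (Λ n / Real.sqrt n) := by unfold cf; ring
  have hBT : ∀ t : ℝ, BT L η t = DP S a t + (starRingEnd ℂ) (DP S b t) := by
    intro t
    rw [BT_eq hη hL0 hN hN2]
    have h1 : ∑ n ∈ Finset.range (⌊T ^ δ⌋₊ + 1), tm L η n t = ∑ n ∈ S, tm L η n t := by
      symm
      refine Finset.sum_subset ?_ ?_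
      · intro n hn
        exact Finset.mem_range.2 (Nat.lt_succ_of_le (Finset.mem_Ioc.1 hn).2)
      · intro n hn hn2
        have hn0 : n = 0 := by
          by_contra h
          exact hn2 (Finset.mem_Ioc.2 ⟨Nat.pos_of_ne_zero h,
            Nat.lt_succ_iff.1 (Finset.mem_range.1 hn)⟩)
        subst hn0
        simp [tm, cf]
    rw [h1]
    unfold DP
    rw [map_sum, Finset.mul_sum, ← Finset.sum_add_distrib]
    refine Finset.sum_congr rfl fun n _ => ?_
    simp only [a, b, tm, map_mul, map_neg, map_div₀, map_one, Complex.conj_ofReal,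
      Complex.conj_conj, E_conj, neg_neg]
    ring
  have hpt : ∀ t : ℝ, ‖BT L η t‖ ^ (2 * q) ≤
      2 ^ (2 * q - 1) * (‖DP S a t‖ ^ (2 * q) + ‖DP S b t‖ ^ (2 * q)) := by
    intro t
    rw [hBT]
    refine (pow_le_pow_left₀ (norm_nonneg _) (norm_add_le _ _) _).trans ?_
    rw [RCLike.norm_conj]
    exact add_pow_le (norm_nonneg _) (norm_nonneg _) _
  have hca : Continuous fun t => ‖DP S a t‖ ^ (2 * q) := (DP_continuous S a).norm.pow _
  have hcb : Continuous fun t => ‖DP S b t‖ ^ (2 * q) := (DP_continuous S b).norm.pow _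
  have hma := moment_short q hK0.le hδ hδ1 hT hL hLdef a
    (fun n _ => hcoef n _ (hK _))
  have hmb := moment_short q hK0.le hδ hδ1 hT hL hLdef b
    (fun n _ => hcoef n _ (by rw [RCLike.norm_conj]; exact hK _))
  calc ∫ t in (0 : ℝ)..(2 * T), ‖BT L η t‖ ^ (2 * q)
      ≤ ∫ t in (0 : ℝ)..(2 * T), 2 ^ (2 * q - 1) *
          (‖DP S a t‖ ^ (2 * q) + ‖DP S b t‖ ^ (2 * q)) := by
        refine intervalIntegral.integral_mono_on (by linarith) ?_ ?_ fun t _ => hpt t
        · exact ((MeanMainAux.continuous_BT L η).norm.pow _).intervalIntegrable _ _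
        · exact (continuous_const.mul (hca.add hcb)).intervalIntegrable _ _
    _ = 2 ^ (2 * q - 1) * ((∫ t in (0 : ℝ)..(2 * T), ‖DP S a t‖ ^ (2 * q)) +
          ∫ t in (0 : ℝ)..(2 * T), ‖DP S b t‖ ^ (2 * q)) := by
        rw [intervalIntegral.integral_const_mul, intervalIntegral.integral_add
          (hca.intervalIntegrable _ _) (hcb.intervalIntegrable _ _)]
    _ ≤ 2 ^ (2 * q - 1) * (C₁ * T + C₁ * T) := by
        gcongr
    _ = _ := by ring

end Pool.Agent.MP_67227b_nt.Mo
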