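import Pool.Agent.MP_67227b_nt.RegDefs67
import Pool.Agent.MP_67227b_nt.Mo.MomentB
import Pool.Agent.MP_67227b_nt.Mo.Compare
import Pool.Agent.MP_67227b_nt.Mo.Edge

set_option autoImplicit false

open Filter Topology Set MeasureTheory Complex
open scoped Real ContDiff ArithmeticFunction Convolution

namespace Pool.Agent.MP_67227b_nt.Mo

open Pool.Agent.Lib.ZetaCount_helper33 Pool.Agent.MP_67227b_nt

namespace CM11

open DecayAux

/-- The transform of the convolution square. -/
lemma gs_conv {η : ℝ → ℂ} {ε : ℝ} (hη : Bump ε η) (z : ℂ) :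
    gs (η ⋆[ContinuousLinearMap.mul ℝ ℂ, volume] η) z = gs η z * gs η z := by
  set e : ℝ → ℂ := fun v => Complex.exp (2 * π * I * v * z) with he
  have hint : Integrable (fun v => η v * e v) := by
    apply bump_integrable_mul hη
    exact continuous_kernel z
  have h1 : ∀ v : ℝ, (η ⋆[ContinuousLinearMap.mul ℝ ℂ, volume] η) v * e v =
      ((fun v => η v * e v) ⋆[ContinuousLinearMap.mul ℝ ℂ, volume] (fun v => η v * e v)) v := by
    intro v
    simp only [MeasureTheory.convolution, ContinuousLinearMap.mul_apply']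
    rw [← integral_mul_const]
    apply integral_congr_ae
    apply Eventually.of_forall
    intro t
    simp only [he]
    have : Complex.exp (2 * π * I * v * z) = Complex.exp (2 * π * I * t * z) *
        Complex.exp (2 * π * I * ((v - t : ℝ) : ℂ) * z) := by
      rw [← Complex.exp_add]
      congr 1
      push_cast
      ring
    rw [this]
    ring
  unfold gs
  have h2 : ∫ v : ℝ, (η ⋆[ContinuousLinearMap.mul ℝ ℂ, volume] η) v *
      Complex.exp (2 * π * I * v * z) =
      ∫ v : ℝ, ((fun v => η v * e v) ⋆[ContinuousLinearMap.mul ℝ ℂ, volume]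
        (fun v => η v * e v)) v := by
    apply integral_congr_ae
    apply Eventually.of_forall
    intro v
    exact h1 v
  rw [h2, integral_convolution _ hint hint, ContinuousLinearMap.mul_apply']

lemma bump_conv {η : ℝ → ℂ} {ε : ℝ} (hη : Bump ε η) :
    Bump (2 * ε) (η ⋆[ContinuousLinearMap.mul ℝ ℂ, volume] η) where
  smooth := by
    apply HasCompactSupport.contDiff_convolution_right
    · exact bump_hasCompactSupport hη
    · exact (bump_integrable hη).locallyIntegrable
    · exact hη.smooth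
  supp := by
    intro v hv
    simp only [MeasureTheory.convolution, ContinuousLinearMap.mul_apply']
    rw [integral_eq_zero_of_ae]
    apply Eventually.of_forall
    intro t
    simp only [Pi.zero_apply]
    by_cases ht : ε < |t|
    · rw [hη.supp t ht, zero_mul]
    · rw [hη.supp (v - t), mul_zero]
      have := abs_sub_abs_le_abs_sub v t
      linarith [not_lt.1 ht]

lemma bump_smul {η : ℝ → ℂ} {ε : ℝ} (hη : Bump ε η) (c : ℝ) :
    Bump ε (fun v => (c : ℂ) * η v) where
  smooth := contDiff_const.mul hη.smooth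
  supp := by
    intro v hv
    rw [hη.supp v hv, mul_zero]

lemma gs_smul (η : ℝ → ℂ) (c : ℝ) (z : ℂ) :
    gs (fun v => (c : ℂ) * η v) z = c * gs η z := by
  unfold gs
  rw [← integral_const_mul]
  apply integral_congr_ae
  apply Eventually.of_forall
  intro v
  simp only
  ring

/-- A real even bump function whose transform is real and bounded below on `[-1, 1]`. -/
lemma exists_base {ε : ℝ} (hε : 0 < ε) (hε2 : ε ≤ 1 / 20) : ∃ η : ℝ → ℂ, Bump ε η ∧
    ∃ m : ℝ, 0 < m ∧ ∀ x : ℝ, (gs η (x : ℂ)).im = 0 ∧ (|x| ≤ 1 → m ≤ (gs η (x : ℂ)).re) := by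
  let f : ContDiffBump (0 : ℝ) := ⟨ε / 2, ε, by linarith, by linarith⟩
  have hb : Bump ε (fun v => ((f v : ℝ) : ℂ)) := by
    refine ⟨ofRealCLM.contDiff.comp f.contDiff, ?_⟩
    intro v hv
    have : f v = 0 := f.zero_of_le_dist (by rw [Real.dist_eq, sub_zero]; exact hv.le)
    simp [this]
  have hfi : Integrable (fun v => f v) := f.continuous.integrable_of_hasCompactSupport f.hasCompactSupport
  have hpos : 0 < ∫ v, f v := f.integral_pos
  refine ⟨_, hb, (1 / 2) * ∫ v, f v, by positivity, fun x => ?_⟩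
  have hI : Integrable (fun v : ℝ => ((f v : ℝ) : ℂ) * Complex.exp (2 * π * I * v * (x : ℂ))) :=
    bump_integrable_mul hb (continuous_kernel _)
  have hkre : ∀ v : ℝ, (Complex.exp (2 * π * I * v * (x : ℂ))).re = Real.cos (2 * π * v * x) := by
    intro v
    rw [show 2 * (π : ℂ) * I * v * (x : ℂ) = ((2 * π * v * x : ℝ) : ℂ) * I by push_cast; ring]
    rw [Complex.exp_ofReal_mul_I_re]
  have hkim : ∀ v : ℝ, (Complex.exp (2 * π * I * v * (x : ℂ))).im = Real.sin (2 * π * v * x) := by
    intro v
    rw [show 2 * (π : ℂ) * I * v * (x : ℂ) = ((2 * π * v * x : ℝ) : ℂ) * I by push_cast; ring]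
    rw [Complex.exp_ofReal_mul_I_im]
  have hre : (gs (fun v => ((f v : ℝ) : ℂ)) (x : ℂ)).re = ∫ v, f v * Real.cos (2 * π * v * x) := by
    unfold gs
    have := integral_re hI
    simp only [RCLike.re_eq_complex_re] at this
    rw [← this]
    apply integral_congr_ae
    apply Eventually.of_forall
    intro v
    simp only
    rw [Complex.re_ofReal_mul, hkre v]
  have him : (gs (fun v => ((f v : ℝ) : ℂ)) (x : ℂ)).im = ∫ v, f v * Real.sin (2 * π * v * x) := by
    unfold gs
    have := integral_im hI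
    simp only [RCLike.im_eq_complex_im] at this
    rw [← this]
    apply integral_congr_ae
    apply Eventually.of_forall
    intro v
    simp only
    rw [Complex.im_ofReal_mul, hkim v]
  constructor
  · rw [him]
    have h1 : ∫ v, f v * Real.sin (2 * π * v * x) = ∫ v, f (-v) * Real.sin (2 * π * (-v) * x) :=
      (integral_neg_eq_self (fun v => f v * Real.sin (2 * π * v * x)) volume).symm
    have h2 : ∀ v : ℝ, f (-v) * Real.sin (2 * π * (-v) * x) = -(f v * Real.sin (2 * π * v * x)) := by
      intro v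
      rw [f.neg, show 2 * π * (-v) * x = -(2 * π * v * x) by ring, Real.sin_neg]
      ring
    simp only [h2, integral_neg] at h1
    linarith
  · intro hx
    rw [hre, ← integral_const_mul]
    apply integral_mono
    · exact hfi.const_mul _
    · exact (f.continuous.mul (by fun_prop)).integrable_of_hasCompactSupport
        f.hasCompactSupport.mul_right
    · intro v
      simp only
      by_cases hv : ε < |v|
      · have : f v = 0 := f.zero_of_le_dist (by rw [Real.dist_eq, sub_zero]; exact hv.le)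
        rw [this]
        simp
      · have h1 : |2 * π * v * x| ≤ 1 := by
          rw [abs_mul, abs_mul, abs_mul, abs_two, abs_of_pos Real.pi_pos]
          have h2 : |v| * |x| ≤ 1 / 20 := by
            calc |v| * |x| ≤ (1 / 20) * 1 := by
                  apply mul_le_mul _ hx (abs_nonneg _) (by norm_num)
                  linarith [not_lt.1 hv]
              _ = 1 / 20 := by norm_num
          have h3 := Real.pi_lt_four
          have h4 := Real.pi_pos
          have h5 : 0 ≤ |v| * |x| := by positivity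
          calc 2 * π * |v| * |x| = (2 * π) * (|v| * |x|) := by ring
            _ ≤ (2 * 4) * (1 / 20) := by gcongr
            _ ≤ 1 := by norm_num
        have h6 := Real.one_sub_sq_div_two_le_cos (x := 2 * π * v * x)
        have h7 : (2 * π * v * x) ^ 2 ≤ 1 := by
          rw [← sq_abs]
          exact pow_le_one₀ (abs_nonneg _) h1
        have h8 : (1 : ℝ) / 2 ≤ Real.cos (2 * π * v * x) := by linarith
        have h9 : 0 ≤ f v := f.nonneg
        nlinarith

end CM11

open CM11

/-- A nonnegative majorant of the indicator function of `[-1, 1]` with short Fourier support. -/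
theorem exists_majorant {δ : ℝ} (hδ : 0 < δ) : ∃ η : ℝ → ℂ, Bump δ η ∧
    ∀ x : ℝ, 0 ≤ (gs η (x : ℂ)).re ∧ (gs η (x : ℂ)).im = 0 ∧ (|x| ≤ 1 → 1 ≤ (gs η (x : ℂ)).re) := by
  obtain ⟨η₀, hb, m, hm, hx⟩ := exists_base (ε := min (δ / 2) (1 / 20))
    (lt_min (by linarith) (by norm_num)) (min_le_right _ _)
  have h1 := bump_smul (bump_conv hb) (1 / m ^ 2)
  refine ⟨_, ⟨h1.smooth, fun v hv => h1.supp v ?_⟩, fun x => ?_⟩
  · have : min (δ / 2) (1 / 20) ≤ δ / 2 := min_le_left _ _
    linarith
  · rw [gs_smul, gs_conv hb]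
    obtain ⟨h2, h3⟩ := hx x
    set w := gs η₀ (x : ℂ) with hw
    have hre : ((((1 / m ^ 2 : ℝ)) : ℂ) * (w * w)).re = 1 / m ^ 2 * (w.re * w.re) := by
      rw [Complex.re_ofReal_mul, Complex.mul_re, h2]
      ring
    have him : ((((1 / m ^ 2 : ℝ)) : ℂ) * (w * w)).im = 0 := by
      rw [Complex.im_ofReal_mul, Complex.mul_im, h2]
      ring
    refine ⟨?_, him, ?_⟩
    · rw [hre]
      have := mul_self_nonneg w.re
      positivity
    · intro hx1
      have h4 := h3 hx1
      rw [hre, div_mul_eq_mul_div, one_mul, le_div_iff₀ (by positivity), one_mul]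
      nlinarith

namespace CM11

open ED92 MeanMainAux

/-- A cell count is at most the linear statistic with a majorant, at every point of the cell. -/
lemma cell_le (hRH : RiemannHypothesis) {η : ℝ → ℂ} {C T t : ℝ} (hC : 0 < C) (hDB : DB C η)
    (hL : 2 * π ≤ Real.log T)
    (hnn : ∀ x : ℝ, 0 ≤ (gs η (x : ℂ)).re ∧ (gs η (x : ℂ)).im = 0 ∧
      (|x| ≤ 1 → 1 ≤ (gs η (x : ℂ)).re)) (i : ℕ)
    (h1 : (i : ℝ) ≤ t * Real.log T / (2 * π)) (h2 : t * Real.log T / (2 * π) ≤ i + 1) :
    (cell goodFamily_zeta T i : ℝ) ≤ (SZ (Real.log T) η t).re := by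
  classical
  set L := Real.log T with hLdef
  have hpi := Real.pi_pos
  have hL0 : 0 < L := lt_of_lt_of_le (by positivity) hL
  have hsum := summable_SZ hRH hC hDB hL t
  have hsumre : Summable fun u : Zer => mu u * (gs η (((ord u - t) * L / (2 * π) : ℝ) : ℂ)).re := by
    have h3 := Complex.reCLM.summable hsum
    refine h3.congr (fun u => ?_)
    rw [Complex.reCLM_apply, Complex.re_ofReal_mul]
  have hre : (SZ L η t).re =
      ∑' u : Zer, mu u * (gs η (((ord u - t) * L / (2 * π) : ℝ) : ℂ)).re := by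
    unfold SZ
    rw [Complex.re_tsum hsum]
    apply tsum_congr
    intro u
    rw [Complex.re_ofReal_mul]
  have hge : ∑ j ∈ PT goodFamily_zeta T,
      (gs η (((zetaOrdinate j - t) * L / (2 * π) : ℝ) : ℂ)).re ≤ (SZ L η t).re := by
    rw [sum_PT_eq_real T (fun g => (gs η (((g - t) * L / (2 * π) : ℝ) : ℂ)).re), hre]
    have hle : ∀ u : Zer, mu u * (if 0 < ord u ∧ ord u ≤ T then
        (gs η (((ord u - t) * L / (2 * π) : ℝ) : ℂ)).re else 0) ≤
        mu u * (gs η (((ord u - t) * L / (2 * π) : ℝ) : ℂ)).re := by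
      intro u
      apply mul_le_mul_of_nonneg_left _ (ED92.mu_nonneg u)
      split_ifs
      · exact le_rfl
      · exact (hnn _).1
    have hnn' : ∀ u : Zer, 0 ≤ mu u * (if 0 < ord u ∧ ord u ≤ T then
        (gs η (((ord u - t) * L / (2 * π) : ℝ) : ℂ)).re else 0) := by
      intro u
      apply mul_nonneg (ED92.mu_nonneg u)
      split_ifs
      · exact (hnn _).1
      · exact le_rfl
    exact Summable.tsum_le_tsum hle (Summable.of_nonneg_of_le hnn' hle hsumre) hsumre
  refine le_trans ?_ hge
  unfold cell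
  rw [Finset.card_filter, Nat.cast_sum]
  apply Finset.sum_le_sum
  intro j _
  rw [Nat.cast_ite, Nat.cast_one, Nat.cast_zero]
  split_ifs with h
  · apply (hnn _).2.2
    have hx0 : 0 ≤ xT zetaOrdinate T j := by
      unfold xT
      have := goodFamily_zeta.pos j
      positivity
    have hx1 : (i : ℝ) ≤ xT zetaOrdinate T j := by
      rw [← h]
      exact Nat.floor_le hx0
    have hx2 : xT zetaOrdinate T j < i + 1 := by
      rw [← h]
      exact Nat.lt_floor_add_one _
    have hx3 : (zetaOrdinate j - t) * L / (2 * π) =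
        xT zetaOrdinate T j - t * L / (2 * π) := by
      unfold xT
      rw [← hLdef]
      ring
    rw [hx3, abs_le]
    constructor <;> linarith
  · exact (hnn _).1

/-- The archimedean term is bounded. -/
lemma dT_bound : ∃ K : ℝ, 0 < K ∧ ∀ T : ℝ, 3 ≤ T → ∀ t : ℝ, 0 ≤ t → t ≤ 2 * T →
    ‖dT (Real.log T) t‖ ≤ K := by
  obtain ⟨Ca, hCa, ha⟩ := exists_arch_bound
  refine ⟨2 + 2 * Ca, by positivity, fun T hT t ht0 ht => ?_⟩
  have hL1 : 1 ≤ Real.log T := by
    rw [← Real.log_exp 1]
    apply Real.log_le_log (Real.exp_pos 1)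
    linarith [Real.exp_one_lt_d9]
  have hlog : Real.log (|t| + 2) ≤ 2 * Real.log T := by
    rw [abs_of_nonneg ht0, ← Real.log_rpow (by linarith)]
    apply Real.log_le_log (by linarith)
    rw [Real.rpow_two]
    nlinarith
  have hlog0 : 0 ≤ Real.log (|t| + 2) := Real.log_nonneg (by linarith [abs_nonneg t])
  have hb : ∀ s : ℝ, |s| = |t| → ‖archF (pt32 s)‖ ≤ Real.log T + Ca := by
    intro s hs
    have h1 := ha s
    rw [hs] at h1
    have h2 := norm_le_norm_add_norm_sub' (archF (pt32 s)) ((Real.log (|t| + 2) / 2 : ℝ) : ℂ)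
    have h3 : ‖((Real.log (|t| + 2) / 2 : ℝ) : ℂ)‖ = Real.log (|t| + 2) / 2 := by
      rw [norm_real, Real.norm_of_nonneg (by positivity)]
    rw [h3] at h2
    linarith
  unfold dT
  rw [norm_div, norm_real, Real.norm_of_nonneg (by linarith : (0 : ℝ) ≤ Real.log T),
    div_le_iff₀ (by linarith)]
  have h1 := hb t rfl
  have h2 := hb (-t) (abs_neg t)
  have h3 := norm_add_le (archF (pt32 t)) (archF (pt32 (-t)))
  nlinarith

/-- The moments of the linear statistics with a short bump. -/
lemma moment_SZ (hRH : RiemannHypothesis) (p : ℕ) : ∃ δ₀ : ℝ, 0 < δ₀ ∧ ∀ (η : ℝ → ℂ) (δ : ℝ),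
    0 ≤ δ → δ ≤ δ₀ → Bump δ η → ∃ C : ℝ, 0 < C ∧ ∀ᶠ T : ℝ in atTop,
      ∫ t in (0 : ℝ)..(2 * T), ‖SZ (Real.log T) η t‖ ^ (2 * p) ≤ C * T := by
  obtain ⟨δ₀, hδ₀, hmom⟩ := moment_BT p
  refine ⟨min δ₀ (1 / 4), lt_min hδ₀ (by norm_num), fun η δ hδ hδ2 hη => ?_⟩
  have hδ3 : δ ≤ δ₀ := hδ2.trans (min_le_left _ _)
  have hδ4 : δ ≤ 1 / 4 := hδ2.trans (min_le_right _ _)
  obtain ⟨C₁, hC₁, hm⟩ := hmom η δ hδ hδ3 hη
  obtain ⟨C₂, hC₂, hex⟩ := explicit_L hRH hδ (by linarith) hη
  obtain ⟨Kd, hKd, hd⟩ := dT_bound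
  obtain ⟨C₃, hC₃, hB⟩ := gs_real_bound hδ hη 2
  have hDB : DB C₃ η := hB
  obtain ⟨D, hD, hZ⟩ := exists_wZ hRH
  set K : ℝ := ‖η 0‖ * Kd + C₂ with hK
  have hK0 : 0 < K := by positivity
  refine ⟨1 + 2 ^ (2 * p - 1) * (K ^ (2 * p) * 2 + C₁), by positivity, ?_⟩
  -- smallness of the logarithm
  have hsm : ∀ᶠ T : ℝ in atTop, (C₃ * (D * (2 * Real.log T))) ^ (2 * p) * T ^ (1 / 2 : ℝ) ≤ T := by
    have h1 := (isLittleO_log_rpow_rpow_atTop ((2 * p : ℕ) : ℝ)
      (show (0 : ℝ) < 1 / 2 by norm_num)).tendsto_div_nhds_zero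
    have h2 := h1.const_mul ((2 * C₃ * D) ^ (2 * p))
    rw [mul_zero] at h2
    filter_upwards [h2.eventually (ge_mem_nhds (show (0 : ℝ) < 1 by norm_num)),
      eventually_gt_atTop 1] with T hT hT1
    have hT0 : 0 < T := by linarith
    have hTh : 0 < T ^ (1 / 2 : ℝ) := Real.rpow_pos_of_pos hT0 _
    rw [Real.rpow_natCast, ← mul_div_assoc, div_le_iff₀ hTh, one_mul] at hT
    have h3 : T ^ (1 / 2 : ℝ) * T ^ (1 / 2 : ℝ) = T := by
      rw [← Real.rpow_add hT0]
      norm_num
    calc (C₃ * (D * (2 * Real.log T))) ^ (2 * p) * T ^ (1 / 2 : ℝ)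
        = ((2 * C₃ * D) ^ (2 * p) * Real.log T ^ (2 * p)) * T ^ (1 / 2 : ℝ) := by
          rw [← mul_pow]; ring
      _ ≤ T ^ (1 / 2 : ℝ) * T ^ (1 / 2 : ℝ) := by gcongr
      _ = T := h3
  filter_upwards [hm, hsm, eventually_ge_atTop (Real.exp (2 * π)), eventually_ge_atTop 3]
    with T hmT hsmT hTe hT3
  have hpi := Real.pi_pos
  have hT0 : 0 < T := by linarith
  have hT1 : 1 ≤ T := by linarith
  have hL : 2 * π ≤ Real.log T := by
    rw [← Real.log_exp (2 * π)]
    exact Real.log_le_log (Real.exp_pos _) hTe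
  set L := Real.log T with hLdef
  have hL1 : 1 ≤ L := by linarith [Real.pi_gt_three]
  have hcont : Continuous fun t => ‖SZ L η t‖ ^ (2 * p) :=
    (continuous_SZ hRH hC₃ hDB hL (continuous_gs hδ hη)).norm.pow _
  have hcontB : Continuous fun t => ‖BT L η t‖ ^ (2 * p) := (continuous_BT L η).norm.pow _
  set S : ℝ := T ^ (1 / 2 : ℝ) with hS
  have hS0 : 0 < S := Real.rpow_pos_of_pos hT0 _
  have hST : S ≤ T := by
    calc S ≤ T ^ (1 : ℝ) := Real.rpow_le_rpow_of_exponent_le hT1 (by norm_num)
      _ = T := Real.rpow_one T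
  have hsplit : ∫ t in (0 : ℝ)..(2 * T), ‖SZ L η t‖ ^ (2 * p) =
      (∫ t in (0 : ℝ)..S, ‖SZ L η t‖ ^ (2 * p)) + ∫ t in S..(2 * T), ‖SZ L η t‖ ^ (2 * p) :=
    (intervalIntegral.integral_add_adjacent_intervals (hcont.intervalIntegrable _ _)
      (hcont.intervalIntegrable _ _)).symm
  have hlow : ∫ t in (0 : ℝ)..S, ‖SZ L η t‖ ^ (2 * p) ≤ T := by
    have h1 : ∫ t in (0 : ℝ)..S, ‖SZ L η t‖ ^ (2 * p) ≤
        ∫ t in (0 : ℝ)..S, (C₃ * (D * (2 * L))) ^ (2 * p) := by
      apply intervalIntegral.integral_mono_on hS0.le (hcont.intervalIntegrable _ _)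
        intervalIntegrable_const
      intro t ht
      apply pow_le_pow_left₀ (norm_nonneg _)
      refine (norm_SZ_le hRH hC₃ hDB hL t).trans ?_
      apply mul_le_mul_of_nonneg_left _ hC₃.le
      refine (hZ T t ht.1 (ht.2.trans hST)).trans ?_
      apply mul_le_mul_of_nonneg_left _ hD.le
      rw [hLdef, ← Real.log_rpow hT0, Real.rpow_two]
      apply Real.log_le_log (by linarith)
      nlinarith
    rw [intervalIntegral.integral_const, smul_eq_mul, sub_zero] at h1
    linarith
  have hhigh : ∫ t in S..(2 * T), ‖SZ L η t‖ ^ (2 * p) ≤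
      2 ^ (2 * p - 1) * (K ^ (2 * p) * 2 + C₁) * T := by
    have hSB : ∫ t in S..(2 * T), ‖BT L η t‖ ^ (2 * p) ≤ C₁ * T := by
      refine le_trans ?_ hmT
      apply intervalIntegral.integral_mono_interval hS0.le (by linarith) le_rfl
      · exact Eventually.of_forall (fun t => by positivity)
      · exact hcontB.intervalIntegrable _ _
    have h1 : ∫ t in S..(2 * T), ‖SZ L η t‖ ^ (2 * p) ≤
        ∫ t in S..(2 * T), 2 ^ (2 * p - 1) * (K ^ (2 * p) + ‖BT L η t‖ ^ (2 * p)) := by
      apply intervalIntegral.integral_mono_on (by linarith) (hcont.intervalIntegrable _ _)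
      · apply Continuous.intervalIntegrable
        exact continuous_const.mul (continuous_const.add hcontB)
      · intro t ht
        have ht0 : 0 < t := hS0.trans_le ht.1
        refine le_trans (pow_le_pow_left₀ (norm_nonneg _) ?_ _)
          (add_pow_le hK0.le (norm_nonneg (BT L η t)) (2 * p))
        have h2 := hex L hL1 t
        have h3 : C₂ * Real.exp (δ * L) / (1 + |t|) ≤ C₂ := by
          rw [div_le_iff₀ (by positivity)]
          apply mul_le_mul_of_nonneg_left _ hC₂.le
          rw [abs_of_pos ht0]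
          have h4 : Real.exp (δ * L) = T ^ δ := by
            rw [Real.rpow_def_of_pos hT0, mul_comm]
          rw [h4]
          have h5 : T ^ δ ≤ S := Real.rpow_le_rpow_of_exponent_le hT1 (by linarith)
          linarith [ht.1]
        have h6 := hd T hT3 t ht0.le ht.2
        have h7 : SZ L η t = (SZ L η t - (η 0 * dT L t + BT L η t)) + η 0 * dT L t +
            BT L η t := by ring
        calc ‖SZ L η t‖ = ‖(SZ L η t - (η 0 * dT L t + BT L η t)) + η 0 * dT L t +
              BT L η t‖ := by rw [← h7]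
          _ ≤ ‖(SZ L η t - (η 0 * dT L t + BT L η t)) + η 0 * dT L t‖ + ‖BT L η t‖ :=
              norm_add_le _ _
          _ ≤ (‖SZ L η t - (η 0 * dT L t + BT L η t)‖ + ‖η 0 * dT L t‖) + ‖BT L η t‖ := by
              gcongr
              exact norm_add_le _ _
          _ ≤ (C₂ + ‖η 0‖ * Kd) + ‖BT L η t‖ := by
              rw [norm_mul]
              gcongr
              exact h2.trans h3
          _ = K + ‖BT L η t‖ := by rw [hK]; ring
    refine h1.trans ?_
    rw [intervalIntegral.integral_const_mul, intervalIntegral.integral_add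
      intervalIntegrable_const (hcontB.intervalIntegrable _ _), intervalIntegral.integral_const,
      smul_eq_mul, mul_assoc]
    apply mul_le_mul_of_nonneg_left _ (by positivity)
    have h8 : (2 * T - S) * K ^ (2 * p) ≤ 2 * T * K ^ (2 * p) := by
      apply mul_le_mul_of_nonneg_right _ (by positivity)
      linarith
    linarith
  rw [hsplit]
  linarith

end CM11

/-- The cell counts of the zeta zeros have bounded moments, under RH. -/
theorem cellMom_zeta (hRH : RiemannHypothesis) : CellMom goodFamily_zeta := by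
  intro p
  obtain ⟨δ₀, hδ₀, hmom⟩ := CM11.moment_SZ hRH p
  obtain ⟨η, hη, hnn⟩ := exists_majorant hδ₀
  obtain ⟨C, hC, hint⟩ := hmom η δ₀ hδ₀.le le_rfl hη
  obtain ⟨C₃, hC₃, hB⟩ := gs_real_bound hδ₀.le hη 2
  have hDB : ED92.DB C₃ η := hB
  refine ⟨C, hC.le, ?_⟩
  filter_upwards [hint, eventually_ge_atTop (Real.exp (2 * π)), eventually_ge_atTop 3]
    with T hT hTe hT3
  have hpi := Real.pi_pos
  have hT0 : 0 < T := by linarith
  have hL : 2 * π ≤ Real.log T := by
    rw [← Real.log_exp (2 * π)]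
    exact Real.log_le_log (Real.exp_pos _) hTe
  set L := Real.log T with hLdef
  have hL0 : 0 < L := lt_of_lt_of_le (by positivity) hL
  have hcont : Continuous fun t => ‖SZ L η t‖ ^ (2 * p) :=
    (ED92.continuous_SZ hRH hC₃ hDB hL (continuous_gs hδ₀.le hη)).norm.pow _
  set n := ⌊zeroScale T⌋₊ + 1 with hn
  set a : ℕ → ℝ := fun i => 2 * π * i / L with ha
  have hX : zeroScale T = T * L / (2 * π) := by
    unfold zeroScale
    rw [← hLdef]
    ring
  have hX0 : 0 < zeroScale T := zeroScale_pos (by linarith)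
  -- one cell
  have hcell : ∀ i : ℕ, 2 * π / L * (cell goodFamily_zeta T i : ℝ) ^ p ≤
      ∫ t in (a i)..(a (i + 1)), ‖SZ L η t‖ ^ (2 * p) := by
    intro i
    have hai : a i ≤ a (i + 1) := by
      simp only [ha]
      gcongr
      exact_mod_cast Nat.le_succ i
    have h1 : ∫ t in (a i)..(a (i + 1)), (cell goodFamily_zeta T i : ℝ) ^ p ≤
        ∫ t in (a i)..(a (i + 1)), ‖SZ L η t‖ ^ (2 * p) := by
      apply intervalIntegral.integral_mono_on hai intervalIntegrable_const
        (hcont.intervalIntegrable _ _)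
      intro t ht
      have h2 : (i : ℝ) ≤ t * L / (2 * π) := by
        have := ht.1
        simp only [ha] at this
        rw [div_le_iff₀ hL0] at this
        rw [le_div_iff₀ (by positivity)]
        linarith
      have h3 : t * L / (2 * π) ≤ i + 1 := by
        have := ht.2
        simp only [ha] at this
        rw [le_div_iff₀ hL0] at this
        push_cast at this
        rw [div_le_iff₀ (by positivity)]
        linarith
      have h4 := CM11.cell_le hRH hC₃ hDB hL hnn i h2 h3
      have h5 : (cell goodFamily_zeta T i : ℝ) ≤ ‖SZ L η t‖ := h4.trans (re_le_norm _)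
      have h6 : (cell goodFamily_zeta T i : ℝ) ^ p ≤ (cell goodFamily_zeta T i : ℝ) ^ (2 * p) := by
        have h7 : cell goodFamily_zeta T i ^ p ≤ cell goodFamily_zeta T i ^ (2 * p) := by
          rw [two_mul, pow_add]
          exact Nat.le_mul_self _
        exact_mod_cast h7
      exact h6.trans (pow_le_pow_left₀ (Nat.cast_nonneg _) h5 _)
    rw [intervalIntegral.integral_const, smul_eq_mul] at h1
    have h8 : a (i + 1) - a i = 2 * π / L := by
      simp only [ha]
      push_cast
      ring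
    rwa [h8] at h1
  have hsum : 2 * π / L * ∑ i ∈ Finset.range n, (cell goodFamily_zeta T i : ℝ) ^ p ≤
      ∫ t in (0 : ℝ)..(2 * T), ‖SZ L η t‖ ^ (2 * p) := by
    rw [Finset.mul_sum]
    refine (Finset.sum_le_sum (fun i _ => hcell i)).trans ?_
    rw [intervalIntegral.sum_integral_adjacent_intervals
      (fun k _ => hcont.intervalIntegrable _ _)]
    have ha0 : a 0 = 0 := by simp [ha]
    rw [ha0]
    have han : a n ≤ 2 * T := by
      simp only [ha]
      rw [div_le_iff₀ hL0, hn]
      push_cast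
      have h1 := Nat.floor_le hX0.le
      have h2 : 2 * π * zeroScale T = T * L := by
        rw [hX]
        field_simp
      nlinarith
    have han0 : 0 ≤ a n := by
      simp only [ha]
      positivity
    apply intervalIntegral.integral_mono_interval le_rfl han0 han
    · exact Eventually.of_forall (fun t => by positivity)
    · exact hcont.intervalIntegrable _ _
  have hfin := hsum.trans hT
  rw [div_mul_eq_mul_div, div_le_iff₀ hL0] at hfin
  rw [hX, ← mul_div_assoc, le_div_iff₀ (by positivity)]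
  linarith

end Pool.Agent.MP_67227b_nt.Mo
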