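import Pool.Agent.MP_67227b_nt.Mo.MoDefs

set_option autoImplicit false

open Filter Topology Set MeasureTheory Complex
open scoped Real ContDiff ArithmeticFunction

namespace Pool.Agent.MP_67227b_nt.Mo

open Pool.Agent.Lib.ZetaCount_helper33 Pool.Agent.MP_67227b_nt

namespace DecayAux

theorem bump_hasCompactSupport {η : ℝ → ℂ} {δ : ℝ} (hη : Bump δ η) : HasCompactSupport η := by
  refine HasCompactSupport.intro (isCompact_Icc : IsCompact (Icc (-δ) δ)) fun v hv => ?_
  apply hη.supp
  by_contra h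
  exact hv (abs_le.1 (not_lt.1 h))

theorem bump_continuous {η : ℝ → ℂ} {δ : ℝ} (hη : Bump δ η) : Continuous η :=
  hη.smooth.continuous

theorem bump_integrable {η : ℝ → ℂ} {δ : ℝ} (hη : Bump δ η) : Integrable η :=
  (bump_continuous hη).integrable_of_hasCompactSupport (bump_hasCompactSupport hη)

theorem bump_integrable_mul {η : ℝ → ℂ} {δ : ℝ} (hη : Bump δ η) {f : ℝ → ℂ} (hf : Continuous f) :
    Integrable (fun v => η v * f v) :=
  ((bump_continuous hη).mul hf).integrable_of_hasCompactSupport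
    (bump_hasCompactSupport hη).mul_right

theorem bump_deriv {η : ℝ → ℂ} {δ : ℝ} (hη : Bump δ η) : Bump δ (deriv η) := by
  refine ⟨?_, ?_⟩
  · exact ((contDiff_infty_iff_deriv (𝕜 := ℝ)).1 hη.smooth).2
  · intro v hv
    have h : η =ᶠ[𝓝 v] fun _ => (0 : ℂ) := by
      have ho : IsOpen {w : ℝ | δ < |w|} := isOpen_lt continuous_const continuous_abs
      filter_upwards [ho.mem_nhds hv] with w hw
      exact hη.supp w hw
    rw [h.deriv_eq]
    simp

theorem norm_kernel (v : ℝ) (z : ℂ) :
    ‖Complex.exp (2 * π * I * v * z)‖ = Real.exp (-(2 * π * v * z.im)) := by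
  rw [Complex.norm_exp]
  congr 1
  simp [mul_re, mul_im]

theorem continuous_kernel (z : ℂ) : Continuous fun v : ℝ => Complex.exp (2 * π * I * v * z) := by
  fun_prop

theorem base {η : ℝ → ℂ} {δ : ℝ} (hη : Bump δ η) (z : ℂ) :
    ‖gs η z‖ ≤ (∫ v, ‖η v‖) * Real.exp (2 * π * δ * |z.im|) := by
  unfold gs
  rw [← integral_mul_const]
  refine norm_integral_le_of_norm_le ((bump_integrable hη).norm.mul_const _) ?_
  refine Eventually.of_forall fun v => ?_
  rw [norm_mul, norm_kernel]
  by_cases hv : δ < |v|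
  · rw [hη.supp v hv]
    simp
  · refine mul_le_mul_of_nonneg_left (Real.exp_le_exp.2 ?_) (norm_nonneg _)
    have h1 : -(v * z.im) ≤ δ * |z.im| := by
      calc -(v * z.im) ≤ |v * z.im| := neg_le_abs _
        _ = |v| * |z.im| := abs_mul _ _
        _ ≤ δ * |z.im| := mul_le_mul_of_nonneg_right (not_lt.1 hv) (abs_nonneg _)
    have hpi := Real.pi_pos
    nlinarith

theorem parts {η : ℝ → ℂ} {δ : ℝ} (hη : Bump δ η) (z : ℂ) :
    (2 * π * I * z) * gs η z = -gs (deriv η) z := by
  have hd : ∀ v : ℝ, HasDerivAt η (deriv η v) v := fun v =>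
    ((hη.smooth.differentiable (by simp)) v).hasDerivAt
  have hk : ∀ v : ℝ, HasDerivAt (fun v : ℝ => Complex.exp (2 * π * I * v * z))
      (Complex.exp (2 * π * I * v * z) * (2 * π * I * z)) v := by
    intro v
    have h1 : HasDerivAt (fun v : ℝ => 2 * π * I * (v : ℂ) * z) (2 * π * I * z) v := by
      have h0 : HasDerivAt (fun v : ℝ => (v : ℂ)) 1 v := Complex.ofRealCLM.hasDerivAt
      have := (h0.const_mul (2 * π * I)).mul_const z
      simpa using this
    exact h1.cexp
  have h := integral_mul_deriv_eq_deriv_mul_of_integrable (u := η)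
    (v := fun v : ℝ => Complex.exp (2 * π * I * v * z)) (u' := deriv η)
    (v' := fun v : ℝ => Complex.exp (2 * π * I * v * z) * (2 * π * I * z))
    (fun v _ => hd v) (fun v _ => hk v) ?_ ?_ ?_
  · unfold gs
    rw [← h, ← integral_const_mul]
    refine integral_congr_ae (Eventually.of_forall fun v => ?_)
    simp only
    ring
  · exact bump_integrable_mul hη (by fun_prop)
  · exact bump_integrable_mul (bump_deriv hη) (by fun_prop)
  · exact bump_integrable_mul hη (by fun_prop)

end DecayAux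

open DecayAux

/-- Repeated integration by parts. -/
theorem gs_decay {η : ℝ → ℂ} {δ : ℝ} (hδ : 0 ≤ δ) (hη : Bump δ η) (K : ℕ) :
    ∃ C : ℝ, 0 < C ∧ ∀ z : ℂ,
      ‖gs η z‖ ≤ C * Real.exp (2 * π * δ * |z.im|) / (1 + ‖z‖) ^ K := by
  induction K generalizing η with
  | zero =>
    refine ⟨(∫ v, ‖η v‖) + 1, ?_, fun z => ?_⟩
    · have : 0 ≤ ∫ v, ‖η v‖ := integral_nonneg fun v => norm_nonneg _
      linarith
    · rw [pow_zero, div_one]
      refine (base hη z).trans ?_
      refine mul_le_mul_of_nonneg_right (by linarith) (Real.exp_pos _).le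
  | succ K ih =>
    obtain ⟨C, hC, h1⟩ := ih hη
    obtain ⟨C', hC', h2⟩ := ih (bump_deriv hη)
    refine ⟨C + C', by linarith, fun z => ?_⟩
    have hz : 0 < 1 + ‖z‖ := by linarith [norm_nonneg z]
    have e1 : ‖z‖ * ‖gs η z‖ ≤ ‖gs (deriv η) z‖ := by
      have h := congrArg norm (parts hη z)
      rw [norm_neg, norm_mul] at h
      rw [← h]
      refine mul_le_mul_of_nonneg_right ?_ (norm_nonneg _)
      have h3 : ‖(2 * π * I * z : ℂ)‖ = 2 * π * ‖z‖ := by
        rw [norm_mul, norm_mul, norm_mul, Complex.norm_I, Complex.norm_real,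
          Real.norm_of_nonneg Real.pi_pos.le]
        simp
      rw [h3]
      have := Real.pi_gt_three
      nlinarith [norm_nonneg z]
    rw [pow_succ, ← div_div, le_div_iff₀ hz]
    have e2 : ‖gs η z‖ * (1 + ‖z‖) ≤ ‖gs η z‖ + ‖gs (deriv η) z‖ := by
      nlinarith
    refine e2.trans ((add_le_add (h1 z) (h2 z)).trans (le_of_eq ?_))
    ring

theorem gs_real_bound {η : ℝ → ℂ} {δ : ℝ} (hδ : 0 ≤ δ) (hη : Bump δ η) (K : ℕ) :
    ∃ C : ℝ, 0 < C ∧ ∀ x : ℝ, ‖gs η (x : ℂ)‖ ≤ C / (1 + x ^ 2) ^ K := by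
  obtain ⟨C, hC, h⟩ := gs_decay hδ hη (2 * K)
  refine ⟨C, hC, fun x => (h x).trans ?_⟩
  have h0 : Real.exp (2 * π * δ * |((x : ℂ)).im|) = 1 := by simp
  rw [h0, mul_one, pow_mul]
  have h1 : (1 + x ^ 2) ≤ (1 + ‖(x : ℂ)‖) ^ 2 := by
    rw [Complex.norm_real, Real.norm_eq_abs]
    nlinarith [abs_nonneg x, sq_abs x]
  exact div_le_div_of_nonneg_left hC.le (by positivity)
    (pow_le_pow_left₀ (by positivity) h1 K)

theorem continuous_gs {η : ℝ → ℂ} {δ : ℝ} (hδ : 0 ≤ δ) (hη : Bump δ η) : Continuous (gs η) := by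
  have h1 : ∀ z : ℂ, gs η z = ∫ v in Icc (-δ) δ, η v * Complex.exp (2 * π * I * v * z) := by
    intro z
    unfold gs
    rw [setIntegral_eq_integral_of_forall_compl_eq_zero]
    intro v hv
    have : η v = 0 := by
      apply hη.supp
      by_contra h
      exact hv (abs_le.1 (not_lt.1 h))
    rw [this, zero_mul]
  have h2 : gs η = fun z => ∫ v in Icc (-δ) δ, η v * Complex.exp (2 * π * I * v * z) :=
    funext h1
  rw [h2]
  refine continuous_parametric_integral_of_continuous ?_ isCompact_Icc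
  have := bump_continuous hη
  fun_prop

theorem integrable_gs {η : ℝ → ℂ} {δ : ℝ} (hδ : 0 ≤ δ) (hη : Bump δ η) (y : ℝ) :
    Integrable fun t : ℝ => gs η ((t : ℂ) + y * I) := by
  obtain ⟨C, hC, h⟩ := gs_decay hδ hη 2
  have hc : Continuous fun t : ℝ => gs η ((t : ℂ) + y * I) :=
    (continuous_gs hδ hη).comp (by fun_prop)
  refine Integrable.mono' ((integrable_inv_one_add_sq).const_mul
    (C * Real.exp (2 * π * δ * |y|))) hc.aestronglyMeasurable (Eventually.of_forall fun t => ?_)
  refine (h _).trans ?_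
  have him : ((t : ℂ) + y * I).im = y := by simp
  have hre : ((t : ℂ) + y * I).re = t := by simp
  rw [him, div_eq_mul_inv]
  refine mul_le_mul_of_nonneg_left ?_ (by positivity)
  refine inv_anti₀ (by positivity) ?_
  have h1 : |t| ≤ ‖(t : ℂ) + y * I‖ := by
    have := Complex.abs_re_le_norm ((t : ℂ) + y * I)
    rwa [hre] at this
  nlinarith [abs_nonneg t, sq_abs t, norm_nonneg ((t : ℂ) + y * I)]

/-- Fourier inversion. -/
theorem integral_gs_exp {η : ℝ → ℂ} {δ : ℝ} (hδ : 0 ≤ δ) (hη : Bump δ η) (y v : ℝ) :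
    ∫ t : ℝ, gs η ((t : ℂ) + y * I) * Complex.exp (-(2 * π * I * v * t)) =
      η v * ((Real.exp (-(2 * π * v * y)) : ℝ) : ℂ) := by
  set g : ℝ → ℂ := fun w => η w * ((Real.exp (-(2 * π * w * y)) : ℝ) : ℂ) with hg
  have hgc : Continuous g := by
    have := bump_continuous hη
    rw [hg]
    fun_prop
  have hgi : Integrable g := bump_integrable_mul hη (by fun_prop)
  have hinv : ∀ t : ℝ, FourierTransformInv.fourierInv g t = gs η ((t : ℂ) + y * I) := by
    intro t
    rw [Real.fourierInv_eq']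
    unfold gs
    refine integral_congr_ae (Eventually.of_forall fun w => ?_)
    simp only [smul_eq_mul, hg]
    rw [mul_comm, mul_assoc]
    congr 1
    rw [Complex.ofReal_exp, ← Complex.exp_add]
    congr 1
    simp
    ring_nf
    rw [Complex.I_sq]
    ring
  have hF : Integrable (FourierTransform.fourier g) := by
    have h1 : (FourierTransform.fourier g) = fun t : ℝ => gs η (((-t : ℝ) : ℂ) + y * I) := by
      funext t
      rw [← hinv (-t)]
      rw [Real.fourierInv_eq_fourier_neg]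
      simp
    rw [h1]
    exact (integrable_gs hδ hη y).comp_neg
  have h := congrFun (hgc.fourier_fourierInv_eq hgi hF) v
  rw [Real.fourier_eq'] at h
  change _ = g v
  rw [← h]
  refine integral_congr_ae (Eventually.of_forall fun t => ?_)
  simp only [smul_eq_mul]
  rw [hinv t, mul_comm]
  congr 2
  simp
  ring

end Pool.Agent.MP_67227b_nt.Mo
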