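import Pool.Agent.MP_67227b_nt.Mo.Digamma
import Pool.Agent.Lib.ZetaCount_helper33.XiCircle

set_option autoImplicit false

open Filter Topology Set Metric Complex

namespace Pool.Agent.MP_67227b_nt.Mo

open Pool.Agent.Lib.ZetaCount_helper33

/-- The archimedean part of the logarithmic derivative of `xi`. -/
noncomputable def archF (s : ℂ) : ℂ :=
  s⁻¹ + (s - 1)⁻¹ - (Real.log Real.pi : ℂ) / 2 + digamma (s / 2) / 2

lemma half_re {s : ℂ} (hs : 1 < s.re) : 0 < (s / 2).re := by
  have : (s / 2).re = s.re / 2 := by simp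
  rw [this]
  linarith

lemma logDeriv_Gammaℝ {s : ℂ} (hs : 1 < s.re) :
    logDeriv Gammaℝ s = - (Real.log Real.pi : ℂ) / 2 + digamma (s / 2) / 2 := by
  have h0 := half_re hs
  have e : Gammaℝ = fun s : ℂ => exp (-(s / 2) * (Real.log Real.pi : ℂ)) * Gamma (s / 2) := by
    ext s
    rw [Gammaℝ_def, cpow_def_of_ne_zero (by exact_mod_cast Real.pi_ne_zero),
      ← ofReal_log Real.pi_pos.le]
    congr 2
    ring
  have h1 : HasDerivAt (fun s : ℂ => exp (-(s / 2) * (Real.log Real.pi : ℂ)))
      (exp (-(s / 2) * (Real.log Real.pi : ℂ)) * (-(1 / 2) * (Real.log Real.pi : ℂ))) s :=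
    (((hasDerivAt_id s).div_const 2).neg.mul_const _).cexp
  have h2 : HasDerivAt (fun s : ℂ => Gamma (s / 2)) (deriv Gamma (s / 2) * (1 / 2)) s := by
    have h3 : HasDerivAt Gamma (deriv Gamma (s / 2)) (s / 2) :=
      (differentiableAt_Gamma _ (ne_neg_nat h0)).hasDerivAt
    exact h3.comp s ((hasDerivAt_id s).div_const 2)
  have hG : Gamma (s / 2) ≠ 0 := Gamma_ne_zero_of_re_pos h0
  rw [e, logDeriv_mul (f := fun s : ℂ => exp (-(s / 2) * (Real.log Real.pi : ℂ)))
    (g := fun s : ℂ => Gamma (s / 2)) s (exp_ne_zero _) hG h1.differentiableAt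
    h2.differentiableAt, logDeriv_apply, logDeriv_apply, h1.deriv, h2.deriv, mul_div_cancel_left₀ _ (exp_ne_zero _),
    digamma_def, logDeriv_apply]
  ring

lemma logDeriv_xi {s : ℂ} (hs : 1 < s.re) :
    logDeriv xi s = archF s + logDeriv riemannZeta s := by
  have h0 : s ≠ 0 := by
    rintro rfl
    simp at hs
    linarith
  have h1 : s ≠ 1 := by
    rintro rfl
    simp at hs
  have h1' : (1 : ℂ) - s ≠ 0 := sub_ne_zero.mpr h1.symm
  have hGn : Gammaℝ s ≠ 0 := Gammaℝ_ne_zero_of_re_pos (by linarith)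
  have hz : riemannZeta s ≠ 0 := riemannZeta_ne_zero_of_one_le_re hs.le
  have e : xi =ᶠ[𝓝 s] fun s => s * (1 - s) * Gammaℝ s * riemannZeta s := by
    filter_upwards [(isOpen_lt continuous_const continuous_re).mem_nhds hs] with z hz
    have hz' : 1 < z.re := hz
    apply xi_eq'
    · rintro rfl
      simp at hz'
      linarith
    · rintro rfl
      simp at hz'
    · exact Gammaℝ_ne_zero_of_re_pos (by linarith)
  have d1 : DifferentiableAt ℂ (fun s : ℂ => s) s := differentiableAt_id
  have d2 : DifferentiableAt ℂ (fun s : ℂ => 1 - s) s := (differentiableAt_const 1).sub d1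
  have d3 : DifferentiableAt ℂ Gammaℝ s := by
    have h2 : DifferentiableAt ℂ (fun s : ℂ => Gammaℝ s) s := by
      have e : Gammaℝ = fun s : ℂ => exp (-(s / 2) * (Real.log Real.pi : ℂ)) * Gamma (s / 2) := by
        ext s
        rw [Gammaℝ_def, cpow_def_of_ne_zero (by exact_mod_cast Real.pi_ne_zero),
          ← ofReal_log Real.pi_pos.le]
        congr 2
        ring
      rw [e]
      have h3 : DifferentiableAt ℂ Gamma (s / 2) :=
        differentiableAt_Gamma _ (ne_neg_nat (half_re hs))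
      have h4 : DifferentiableAt ℂ (fun s : ℂ => Gamma (s / 2)) s :=
        DifferentiableAt.comp s h3 (d1.div_const 2)
      exact DifferentiableAt.mul (by fun_prop) h4
    exact h2
  have d4 : DifferentiableAt ℂ riemannZeta s := differentiableAt_riemannZeta h1
  have e2 : logDeriv xi s = logDeriv (fun s => s * (1 - s) * Gammaℝ s * riemannZeta s) s := by
    rw [logDeriv_apply, logDeriv_apply, e.deriv_eq, e.eq_of_nhds]
  rw [e2, logDeriv_mul (f := fun s : ℂ => s * (1 - s) * Gammaℝ s) (g := riemannZeta) s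
      (mul_ne_zero (mul_ne_zero h0 h1') hGn) hz ((d1.mul d2).mul d3) d4,
    logDeriv_mul (f := fun s : ℂ => s * (1 - s)) (g := Gammaℝ) s
      (mul_ne_zero h0 h1') hGn (d1.mul d2) d3,
    logDeriv_mul (f := fun s : ℂ => s) (g := fun s : ℂ => 1 - s) s h0 h1' d1 d2,
    logDeriv_Gammaℝ hs]
  have e3 : logDeriv (fun s : ℂ => s) s = s⁻¹ := by
    rw [logDeriv_apply, deriv_id'', one_div]
  have e4 : logDeriv (fun s : ℂ => 1 - s) s = (s - 1)⁻¹ := by
    have h5 : HasDerivAt (fun s : ℂ => 1 - s) (-1) s := (hasDerivAt_id s).const_sub 1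
    rw [logDeriv_apply, h5.deriv, ← neg_sub s 1, neg_div_neg_eq, one_div]
  rw [e3, e4]
  unfold archF
  ring

lemma analyticAt_archF {s : ℂ} (hs : 1 < s.re) : AnalyticAt ℂ archF s := by
  have h0 : s ≠ 0 := by
    rintro rfl
    simp at hs
    linarith
  have h1 : s - 1 ≠ 0 := by
    intro h
    have := congrArg Complex.re h
    simp at this
    linarith
  have h2 := analyticAt_Gamma (half_re hs)
  have h3 : AnalyticAt ℂ digamma (s / 2) :=
    h2.deriv.div h2 (Gamma_ne_zero_of_re_pos (half_re hs))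
  have h4 : AnalyticAt ℂ (fun s : ℂ => digamma (s / 2)) s := by
    have h5 : AnalyticAt ℂ (fun s : ℂ => s / 2) s := by fun_prop
    exact AnalyticAt.fun_comp (g := digamma) (f := fun s : ℂ => s / 2) h3 h5
  unfold archF
  exact (((analyticAt_id.inv h0).add ((analyticAt_id.sub analyticAt_const).inv h1)).sub
    analyticAt_const).add (h4.div_const)

/-- The point `3/2 + i t`. -/
noncomputable def pt32 (t : ℝ) : ℂ := 3 / 2 + t * I

lemma pt32_re (t : ℝ) : (pt32 t).re = 3 / 2 := by simp [pt32]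

lemma pt32_im (t : ℝ) : (pt32 t).im = t := by simp [pt32]

lemma continuous_pt32 : Continuous pt32 := by
  unfold pt32
  fun_prop

lemma continuous_archF_pt32 : Continuous fun t : ℝ => archF (pt32 t) := by
  rw [continuous_iff_continuousAt]
  intro t
  have h1 : AnalyticAt ℂ archF (pt32 t) := analyticAt_archF (by rw [pt32_re]; norm_num)
  exact ContinuousAt.comp h1.continuousAt continuous_pt32.continuousAt

lemma abs_im_le_norm_pt {t : ℝ} : |t| ≤ ‖pt32 t‖ := by
  have := abs_im_le_norm (pt32 t)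
  rwa [pt32_im] at this

/-- `archF (3/2 + it) = (1/2) log |t| + O(1)`. -/
lemma exists_arch_bound : ∃ C : ℝ, 0 < C ∧ ∀ t : ℝ,
    ‖archF (pt32 t) - ((Real.log (|t| + 2) / 2 : ℝ) : ℂ)‖ ≤ C := by
  -- compact part
  have hc : Continuous fun t : ℝ => ‖archF (pt32 t) - ((Real.log (|t| + 2) / 2 : ℝ) : ℂ)‖ := by
    apply Continuous.norm
    apply continuous_archF_pt32.sub
    apply continuous_ofReal.comp
    apply Continuous.div_const
    apply Continuous.log (by fun_prop)
    intro t
    positivity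
  obtain ⟨C₁, hC₁⟩ := (isCompact_Icc (a := (-2 : ℝ)) (b := 2)).bddAbove_image hc.continuousOn
  refine ⟨max C₁ 100, lt_max_of_lt_right (by norm_num), fun t => ?_⟩
  by_cases ht : |t| ≤ 2
  · refine le_trans (hC₁ (mem_image_of_mem _ (abs_le.mp ht))) (le_max_left _ _)
  · rw [not_le] at ht
    refine le_trans ?_ (le_max_right _ _)
    have h1 : ((pt32 t) / 2).re = 3 / 4 := by
      simp [pt32]
      norm_num
    have h2 : ((pt32 t) / 2).im = t / 2 := by
      simp [pt32]
    have h3 := digamma_bound (s := pt32 t / 2) (by rw [h1]; norm_num) (by rw [h1]; norm_num)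
      (by rw [h2, abs_div, abs_two]; linarith)
    rw [h2, abs_div, abs_two] at h3
    have h0 : 0 < |t| := by linarith
    have e1 : archF (pt32 t) - ((Real.log (|t| + 2) / 2 : ℝ) : ℂ) =
        (pt32 t)⁻¹ + (pt32 t - 1)⁻¹ + (digamma (pt32 t / 2) - Real.log (|t| / 2)) / 2 +
        (((Real.log (|t| / 2) - Real.log (|t| + 2) - Real.log Real.pi) / 2 : ℝ) : ℂ) := by
      unfold archF
      push_cast
      ring
    rw [e1]
    have n1 : ‖(pt32 t)⁻¹‖ ≤ 1 := by
      rw [norm_inv]
      apply inv_le_one_of_one_le₀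
      have := abs_im_le_norm_pt (t := t)
      linarith
    have n2 : ‖(pt32 t - 1)⁻¹‖ ≤ 1 := by
      rw [norm_inv]
      apply inv_le_one_of_one_le₀
      have h4 := abs_im_le_norm (pt32 t - 1)
      have h5 : (pt32 t - 1).im = t := by simp [pt32]
      rw [h5] at h4
      linarith
    have n3 : ‖(digamma (pt32 t / 2) - Real.log (|t| / 2)) / 2‖ ≤ 91 := by
      rw [norm_div, norm_ofNat]
      have h5 : ‖digamma (pt32 t / 2) - Real.log (|t| / 2)‖ ≤ 181 := h3
      linarith
    have n4 : ‖(((Real.log (|t| / 2) - Real.log (|t| + 2) - Real.log Real.pi) / 2 : ℝ) : ℂ)‖ ≤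
        4 := by
      rw [norm_real, Real.norm_eq_abs]
      have l1 : Real.log (|t| / 2) ≤ Real.log (|t| + 2) :=
        Real.log_le_log (by positivity) (by linarith)
      have l2 : Real.log (|t| + 2) ≤ Real.log (|t| / 2) + 3 := by
        have h6 : |t| + 2 ≤ 4 * (|t| / 2) := by linarith
        have h7 := Real.log_le_log (by positivity) h6
        rw [Real.log_mul (by norm_num) (by positivity)] at h7
        have h8 := Real.log_le_sub_one_of_pos (show (0 : ℝ) < 4 by norm_num)
        linarith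
      have l3 : 0 ≤ Real.log Real.pi := Real.log_nonneg (by linarith [Real.pi_gt_three])
      have l4 : Real.log Real.pi ≤ 3 := by
        have := Real.log_le_sub_one_of_pos Real.pi_pos
        linarith [Real.pi_lt_four]
      rw [abs_le]
      constructor <;> linarith
    calc _ ≤ ‖(pt32 t)⁻¹ + (pt32 t - 1)⁻¹ + (digamma (pt32 t / 2) - Real.log (|t| / 2)) / 2‖ + 4 :=
          (norm_add_le _ _).trans (by gcongr)
      _ ≤ (‖(pt32 t)⁻¹ + (pt32 t - 1)⁻¹‖ + 91) + 4 := by
          gcongr
          exact (norm_add_le _ _).trans (by gcongr)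
      _ ≤ ((1 + 1) + 91) + 4 := by
          gcongr
          exact (norm_add_le _ _).trans (by gcongr)
      _ ≤ 100 := by norm_num

/-- The derivative of `archF` on the line `Re s = 3/2`. -/
lemma deriv_archF_bound {t : ℝ} (ht : 2 ≤ |t|) : ‖deriv archF (pt32 t)‖ ≤ 4 / |t| := by
  have hs : 1 < (pt32 t).re := by rw [pt32_re]; norm_num
  set s := pt32 t with hsd
  have h0 : s ≠ 0 := by
    intro h
    rw [h] at hs
    simp at hs
    linarith
  have h1 : s - 1 ≠ 0 := by
    intro h
    have := congrArg Complex.re h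
    simp at this
    linarith
  have h2 := analyticAt_Gamma (half_re hs)
  have h3 : AnalyticAt ℂ digamma (s / 2) :=
    h2.deriv.div h2 (Gamma_ne_zero_of_re_pos (half_re hs))
  have d1 : HasDerivAt (fun s : ℂ => s⁻¹) (-(s ^ 2)⁻¹) s := hasDerivAt_inv h0
  have d2 : HasDerivAt (fun s : ℂ => (s - 1)⁻¹) (-1 / (s - 1) ^ 2) s :=
    ((hasDerivAt_id s).sub_const 1).inv h1
  have d3 : HasDerivAt (fun s : ℂ => digamma (s / 2)) (deriv digamma (s / 2) * (1 / 2)) s :=
    h3.differentiableAt.hasDerivAt.comp s ((hasDerivAt_id s).div_const 2)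
  have d4 : HasDerivAt archF (-(s ^ 2)⁻¹ + -1 / (s - 1) ^ 2 + deriv digamma (s / 2) * (1 / 2) / 2)
      s := by
    have := ((d1.add d2).sub_const ((Real.log Real.pi : ℂ) / 2)).add (d3.div_const 2)
    exact this
  rw [d4.deriv]
  have ht0 : 0 < |t| := by linarith
  have i1 : ((pt32 t) / 2).im = t / 2 := by simp [pt32]
  have b1 : ‖-(s ^ 2)⁻¹‖ ≤ 1 / (2 * |t|) := by
    rw [norm_neg, norm_inv, norm_pow, ← one_div]
    apply one_div_le_one_div_of_le (by positivity)
    have := abs_im_le_norm_pt (t := t)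
    rw [← hsd] at this
    nlinarith
  have b2 : ‖-1 / (s - 1) ^ 2‖ ≤ 1 / (2 * |t|) := by
    rw [norm_div, norm_neg, norm_one, norm_pow]
    apply one_div_le_one_div_of_le (by positivity)
    have h4 := abs_im_le_norm (s - 1)
    have h5 : (s - 1).im = t := by simp [hsd, pt32]
    rw [h5] at h4
    nlinarith
  have b3 : ‖deriv digamma (s / 2) * (1 / 2) / 2‖ ≤ 2 / |t| := by
    have h4 := deriv_digamma_bound (half_re hs) (by
      rw [hsd, i1, abs_div, abs_two]
      linarith)
    rw [hsd, i1, abs_div, abs_two] at h4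
    rw [norm_div, norm_mul, norm_div, norm_one, norm_ofNat]
    have h5 : 4 / (|t| / 2) = 8 / |t| := by field_simp; norm_num
    rw [h5] at h4
    have h6 : (2 : ℝ) / |t| = 8 / |t| * (1 / 2) / 2 := by ring
    rw [h6]
    have : ‖deriv digamma (s / 2)‖ ≤ 8 / |t| := h4
    gcongr
  calc _ ≤ (‖-(s ^ 2)⁻¹‖ + ‖-1 / (s - 1) ^ 2‖) + ‖deriv digamma (s / 2) * (1 / 2) / 2‖ :=
        (norm_add_le _ _).trans (by gcongr; exact norm_add_le _ _)
    _ ≤ (1 / (2 * |t|) + 1 / (2 * |t|)) + 2 / |t| := by gcongr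
    _ = 3 / |t| := by
        field_simp
        norm_num
    _ ≤ 4 / |t| := by gcongr; norm_num

lemma abs_log_sub_le {x y : ℝ} (hx : 1 ≤ x) (hy : 1 ≤ y) : |Real.log x - Real.log y| ≤ |x - y| := by
  have key : ∀ {x y : ℝ}, 1 ≤ x → 1 ≤ y → Real.log x - Real.log y ≤ |x - y| := by
    intro x y hx hy
    rw [← Real.log_div (by linarith) (by linarith)]
    have h1 := Real.log_le_sub_one_of_pos (show 0 < x / y by positivity)
    have h2 : x / y - 1 = (x - y) / y := by field_simp
    rw [h2] at h1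
    refine h1.trans ?_
    rw [div_le_iff₀ (by linarith)]
    have := le_abs_self (x - y)
    have := abs_nonneg (x - y)
    nlinarith
  rw [abs_le]
  constructor
  · have := key hy hx
    rw [abs_sub_comm] at this
    linarith
  · exact key hx hy

/-- The variation of `archF` on the line `Re s = 3/2`. -/
lemma exists_arch_variation : ∃ C : ℝ, 0 < C ∧ ∀ t t₀ : ℝ,
    ‖archF (pt32 t) - archF (pt32 t₀)‖ ≤ C * (1 + |t - t₀|) ^ 2 / (1 + |t₀|) := by
  obtain ⟨C, hC, hb⟩ := exists_arch_bound
  refine ⟨10 * C + 20, by positivity, fun t t₀ => ?_⟩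
  have hpos : 0 < 1 + |t₀| := by positivity
  rw [le_div_iff₀ hpos]
  have hd := abs_nonneg (t - t₀)
  have ht₀ := abs_nonneg t₀
  by_cases hcase : |t - t₀| ≤ |t₀| / 2 ∧ 4 ≤ |t₀|
  · obtain ⟨h1, h2⟩ := hcase
    -- mean value inequality
    have hline : ∀ u ∈ segment ℝ t₀ t, |t₀| / 2 ≤ |u| := by
      intro u hu
      rw [segment_eq_uIcc] at hu
      have h3 : |u - t₀| ≤ |t - t₀| := by
        rcases le_total t₀ t with h | h
        · rw [uIcc_of_le h] at hu
          rw [abs_of_nonneg (by linarith [hu.1]), abs_of_nonneg (by linarith)]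
          linarith [hu.2]
        · rw [uIcc_of_ge h] at hu
          rw [abs_of_nonpos (by linarith [hu.2]), abs_of_nonpos (by linarith)]
          linarith [hu.1]
      have h4 := abs_sub_abs_le_abs_sub t₀ (t₀ - u)
      have h5 : t₀ - (t₀ - u) = u := by ring
      rw [h5, abs_sub_comm t₀ u] at h4
      linarith
    have h3 := (convex_segment t₀ t).norm_image_sub_le_of_norm_hasDerivWithin_le
      (f := fun u : ℝ => archF (pt32 u)) (f' := fun u => deriv archF (pt32 u) * I)
      (C := 8 / |t₀|) (fun u _ => by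
        have h4 : HasDerivAt archF (deriv archF (pt32 u)) (pt32 u) :=
          (analyticAt_archF (by rw [pt32_re]; norm_num)).differentiableAt.hasDerivAt
        have h5 : HasDerivAt pt32 I u := by
          have h6 : HasDerivAt (fun t : ℝ => (3 / 2 : ℂ) + (t : ℂ) * I) (1 * I) u :=
            ((hasDerivAt_id u).ofReal_comp.mul_const I).const_add _
          rw [one_mul] at h6
          exact h6
        exact (h4.comp u h5).hasDerivWithinAt) (fun u hu => by
        have h4 := hline u hu
        rw [norm_mul, norm_I, mul_one]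
        refine (deriv_archF_bound (by linarith)).trans ?_
        rw [div_le_div_iff₀ (by linarith) (by linarith)]
        linarith) (left_mem_segment ℝ t₀ t) (right_mem_segment ℝ t₀ t)
    rw [Real.norm_eq_abs] at h3
    calc ‖archF (pt32 t) - archF (pt32 t₀)‖ * (1 + |t₀|)
        ≤ (8 / |t₀| * |t - t₀|) * (1 + |t₀|) := by gcongr
      _ ≤ (8 / |t₀| * |t - t₀|) * (2 * |t₀|) := by
          gcongr
          linarith
      _ = 16 * |t - t₀| := by field_simp; ring
      _ ≤ (10 * C + 20) * (1 + |t - t₀|) ^ 2 := by nlinarith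
  · have h1 : ‖archF (pt32 t) - archF (pt32 t₀)‖ ≤ 2 * C + |t - t₀| := by
      have h2 : archF (pt32 t) - archF (pt32 t₀) =
          (archF (pt32 t) - ((Real.log (|t| + 2) / 2 : ℝ) : ℂ)) -
          (archF (pt32 t₀) - ((Real.log (|t₀| + 2) / 2 : ℝ) : ℂ)) +
          (((Real.log (|t| + 2) - Real.log (|t₀| + 2)) / 2 : ℝ) : ℂ) := by
        push_cast
        ring
      rw [h2]
      have h3 : ‖(((Real.log (|t| + 2) - Real.log (|t₀| + 2)) / 2 : ℝ) : ℂ)‖ ≤ |t - t₀| := by
        rw [norm_real, Real.norm_eq_abs, abs_div, abs_two]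
        have h4 := abs_log_sub_le (x := |t| + 2) (y := |t₀| + 2) (by linarith [abs_nonneg t])
          (by linarith)
        have h5 : |(|t| + 2) - (|t₀| + 2)| ≤ |t - t₀| := by
          have : (|t| + 2) - (|t₀| + 2) = |t| - |t₀| := by ring
          rw [this]
          exact abs_abs_sub_abs_le t t₀
        linarith
      have h4 := norm_sub_le (archF (pt32 t) - ((Real.log (|t| + 2) / 2 : ℝ) : ℂ))
        (archF (pt32 t₀) - ((Real.log (|t₀| + 2) / 2 : ℝ) : ℂ))
      have h5 := hb t
      have h6 := hb t₀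
      exact (norm_add_le _ _).trans (by linarith)
    have h2 : 1 + |t₀| ≤ 5 * (1 + |t - t₀|) := by
      rw [not_and_or, not_le, not_le] at hcase
      rcases hcase with h | h <;> linarith
    calc ‖archF (pt32 t) - archF (pt32 t₀)‖ * (1 + |t₀|)
        ≤ (2 * C + |t - t₀|) * (5 * (1 + |t - t₀|)) := by gcongr
      _ ≤ (10 * C + 20) * (1 + |t - t₀|) ^ 2 := by
          have h6 : 1 + |t - t₀| ≤ (1 + |t - t₀|) ^ 2 := by nlinarith
          have h7 := mul_le_mul_of_nonneg_left h6 (show 0 ≤ 10 * C by positivity)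
          nlinarith

end Pool.Agent.MP_67227b_nt.Mo
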