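import Pool.Agent.MP_67227b_nt.Mo.ExScale

set_option autoImplicit false

open Filter Topology Set MeasureTheory Complex
open scoped Real ContDiff ArithmeticFunction

namespace Pool.Agent.MP_67227b_nt.Mo

open Pool.Agent.Lib.ZetaCount_helper33 Pool.Agent.MP_67227b_nt

lemma continuous_LSeries : Continuous fun t : ℝ => LSeries lamC (pt32 t) := by
  have h : (fun t : ℝ => LSeries lamC (pt32 t)) =
      fun t : ℝ => ∑' n, LSeries.term lamC (pt32 t) n := rfl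
  rw [h]
  exact continuous_tsum continuous_term summable_term (fun n t => (norm_term_32 t n).le)

lemma norm_LSeries_lamC (t : ℝ) : ‖LSeries lamC (pt32 t)‖ ≤ lam32 := norm_LSeries_le t

lemma continuous_line {h : ℝ → ℂ} {δ : ℝ} (hδ : 0 ≤ δ) (hh : Bump δ h) (y : ℝ) :
    Continuous fun t : ℝ => gs h ((t : ℂ) + (y : ℂ) * I) := by
  apply (continuous_gs hδ hh).comp
  fun_prop

lemma integrable_arch {h : ℝ → ℂ} {δ : ℝ} (hδ : 0 ≤ δ) (hh : Bump δ h) (σ y : ℝ)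
    (hσ : |σ| = 1) :
    Integrable fun t : ℝ => archF (pt32 (σ * t)) * gs h ((t : ℂ) + (y : ℂ) * I) := by
  obtain ⟨C, hC, hb⟩ := gs_line_bound hδ hh y
  obtain ⟨Ca, hCa, ha⟩ := exists_arch_variation
  set K : ℝ := ‖archF (pt32 0)‖ with hK
  have hK0 : 0 ≤ K := norm_nonneg _
  apply Integrable.mono' (integrable_inv_one_add_sq.const_mul ((K + 2 * Ca) * C))
  · apply Continuous.aestronglyMeasurable
    exact (continuous_archF_pt32.comp (by fun_prop : Continuous fun t : ℝ => σ * t)).mul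
      (continuous_line hδ hh y)
  · apply Eventually.of_forall
    intro t
    rw [norm_mul]
    have h1 : ‖archF (pt32 (σ * t))‖ ≤ (K + 2 * Ca) * (1 + t ^ 2) := by
      have h2 := ha (σ * t) 0
      rw [sub_zero, abs_zero, add_zero, div_one, abs_mul, hσ, one_mul] at h2
      have h3 := norm_sub_norm_le (archF (pt32 (σ * t))) (archF (pt32 0))
      have h4 : (1 + |t|) ^ 2 ≤ 2 * (1 + t ^ 2) := by
        have := sq_abs t
        nlinarith [sq_nonneg (|t| - 1)]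
      have h5 : Ca * (1 + |t|) ^ 2 ≤ Ca * (2 * (1 + t ^ 2)) := by gcongr
      have h6 : K ≤ K * (1 + t ^ 2) := by nlinarith [sq_nonneg t]
      nlinarith
    calc ‖archF (pt32 (σ * t))‖ * ‖gs h ((t : ℂ) + (y : ℂ) * I)‖
        ≤ ((K + 2 * Ca) * (1 + t ^ 2)) * (C / (1 + t ^ 2) ^ 3) :=
          mul_le_mul h1 (hb t) (norm_nonneg _) (by positivity)
      _ ≤ (K + 2 * Ca) * C * (1 + t ^ 2)⁻¹ := by
          have h7 : 0 < 1 + t ^ 2 := by positivity
          have h8 : (1 + t ^ 2) * (C / (1 + t ^ 2) ^ 3) ≤ C * (1 + t ^ 2)⁻¹ := by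
            rw [mul_div_assoc', div_le_iff₀ (by positivity)]
            have h9 : C * (1 + t ^ 2)⁻¹ * (1 + t ^ 2) ^ 3 = C * (1 + t ^ 2) * (1 + t ^ 2) := by
              field_simp
            rw [h9]
            nlinarith [sq_nonneg t, mul_pos hC h7]
          calc ((K + 2 * Ca) * (1 + t ^ 2)) * (C / (1 + t ^ 2) ^ 3)
              = (K + 2 * Ca) * ((1 + t ^ 2) * (C / (1 + t ^ 2) ^ 3)) := by ring
            _ ≤ (K + 2 * Ca) * (C * (1 + t ^ 2)⁻¹) := by gcongr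
            _ = _ := by ring

lemma integrable_LSeries {h : ℝ → ℂ} {δ : ℝ} (hδ : 0 ≤ δ) (hh : Bump δ h) (σ y : ℝ) :
    Integrable fun t : ℝ => LSeries lamC (pt32 (σ * t)) * gs h ((t : ℂ) + (y : ℂ) * I) := by
  apply (integrable_gs hδ hh y).bdd_mul (c := lam32)
  · apply Continuous.aestronglyMeasurable
    exact continuous_LSeries.comp (by fun_prop : Continuous fun t : ℝ => σ * t)
  · exact Eventually.of_forall fun t => norm_LSeries_lamC _

/-- The explicit formula with the prime part. -/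
lemma explicit_split (hRH : RiemannHypothesis) {h : ℝ → ℂ} {δ : ℝ} (hδ : 0 ≤ δ)
    (hh : Bump δ h) :
    2 * π * ∑' u : Zer, (mu u : ℂ) * gs h (ord u) =
      ((∫ t : ℝ, archF (pt32 (1 * t)) * gs h ((t : ℂ) + ((-1 : ℝ) : ℂ) * I)) +
        ∫ t : ℝ, archF (pt32 (-1 * t)) * gs h ((t : ℂ) + ((- -1 : ℝ) : ℂ) * I)) -
      ((∑' n : ℕ, ((Λ n / Real.sqrt n : ℝ) : ℂ) * h (1 * (Real.log n / (2 * π)))) +
        ∑' n : ℕ, ((Λ n / Real.sqrt n : ℝ) : ℂ) * h (-1 * (Real.log n / (2 * π)))) := by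
  rw [explicit_sum hRH hδ hh, ← prime_part hδ hh 1 (Or.inl rfl),
    ← prime_part hδ hh (-1) (Or.inr rfl)]
  have h1 : ∀ t : ℝ, Fl t = archF (pt32 (1 * t)) - LSeries lamC (pt32 (1 * t)) := by
    intro t
    rw [one_mul]
    exact Fl_eq t
  have h2 : ∀ t : ℝ, Fl (-t) = archF (pt32 (-1 * t)) - LSeries lamC (pt32 (-1 * t)) := by
    intro t
    rw [neg_one_mul]
    exact Fl_eq (-t)
  have e1 : ∫ t : ℝ, Fl t * gs h ((t : ℂ) + ((-1 : ℝ) : ℂ) * I) =
      ∫ t : ℝ, (archF (pt32 (1 * t)) * gs h ((t : ℂ) + ((-1 : ℝ) : ℂ) * I) -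
        LSeries lamC (pt32 (1 * t)) * gs h ((t : ℂ) + ((-1 : ℝ) : ℂ) * I)) := by
    congr 1
    ext t
    rw [h1 t, sub_mul]
  have e2 : ∫ t : ℝ, Fl (-t) * gs h ((t : ℂ) + ((1 : ℝ) : ℂ) * I) =
      ∫ t : ℝ, (archF (pt32 (-1 * t)) * gs h ((t : ℂ) + ((1 : ℝ) : ℂ) * I) -
        LSeries lamC (pt32 (-1 * t)) * gs h ((t : ℂ) + ((1 : ℝ) : ℂ) * I)) := by
    congr 1
    ext t
    rw [h2 t, sub_mul]
  rw [e1, e2, integral_sub (integrable_arch hδ hh 1 (-1) (by simp)) (integrable_LSeries hδ hh 1 (-1)),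
    integral_sub (integrable_arch hδ hh (-1) 1 (by simp)) (integrable_LSeries hδ hh (-1) 1)]
  rw [neg_neg]
  ring

/-- The archimedean part. -/
lemma arch_part {η : ℝ → ℂ} {δ : ℝ} (hδ : 0 ≤ δ) (hη : Bump δ η) :
    ∃ C : ℝ, 0 < C ∧ ∀ L : ℝ, 1 ≤ L → ∀ σ : ℝ, (σ = 1 ∨ σ = -1) → ∀ t₀ : ℝ,
      ‖(∫ t : ℝ, archF (pt32 (σ * t)) * gs (hsc L η t₀) ((t : ℂ) + ((-σ : ℝ) : ℂ) * I)) -
        archF (pt32 (σ * t₀)) * (((2 * π / L : ℝ) : ℂ) * η 0)‖ ≤
        C * Real.exp (δ * L) / (1 + |t₀|) := by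
  obtain ⟨Cg, hCg, hg⟩ := gs_hsc_bound hδ hη
  obtain ⟨Ca, hCa, ha⟩ := exists_arch_variation
  refine ⟨Ca * Cg * π, by positivity, fun L hL σ hσ t₀ => ?_⟩
  have hL0 : 0 < L := by linarith
  have hδL : 0 ≤ δ * L / (2 * π) := by positivity
  have hb := bump_hsc hL0 hη t₀
  have hσ1 : |σ| = 1 := by rcases hσ with h | h <;> rw [h] <;> simp
  have h1 : ∫ t : ℝ, gs (hsc L η t₀) ((t : ℂ) + ((-σ : ℝ) : ℂ) * I) =
      ((2 * π / L : ℝ) : ℂ) * η 0 := by
    have h2 := integral_gs_exp hδL hb (-σ) 0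
    simp only [ofReal_zero, mul_zero, zero_mul, neg_zero, Complex.exp_zero, mul_one,
      Real.exp_zero, ofReal_one] at h2
    rw [h2, hsc_zero]
  have h3 : Integrable fun t : ℝ => gs (hsc L η t₀) ((t : ℂ) + ((-σ : ℝ) : ℂ) * I) :=
    integrable_gs hδL hb (-σ)
  have hpos : 0 < 1 + |t₀| := by positivity
  rw [← h1, ← integral_const_mul, ← integral_sub (integrable_arch hδL hb σ (-σ) hσ1)
    (h3.const_mul _)]
  have hbound : ∀ t : ℝ, ‖archF (pt32 (σ * t)) *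
      gs (hsc L η t₀) ((t : ℂ) + ((-σ : ℝ) : ℂ) * I) -
      archF (pt32 (σ * t₀)) * gs (hsc L η t₀) ((t : ℂ) + ((-σ : ℝ) : ℂ) * I)‖ ≤
      Ca * Cg * Real.exp (δ * L) / (1 + |t₀|) * (1 / (1 + |t - t₀|) ^ 2) := by
    intro t
    rw [← sub_mul, norm_mul]
    have h4 := ha (σ * t) (σ * t₀)
    rw [← mul_sub, abs_mul, abs_mul, hσ1, one_mul, one_mul] at h4
    have h5 := hg L hL σ hσ t₀ t
    have h6 := abs_nonneg (t - t₀)
    calc ‖archF (pt32 (σ * t)) - archF (pt32 (σ * t₀))‖ *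
          ‖gs (hsc L η t₀) ((t : ℂ) + ((-σ : ℝ) : ℂ) * I)‖
        ≤ (Ca * (1 + |t - t₀|) ^ 2 / (1 + |t₀|)) *
          (Cg * Real.exp (δ * L) / (1 + |t - t₀|) ^ 4) :=
          mul_le_mul h4 h5 (norm_nonneg _) (by positivity)
      _ = Ca * Cg * Real.exp (δ * L) / (1 + |t₀|) * (1 / (1 + |t - t₀|) ^ 2) := by
          field_simp
  refine (norm_integral_le_integral_norm _).trans ?_
  have hint : Integrable fun t : ℝ =>
      Ca * Cg * Real.exp (δ * L) / (1 + |t₀|) * (1 / (1 + |t - t₀|) ^ 2) :=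
    (integrable_inv_sq_abs t₀).const_mul _
  refine (integral_mono_of_nonneg (Eventually.of_forall fun t => norm_nonneg _) hint
    (Eventually.of_forall hbound)).trans ?_
  rw [integral_const_mul]
  calc Ca * Cg * Real.exp (δ * L) / (1 + |t₀|) * ∫ t : ℝ, 1 / (1 + |t - t₀|) ^ 2
      ≤ Ca * Cg * Real.exp (δ * L) / (1 + |t₀|) * π :=
        mul_le_mul_of_nonneg_left (integral_inv_sq_abs_le t₀) (by positivity)
    _ = Ca * Cg * π * Real.exp (δ * L) / (1 + |t₀|) := by ring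

/-- The prime part in the scale `L`. -/
lemma BT_eq {η : ℝ → ℂ} {δ : ℝ} (hδ1 : δ < 1) (hη : Bump δ η) {L : ℝ} (hL : 1 ≤ L) (t₀ : ℝ) :
    (∑' n : ℕ, ((Λ n / Real.sqrt n : ℝ) : ℂ) * hsc L η t₀ (1 * (Real.log n / (2 * π)))) +
      (∑' n : ℕ, ((Λ n / Real.sqrt n : ℝ) : ℂ) * hsc L η t₀ (-1 * (Real.log n / (2 * π)))) =
      -(2 * π) * BT L η t₀ := by
  have hL0 : 0 < L := by linarith
  have hLC : (L : ℂ) ≠ 0 := by exact_mod_cast hL0.ne'
  have hpi : (π : ℂ) ≠ 0 := by exact_mod_cast Real.pi_ne_zero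
  have hzero : ∀ n : ℕ, n ∉ Finset.range (⌊Real.exp L⌋₊ + 1) →
      η (Real.log n / L) = 0 ∧ η (-(Real.log n / L)) = 0 := by
    intro n hn
    rw [Finset.mem_range, not_lt] at hn
    have h1 : Real.exp L < n := by
      have h2 := Nat.lt_floor_add_one (Real.exp L)
      have h3 : ((⌊Real.exp L⌋₊ + 1 : ℕ) : ℝ) ≤ n := by exact_mod_cast hn
      push_cast at h3
      linarith
    have h2 : L < Real.log n := (Real.lt_log_iff_exp_lt ((Real.exp_pos L).trans h1)).mpr h1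
    have h3 : δ < Real.log n / L := by
      rw [lt_div_iff₀ hL0]
      nlinarith
    have h4 : 0 < Real.log n / L := div_pos (by linarith) hL0
    constructor
    · apply hη.supp
      rwa [abs_of_pos h4]
    · apply hη.supp
      rwa [abs_neg, abs_of_pos h4]
  have e1 : ∀ n : ℕ, hsc L η t₀ (1 * (Real.log n / (2 * π))) =
      ((2 * π / L : ℝ) : ℂ) * (η (Real.log n / L) * Complex.exp (-(I * t₀ * Real.log n))) := by
    intro n
    rw [hsc, one_mul]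
    have h1 : 2 * π / L * (Real.log n / (2 * π)) = Real.log n / L := by
      field_simp
    have h2 : -(2 * π * I * ((Real.log n / (2 * π) : ℝ) : ℂ) * t₀) =
        -(I * t₀ * (Real.log n : ℝ)) := by
      push_cast
      field_simp
    rw [h1, h2]
    ring
  have e2 : ∀ n : ℕ, hsc L η t₀ (-1 * (Real.log n / (2 * π))) =
      ((2 * π / L : ℝ) : ℂ) * (η (-(Real.log n / L)) * Complex.exp (I * t₀ * Real.log n)) := by
    intro n
    rw [hsc]
    have h1 : 2 * π / L * (-1 * (Real.log n / (2 * π))) = -(Real.log n / L) := by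
      field_simp
    have h2 : -(2 * π * I * ((-1 * (Real.log n / (2 * π)) : ℝ) : ℂ) * t₀) =
        I * t₀ * (Real.log n : ℝ) := by
      push_cast
      field_simp
    rw [h1, h2]
    ring
  rw [tsum_eq_sum (s := Finset.range (⌊Real.exp L⌋₊ + 1)),
    tsum_eq_sum (s := Finset.range (⌊Real.exp L⌋₊ + 1))]
  · simp only [e1, e2]
    rw [← Finset.sum_add_distrib, BT, ← mul_assoc, Finset.mul_sum]
    apply Finset.sum_congr rfl
    intro n _
    push_cast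
    field_simp
  · intro n hn
    rw [e2, (hzero n hn).2]
    ring
  · intro n hn
    rw [e1, (hzero n hn).1]
    ring

/-- The explicit formula in the scale `L`. -/
theorem explicit_L (hRH : RiemannHypothesis) {η : ℝ → ℂ} {δ : ℝ} (hδ : 0 ≤ δ) (hδ1 : δ < 1)
    (hη : Bump δ η) : ∃ C : ℝ, 0 < C ∧ ∀ L : ℝ, 1 ≤ L → ∀ t : ℝ,
      ‖SZ L η t - (η 0 * dT L t + BT L η t)‖ ≤ C * Real.exp (δ * L) / (1 + |t|) := by
  obtain ⟨C, hC, hb⟩ := arch_part hδ hη
  refine ⟨C, hC, fun L hL t₀ => ?_⟩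
  have hL0 : 0 < L := by linarith
  have hδL : 0 ≤ δ * L / (2 * π) := by positivity
  have hbp := bump_hsc hL0 hη t₀
  have hpi : (π : ℂ) ≠ 0 := by exact_mod_cast Real.pi_ne_zero
  have hLC : (L : ℂ) ≠ 0 := by exact_mod_cast hL0.ne'
  have h1 : SZ L η t₀ = ∑' u : Zer, (mu u : ℂ) * gs (hsc L η t₀) (ord u) := by
    unfold SZ
    apply tsum_congr
    intro u
    rw [gs_hsc hL0]
    congr 2
    push_cast
    ring
  have h2 := explicit_split hRH hδL hbp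
  rw [← h1, BT_eq hδ1 hη hL] at h2
  have h3 := hb L hL 1 (Or.inl rfl) t₀
  have h4 := hb L hL (-1) (Or.inr rfl) t₀
  set A₁ := ∫ t : ℝ, archF (pt32 (1 * t)) * gs (hsc L η t₀) ((t : ℂ) + ((-1 : ℝ) : ℂ) * I)
  set A₂ := ∫ t : ℝ, archF (pt32 (-1 * t)) * gs (hsc L η t₀) ((t : ℂ) + ((- -1 : ℝ) : ℂ) * I)
  have h5 : SZ L η t₀ - (η 0 * dT L t₀ + BT L η t₀) =
      (1 / (2 * π) : ℂ) * ((A₁ - archF (pt32 (1 * t₀)) * (((2 * π / L : ℝ) : ℂ) * η 0)) +
        (A₂ - archF (pt32 (-1 * t₀)) * (((2 * π / L : ℝ) : ℂ) * η 0))) := by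
    have h6 : SZ L η t₀ = (1 / (2 * π) : ℂ) * (2 * π * SZ L η t₀) := by
      field_simp
    rw [h6, h2, dT, one_mul, neg_one_mul]
    push_cast
    field_simp
    ring
  rw [h5, norm_mul]
  have h6 : ‖(1 / (2 * π) : ℂ)‖ ≤ 1 / 2 := by
    rw [norm_div, norm_one, norm_mul, norm_ofNat, norm_real, Real.norm_of_nonneg Real.pi_pos.le]
    have := Real.pi_gt_three
    apply one_div_le_one_div_of_le (by norm_num)
    linarith
  have h7 := norm_add_le (A₁ - archF (pt32 (1 * t₀)) * (((2 * π / L : ℝ) : ℂ) * η 0))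
    (A₂ - archF (pt32 (-1 * t₀)) * (((2 * π / L : ℝ) : ℂ) * η 0))
  have h8 : 0 ≤ C * Real.exp (δ * L) / (1 + |t₀|) := by positivity
  calc ‖(1 / (2 * π) : ℂ)‖ * ‖(A₁ - archF (pt32 (1 * t₀)) * (((2 * π / L : ℝ) : ℂ) * η 0)) +
        (A₂ - archF (pt32 (-1 * t₀)) * (((2 * π / L : ℝ) : ℂ) * η 0))‖
      ≤ 1 / 2 * (C * Real.exp (δ * L) / (1 + |t₀|) + C * Real.exp (δ * L) / (1 + |t₀|)) :=
        mul_le_mul h6 (by linarith) (norm_nonneg _) (by norm_num)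
    _ = C * Real.exp (δ * L) / (1 + |t₀|) := by ring

end Pool.Agent.MP_67227b_nt.Mo
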