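import Pool.Agent.MP_67227b_nt.Mo.Factor
import Pool.Agent.MP_67227b_nt.Zeta

set_option autoImplicit false

open Filter Topology Set Metric Complex

namespace Pool.Agent.MP_67227b_nt.Mo

open Pool.Agent.Lib.ZetaCount_helper33 Pool.Agent.MP_67227b_nt

/-- Under RH the zeros of `xi` are on the critical line. -/
lemma xi_zero_re (hRH : RiemannHypothesis) {s : ℂ} (h : xi s = 0) : s.re = 1 / 2 := by
  by_cases him : s.im = 0
  · have h01 := re_of_xi_zero h
    have h0 : s ≠ 0 := by
      rintro rfl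
      simp [xi] at h
    have h1 : s ≠ 1 := by
      rintro rfl
      simp [xi] at h
    have hre : 0 < s.re := by
      rcases lt_or_eq_of_le h01.1 with h2 | h2
      · exact h2
      · exact absurd (Complex.ext h2.symm him) h0
    have hG : Gammaℝ s ≠ 0 := Gammaℝ_ne_zero_of_re_pos hre
    rw [xi_eq' h0 h1 hG] at h
    have h3 : (1 : ℂ) - s ≠ 0 := sub_ne_zero.2 h1.symm
    have h4 : riemannZeta s = 0 := by
      rcases mul_eq_zero.mp h with h5 | h5
      · exact absurd h5 (mul_ne_zero (mul_ne_zero h0 h3) hG)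
      · exact h5
    refine hRH s h4 ?_ h1
    rintro ⟨n, hn⟩
    have := congrArg Complex.re hn
    simp at this
    have hn0 : (0 : ℝ) ≤ n := Nat.cast_nonneg n
    linarith
  · have h4 := (xi_eq_zero_iff him).mp h
    refine hRH s h4 ?_ ?_
    · rintro ⟨n, hn⟩
      apply him
      rw [hn]
      simp
    · rintro rfl
      simp at him

/-- The radius of the disc around `2` which contains the zeros up to height `T`. -/
noncomputable def rT (T : ℝ) : ℝ := Real.sqrt (T ^ 2 + 9 / 4)

lemma rT_ge (T : ℝ) : T ≤ rT T := Real.le_sqrt_of_sq_le (by linarith)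

lemma rT_pos (T : ℝ) : 0 < rT T := Real.sqrt_pos.mpr (by positivity)

lemma tendsto_rT : Tendsto rT atTop atTop := tendsto_atTop_mono rT_ge tendsto_id

/-- The zeros up to height `T` in absolute value. -/
noncomputable def ZT (T : ℝ) : Finset ℂ := zset differentiable_xi xi_two_ne_zero (rT T)

lemma mem_ZT (hRH : RiemannHypothesis) {T : ℝ} (hT : 0 ≤ T) {u : ℂ} :
    u ∈ ZT T ↔ xi u = 0 ∧ |u.im| ≤ T := by
  rw [ZT, mem_zset, mem_closedBall, dist_eq_norm]
  have key : xi u = 0 → (‖u - 2‖ ≤ rT T ↔ |u.im| ≤ T) := by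
    intro h
    have hre := xi_zero_re hRH h
    rw [rT, Real.le_sqrt (norm_nonneg _) (by positivity), ← normSq_eq_norm_sq, normSq_apply]
    simp only [sub_re, re_ofNat, sub_im, im_ofNat, sub_zero, hre]
    rw [← sq_le_sq₀ (abs_nonneg _) hT, sq_abs]
    constructor <;> intro h1 <;> nlinarith
  constructor
  · rintro ⟨h1, h2⟩
    exact ⟨h2, (key h2).mp h1⟩
  · rintro ⟨h1, h2⟩
    exact ⟨(key h1).mpr h2, h1⟩

lemma logDeriv_xi_one_sub (s : ℂ) : logDeriv xi (1 - s) = - logDeriv xi s := by
  have h1 : HasDerivAt xi (deriv xi (1 - s)) (1 - s) :=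
    (differentiable_xi (1 - s)).hasDerivAt
  have h2 : HasDerivAt (fun z : ℂ => xi (1 - z)) (deriv xi (1 - s) * (-1)) s :=
    h1.comp s ((hasDerivAt_id s).const_sub 1)
  have h3 : (fun z : ℂ => xi (1 - z)) = xi := by
    ext z
    exact xi_one_sub z
  rw [h3] at h2
  rw [logDeriv_apply, logDeriv_apply, h2.deriv, xi_one_sub]
  ring

/-- The sum over the zeros up to height `T`. -/
noncomputable def ST (T : ℝ) (s : ℂ) : ℂ := ∑ u ∈ ZT T, (analyticOrderNatAt xi u : ℂ) / (s - u)

lemma ST_one_sub (hRH : RiemannHypothesis) {T : ℝ} (hT : 0 ≤ T) (s : ℂ) :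
    ST T (1 - s) = - ST T s := by
  unfold ST
  rw [← Finset.sum_neg_distrib]
  apply Finset.sum_nbij' (fun u => 1 - u) (fun u => 1 - u)
  · intro u hu
    rw [mem_ZT hRH hT] at hu ⊢
    refine ⟨by rw [xi_one_sub]; exact hu.1, ?_⟩
    simp only [sub_im, one_im, zero_sub, abs_neg]
    exact hu.2
  · intro u hu
    rw [mem_ZT hRH hT] at hu ⊢
    refine ⟨by rw [xi_one_sub]; exact hu.1, ?_⟩
    simp only [sub_im, one_im, zero_sub, abs_neg]
    exact hu.2
  · intro u _
    ring
  · intro u _
    ring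
  · intro u _
    rw [xi_order_symm, ← div_neg]
    congr 1
    ring

lemma exists_xi_exp_bound : ∃ C : ℝ, 0 < C ∧ ∀ r : ℝ, 2 ≤ r → ∀ s : ℂ, ‖s - 2‖ ≤ 2 * r →
    ‖xi s‖ ≤ Real.exp (r * Real.log (2 * r) + C * r) * ‖xi 2‖ := by
  obtain ⟨C, hC, hb⟩ := exists_log_norm_xi_bounds
  have h2 : 0 < ‖xi 2‖ := norm_pos_iff.mpr xi_two_ne_zero
  refine ⟨2 * C + |Real.log ‖xi 2‖|, by positivity, fun r hr s hs => ?_⟩
  have h1 := (hb (2 * r) s (by linarith) hs).1
  have hlog : 0 ≤ Real.log (2 * r) := Real.log_nonneg (by linarith)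
  have h3 : |s.re - 2| ≤ 2 * r := by
    have := abs_re_le_norm (s - 2)
    simp only [sub_re, re_ofNat] at this
    exact this.trans hs
  have h4 : Real.log ‖xi s‖ ≤ r * Real.log (2 * r) + 2 * C * r := by
    have : |s.re - 2| / 2 * Real.log (2 * r) ≤ r * Real.log (2 * r) := by
      gcongr
      linarith
    linarith
  have h5 : ‖xi s‖ ≤ Real.exp (r * Real.log (2 * r) + 2 * C * r) := by
    rcases eq_or_lt_of_le (norm_nonneg (xi s)) with h0 | h0
    · rw [← h0]
      positivity
    · exact (Real.log_le_iff_le_exp h0).mp h4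
  refine h5.trans ?_
  have h6 : ‖xi 2‖ = Real.exp (Real.log ‖xi 2‖) := (Real.exp_log h2).symm
  rw [h6, ← Real.exp_add]
  apply Real.exp_le_exp.mpr
  have h7 := neg_abs_le (Real.log ‖xi 2‖)
  have h8 : |Real.log ‖xi 2‖| ≤ |Real.log ‖xi 2‖| * r := by
    have := abs_nonneg (Real.log ‖xi 2‖)
    nlinarith
  rw [← h6]
  nlinarith

/-- The partial fraction formula, as a limit. -/
theorem tendsto_ST (hRH : RiemannHypothesis) {s : ℂ} (hs : 1 / 2 < s.re) :
    Tendsto (fun T : ℝ => ST T s) atTop (𝓝 (logDeriv xi s)) := by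
  obtain ⟨C, hC, hb⟩ := exists_xi_exp_bound
  set K : ℝ := ‖s - 2‖ + ‖(1 - s) - 2‖ with hK
  have hK0 : 0 ≤ K := by positivity
  have hKn : ‖s - (1 - s)‖ ≤ K := by
    have h1 : s - (1 - s) = (s - 2) - ((1 - s) - 2) := by ring
    rw [h1]
    exact norm_sub_le _ _
  -- the error bound
  have herr : ∀ᶠ T : ℝ in atTop, ‖ST T s - logDeriv xi s‖ ≤
      64 * (rT T * Real.log (2 * rT T) + C * rT T) / (rT T) ^ 2 * K := by
    filter_upwards [eventually_ge_atTop 0, tendsto_rT.eventually_ge_atTop (8 * K + 2)]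
      with T hT hr
    set r := rT T with hrd
    have hr2 : 2 ≤ r := by linarith
    have hr0 : 0 < r := by linarith
    have hlog : 0 ≤ Real.log (2 * r) := Real.log_nonneg (by linarith)
    set M := r * Real.log (2 * r) + C * r with hM
    have hM0 : 0 < M := by positivity
    obtain ⟨g, hg, hg0, hfg, hder⟩ := exists_quotient differentiable_xi xi_two_ne_zero hr0 hM0
      (fun z hz => hb r hr2 z hz)
    have hZ : zset differentiable_xi xi_two_ne_zero r = ZT T := rfl
    rw [hZ] at hfg
    have hsr : ‖s - 2‖ ≤ r / 8 := by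
      have := norm_nonneg ((1 - s) - 2)
      linarith
    have hsr' : ‖(1 - s) - 2‖ ≤ r / 8 := by
      have := norm_nonneg (s - 2)
      linarith
    have hne : ∀ u ∈ ZT T, s ≠ u := by
      intro u hu h
      rw [mem_ZT hRH hT] at hu
      have := xi_zero_re hRH hu.1
      rw [← h] at this
      linarith
    have hne' : ∀ u ∈ ZT T, (1 - s) ≠ u := by
      intro u hu h
      rw [mem_ZT hRH hT] at hu
      have := xi_zero_re hRH hu.1
      rw [← h] at this
      simp only [sub_re, one_re] at this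
      linarith
    have hgs : g s ≠ 0 := hg0 s (by rw [mem_closedBall, dist_eq_norm]; linarith)
    have hgs' : g (1 - s) ≠ 0 := hg0 (1 - s) (by rw [mem_closedBall, dist_eq_norm]; linarith)
    have e1 := logDeriv_eq_sum hg (ZT T) (fun u => analyticOrderNatAt xi u) hfg hne hgs
    have e2 := logDeriv_eq_sum hg (ZT T) (fun u => analyticOrderNatAt xi u) hfg hne' hgs'
    rw [logDeriv_xi_one_sub] at e2
    have e3 := ST_one_sub hRH hT s
    have e1' : logDeriv xi s = ST T s + logDeriv g s := e1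
    have e2' : - logDeriv xi s = ST T (1 - s) + logDeriv g (1 - s) := e2
    have e4 : ST T s - logDeriv xi s = -(logDeriv g s - logDeriv g (1 - s)) / 2 := by
      rw [e3] at e2'
      linear_combination (-1 / 2 : ℂ) * e1' + (1 / 2 : ℂ) * e2'
    -- mean value inequality
    have hmv := (convex_closedBall (2 : ℂ) (r / 8)).norm_image_sub_le_of_norm_deriv_le
      (𝕜 := ℂ) (f := logDeriv g) (C := 64 * M / r ^ 2) (x := 1 - s) (y := s) (fun z hz => by
        have hz' : z ∈ closedBall (2 : ℂ) r := by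
          rw [mem_closedBall] at hz ⊢
          linarith
        have h1 : AnalyticAt ℂ g z := hg.analyticAt z
        exact (h1.deriv.div h1 (hg0 z hz')).differentiableAt) (fun z hz => by
        apply hder
        rwa [mem_closedBall, dist_eq_norm] at hz)
      (by rw [mem_closedBall, dist_eq_norm]; exact hsr')
      (by rw [mem_closedBall, dist_eq_norm]; exact hsr)
    rw [e4, norm_div, norm_neg, norm_ofNat]
    have h5 : 64 * M / r ^ 2 * ‖s - (1 - s)‖ ≤ 64 * M / r ^ 2 * K := by gcongr
    have h6 : 0 ≤ 64 * M / r ^ 2 * K := by positivity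
    linarith
  -- the error tends to zero
  have hlim : Tendsto (fun T : ℝ => 64 * (rT T * Real.log (2 * rT T) + C * rT T) / (rT T) ^ 2 * K)
      atTop (𝓝 0) := by
    have h1 : Tendsto (fun r : ℝ => 64 * (2 * (Real.log (2 * r) / (2 * r)) + C / r) * K) atTop
        (𝓝 (64 * (2 * 0 + 0) * K)) := by
      have h2 : Tendsto (fun r : ℝ => Real.log (2 * r) / (2 * r)) atTop (𝓝 0) := by
        have h3 := Real.isLittleO_log_id_atTop.tendsto_div_nhds_zero
        exact h3.comp (tendsto_id.const_mul_atTop (by norm_num : (0 : ℝ) < 2))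
      have h4 : Tendsto (fun r : ℝ => C / r) atTop (𝓝 0) := tendsto_const_nhds.div_atTop tendsto_id
      exact (((h2.const_mul 2).add h4).const_mul 64).mul_const K
    simp only [mul_zero, add_zero, zero_mul] at h1
    refine (h1.comp tendsto_rT).congr (fun T => ?_)
    have := (rT_pos T).ne'
    simp only [Function.comp_apply]
    field_simp
  rw [tendsto_iff_norm_sub_tendsto_zero]
  exact squeeze_zero' (Eventually.of_forall fun T => norm_nonneg _) herr hlim

end Pool.Agent.MP_67227b_nt.Mo
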