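import Pool.Agent.MP_67227b_nt.Mo.Arch
import Pool.Agent.MP_67227b_nt.Mo.PartFrac
import Pool.Agent.MP_67227b_nt.FarDefs67

set_option autoImplicit false

open Filter Topology Set MeasureTheory Complex
open scoped Real ContDiff ArithmeticFunction

namespace Pool.Agent.MP_67227b_nt.Mo

open Pool.Agent.Lib.ZetaCount_helper33 Pool.Agent.MP_67227b_nt

/-- The zeros of `xi`. -/
abbrev Zer : Type := {u : ℂ // xi u = 0}

/-- The multiplicity of a zero of `xi`. -/
noncomputable def mu (u : Zer) : ℝ := (analyticOrderNatAt xi u.1 : ℝ)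

/-- The ordinate of a zero of `xi`. -/
noncomputable def ord (u : Zer) : ℝ := u.1.im

/-- `xi'/xi` on the line `Re s = 3/2`. -/
noncomputable def Fl (t : ℝ) : ℂ := logDeriv xi (pt32 t)

/-- Smooth functions on the line which vanish outside `[-δ, δ]`. -/
structure Bump (δ : ℝ) (η : ℝ → ℂ) : Prop where
  smooth : ContDiff ℝ ∞ η
  supp : ∀ v, δ < |v| → η v = 0

/-- The transform `∫ η(v) e^{2 pi i v z} dv`, for complex `z`. -/
noncomputable def gs (η : ℝ → ℂ) (z : ℂ) : ℂ := ∫ v : ℝ, η v * Complex.exp (2 * π * I * v * z)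

/-- The archimedean main term `(archF(3/2+it) + archF(3/2-it)) / L`. -/
noncomputable def dT (L t : ℝ) : ℂ := (archF (pt32 t) + archF (pt32 (-t))) / L

/-- The Dirichlet polynomial in the explicit formula. -/
noncomputable def BT (L : ℝ) (η : ℝ → ℂ) (t : ℝ) : ℂ :=
  -(1 / L : ℂ) * ∑ n ∈ Finset.range (⌊Real.exp L⌋₊ + 1), ((Λ n / Real.sqrt n : ℝ) : ℂ) *
    (η (Real.log n / L) * Complex.exp (-(I * t * Real.log n)) +
      η (-(Real.log n / L)) * Complex.exp (I * t * Real.log n))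

/-- The linear statistic of the zeros. -/
noncomputable def SZ (L : ℝ) (η : ℝ → ℂ) (t : ℝ) : ℂ :=
  ∑' u : Zer, (mu u : ℂ) * gs η (((ord u - t) * L / (2 * π) : ℝ) : ℂ)

end Pool.Agent.MP_67227b_nt.Mo
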