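import Pool.Agent.MP_67227b_nt.Mo.ExPrime

set_option autoImplicit false

open Filter Topology Set MeasureTheory Complex
open scoped Real ContDiff ArithmeticFunction

namespace Pool.Agent.MP_67227b_nt.Mo

open Pool.Agent.Lib.ZetaCount_helper33 Pool.Agent.MP_67227b_nt

/-- The scaled test function. -/
noncomputable def hsc (L : ℝ) (η : ℝ → ℂ) (t₀ : ℝ) (v : ℝ) : ℂ :=
  ((2 * π / L : ℝ) : ℂ) * η (2 * π / L * v) * Complex.exp (-(2 * π * I * v * t₀))

lemma bump_hsc {L δ : ℝ} (hL : 0 < L) {η : ℝ → ℂ} (hη : Bump δ η) (t₀ : ℝ) :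
    Bump (δ * L / (2 * π)) (hsc L η t₀) where
  smooth := by
    unfold hsc
    apply ContDiff.mul
    · apply ContDiff.mul contDiff_const
      exact hη.smooth.comp (contDiff_const.mul contDiff_id)
    · apply ContDiff.cexp
      apply ContDiff.neg
      apply ContDiff.mul _ contDiff_const
      apply ContDiff.mul contDiff_const
      exact Complex.ofRealCLM.contDiff
  supp := by
    intro v hv
    unfold hsc
    rw [hη.supp, mul_zero, zero_mul]
    rw [abs_mul, abs_of_pos (by positivity)]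
    rw [div_lt_iff₀ (by positivity)] at hv
    rw [div_mul_eq_mul_div, lt_div_iff₀ hL]
    linarith

lemma gs_hsc {L : ℝ} (hL : 0 < L) (η : ℝ → ℂ) (t₀ : ℝ) (z : ℂ) :
    gs (hsc L η t₀) z = gs η ((z - t₀) * L / (2 * π)) := by
  unfold gs hsc
  have h1 := Measure.integral_comp_mul_left
    (fun w : ℝ => η w * Complex.exp (2 * π * I * w * ((z - t₀) * L / (2 * π)))) (2 * π / L)
  have hpi : (π : ℂ) ≠ 0 := by exact_mod_cast Real.pi_ne_zero
  have hLC : (L : ℂ) ≠ 0 := by exact_mod_cast hL.ne'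
  have h2 : ∀ v : ℝ, ((2 * π / L : ℝ) : ℂ) * η (2 * π / L * v) *
      Complex.exp (-(2 * π * I * v * t₀)) * Complex.exp (2 * π * I * v * z) =
      ((2 * π / L : ℝ) : ℂ) * (η (2 * π / L * v) * Complex.exp (2 * π * I *
        ((2 * π / L * v : ℝ) : ℂ) * ((z - t₀) * L / (2 * π)))) := by
    intro v
    have : Complex.exp (-(2 * π * I * v * t₀)) * Complex.exp (2 * π * I * v * z) =
        Complex.exp (2 * π * I * ((2 * π / L * v : ℝ) : ℂ) * ((z - t₀) * L / (2 * π))) := by
      rw [← Complex.exp_add]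
      congr 1
      push_cast
      field_simp
      ring
    rw [← this]
    ring
  simp only [h2]
  rw [integral_const_mul, h1, abs_of_pos (by positivity)]
  rw [Complex.real_smul, ← mul_assoc, ← ofReal_mul]
  have h3 : 2 * π / L * (2 * π / L)⁻¹ = 1 := mul_inv_cancel₀ (by positivity)
  rw [h3, ofReal_one, one_mul]

lemma hsc_zero (L : ℝ) (η : ℝ → ℂ) (t₀ : ℝ) : hsc L η t₀ 0 = ((2 * π / L : ℝ) : ℂ) * η 0 := by
  simp [hsc]

/-- The size of the scaled transform on the lines `Im z = ±1`. -/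
lemma gs_hsc_bound {η : ℝ → ℂ} {δ : ℝ} (hδ : 0 ≤ δ) (hη : Bump δ η) :
    ∃ C : ℝ, 0 < C ∧ ∀ L : ℝ, 1 ≤ L → ∀ σ : ℝ, (σ = 1 ∨ σ = -1) → ∀ t₀ t : ℝ,
      ‖gs (hsc L η t₀) ((t : ℂ) + ((-σ : ℝ) : ℂ) * I)‖ ≤
        C * Real.exp (δ * L) / (1 + |t - t₀|) ^ 4 := by
  obtain ⟨C, hC, hb⟩ := gs_decay hδ hη 4
  refine ⟨C * (2 * π) ^ 4, by positivity, fun L hL σ hσ t₀ t => ?_⟩
  have hL0 : 0 < L := by linarith
  rw [gs_hsc hL0]
  have hpi := Real.pi_gt_three
  have hpi0 : 0 < π := Real.pi_pos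
  set z : ℂ := ((t : ℂ) + ((-σ : ℝ) : ℂ) * I - t₀) * L / (2 * π) with hz
  have hz2 : z = (((t - t₀) * L / (2 * π) : ℝ) : ℂ) + ((-σ * L / (2 * π) : ℝ) : ℂ) * I := by
    rw [hz]
    push_cast
    ring
  have him : |z.im| = L / (2 * π) := by
    rw [hz2]
    simp only [add_im, ofReal_im, mul_im, ofReal_re, I_im, mul_one, I_re, mul_zero, add_zero,
      zero_add]
    rcases hσ with h | h <;> rw [h]
    · rw [show -1 * L / (2 * π) = -(L / (2 * π)) by ring, abs_neg, abs_of_pos (by positivity)]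
    · rw [show -(-1) * L / (2 * π) = L / (2 * π) by ring, abs_of_pos (by positivity)]
  have hre : |t - t₀| * L / (2 * π) ≤ ‖z‖ := by
    have h1 := abs_re_le_norm z
    have h2 : z.re = (t - t₀) * L / (2 * π) := by
      rw [hz2]
      simp only [add_re, ofReal_re, mul_re, I_re, mul_zero, ofReal_im, I_im, zero_mul, sub_zero,
        add_zero]
    rw [h2, abs_div, abs_mul, abs_of_pos hL0, abs_of_pos (by positivity : 0 < 2 * π)] at h1
    exact h1
  refine (hb z).trans ?_
  rw [him]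
  have h3 : 2 * π * δ * (L / (2 * π)) = δ * L := by
    field_simp
  rw [h3]
  have h4 : (1 + |t - t₀|) / (2 * π) ≤ 1 + ‖z‖ := by
    have h5 : |t - t₀| / (2 * π) ≤ |t - t₀| * L / (2 * π) := by
      gcongr
      exact le_mul_of_one_le_right (abs_nonneg _) hL
    have h6 : 1 / (2 * π) ≤ 1 := by
      rw [div_le_one (by positivity)]
      linarith
    rw [add_div]
    linarith
  have h7 : ((1 + |t - t₀|) / (2 * π)) ^ 4 ≤ (1 + ‖z‖) ^ 4 := by
    have := abs_nonneg (t - t₀)
    gcongr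
  calc C * Real.exp (δ * L) / (1 + ‖z‖) ^ 4
      ≤ C * Real.exp (δ * L) / ((1 + |t - t₀|) / (2 * π)) ^ 4 := by
        apply div_le_div_of_nonneg_left (by positivity) (by positivity) h7
    _ = C * (2 * π) ^ 4 * Real.exp (δ * L) / (1 + |t - t₀|) ^ 4 := by
        have := abs_nonneg (t - t₀)
        field_simp

lemma integrable_inv_sq_abs (t₀ : ℝ) : Integrable fun t : ℝ => 1 / (1 + |t - t₀|) ^ 2 := by
  have h1 : Integrable fun t : ℝ => (1 + (t - t₀) ^ 2)⁻¹ :=
    integrable_inv_one_add_sq.comp_sub_right t₀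
  apply h1.mono
  · apply Continuous.aestronglyMeasurable
    apply Continuous.div continuous_const (by fun_prop)
    intro t
    have := abs_nonneg (t - t₀)
    positivity
  · apply Eventually.of_forall
    intro t
    have h2 := abs_nonneg (t - t₀)
    rw [Real.norm_of_nonneg (by positivity), Real.norm_of_nonneg (by positivity), inv_eq_one_div]
    apply div_le_div_of_nonneg_left zero_le_one (by positivity)
    have h3 : (t - t₀) ^ 2 = |t - t₀| ^ 2 := (sq_abs _).symm
    nlinarith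

lemma integral_inv_sq_abs_le (t₀ : ℝ) : ∫ t : ℝ, 1 / (1 + |t - t₀|) ^ 2 ≤ π := by
  have h1 : Integrable fun t : ℝ => (1 + (t - t₀) ^ 2)⁻¹ :=
    integrable_inv_one_add_sq.comp_sub_right t₀
  have h2 : ∫ t : ℝ, (1 + (t - t₀) ^ 2)⁻¹ = π := by
    rw [integral_sub_right_eq_self (fun t : ℝ => (1 + t ^ 2)⁻¹) t₀]
    exact integral_univ_inv_one_add_sq
  rw [← h2]
  apply integral_mono (integrable_inv_sq_abs t₀) h1
  intro t
  have h2 := abs_nonneg (t - t₀)
  simp only
  rw [inv_eq_one_div]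
  apply div_le_div_of_nonneg_left zero_le_one (by positivity)
  have h3 : (t - t₀) ^ 2 = |t - t₀| ^ 2 := (sq_abs _).symm
  nlinarith

end Pool.Agent.MP_67227b_nt.Mo
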