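import Mathlib

set_option autoImplicit false

open Filter Topology Set Metric Complex

namespace Pool.Agent.MP_67227b_nt.Mo

/-- Bounds for the logarithmic derivative of an analytic function without zeros on a ball, from a
bound for its modulus. -/
lemma logDeriv_bounds {g : ℂ → ℂ} {c : ℂ} {R M : ℝ} (hR : 0 < R) (hM : 0 < M)
    (hg : DifferentiableOn ℂ g (ball c R)) (h0 : ∀ s ∈ ball c R, g s ≠ 0)
    (hb : ∀ s ∈ ball c R, ‖g s‖ ≤ Real.exp M * ‖g c‖) :
    (∀ s, ‖s - c‖ ≤ R / 4 → ‖logDeriv g s‖ ≤ 8 * M / R) ∧
    (∀ s, ‖s - c‖ ≤ R / 8 → ‖deriv (logDeriv g) s‖ ≤ 64 * M / R ^ 2) := by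
  have hc : c ∈ ball c R := mem_ball_self hR
  have hga : ∀ s ∈ ball c R, AnalyticAt ℂ g s := fun s hs =>
    hg.analyticAt (isOpen_ball.mem_nhds hs)
  have hld : DifferentiableOn ℂ (logDeriv g) (ball c R) := by
    intro s hs
    have h1 := hga s hs
    have h2 : AnalyticAt ℂ (logDeriv g) s := h1.deriv.div h1 (h0 s hs)
    exact h2.differentiableAt.differentiableWithinAt
  obtain ⟨l, hl0, hl⟩ := (hld.isExactOn_ball).with_val_at c (0 : ℂ)
  -- `g = g c * exp l`
  have hgl : ∀ s ∈ ball c R, g s = g c * exp (l s) := by
    have hk : ∀ s ∈ ball c R, HasDerivAt (fun z => g z * exp (-(l z))) 0 s := by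
      intro s hs
      have h1 := (hga s hs).differentiableAt.hasDerivAt
      have h2 := (hl s hs).neg.cexp
      have h3 : HasDerivAt (fun z => g z * exp (-(l z)))
        (deriv g s * exp (-(l s)) + g s * (exp (-(l s)) * -(logDeriv g s))) s := h1.mul h2
      have e : deriv g s * exp (-(l s)) + g s * (exp (-(l s)) * -(logDeriv g s)) = 0 := by
        rw [logDeriv_apply]
        field_simp [h0 s hs]
        ring
      rw [e] at h3
      exact h3
    intro s hs
    have h4 := (convex_ball c R).is_const_of_fderivWithin_eq_zero (𝕜 := ℂ)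
      (f := fun z => g z * exp (-(l z)))
      (fun z hz => (hk z hz).differentiableAt.differentiableWithinAt)
      (fun z hz => by
        rw [fderivWithin_eq_fderiv (isOpen_ball.uniqueDiffWithinAt hz)
          (hk z hz).differentiableAt]
        ext
        simp [(hk z hz).deriv]) hs hc
    simp only [hl0, neg_zero, exp_zero, mul_one] at h4
    rw [← h4, mul_assoc, ← exp_add, neg_add_cancel, exp_zero, mul_one]
  have hre : ∀ s ∈ ball c R, (l s).re ≤ M := by
    intro s hs
    have h1 := hb s hs
    rw [hgl s hs, norm_mul, norm_exp, mul_comm] at h1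
    have h2 : 0 < ‖g c‖ := norm_pos_iff.mpr (h0 c hc)
    have h3 := le_of_mul_le_mul_right h1 h2
    exact Real.exp_le_exp.mp h3
  -- the bound for `l`
  have hlb : ∀ s, ‖s - c‖ ≤ R / 2 → ‖l s‖ ≤ 2 * M := by
    intro s hs
    have h1 := borelCaratheodory_zero (f := fun z => l (c + z)) (M := M) (R := R)
      (z := s - c) hM (by
        intro z hz
        have hz' : c + z ∈ ball c R := by
          rw [mem_ball, dist_eq_norm]
          simpa using hz
        have := (hl _ hz').differentiableAt
        have h5 : DifferentiableAt ℂ (fun z => l (c + z)) z :=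
          DifferentiableAt.comp z this ((differentiableAt_const c).add differentiableAt_id)
        exact h5.differentiableWithinAt) (by
        intro z hz
        have hz' : c + z ∈ ball c R := by
          rw [mem_ball, dist_eq_norm]
          simpa using hz
        exact hre _ hz') hR (by
        rw [mem_ball_zero_iff]
        linarith) (by simp [hl0])
    simp only [add_sub_cancel] at h1
    refine h1.trans ?_
    rw [div_le_iff₀ (by linarith)]
    have := norm_nonneg (s - c)
    nlinarith
  have hldiff : DifferentiableOn ℂ l (ball c R) := fun s hs =>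
    (hl s hs).differentiableAt.differentiableWithinAt
  have h1 : ∀ s, ‖s - c‖ ≤ R / 4 → ‖logDeriv g s‖ ≤ 8 * M / R := by
    intro s hs
    have hsc : s ∈ ball c R := by
      rw [mem_ball, dist_eq_norm]
      linarith
    have hcl : closedBall s (R / 4) ⊆ ball c R := by
      intro z hz
      rw [mem_closedBall, dist_eq_norm] at hz
      rw [mem_ball, dist_eq_norm]
      have : z - c = (z - s) + (s - c) := by ring
      rw [this]
      exact (norm_add_le _ _).trans_lt (by linarith)
    have h2 := norm_deriv_le_of_forall_mem_sphere_norm_le (c := s) (R := R / 4) (C := 2 * M)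
      (f := l) (by positivity) (hldiff.diffContOnCl_ball hcl) (by
        intro z hz
        apply hlb
        rw [mem_sphere, dist_eq_norm] at hz
        have : z - c = (z - s) + (s - c) := by ring
        rw [this]
        exact (norm_add_le _ _).trans (by linarith))
    rw [(hl s hsc).deriv] at h2
    refine h2.trans (le_of_eq ?_)
    field_simp
    ring
  refine ⟨h1, ?_⟩
  intro s hs
  have hcl : closedBall s (R / 8) ⊆ ball c R := by
    intro z hz
    rw [mem_closedBall, dist_eq_norm] at hz
    rw [mem_ball, dist_eq_norm]
    have : z - c = (z - s) + (s - c) := by ring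
    rw [this]
    exact (norm_add_le _ _).trans_lt (by linarith)
  have h2 := norm_deriv_le_of_forall_mem_sphere_norm_le (c := s) (R := R / 8) (C := 8 * M / R)
    (f := logDeriv g) (by positivity) (hld.diffContOnCl_ball hcl) (by
      intro z hz
      apply h1
      rw [mem_sphere, dist_eq_norm] at hz
      have : z - c = (z - s) + (s - c) := by ring
      rw [this]
      exact (norm_add_le _ _).trans (by linarith))
  refine h2.trans (le_of_eq ?_)
  field_simp
  ring

end Pool.Agent.MP_67227b_nt.Mo
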