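import Pool.Agent.MP_67227b_nt.Mo.BC
import Pool.Agent.Lib.ZetaCount_helper33.GammaBounds

set_option autoImplicit false

open Filter Topology Set Metric Complex

namespace Pool.Agent.MP_67227b_nt.Mo

open Pool.Agent.Lib.ZetaCount_helper33

lemma ne_neg_nat {s : ℂ} (hs : 0 < s.re) (n : ℕ) : s ≠ -n := by
  intro h
  have := congrArg Complex.re h
  simp at this
  have h2 : (0 : ℝ) ≤ n := Nat.cast_nonneg n
  linarith

lemma analyticAt_Gamma {s : ℂ} (hs : 0 < s.re) : AnalyticAt ℂ Gamma s := by
  have h1 : DifferentiableOn ℂ Gamma {z | 0 < z.re} := fun z hz =>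
    (differentiableAt_Gamma z (ne_neg_nat hz)).differentiableWithinAt
  exact h1.analyticAt ((isOpen_lt continuous_const continuous_re).mem_nhds hs)

/-- Bounds for the digamma function far to the right. -/
lemma digamma_far {s : ℂ} (hs : 0 < s.re) {N : ℕ} (hN : 8 * (‖s‖ + 2) ≤ N) :
    ‖digamma (s + N) - Real.log N‖ ≤ 128 ∧ ‖deriv digamma (s + N)‖ ≤ 2048 / N := by
  have hNr : (16 : ℝ) ≤ N := by
    have := norm_nonneg s
    linarith
  have hNpos : (0 : ℝ) < N := by linarith
  have hre : s.re ≤ ‖s‖ := re_le_norm s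
  have him : |s.im| ≤ ‖s‖ := abs_im_le_norm s
  set c : ℂ := s + N with hc
  have hcre : c.re = s.re + N := by simp [hc]
  have hcim : c.im = s.im := by simp [hc]
  set g : ℂ → ℂ := fun w => Gamma w * exp (-(w * Real.log N)) with hg
  have hball : ∀ w ∈ ball c ((N : ℝ) / 2), (N : ℝ) / 2 ≤ w.re ∧ w.re ≤ 2 * N := by
    intro w hw
    rw [mem_ball, dist_eq_norm] at hw
    have h1 := (abs_re_le_norm (w - c)).trans_lt hw
    rw [sub_re, hcre, abs_lt] at h1
    constructor <;> linarith [h1.1, h1.2]
  have hgdiff : DifferentiableOn ℂ g (ball c ((N : ℝ) / 2)) := by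
    intro w hw
    have h1 := (hball w hw).1
    have h2 : DifferentiableAt ℂ Gamma w := differentiableAt_Gamma w (ne_neg_nat (by linarith))
    have h3 : DifferentiableAt ℂ (fun w : ℂ => exp (-(w * Real.log N))) w := by fun_prop
    exact (h2.mul h3).differentiableWithinAt
  have hg0 : ∀ w ∈ ball c ((N : ℝ) / 2), g w ≠ 0 := by
    intro w hw
    have h1 := (hball w hw).1
    exact mul_ne_zero (Gamma_ne_zero_of_re_pos (by linarith)) (exp_ne_zero _)
  have hexpn : ∀ w : ℂ, ‖exp (-(w * Real.log N))‖ = Real.exp (-(w.re * Real.log N)) := by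
    intro w
    rw [norm_exp, neg_re, re_mul_ofReal]
  have hup : ∀ w ∈ ball c ((N : ℝ) / 2), ‖g w‖ ≤ Real.exp (2 * N) := by
    intro w hw
    obtain ⟨h1, h2⟩ := hball w hw
    have h3 : 1 ≤ w.re := by linarith
    have h4 := (norm_Gamma_le (s := w) (by linarith)).trans (Gamma_le h3)
    simp only [hg]
    rw [norm_mul, hexpn]
    calc ‖Gamma w‖ * Real.exp (-(w.re * Real.log N))
        ≤ Real.exp (w.re * Real.log w.re) * Real.exp (-(w.re * Real.log N)) := by gcongr
      _ = Real.exp (w.re * (Real.log (w.re / N))) := by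
          rw [← Real.exp_add, Real.log_div (by linarith) (by linarith)]
          congr 1
          ring
      _ ≤ Real.exp (2 * N) := by
          apply Real.exp_le_exp.mpr
          have h5 : Real.log (w.re / N) ≤ 1 := by
            have h6 := Real.log_le_sub_one_of_pos (show 0 < w.re / N by positivity)
            have h7 : w.re / N ≤ 2 := by
              rw [div_le_iff₀ hNpos]
              linarith
            linarith
          nlinarith
  have hlow : Real.exp (-(6 * N)) ≤ ‖g c‖ := by
    have h3 : 1 ≤ c.re := by rw [hcre]; linarith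
    have h4 := norm_Gamma_ge h3
    have h5 := Gamma_ge h3
    simp only [hg]
    rw [norm_mul, hexpn]
    have h6 : Real.exp (c.re * Real.log c.re - 2 * c.re) *
        Real.exp (-(Real.pi * |c.im| / 2)) ≤ ‖Gamma c‖ := by
      refine le_trans ?_ h4
      gcongr
    calc Real.exp (-(6 * N)) ≤ Real.exp (c.re * Real.log c.re - 2 * c.re) *
          Real.exp (-(Real.pi * |c.im| / 2)) * Real.exp (-(c.re * Real.log N)) := by
          rw [← Real.exp_add, ← Real.exp_add]
          apply Real.exp_le_exp.mpr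
          have h7 : Real.log N ≤ Real.log c.re := by
            apply Real.log_le_log hNpos
            rw [hcre]
            linarith
          have h8 : Real.pi * |c.im| / 2 ≤ N := by
            rw [hcim]
            have := Real.pi_lt_d2
            have := Real.pi_pos
            nlinarith [abs_nonneg s.im]
          have h9 : c.re ≤ 2 * N := by rw [hcre]; linarith
          nlinarith
      _ ≤ ‖Gamma c‖ * Real.exp (-(c.re * Real.log N)) := by gcongr
  have hb : ∀ w ∈ ball c ((N : ℝ) / 2), ‖g w‖ ≤ Real.exp (8 * N) * ‖g c‖ := by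
    intro w hw
    calc ‖g w‖ ≤ Real.exp (2 * N) := hup w hw
      _ = Real.exp (8 * N) * Real.exp (-(6 * N)) := by
          rw [← Real.exp_add]
          congr 1
          ring
      _ ≤ Real.exp (8 * N) * ‖g c‖ := by gcongr
  obtain ⟨h1, h2⟩ := logDeriv_bounds (show 0 < (N : ℝ) / 2 by positivity)
    (show 0 < 8 * (N : ℝ) by positivity) hgdiff hg0 hb
  -- the logarithmic derivative
  have hld : ∀ w : ℂ, 0 < w.re → logDeriv g w = digamma w - Real.log N := by
    intro w hw
    have h3 : DifferentiableAt ℂ Gamma w := differentiableAt_Gamma w (ne_neg_nat hw)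
    have h4 : DifferentiableAt ℂ (fun w : ℂ => exp (-(w * Real.log N))) w := by fun_prop
    have h5 : logDeriv g w = logDeriv Gamma w +
        logDeriv (fun w : ℂ => exp (-(w * Real.log N))) w :=
      logDeriv_mul w (Gamma_ne_zero_of_re_pos hw) (exp_ne_zero _) h3 h4
    have h6 : HasDerivAt (fun w : ℂ => exp (-(w * Real.log N)))
        (exp (-(w * Real.log N)) * (-(1 * Real.log N))) w :=
      ((hasDerivAt_id w).mul_const _).neg.cexp
    rw [h5, digamma_def, logDeriv_apply (fun w : ℂ => exp (-(w * Real.log N))), h6.deriv,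
      mul_div_cancel_left₀ _ (exp_ne_zero _)]
    ring
  have hcre0 : 0 < c.re := by rw [hcre]; linarith
  constructor
  · have h3 := h1 c (by simp; positivity)
    rw [hld c hcre0] at h3
    refine h3.trans (le_of_eq ?_)
    field_simp
    ring
  · have h3 := h2 c (by simp; positivity)
    have h4 : deriv (logDeriv g) c = deriv digamma c := by
      have h5 : logDeriv g =ᶠ[𝓝 c] fun w => digamma w - Real.log N := by
        filter_upwards [(isOpen_lt continuous_const continuous_re).mem_nhds hcre0] with w hw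
        exact hld w hw
      rw [h5.deriv_eq, deriv_sub_const]
    rw [h4] at h3
    refine h3.trans (le_of_eq ?_)
    field_simp
    ring

lemma digamma_add_nat {s : ℂ} (hs : 0 < s.re) (N : ℕ) :
    digamma (s + N) = digamma s + ∑ j ∈ Finset.range N, (s + j)⁻¹ := by
  induction N with
  | zero => simp
  | succ N ih =>
    rw [Finset.sum_range_succ, ← add_assoc, ← ih]
    have h1 : 0 < (s + N).re := by
      simp
      positivity
    have h2 := digamma_apply_add_one (s + N) (ne_neg_nat h1)
    rw [← h2]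
    congr 1
    push_cast
    ring

lemma deriv_digamma_add_nat {s : ℂ} (hs : 0 < s.re) (N : ℕ) :
    deriv digamma (s + N) = deriv digamma s - ∑ j ∈ Finset.range N, ((s + j) ^ 2)⁻¹ := by
  have h1 : (fun z : ℂ => digamma (z + N)) =ᶠ[𝓝 s]
      fun z => digamma z + ∑ j ∈ Finset.range N, (z + j)⁻¹ := by
    filter_upwards [(isOpen_lt continuous_const continuous_re).mem_nhds hs] with z hz
    exact digamma_add_nat hz N
  have hda : ∀ z : ℂ, 0 < z.re → DifferentiableAt ℂ digamma z := by
    intro z hz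
    have h2 := analyticAt_Gamma hz
    have h3 : AnalyticAt ℂ digamma z := h2.deriv.div h2 (Gamma_ne_zero_of_re_pos hz)
    exact h3.differentiableAt
  have h2 := h1.deriv_eq
  rw [deriv_comp_add_const] at h2
  rw [h2]
  have h3 : HasDerivAt (fun z : ℂ => ∑ j ∈ Finset.range N, (z + j)⁻¹)
      (∑ j ∈ Finset.range N, -1 / (s + j) ^ 2) s := by
    apply HasDerivAt.fun_sum
    intro j _
    have h4 : s + j ≠ 0 := by
      intro h
      have := congrArg Complex.re h
      simp at this
      have h5 : (0 : ℝ) ≤ j := Nat.cast_nonneg j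
      linarith
    exact ((hasDerivAt_id s).add_const (j : ℂ)).inv h4
  have h4 := ((hda s hs).hasDerivAt.add h3).deriv
  have h5 : deriv (fun z => digamma z + ∑ j ∈ Finset.range N, (z + j)⁻¹) s =
      deriv digamma s + ∑ j ∈ Finset.range N, -1 / (s + j) ^ 2 := h4
  rw [h5, sub_eq_add_neg, ← Finset.sum_neg_distrib]
  congr 1
  apply Finset.sum_congr rfl
  intro j _
  rw [neg_div, one_div]

/-- `|ψ(s) - log |Im s||` is bounded. -/
lemma digamma_bound {s : ℂ} (hs : 0 < s.re) (hs1 : s.re ≤ 1) (ht : 1 ≤ |s.im|) :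
    ‖digamma s - Real.log |s.im|‖ ≤ 181 := by
  set N : ℕ := ⌈8 * (‖s‖ + 2)⌉₊ with hN
  have hN1 : 8 * (‖s‖ + 2) ≤ N := Nat.le_ceil _
  have hN2 : (N : ℝ) < 8 * (‖s‖ + 2) + 1 := Nat.ceil_lt_add_one (by positivity)
  have hsn : ‖s‖ ≤ 1 + |s.im| := by
    refine (norm_le_abs_re_add_abs_im s).trans ?_
    rw [abs_of_pos hs]
    linarith
  have hNt : (N : ℝ) ≤ 33 * |s.im| := by linarith
  have hNt' : |s.im| ≤ N := by
    have := abs_im_le_norm s
    linarith [norm_nonneg s]
  have h1 := (digamma_far hs hN1).1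
  rw [digamma_add_nat hs] at h1
  have h2 : ‖∑ j ∈ Finset.range N, (s + j)⁻¹‖ ≤ 33 := by
    calc ‖∑ j ∈ Finset.range N, (s + j)⁻¹‖ ≤ ∑ j ∈ Finset.range N, ‖(s + j)⁻¹‖ :=
          norm_sum_le _ _
      _ ≤ ∑ _j ∈ Finset.range N, |s.im|⁻¹ := by
          apply Finset.sum_le_sum
          intro j _
          rw [norm_inv]
          have h3 : |s.im| ≤ ‖s + j‖ := by
            have := abs_im_le_norm (s + j)
            simpa using this
          gcongr
      _ = N / |s.im| := by
          rw [Finset.sum_const, Finset.card_range, nsmul_eq_mul]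
          rfl
      _ ≤ 33 := by
          rw [div_le_iff₀ (by linarith)]
          exact hNt
  have h3 : |Real.log N - Real.log (|s.im|)| ≤ 20 := by
    have h0 : 0 < |s.im| := by linarith
    have h4 : Real.log |s.im| ≤ Real.log N := Real.log_le_log h0 hNt'
    rw [abs_of_nonneg (by linarith)]
    have h5 : Real.log N ≤ Real.log (33 * |s.im|) := Real.log_le_log (by linarith) hNt
    rw [Real.log_mul (by norm_num) h0.ne'] at h5
    have h6 : Real.log 33 ≤ 20 := by
      have h7 : (33 : ℝ) = 33 / 20 * 20 := by norm_num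
      have h8 := Real.log_le_sub_one_of_pos (show (0 : ℝ) < 33 / 20 by norm_num)
      have h9 := Real.log_le_sub_one_of_pos (show (0 : ℝ) < 20 by norm_num)
      rw [h7, Real.log_mul (by norm_num) (by norm_num)]
      linarith
    linarith
  have h4 : digamma s - Real.log |s.im| = (digamma s + ∑ j ∈ Finset.range N, (s + j)⁻¹ -
      Real.log N) - (∑ j ∈ Finset.range N, (s + j)⁻¹) +
      ((Real.log N - Real.log |s.im| : ℝ) : ℂ) := by
    push_cast
    ring
  rw [h4]
  refine (norm_add_le _ _).trans ?_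
  have h5 := norm_sub_le (digamma s + ∑ j ∈ Finset.range N, (s + j)⁻¹ - Real.log N)
    (∑ j ∈ Finset.range N, (s + j)⁻¹)
  have h6 : ‖((Real.log N - Real.log |s.im| : ℝ) : ℂ)‖ ≤ 20 := by
    rw [norm_real]
    exact h3
  linarith

lemma sum_inv_sq_le {a : ℝ} (ha : 1 ≤ a) (N : ℕ) :
    ∑ j ∈ Finset.range (N + 1), 1 / ((j : ℝ) + a) ^ 2 ≤ 1 / a ^ 2 + 1 / a - 1 / (a + N) := by
  induction N with
  | zero => simp
  | succ N ih =>
    rw [Finset.sum_range_succ]
    have h1 : 1 / (((N + 1 : ℕ) : ℝ) + a) ^ 2 ≤ 1 / (a + N) - 1 / (a + (N + 1 : ℕ)) := by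
      have h2 : (0 : ℝ) < a + N := by positivity
      have h3 : (0 : ℝ) < a + (N + 1 : ℕ) := by positivity
      rw [div_sub_div _ _ h2.ne' h3.ne', div_le_div_iff₀ (by positivity) (by positivity)]
      push_cast
      nlinarith
    linarith

/-- `|ψ'(s)| ≤ 4 / |Im s|`. -/
lemma deriv_digamma_bound {s : ℂ} (hs : 0 < s.re) (ht : 1 ≤ |s.im|) :
    ‖deriv digamma s‖ ≤ 4 / |s.im| := by
  have hb : ∀ᶠ N : ℕ in atTop, ‖deriv digamma s‖ ≤ 2048 / (N : ℝ) + 4 / |s.im| := by
    filter_upwards [eventually_ge_atTop (⌈8 * (‖s‖ + 2)⌉₊ + 1)] with N hN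
    have hN1 : 8 * (‖s‖ + 2) ≤ N := by
      refine (Nat.le_ceil _).trans ?_
      exact_mod_cast (Nat.le_succ _).trans hN
    have h1 := (digamma_far hs hN1).2
    rw [deriv_digamma_add_nat hs] at h1
    obtain ⟨M, rfl⟩ : ∃ M, N = M + 1 := ⟨N - 1, by omega⟩
    have h2 : ‖∑ j ∈ Finset.range (M + 1), ((s + j) ^ 2)⁻¹‖ ≤ 4 / |s.im| := by
      calc ‖∑ j ∈ Finset.range (M + 1), ((s + j) ^ 2)⁻¹‖
          ≤ ∑ j ∈ Finset.range (M + 1), ‖((s + j) ^ 2)⁻¹‖ := norm_sum_le _ _
        _ ≤ ∑ j ∈ Finset.range (M + 1), 2 * (1 / ((j : ℝ) + |s.im|) ^ 2) := by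
            apply Finset.sum_le_sum
            intro j _
            rw [norm_inv, norm_pow]
            have h3 : ((j : ℝ) + |s.im|) ^ 2 / 2 ≤ ‖s + j‖ ^ 2 := by
              rw [← normSq_eq_norm_sq, normSq_apply]
              simp only [add_re, natCast_re, add_im, natCast_im, add_zero]
              have h4 : (0 : ℝ) ≤ j := Nat.cast_nonneg j
              nlinarith [sq_nonneg ((j : ℝ) - |s.im|), sq_abs s.im, mul_nonneg h4 hs.le]
            have h4 : 0 < ((j : ℝ) + |s.im|) ^ 2 / 2 := by positivity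
            calc (‖s + j‖ ^ 2)⁻¹ ≤ (((j : ℝ) + |s.im|) ^ 2 / 2)⁻¹ := by gcongr
              _ = 2 * (1 / ((j : ℝ) + |s.im|) ^ 2) := by
                  rw [inv_div, mul_one_div]
        _ = 2 * ∑ j ∈ Finset.range (M + 1), 1 / ((j : ℝ) + |s.im|) ^ 2 := by
            rw [Finset.mul_sum]
        _ ≤ 2 * (1 / |s.im| ^ 2 + 1 / |s.im|) := by
            have h3 := sum_inv_sq_le ht M
            have h4 : 0 ≤ 1 / (|s.im| + M) := by positivity
            linarith
        _ ≤ 4 / |s.im| := by
            have h3 : 1 / |s.im| ^ 2 ≤ 1 / |s.im| := by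
              apply one_div_le_one_div_of_le (by linarith)
              nlinarith
            have h4 : 4 / |s.im| = 2 * (1 / |s.im| + 1 / |s.im|) := by ring
            rw [h4]
            linarith
    have h3 : deriv digamma s = (deriv digamma s - ∑ j ∈ Finset.range (M + 1),
        ((s + j) ^ 2)⁻¹) + ∑ j ∈ Finset.range (M + 1), ((s + j) ^ 2)⁻¹ := by ring
    rw [h3]
    exact (norm_add_le _ _).trans (add_le_add h1 h2)
  have hlim : Tendsto (fun N : ℕ => 2048 / (N : ℝ) + 4 / |s.im|) atTop (𝓝 (0 + 4 / |s.im|)) :=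
    (tendsto_const_div_atTop_nhds_zero_nat 2048).add tendsto_const_nhds
  rw [zero_add] at hlim
  exact ge_of_tendsto hlim hb

end Pool.Agent.MP_67227b_nt.Mo
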