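import Pool.Agent.MP_67227b_nt.Mo.ExSum

set_option autoImplicit false

open Filter Topology Set MeasureTheory Complex
open scoped Real ContDiff ArithmeticFunction

namespace Pool.Agent.MP_67227b_nt.Mo

open Pool.Agent.Lib.ZetaCount_helper33 Pool.Agent.MP_67227b_nt

/-- The coefficients as complex numbers. -/
noncomputable def lamC (n : ℕ) : ℂ := (Λ n : ℂ)

lemma exp_32 {n : ℕ} (hn : n ≠ 0) : Real.exp (Real.log n * (3 / 2)) = n * Real.sqrt n := by
  have hn0 : (0 : ℝ) < n := by exact_mod_cast Nat.pos_of_ne_zero hn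
  rw [Real.sqrt_eq_rpow, Real.rpow_def_of_pos hn0]
  nth_rewrite 2 [← Real.exp_log hn0]
  rw [← Real.exp_add]
  congr 1
  ring

lemma term_eq {n : ℕ} (hn : n ≠ 0) (t : ℝ) :
    LSeries.term lamC (pt32 t) n = ((Λ n / (n * Real.sqrt n) : ℝ) : ℂ) *
      Complex.exp (-(2 * π * I * ((Real.log n / (2 * π) : ℝ) : ℂ) * t)) := by
  have hn0 : (0 : ℝ) < n := by exact_mod_cast Nat.pos_of_ne_zero hn
  have hnC : (n : ℂ) ≠ 0 := by exact_mod_cast hn
  have hpi : (π : ℂ) ≠ 0 := by exact_mod_cast Real.pi_ne_zero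
  rw [LSeries.term_of_ne_zero hn, cpow_def_of_ne_zero hnC, ← natCast_log]
  have h1 : ((Real.log n : ℝ) : ℂ) * pt32 t = ((Real.log n * (3 / 2) : ℝ) : ℂ) +
      (2 * π * I * ((Real.log n / (2 * π) : ℝ) : ℂ) * t) := by
    rw [pt32]
    push_cast
    field_simp
  rw [h1, Complex.exp_add, ← ofReal_exp, exp_32 hn, Complex.exp_neg, lamC]
  push_cast
  rw [div_eq_mul_inv, mul_inv, ← mul_assoc, div_eq_mul_inv (_ : ℂ) ((n : ℂ) * _)]

lemma norm_term_32 (t : ℝ) (n : ℕ) :
    ‖LSeries.term lamC (pt32 t) n‖ = ‖LSeries.term lamC (3 / 2) n‖ := by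
  rw [LSeries.norm_term_eq, LSeries.norm_term_eq, pt32_re]
  norm_num

lemma summable_term : Summable fun n : ℕ => ‖LSeries.term lamC (3 / 2) n‖ := by
  have h := ArithmeticFunction.LSeriesSummable_vonMangoldt (s := 3 / 2) (by norm_num)
  exact h.norm

lemma continuous_term (n : ℕ) : Continuous fun t : ℝ => LSeries.term lamC (pt32 t) n := by
  by_cases hn : n = 0
  · subst hn
    simp only [LSeries.term_zero]
    exact continuous_const
  · simp only [term_eq hn]
    fun_prop

/-- The prime part of the explicit formula. -/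
lemma prime_part {h : ℝ → ℂ} {δ : ℝ} (hδ : 0 ≤ δ) (hh : Bump δ h) (σ : ℝ)
    (hσ : σ = 1 ∨ σ = -1) :
    ∫ t : ℝ, LSeries lamC (pt32 (σ * t)) * gs h ((t : ℂ) + ((-σ : ℝ) : ℂ) * I) =
      ∑' n : ℕ, ((Λ n / Real.sqrt n : ℝ) : ℂ) * h (σ * (Real.log n / (2 * π))) := by
  set G : ℝ → ℂ := fun t => gs h ((t : ℂ) + ((-σ : ℝ) : ℂ) * I) with hG
  have hGi : Integrable G := integrable_gs hδ hh (-σ)
  set F : ℕ → ℝ → ℂ := fun n t => LSeries.term lamC (pt32 (σ * t)) n * G t with hF
  have hFi : ∀ n, Integrable (F n) := by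
    intro n
    apply hGi.bdd_mul (c := ‖LSeries.term lamC (3 / 2) n‖)
    · apply Continuous.aestronglyMeasurable
      exact (continuous_term n).comp (by fun_prop : Continuous fun t : ℝ => σ * t)
    · exact Eventually.of_forall fun t => (norm_term_32 _ n).le
  have hFs : Summable fun n => ∫ t, ‖F n t‖ := by
    have h1 : ∀ n, ∫ t, ‖F n t‖ = ‖LSeries.term lamC (3 / 2) n‖ * ∫ t, ‖G t‖ := by
      intro n
      rw [← integral_const_mul]
      apply integral_congr_ae
      apply Eventually.of_forall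
      intro t
      simp only [hF]
      rw [norm_mul, norm_term_32]
    simp only [h1]
    exact summable_term.mul_right _
  have h1 := hasSum_integral_of_summable_integral_norm hFi hFs
  have h2 : ∀ t : ℝ, ∑' n, F n t = LSeries lamC (pt32 (σ * t)) * G t := by
    intro t
    simp only [hF]
    rw [tsum_mul_right]
    rfl
  simp only [h2] at h1
  rw [← h1.tsum_eq]
  apply tsum_congr
  intro n
  by_cases hn : n = 0
  · subst hn
    simp [hF]
  · have hn0 : (0 : ℝ) < n := by exact_mod_cast Nat.pos_of_ne_zero hn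
    simp only [hF, term_eq hn]
    have e1 : ∀ t : ℝ, ((Λ n / (n * Real.sqrt n) : ℝ) : ℂ) *
        Complex.exp (-(2 * π * I * ((Real.log n / (2 * π) : ℝ) : ℂ) * ((σ * t : ℝ) : ℂ))) * G t =
        ((Λ n / (n * Real.sqrt n) : ℝ) : ℂ) * (G t *
          Complex.exp (-(2 * π * I * ((σ * (Real.log n / (2 * π)) : ℝ) : ℂ) * t))) := by
      intro t
      have : -(2 * π * I * ((Real.log n / (2 * π) : ℝ) : ℂ) * ((σ * t : ℝ) : ℂ)) =
          -(2 * π * I * ((σ * (Real.log n / (2 * π)) : ℝ) : ℂ) * t) := by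
        push_cast
        ring
      rw [this]
      ring
    simp only [e1]
    rw [integral_const_mul]
    have e2 : ∫ t : ℝ, G t *
        Complex.exp (-(2 * π * I * ((σ * (Real.log n / (2 * π)) : ℝ) : ℂ) * t)) =
        h (σ * (Real.log n / (2 * π))) *
          ((Real.exp (-(2 * π * (σ * (Real.log n / (2 * π))) * (-σ))) : ℝ) : ℂ) :=
      integral_gs_exp hδ hh (-σ) _
    rw [e2]
    have e3 : -(2 * π * (σ * (Real.log n / (2 * π))) * (-σ)) = Real.log n := by
      have hss : σ * σ = 1 := by rcases hσ with h | h <;> rw [h] <;> norm_num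
      field_simp
      linear_combination Real.log n * hss
    rw [e3, Real.exp_log hn0]
    have e4 : ((Λ n / (n * Real.sqrt n) : ℝ) : ℂ) * ((n : ℝ) : ℂ) =
        ((Λ n / Real.sqrt n : ℝ) : ℂ) := by
      rw [← ofReal_mul]
      congr 1
      have : Real.sqrt n ≠ 0 := (Real.sqrt_pos.mpr hn0).ne'
      field_simp
    linear_combination h (σ * (Real.log n / (2 * π))) * e4

end Pool.Agent.MP_67227b_nt.Mo
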