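import Pool.Agent.MP_67227b_nt.Mo.Single

set_option autoImplicit false

open Filter Topology Set MeasureTheory Complex
open scoped Real ContDiff ArithmeticFunction

namespace Pool.Agent.MP_67227b_nt.Mo

open Pool.Agent.Lib.ZetaCount_helper33 Pool.Agent.MP_67227b_nt

/-- The reflection of a zero. -/
noncomputable def flip (u : Zer) : Zer := ⟨1 - u.1, by rw [xi_one_sub]; exact u.2⟩

lemma flip_flip (u : Zer) : flip (flip u) = u := by
  apply Subtype.ext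
  simp [flip]

lemma ord_flip (u : Zer) : ord (flip u) = - ord u := by
  simp [ord, flip]

lemma mu_flip (u : Zer) : mu (flip u) = mu u := by
  simp only [mu, flip, xi_order_symm]

lemma sum_ZZ_flip (hRH : RiemannHypothesis) {T : ℝ} (hT : 0 ≤ T) (f : ℝ → ℂ) :
    ∑ u ∈ ZZ T, (mu u : ℂ) * f (- ord u) = ∑ u ∈ ZZ T, (mu u : ℂ) * f (ord u) := by
  apply Finset.sum_nbij' flip flip
  · intro u hu
    rw [mem_ZZ hRH hT] at hu ⊢
    rwa [ord_flip, abs_neg]
  · intro u hu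
    rw [mem_ZZ hRH hT] at hu ⊢
    rwa [ord_flip, abs_neg]
  · intro u _
    exact flip_flip u
  · intro u _
    exact flip_flip u
  · intro u _
    rw [ord_flip, mu_flip]

lemma one_add_ne (x : ℝ) : (1 + (x : ℂ) * I) ≠ 0 := by
  intro h
  have := congrArg Complex.re h
  simp at this

lemma continuous_inv_one_add : Continuous fun x : ℝ => 1 / (1 + (x : ℂ) * I) := by
  apply Continuous.div continuous_const (by fun_prop)
  exact fun x => one_add_ne x

lemma continuous_ST_pt32 (hRH : RiemannHypothesis) {T : ℝ} (hT : 0 ≤ T) :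
    Continuous fun t : ℝ => ST T (pt32 t) := by
  simp only [ST_pt32 hRH hT]
  apply continuous_finsetSum
  intro u _
  apply Continuous.mul continuous_const
  exact continuous_inv_one_add.comp (by fun_prop : Continuous fun t : ℝ => t - ord u)

lemma peetre (t γ : ℝ) : 1 + γ ^ 2 ≤ 2 * (1 + t ^ 2) * (1 + (t - γ) ^ 2) := by
  nlinarith [sq_nonneg (t + (t - γ)), sq_nonneg (t * (t - γ)), sq_nonneg (2 * t - γ)]

lemma norm_one_add_sq (x : ℝ) : ‖1 + (x : ℂ) * I‖ ^ 2 = 1 + x ^ 2 := by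
  rw [← normSq_eq_norm_sq, normSq_apply]
  simp
  ring

lemma pair_bound (t γ : ℝ) :
    ‖1 / (1 + ((t - γ : ℝ) : ℂ) * I) + 1 / (1 + ((t - -γ : ℝ) : ℂ) * I)‖ ≤
      4 * (1 + t ^ 2) ^ 2 * (1 / (1 + (0 - γ) ^ 2)) := by
  have h1 := one_add_ne (t - γ)
  have h2 := one_add_ne (t - -γ)
  have h3 : 1 / (1 + ((t - γ : ℝ) : ℂ) * I) + 1 / (1 + ((t - -γ : ℝ) : ℂ) * I) =
      2 * (1 + (t : ℂ) * I) / ((1 + ((t - γ : ℝ) : ℂ) * I) * (1 + ((t - -γ : ℝ) : ℂ) * I)) := by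
    rw [div_add_div _ _ h1 h2]
    congr 1
    push_cast
    ring
  rw [h3, norm_div, norm_mul, norm_mul, norm_ofNat]
  have e1 := norm_one_add_sq t
  have e2 := norm_one_add_sq (t - γ)
  have e3 := norm_one_add_sq (t - -γ)
  set p := ‖1 + (t : ℂ) * I‖
  set q := ‖1 + ((t - γ : ℝ) : ℂ) * I‖ with hq
  set r := ‖1 + ((t - -γ : ℝ) : ℂ) * I‖ with hr
  have hq0 : 0 < q := norm_pos_iff.mpr h1
  have hr0 : 0 < r := norm_pos_iff.mpr h2
  have hp0 : 0 ≤ p := norm_nonneg _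
  have f1 := peetre t γ
  have f2 := peetre t (-γ)
  rw [neg_sq] at f2
  have hg : 0 < 1 + γ ^ 2 := by positivity
  have ht : 0 < 1 + t ^ 2 := by positivity
  have f3 : (1 + γ ^ 2) ≤ 2 * (1 + t ^ 2) * (q * r) := by
    have g1 : (1 + γ ^ 2) * (1 + γ ^ 2) ≤
        (2 * (1 + t ^ 2) * (1 + (t - γ) ^ 2)) * (2 * (1 + t ^ 2) * (1 + (t - -γ) ^ 2)) := by
      apply mul_le_mul f1 f2 hg.le (by positivity)
    rw [← e2, ← e3] at g1
    have g2 : (1 + γ ^ 2) ^ 2 ≤ (2 * (1 + t ^ 2) * (q * r)) ^ 2 := by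
      calc (1 + γ ^ 2) ^ 2 = (1 + γ ^ 2) * (1 + γ ^ 2) := by ring
        _ ≤ _ := g1
        _ = _ := by ring
    exact (sq_le_sq₀ hg.le (by positivity)).mp g2
  have f4 : p ≤ 1 + t ^ 2 := by
    have : 1 ≤ 1 + t ^ 2 := by nlinarith [sq_nonneg t]
    nlinarith
  rw [zero_sub, neg_sq, mul_one_div, div_le_div_iff₀ (by positivity) hg]
  calc 2 * p * (1 + γ ^ 2) ≤ 2 * (1 + t ^ 2) * (2 * (1 + t ^ 2) * (q * r)) := by
        apply mul_le_mul (by linarith) f3 hg.le (by positivity)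
    _ = 4 * (1 + t ^ 2) ^ 2 * (q * r) := by ring

lemma norm_ST_le (hRH : RiemannHypothesis) {T : ℝ} (hT : 0 ≤ T) (t : ℝ) :
    ‖ST T (pt32 t)‖ ≤ 2 * (1 + t ^ 2) ^ 2 * (Fl 0).re := by
  have h1 : ST T (pt32 t) + ST T (pt32 t) = ∑ u ∈ ZZ T, (mu u : ℂ) *
      (1 / (1 + ((t - ord u : ℝ) : ℂ) * I) + 1 / (1 + ((t - -ord u : ℝ) : ℂ) * I)) := by
    simp only [mul_add, Finset.sum_add_distrib]
    congr 1
    · exact ST_pt32 hRH hT t
    · rw [ST_pt32 hRH hT t]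
      exact (sum_ZZ_flip hRH hT (fun x => 1 / (1 + ((t - x : ℝ) : ℂ) * I))).symm
  have h2 : ‖ST T (pt32 t) + ST T (pt32 t)‖ ≤ 4 * (1 + t ^ 2) ^ 2 * (Fl 0).re := by
    rw [h1]
    refine (norm_sum_le _ _).trans ?_
    calc ∑ u ∈ ZZ T, ‖(mu u : ℂ) *
          (1 / (1 + ((t - ord u : ℝ) : ℂ) * I) + 1 / (1 + ((t - -ord u : ℝ) : ℂ) * I))‖
        ≤ ∑ u ∈ ZZ T, 4 * (1 + t ^ 2) ^ 2 * (mu u / (1 + (0 - ord u) ^ 2)) := by
          apply Finset.sum_le_sum
          intro u _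
          rw [norm_mul, norm_real, Real.norm_of_nonneg (mu_nonneg u)]
          calc mu u * ‖1 / (1 + ((t - ord u : ℝ) : ℂ) * I) +
                1 / (1 + ((t - -ord u : ℝ) : ℂ) * I)‖
              ≤ mu u * (4 * (1 + t ^ 2) ^ 2 * (1 / (1 + (0 - ord u) ^ 2))) :=
                mul_le_mul_of_nonneg_left (pair_bound t (ord u)) (mu_nonneg u)
            _ = _ := by ring
      _ = 4 * (1 + t ^ 2) ^ 2 * ∑ u ∈ ZZ T, mu u / (1 + (0 - ord u) ^ 2) := by
          rw [Finset.mul_sum]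
      _ ≤ _ := mul_le_mul_of_nonneg_left (sum_ZZ_le hRH hT 0) (by positivity)
  rw [← two_mul, norm_mul, norm_ofNat] at h2
  linarith

/-- The decay of the transform on a horizontal line. -/
lemma gs_line_bound {h : ℝ → ℂ} {δ : ℝ} (hδ : 0 ≤ δ) (hh : Bump δ h) (y : ℝ) :
    ∃ C : ℝ, 0 < C ∧ ∀ t : ℝ, ‖gs h ((t : ℂ) + (y : ℂ) * I)‖ ≤ C / (1 + t ^ 2) ^ 3 := by
  obtain ⟨C, hC, hb⟩ := gs_decay hδ hh 6
  refine ⟨C * Real.exp (2 * π * δ * |y|), by positivity, fun t => ?_⟩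
  have h1 := hb ((t : ℂ) + (y : ℂ) * I)
  have h2 : ((t : ℂ) + (y : ℂ) * I).im = y := by simp
  rw [h2] at h1
  refine h1.trans ?_
  apply div_le_div_of_nonneg_left (by positivity) (by positivity)
  have h3 : |t| ≤ ‖(t : ℂ) + (y : ℂ) * I‖ := by
    have := abs_re_le_norm ((t : ℂ) + (y : ℂ) * I)
    simpa using this
  have h4 : 1 + t ^ 2 ≤ (1 + ‖(t : ℂ) + (y : ℂ) * I‖) ^ 2 := by
    have h5 := abs_nonneg t
    have h6 : t ^ 2 = |t| ^ 2 := (sq_abs t).symm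
    nlinarith
  calc (1 + t ^ 2) ^ 3 ≤ ((1 + ‖(t : ℂ) + (y : ℂ) * I‖) ^ 2) ^ 3 := by gcongr
    _ = (1 + ‖(t : ℂ) + (y : ℂ) * I‖) ^ 6 := by ring

lemma tendsto_int_ST (hRH : RiemannHypothesis) {h : ℝ → ℂ} {δ : ℝ} (hδ : 0 ≤ δ) (hh : Bump δ h)
    (y : ℝ) (e : ℝ → ℝ) (he : Continuous e) (he2 : ∀ t, e t ^ 2 = t ^ 2) :
    Tendsto (fun T : ℝ => ∫ t : ℝ, ST T (pt32 (e t)) * gs h ((t : ℂ) + (y : ℂ) * I)) atTop
      (𝓝 (∫ t : ℝ, Fl (e t) * gs h ((t : ℂ) + (y : ℂ) * I))) := by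
  obtain ⟨C, hC, hb⟩ := gs_line_bound hδ hh y
  have hK : 0 ≤ (Fl 0).re := (Finset.sum_nonneg (fun u _ => term_nonneg 0 u)).trans
    (sum_ZZ_le hRH le_rfl 0)
  have hcont : Continuous fun t : ℝ => gs h ((t : ℂ) + (y : ℂ) * I) := by
    apply (continuous_gs hδ hh).comp
    fun_prop
  apply tendsto_integral_filter_of_dominated_convergence
    (fun t : ℝ => 2 * (Fl 0).re * C * (1 + t ^ 2)⁻¹)
  · filter_upwards [eventually_ge_atTop 0] with T hT
    apply Continuous.aestronglyMeasurable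
    exact ((continuous_ST_pt32 hRH hT).comp he).mul hcont
  · filter_upwards [eventually_ge_atTop 0] with T hT
    apply Eventually.of_forall
    intro t
    rw [norm_mul]
    have h1 := norm_ST_le hRH hT (e t)
    rw [he2] at h1
    have h2 := hb t
    calc ‖ST T (pt32 (e t))‖ * ‖gs h ((t : ℂ) + (y : ℂ) * I)‖
        ≤ (2 * (1 + t ^ 2) ^ 2 * (Fl 0).re) * (C / (1 + t ^ 2) ^ 3) :=
          mul_le_mul h1 h2 (norm_nonneg _) (by positivity)
      _ = 2 * (Fl 0).re * C * (1 + t ^ 2)⁻¹ := by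
          field_simp
  · exact integrable_inv_one_add_sq.const_mul _
  · apply Eventually.of_forall
    intro t
    exact (tendsto_ST_pt32 hRH (e t)).mul_const _

/-- The sum over the zeros up to height `T`. -/
lemma sum_ZZ_gs (hRH : RiemannHypothesis) {h : ℝ → ℂ} {δ : ℝ} (hδ : 0 ≤ δ) (hh : Bump δ h)
    {T : ℝ} (hT : 0 ≤ T) :
    2 * π * ∑ u ∈ ZZ T, (mu u : ℂ) * gs h (ord u) =
      (∫ t : ℝ, ST T (pt32 t) * gs h ((t : ℂ) + ((-1 : ℝ) : ℂ) * I)) +
        ∫ t : ℝ, ST T (pt32 (-t)) * gs h ((t : ℂ) + ((1 : ℝ) : ℂ) * I) := by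
  have hint : ∀ (y : ℝ) (e : ℝ → ℝ), Continuous e → ∀ γ : ℝ,
      Integrable fun t : ℝ => 1 / (1 + ((e t - γ : ℝ) : ℂ) * I) *
        gs h ((t : ℂ) + (y : ℂ) * I) := by
    intro y e he γ
    apply (integrable_gs hδ hh y).bdd_mul (c := 1)
    · apply Continuous.aestronglyMeasurable
      exact continuous_inv_one_add.comp (he.sub continuous_const)
    · exact Eventually.of_forall fun t => norm_inv_one_add_le _
  have e1 : ∫ t : ℝ, ST T (pt32 t) * gs h ((t : ℂ) + ((-1 : ℝ) : ℂ) * I) =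
      ∑ u ∈ ZZ T, (mu u : ℂ) * ∫ t : ℝ, 1 / (1 + ((t - ord u : ℝ) : ℂ) * I) *
        gs h ((t : ℂ) + ((-1 : ℝ) : ℂ) * I) := by
    simp only [← integral_const_mul]
    rw [← integral_finsetSum]
    · apply integral_congr_ae
      apply Eventually.of_forall
      intro t
      simp only
      rw [ST_pt32 hRH hT, Finset.sum_mul]
      apply Finset.sum_congr rfl
      intro u _
      ring
    · intro u _
      exact (hint (-1) (fun t => t) continuous_id (ord u)).const_mul _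
  have e2 : ∫ t : ℝ, ST T (pt32 (-t)) * gs h ((t : ℂ) + ((1 : ℝ) : ℂ) * I) =
      ∑ u ∈ ZZ T, (mu u : ℂ) * ∫ t : ℝ, 1 / (1 + ((-t - -ord u : ℝ) : ℂ) * I) *
        gs h ((t : ℂ) + ((1 : ℝ) : ℂ) * I) := by
    simp only [← integral_const_mul]
    rw [← integral_finsetSum]
    · apply integral_congr_ae
      apply Eventually.of_forall
      intro t
      simp only
      rw [ST_pt32 hRH hT, ← sum_ZZ_flip hRH hT (fun x => 1 / (1 + ((-t - x : ℝ) : ℂ) * I)),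
        Finset.sum_mul]
      apply Finset.sum_congr rfl
      intro u _
      ring
    · intro u _
      exact (hint 1 (fun t => -t) continuous_neg (-ord u)).const_mul _
  rw [e1, e2, ← Finset.sum_add_distrib, Finset.mul_sum]
  apply Finset.sum_congr rfl
  intro u _
  rw [← mul_add, single hδ hh]
  ring

lemma summable_gs (hRH : RiemannHypothesis) {h : ℝ → ℂ} {δ : ℝ} (hδ : 0 ≤ δ) (hh : Bump δ h) :
    Summable fun u : Zer => (mu u : ℂ) * gs h (ord u) := by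
  obtain ⟨C, hC, hb⟩ := gs_real_bound hδ hh 1
  apply Summable.of_norm_bounded ((summable_zer hRH 0).mul_left C)
  intro u
  rw [norm_mul, norm_real, Real.norm_of_nonneg (mu_nonneg u), zero_sub, neg_sq]
  have h1 := hb (ord u)
  rw [pow_one] at h1
  calc mu u * ‖gs h (ord u)‖ ≤ mu u * (C / (1 + ord u ^ 2)) :=
        mul_le_mul_of_nonneg_left h1 (mu_nonneg u)
    _ = C * (mu u / (1 + ord u ^ 2)) := by ring

/-- The explicit formula, with the logarithmic derivative of `xi`. -/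
theorem explicit_sum (hRH : RiemannHypothesis) {h : ℝ → ℂ} {δ : ℝ} (hδ : 0 ≤ δ)
    (hh : Bump δ h) :
    2 * π * ∑' u : Zer, (mu u : ℂ) * gs h (ord u) =
      (∫ t : ℝ, Fl t * gs h ((t : ℂ) + ((-1 : ℝ) : ℂ) * I)) +
        ∫ t : ℝ, Fl (-t) * gs h ((t : ℂ) + ((1 : ℝ) : ℂ) * I) := by
  have h1 : Tendsto (fun T : ℝ => 2 * π * ∑ u ∈ ZZ T, (mu u : ℂ) * gs h (ord u)) atTop
      (𝓝 (2 * π * ∑' u : Zer, (mu u : ℂ) * gs h (ord u))) :=
    ((summable_gs hRH hδ hh).hasSum.comp (tendsto_ZZ hRH)).const_mul _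
  have h2 := (tendsto_int_ST hRH hδ hh (-1) (fun t => t) continuous_id (fun t => rfl)).add
    (tendsto_int_ST hRH hδ hh 1 (fun t => -t) continuous_neg (fun t => neg_sq t))
  apply tendsto_nhds_unique h1
  refine h2.congr' ?_
  filter_upwards [eventually_ge_atTop 0] with T hT
  exact (sum_ZZ_gs hRH hδ hh hT).symm

end Pool.Agent.MP_67227b_nt.Mo
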