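import Pool.Agent.MP_67227b_nt.Mo.BC
import Pool.Agent.Lib.ZetaCount_helper33.JensenCount

set_option autoImplicit false

open Filter Topology Set Metric Complex

namespace Pool.Agent.MP_67227b_nt.Mo

open Pool.Agent.Lib.ZetaCount_helper33

lemma exists_factor_aux {f : ℂ → ℂ} (hf : Differentiable ℂ f) (u : ℂ) (n : ℕ)
    (h : (n : ℕ∞) ≤ analyticOrderAt f u) :
    ∃ g : ℂ → ℂ, Differentiable ℂ g ∧ ∀ s, f s = (s - u) ^ n * g s := by
  induction n with
  | zero => exact ⟨f, hf, fun s => by simp⟩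
  | succ n ih =>
    obtain ⟨g, hg, hfg⟩ := ih (le_trans (by exact_mod_cast Nat.le_succ n) h)
    have hpow : AnalyticAt ℂ (fun s : ℂ => (s - u) ^ n) u := by fun_prop
    have hga : AnalyticAt ℂ g u := hg.analyticAt u
    have e : f = (fun s : ℂ => (s - u) ^ n) * g := by
      ext s
      exact hfg s
    have ho : analyticOrderAt (fun s : ℂ => (s - u) ^ n) u = n := by
      rw [hpow.analyticOrderAt_eq_natCast]
      refine ⟨fun _ => 1, analyticAt_const, one_ne_zero, ?_⟩
      filter_upwards with s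
      simp
    rw [e, analyticOrderAt_mul hpow hga, ho] at h
    have hg0 : g u = 0 := by
      by_contra hne
      rw [hga.analyticOrderAt_eq_zero.mpr hne, add_zero] at h
      have : n + 1 ≤ n := by exact_mod_cast h
      omega
    refine ⟨dslope g u, ?_, fun s => ?_⟩
    · have := (Complex.differentiableOn_dslope (c := u) (s := univ) (f := g)
        univ_mem).mpr hg.differentiableOn
      exact fun s => (this s (mem_univ s)).differentiableAt univ_mem
    · rw [hfg s, pow_succ, mul_assoc]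
      congr 1
      have h2 := sub_smul_dslope g u s
      rw [hg0, sub_zero, smul_eq_mul] at h2
      exact h2.symm

/-- Factor out the zero at one point. -/
lemma exists_factor {f : ℂ → ℂ} (hf : Differentiable ℂ f) {c : ℂ} (hc : f c ≠ 0) (u : ℂ) :
    ∃ g : ℂ → ℂ, Differentiable ℂ g ∧ g u ≠ 0 ∧
      ∀ s, f s = (s - u) ^ (analyticOrderNatAt f u) * g s := by
  have htop := order_ne_top hf hc u
  have hn : (analyticOrderNatAt f u : ℕ∞) = analyticOrderAt f u :=
    Nat.cast_analyticOrderNatAt htop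
  obtain ⟨g, hg, hfg⟩ := exists_factor_aux hf u _ hn.le
  refine ⟨g, hg, ?_, hfg⟩
  set n := analyticOrderNatAt f u with hnd
  have hpow : AnalyticAt ℂ (fun s : ℂ => (s - u) ^ n) u := by fun_prop
  have hga : AnalyticAt ℂ g u := hg.analyticAt u
  have e : f = (fun s : ℂ => (s - u) ^ n) * g := by
    ext s
    exact hfg s
  have ho : analyticOrderAt (fun s : ℂ => (s - u) ^ n) u = n := by
    rw [hpow.analyticOrderAt_eq_natCast]
    refine ⟨fun _ => 1, analyticAt_const, one_ne_zero, ?_⟩
    filter_upwards with s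
    simp
  have h : analyticOrderAt f u = n + analyticOrderAt g u := by
    conv_lhs => rw [e]
    rw [analyticOrderAt_mul hpow hga, ho]
  rw [← hn] at h
  have h2 : analyticOrderAt g u = 0 := by
    have h3 : (n : ℕ∞) + 0 = n + analyticOrderAt g u := by rw [add_zero]; exact h
    exact (ENat.add_right_injective_of_ne_top (ENat.coe_ne_top n) h3).symm
  exact (hga.analyticOrderAt_eq_zero).mp h2

/-- Factor out finitely many zeros. -/
lemma exists_factor_finset {f : ℂ → ℂ} (hf : Differentiable ℂ f) {c : ℂ} (hc : f c ≠ 0)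
    (Z : Finset ℂ) :
    ∃ g : ℂ → ℂ, Differentiable ℂ g ∧ (∀ v ∈ Z, g v ≠ 0) ∧
      (∀ v, g v = 0 → f v = 0) ∧
      ∀ s, f s = (∏ u ∈ Z, (s - u) ^ (analyticOrderNatAt f u)) * g s := by
  classical
  induction Z using Finset.induction_on with
  | empty => exact ⟨f, hf, by simp, fun v h => h, fun s => by simp⟩
  | insert a Z ha ih =>
    obtain ⟨g, hg, h1, h2, h3⟩ := ih
    have hgc : g c ≠ 0 := fun h => hc (h2 c h)
    obtain ⟨k, hk, hka, hgk⟩ := exists_factor hg hgc a
    -- the order of `g` at `a` is the order of `f`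
    have hord : analyticOrderNatAt g a = analyticOrderNatAt f a := by
      have hprod : AnalyticAt ℂ (fun s : ℂ => ∏ u ∈ Z, (s - u) ^ (analyticOrderNatAt f u)) a := by
        apply Finset.analyticAt_fun_prod
        intro u _
        fun_prop
      have hpn : (fun s : ℂ => ∏ u ∈ Z, (s - u) ^ (analyticOrderNatAt f u)) a ≠ 0 := by
        simp only
        rw [Finset.prod_ne_zero_iff]
        intro u hu
        apply pow_ne_zero
        rw [sub_ne_zero]
        rintro rfl
        exact ha hu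
      have e : f = (fun s : ℂ => ∏ u ∈ Z, (s - u) ^ (analyticOrderNatAt f u)) * g := by
        ext s
        exact h3 s
      have h4 : analyticOrderAt f a = analyticOrderAt g a := by
        conv_lhs => rw [e]
        rw [analyticOrderAt_mul hprod (hg.analyticAt a), hprod.analyticOrderAt_eq_zero.mpr hpn,
          zero_add]
      rw [analyticOrderNatAt, analyticOrderNatAt, h4]
    rw [hord] at hgk
    refine ⟨k, hk, ?_, ?_, ?_⟩
    · intro v hv
      rw [Finset.mem_insert] at hv
      rcases hv with rfl | hv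
      · exact hka
      · intro h
        apply h1 v hv
        rw [hgk, h, mul_zero]
    · intro v hv
      apply h2
      rw [hgk, hv, mul_zero]
    · intro s
      rw [h3 s, hgk s, Finset.prod_insert ha]
      ring

/-- Division by the zeros in a disc. -/
lemma exists_quotient {f : ℂ → ℂ} (hf : Differentiable ℂ f) {c : ℂ} (hc : f c ≠ 0) {r M : ℝ}
    (hr : 0 < r) (hM : 0 < M) (hb : ∀ s, ‖s - c‖ ≤ 2 * r → ‖f s‖ ≤ Real.exp M * ‖f c‖) :
    ∃ g : ℂ → ℂ, Differentiable ℂ g ∧ (∀ v ∈ closedBall c r, g v ≠ 0) ∧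
      (∀ s, f s = (∏ u ∈ zset hf hc r, (s - u) ^ (analyticOrderNatAt f u)) * g s) ∧
      ∀ s, ‖s - c‖ ≤ r / 8 → ‖deriv (logDeriv g) s‖ ≤ 64 * M / r ^ 2 := by
  obtain ⟨g, hg, h1, h2, h3⟩ := exists_factor_finset hf hc (zset hf hc r)
  have hg0 : ∀ v ∈ closedBall c r, g v ≠ 0 := by
    intro v hv h
    exact h1 v ((mem_zset hf hc r v).mpr ⟨hv, h2 v h⟩) h
  refine ⟨g, hg, hg0, h3, ?_⟩
  set n : ℕ := ∑ u ∈ zset hf hc r, analyticOrderNatAt f u with hn
  have hprodlow : ∀ s, ‖s - c‖ = 2 * r →
      r ^ n ≤ ‖∏ u ∈ zset hf hc r, (s - u) ^ (analyticOrderNatAt f u)‖ := by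
    intro s hs
    rw [norm_prod, hn, ← Finset.prod_pow_eq_pow_sum]
    apply Finset.prod_le_prod
    · intro u _
      positivity
    · intro u hu
      rw [norm_pow]
      have h4 : ‖u - c‖ ≤ r := by
        have := ((mem_zset hf hc r u).mp hu).1
        rwa [mem_closedBall, dist_eq_norm] at this
      have h5 : r ≤ ‖s - u‖ := by
        have h6 : s - c = (s - u) + (u - c) := by ring
        have h7 := norm_add_le (s - u) (u - c)
        rw [← h6, hs] at h7
        linarith
      gcongr
  have hprodup : ‖∏ u ∈ zset hf hc r, (c - u) ^ (analyticOrderNatAt f u)‖ ≤ r ^ n := by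
    rw [norm_prod, hn, ← Finset.prod_pow_eq_pow_sum]
    apply Finset.prod_le_prod
    · intro u _
      positivity
    · intro u hu
      rw [norm_pow]
      have h4 : ‖u - c‖ ≤ r := by
        have := ((mem_zset hf hc r u).mp hu).1
        rwa [mem_closedBall, dist_eq_norm] at this
      rw [norm_sub_rev] at h4
      gcongr
  have hrn : 0 < r ^ n := by positivity
  -- bound on the large circle
  have hcirc : ∀ s ∈ sphere c (2 * r), ‖g s‖ ≤ Real.exp M * ‖g c‖ := by
    intro s hs
    rw [mem_sphere, dist_eq_norm] at hs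
    have h4 := hb s hs.le
    rw [h3 s, h3 c, norm_mul, norm_mul] at h4
    have h5 := hprodlow s hs
    have h6 : r ^ n * ‖g s‖ ≤ Real.exp M * (r ^ n * ‖g c‖) := by
      calc r ^ n * ‖g s‖ ≤ ‖∏ u ∈ zset hf hc r, (s - u) ^ (analyticOrderNatAt f u)‖ * ‖g s‖ := by
            gcongr
        _ ≤ _ := h4
        _ ≤ Real.exp M * (r ^ n * ‖g c‖) := by gcongr
    have h7 : r ^ n * ‖g s‖ ≤ r ^ n * (Real.exp M * ‖g c‖) := by
      refine h6.trans (le_of_eq ?_)
      ring
    exact le_of_mul_le_mul_left h7 hrn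
  have hball : ∀ s ∈ ball c r, ‖g s‖ ≤ Real.exp M * ‖g c‖ := by
    intro s hs
    have h4 := norm_le_of_forall_mem_frontier_norm_le (U := ball c (2 * r)) isBounded_ball
      hg.diffContOnCl (C := Real.exp M * ‖g c‖) (by
        intro z hz
        rw [frontier_ball c (by positivity)] at hz
        exact hcirc z hz) (z := s) (subset_closure (by
          rw [mem_ball] at hs ⊢
          linarith))
    exact h4
  exact (logDeriv_bounds hr hM hg.differentiableOn
    (fun s hs => hg0 s (ball_subset_closedBall hs)) hball).2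

/-- The logarithmic derivative in terms of the zeros in a disc. -/
lemma logDeriv_eq_sum {f g : ℂ → ℂ} (hg : Differentiable ℂ g) (Z : Finset ℂ) (ord : ℂ → ℕ)
    (hfg : ∀ s, f s = (∏ u ∈ Z, (s - u) ^ (ord u)) * g s) {s : ℂ} (hs : ∀ u ∈ Z, s ≠ u)
    (hgs : g s ≠ 0) :
    logDeriv f s = ∑ u ∈ Z, (ord u : ℂ) / (s - u) + logDeriv g s := by
  have e : f = fun s => (∏ u ∈ Z, (s - u) ^ (ord u)) * g s := by
    ext s
    exact hfg s
  have hd : ∀ u : ℂ, HasDerivAt (fun z : ℂ => (z - u) ^ (ord u))
      ((ord u : ℂ) * (s - u) ^ (ord u - 1) * 1) s := by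
    intro u
    exact ((hasDerivAt_id s).sub_const u).pow (ord u)
  have hne : ∀ u ∈ Z, (s - u) ^ (ord u) ≠ 0 := fun u hu =>
    pow_ne_zero _ (sub_ne_zero.mpr (hs u hu))
  rw [e, logDeriv_mul (f := fun s => ∏ u ∈ Z, (s - u) ^ (ord u)) (g := g) s
    (Finset.prod_ne_zero_iff.mpr hne) hgs
    (DifferentiableAt.fun_finsetProd fun u _ => (hd u).differentiableAt) (hg s)]
  congr 1
  rw [logDeriv_prod (s := Z) (f := fun u s => (s - u) ^ (ord u)) (x := s) hne
    (fun u _ => (hd u).differentiableAt)]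
  apply Finset.sum_congr rfl
  intro u hu
  rw [logDeriv_apply, (hd u).deriv, mul_one]
  have h1 : s - u ≠ 0 := sub_ne_zero.mpr (hs u hu)
  rcases Nat.eq_zero_or_pos (ord u) with h0 | h0
  · simp [h0]
  · rw [div_eq_div_iff (pow_ne_zero _ h1) h1, mul_assoc, ← pow_succ, Nat.sub_add_cancel h0]

end Pool.Agent.MP_67227b_nt.Mo
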