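import Pool.Agent.MP_67227b_nt.Mo.MoDefs

set_option autoImplicit false

open Filter Topology Set MeasureTheory Complex
open scoped Real ContDiff ArithmeticFunction

namespace Pool.Agent.MP_67227b_nt.Mo

open Pool.Agent.Lib.ZetaCount_helper33 Pool.Agent.MP_67227b_nt

/-- The sum of the products of `Λ` over the factorisations of `M` into `q` factors. -/
theorem sum_prod_lam_le (q N M : ℕ) (hM : M ≠ 0) :
    ∑ n ∈ (Fintype.piFinset fun _ : Fin q => Finset.range (N + 1)).filter
      (fun n => ∏ i, n i = M), ∏ i, Λ (n i) ≤ Real.log M ^ q := by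
  classical
  induction q generalizing M with
  | zero =>
    rw [pow_zero, Finset.sum_filter]
    calc _ ≤ ∑ n ∈ Fintype.piFinset fun _ : Fin 0 => Finset.range (N + 1), (1 : ℝ) := by
          refine Finset.sum_le_sum fun n _ => ?_
          split_ifs
          · simp
          · exact zero_le_one
      _ = 1 := by simp
  | succ q ih =>
    -- split off the first factor
    have h1 : ∑ n ∈ (Fintype.piFinset fun _ : Fin (q + 1) => Finset.range (N + 1)).filter
        (fun n => ∏ i, n i = M), ∏ i, Λ (n i) =
        ∑ x ∈ (Finset.range (N + 1) ×ˢ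
          (Fintype.piFinset fun _ : Fin q => Finset.range (N + 1))).filter
          (fun x => x.1 * ∏ i, x.2 i = M), Λ x.1 * ∏ i, Λ (x.2 i) := by
      refine Finset.sum_bij' (fun n _ => (n 0, Fin.tail n)) (fun x _ => Fin.cons x.1 x.2)
        ?_ ?_ ?_ ?_ ?_
      · intro n hn
        simp only [Finset.mem_filter, Fintype.mem_piFinset, Finset.mem_product] at hn ⊢
        refine ⟨⟨hn.1 0, fun i => hn.1 i.succ⟩, ?_⟩
        rw [← hn.2, Fin.prod_univ_succ]
        rfl
      · intro x hx
        simp only [Finset.mem_filter, Fintype.mem_piFinset, Finset.mem_product] at hx ⊢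
        refine ⟨fun i => ?_, ?_⟩
        · refine Fin.cases ?_ (fun j => ?_) i
          · simpa using hx.1.1
          · simpa using hx.1.2 j
        · rw [Fin.prod_univ_succ]
          simpa using hx.2
      · intro n _
        exact Fin.cons_self_tail n
      · intro x _
        simp
      · intro n _
        rw [Fin.prod_univ_succ]
        rfl
    rw [h1, Finset.sum_filter, Finset.sum_product]
    have h2 : ∀ d ∈ Finset.range (N + 1),
        ∑ n ∈ Fintype.piFinset fun _ : Fin q => Finset.range (N + 1),
          (if d * ∏ i, n i = M then Λ d * ∏ i, Λ (n i) else 0) ≤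
        if d ∣ M then Λ d * Real.log M ^ q else 0 := by
      intro d _
      split_ifs with hd
      · obtain ⟨e, rfl⟩ := hd
        have hd0 : d ≠ 0 := fun h => hM (by rw [h, zero_mul])
        have he0 : e ≠ 0 := fun h => hM (by rw [h, mul_zero])
        have h3 : ∑ n ∈ Fintype.piFinset fun _ : Fin q => Finset.range (N + 1),
            (if d * ∏ i, n i = d * e then Λ d * ∏ i, Λ (n i) else 0) =
            Λ d * ∑ n ∈ (Fintype.piFinset fun _ : Fin q => Finset.range (N + 1)).filter
              (fun n => ∏ i, n i = e), ∏ i, Λ (n i) := by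
          rw [Finset.sum_filter, Finset.mul_sum]
          refine Finset.sum_congr rfl fun n _ => ?_
          by_cases hn : ∏ i, n i = e
          · rw [if_pos (by rw [hn]), if_pos hn]
          · rw [if_neg (fun h => hn (Nat.eq_of_mul_eq_mul_left (Nat.pos_of_ne_zero hd0) h)),
              if_neg hn, mul_zero]
        rw [h3]
        refine mul_le_mul_of_nonneg_left ((ih e he0).trans ?_)
          ArithmeticFunction.vonMangoldt_nonneg
        refine pow_le_pow_left₀ (Real.log_natCast_nonneg e) ?_ q
        refine Real.log_le_log (by exact_mod_cast Nat.pos_of_ne_zero he0) ?_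
        exact_mod_cast Nat.le_mul_of_pos_left e (Nat.pos_of_ne_zero hd0)
      · refine le_of_eq (Finset.sum_eq_zero fun n _ => ?_)
        rw [if_neg]
        rintro rfl
        exact hd (dvd_mul_right _ _)
    refine (Finset.sum_le_sum h2).trans ?_
    rw [← Finset.sum_filter]
    have h4 : ∑ d ∈ (Finset.range (N + 1)).filter (fun d => d ∣ M), Λ d * Real.log M ^ q ≤
        ∑ d ∈ M.divisors, Λ d * Real.log M ^ q := by
      refine Finset.sum_le_sum_of_subset_of_nonneg ?_ fun d _ _ =>
        mul_nonneg ArithmeticFunction.vonMangoldt_nonneg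
          (pow_nonneg (Real.log_natCast_nonneg M) q)
      intro d hd
      exact Nat.mem_divisors.2 ⟨(Finset.mem_filter.1 hd).2, hM⟩
    refine h4.trans (le_of_eq ?_)
    rw [← Finset.sum_mul, ArithmeticFunction.vonMangoldt_sum, pow_succ, mul_comm]

end Pool.Agent.MP_67227b_nt.Mo
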