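import Pool.Agent.MP_67227b_nt.Mo.MoDefs

set_option autoImplicit false

open Filter Topology Set MeasureTheory Complex
open scoped Real ContDiff ArithmeticFunction

namespace Pool.Agent.MP_67227b_nt.Mo

open Pool.Agent.Lib.ZetaCount_helper33 Pool.Agent.MP_67227b_nt

namespace OD92

/-- The harmonic sum. -/
noncomputable def HS (N : ℕ) : ℝ := ∑ j ∈ Finset.range (N + 1), 1 / (j : ℝ)

theorem HS_le (N : ℕ) : HS N ≤ 1 + Real.log N := by
  have h := harmonic_le_one_add_log N
  have h2 : HS N = ((harmonic N : ℚ) : ℝ) := by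
    unfold HS harmonic
    rw [Finset.sum_range_succ']
    push_cast
    simp
  rw [h2]; exact h

theorem HS_nonneg (N : ℕ) : 0 ≤ HS N := Finset.sum_nonneg fun _ _ => by positivity

theorem log_two_pos' : (0 : ℝ) < Real.log 2 := Real.log_pos (by norm_num)

theorem log_two_le {N : ℕ} (hN : 2 ≤ N) : Real.log 2 ≤ Real.log N :=
  Real.log_le_log (by norm_num) (by exact_mod_cast hN)

theorem one_le_log {N : ℕ} (hN : 2 ≤ N) : 1 ≤ 2 * Real.log N := by
  have h1 := log_two_le hN
  have h2 := Real.log_two_gt_d9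
  linarith

theorem HS_le_log {N : ℕ} (hN : 2 ≤ N) : HS N ≤ 3 * Real.log N := by
  have := HS_le N
  have := one_le_log hN
  linarith

theorem vonMangoldt_le_logN {N n : ℕ} (hn : n ∈ Finset.range (N + 1)) : Λ n ≤ Real.log N := by
  rcases Nat.eq_zero_or_pos n with h | h
  · subst h
    simp only [ArithmeticFunction.map_zero]
    exact Real.log_natCast_nonneg N
  · refine ArithmeticFunction.vonMangoldt_le_log.trans ?_
    exact Real.log_le_log (by exact_mod_cast h) (by
      have := Finset.mem_range.1 hn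
      exact_mod_cast Nat.lt_succ_iff.1 this)

/-- `√(n m) |log n - log m|` from below. -/
theorem inv_kernel_le {n m : ℕ} (hm : 0 < m) (hnm : m < n) :
    1 / (Real.sqrt n * Real.sqrt m * |Real.log n - Real.log m|) ≤
      1 / ((n - m : ℕ) : ℝ) + 1 / (m : ℝ) := by
  have hm' : (0 : ℝ) < m := by exact_mod_cast hm
  have hn' : (0 : ℝ) < n := by exact_mod_cast hm.trans hnm
  have hlt : (m : ℝ) < n := by exact_mod_cast hnm
  have hsub : ((n - m : ℕ) : ℝ) = (n : ℝ) - m := by
    rw [Nat.cast_sub hnm.le]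
  rw [hsub]
  have hd : (0 : ℝ) < n - m := by linarith
  have hlog : ((n : ℝ) - m) / n ≤ Real.log n - Real.log m := by
    rw [← Real.log_div hn'.ne' hm'.ne']
    have := Real.one_sub_inv_le_log_of_pos (div_pos hn' hm')
    have h3 : 1 - ((n : ℝ) / m)⁻¹ = ((n : ℝ) - m) / n := by
      field_simp
    linarith
  have hlogpos : 0 < Real.log n - Real.log m := lt_of_lt_of_le (by positivity) hlog
  rw [abs_of_pos hlogpos]
  have hsn : 0 < Real.sqrt n := Real.sqrt_pos.2 hn'
  have hsm : 0 < Real.sqrt m := Real.sqrt_pos.2 hm'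
  have h1 : 1 / (Real.sqrt n * Real.sqrt m * (Real.log n - Real.log m)) ≤
      1 / (Real.sqrt n * Real.sqrt m * (((n : ℝ) - m) / n)) := by
    apply one_div_le_one_div_of_le
    · positivity
    · exact mul_le_mul_of_nonneg_left hlog (by positivity)
  refine h1.trans ?_
  have h2 : 1 / (Real.sqrt n * Real.sqrt m * (((n : ℝ) - m) / n)) =
      (Real.sqrt n / Real.sqrt m) / (n - m) := by
    have hnn : (n : ℝ) = Real.sqrt n * Real.sqrt n := (Real.mul_self_sqrt hn'.le).symm
    rw [div_eq_div_iff (by positivity) (by positivity)]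
    field_simp
    rw [Real.sq_sqrt hn'.le]
  rw [h2]
  have h3 : Real.sqrt n / Real.sqrt m ≤ (1 + (n : ℝ) / m) / 2 := by
    have h4 : (n : ℝ) / m = (Real.sqrt n / Real.sqrt m) ^ 2 := by
      rw [div_pow, Real.sq_sqrt hn'.le, Real.sq_sqrt hm'.le]
    rw [h4]
    nlinarith [sq_nonneg (Real.sqrt n / Real.sqrt m - 1)]
  calc (Real.sqrt n / Real.sqrt m) / (n - m) ≤ ((1 + (n : ℝ) / m) / 2) / (n - m) :=
        div_le_div_of_nonneg_right h3 hd.le
    _ = 1 / ((n : ℝ) - m) + 1 / (2 * m) := by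
        field_simp
        ring
    _ ≤ 1 / ((n : ℝ) - m) + 1 / (m : ℝ) := by
        gcongr
        linarith

theorem sum_trunc_le {N n : ℕ} (hn : n ∈ Finset.range (N + 1)) :
    ∑ m ∈ Finset.range (N + 1), 1 / ((n - m : ℕ) : ℝ) ≤ HS N := by
  have hnN : n ≤ N := Nat.lt_succ_iff.1 (Finset.mem_range.1 hn)
  have h1 : ∑ m ∈ Finset.range (N + 1), 1 / ((n - m : ℕ) : ℝ) =
      ∑ m ∈ Finset.range (n + 1), 1 / ((n - m : ℕ) : ℝ) := by
    symm
    apply Finset.sum_subset (Finset.range_mono (by omega))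
    intro x _ hx
    have : n - x = 0 := by
      rw [Finset.mem_range] at hx
      omega
    rw [this]; simp
  rw [h1]
  have h2 : ∑ m ∈ Finset.range (n + 1), 1 / ((n - m : ℕ) : ℝ) =
      ∑ m ∈ Finset.range (n + 1), 1 / (m : ℝ) := by
    have := Finset.sum_range_reflect (fun j : ℕ => 1 / (j : ℝ)) (n + 1)
    simpa using this
  rw [h2]
  exact Finset.sum_le_sum_of_subset_of_nonneg (Finset.range_mono (by omega))
    fun _ _ _ => by positivity

end OD92

open OD92 in
/-- The off-diagonal terms with `n ≠ m`. -/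
theorem exists_offdiag : ∃ C : ℝ, 0 < C ∧ ∀ N : ℕ, 2 ≤ N →
    ∑ n ∈ Finset.range (N + 1), ∑ m ∈ Finset.range (N + 1),
      (if n = m then 0 else Λ n * Λ m / (Real.sqrt n * Real.sqrt m *
        |Real.log n - Real.log m|)) ≤ C * N * Real.log N ^ 3 := by
  refine ⟨24, by norm_num, fun N hN => ?_⟩
  have hL : 0 ≤ Real.log N := Real.log_natCast_nonneg N
  have hH := HS_nonneg N
  have key : ∀ n ∈ Finset.range (N + 1), ∀ m ∈ Finset.range (N + 1),
      (if n = m then 0 else Λ n * Λ m / (Real.sqrt n * Real.sqrt m *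
        |Real.log n - Real.log m|)) ≤
      Real.log N ^ 2 * (1 / ((n - m : ℕ) : ℝ) + 1 / ((m - n : ℕ) : ℝ) + 1 / (m : ℝ) + 1 / (n : ℝ)) := by
    intro n hn m hm
    split_ifs with h
    · positivity
    · rcases Nat.eq_zero_or_pos n with h0 | hnpos
      · subst h0
        simp only [ArithmeticFunction.map_zero, zero_mul, zero_div]
        positivity
      rcases Nat.eq_zero_or_pos m with h0 | hmpos
      · subst h0
        simp only [ArithmeticFunction.map_zero, mul_zero, zero_div]
        positivity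
      have hΛ : Λ n * Λ m ≤ Real.log N ^ 2 := by
        rw [sq]
        exact mul_le_mul (vonMangoldt_le_logN hn) (vonMangoldt_le_logN hm)
          ArithmeticFunction.vonMangoldt_nonneg hL
      have hk : 1 / (Real.sqrt n * Real.sqrt m * |Real.log n - Real.log m|) ≤
          1 / ((n - m : ℕ) : ℝ) + 1 / ((m - n : ℕ) : ℝ) + 1 / (m : ℝ) + 1 / (n : ℝ) := by
        rcases lt_or_gt_of_ne h with hlt | hgt
        · have h1 := inv_kernel_le hnpos hlt
          have h2 : Real.sqrt n * Real.sqrt m * |Real.log n - Real.log m| =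
              Real.sqrt m * Real.sqrt n * |Real.log m - Real.log n| := by
            rw [abs_sub_comm]; ring
          rw [h2]
          have h3 : 0 ≤ 1 / ((n - m : ℕ) : ℝ) := by positivity
          have h4 : 0 ≤ 1 / (m : ℝ) := by positivity
          linarith
        · have h1 := inv_kernel_le hmpos hgt
          have h3 : 0 ≤ 1 / ((m - n : ℕ) : ℝ) := by positivity
          have h4 : 0 ≤ 1 / (n : ℝ) := by positivity
          linarith
      rw [div_eq_mul_one_div]
      exact mul_le_mul hΛ hk (by positivity) (by positivity)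
  refine (Finset.sum_le_sum fun n hn => Finset.sum_le_sum fun m hm => key n hn m hm).trans ?_
  simp only [← Finset.mul_sum]
  have hA : ∑ n ∈ Finset.range (N + 1), ∑ m ∈ Finset.range (N + 1), 1 / ((n - m : ℕ) : ℝ) ≤
      (N + 1) * HS N := by
    refine (Finset.sum_le_sum fun n hn => sum_trunc_le hn).trans ?_
    simp
  have hB : ∑ n ∈ Finset.range (N + 1), ∑ m ∈ Finset.range (N + 1), 1 / ((m - n : ℕ) : ℝ) ≤
      (N + 1) * HS N := by
    rw [Finset.sum_comm]; exact hA
  have hC : ∑ n ∈ Finset.range (N + 1), ∑ m ∈ Finset.range (N + 1), 1 / (m : ℝ) ≤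
      (N + 1) * HS N := by
    simp [HS]
  have hD : ∑ n ∈ Finset.range (N + 1), ∑ m ∈ Finset.range (N + 1), 1 / (n : ℝ) ≤
      (N + 1) * HS N := by
    rw [Finset.sum_comm]; exact hC
  have hsum : ∑ n ∈ Finset.range (N + 1), ∑ m ∈ Finset.range (N + 1),
      (1 / ((n - m : ℕ) : ℝ) + 1 / ((m - n : ℕ) : ℝ) + 1 / (m : ℝ) + 1 / (n : ℝ)) ≤
      4 * ((N + 1) * HS N) := by
    simp only [Finset.sum_add_distrib]
    linarith
  have hN1 : (1 : ℝ) ≤ N := by exact_mod_cast (by omega : 1 ≤ N)
  calc Real.log N ^ 2 * ∑ n ∈ Finset.range (N + 1), ∑ m ∈ Finset.range (N + 1),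
      (1 / ((n - m : ℕ) : ℝ) + 1 / ((m - n : ℕ) : ℝ) + 1 / (m : ℝ) + 1 / (n : ℝ))
      ≤ Real.log N ^ 2 * (4 * ((N + 1) * HS N)) :=
        mul_le_mul_of_nonneg_left hsum (by positivity)
    _ ≤ Real.log N ^ 2 * (4 * ((2 * N) * (3 * Real.log N))) := by
        have := HS_le_log hN
        gcongr
        linarith
    _ = 24 * N * Real.log N ^ 3 := by ring

open OD92 in
/-- The terms with `n m`. -/
theorem exists_offdiag_prod : ∃ C : ℝ, 0 < C ∧ ∀ N : ℕ, 2 ≤ N →
    ∑ n ∈ Finset.range (N + 1), ∑ m ∈ Finset.range (N + 1),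
      Λ n * Λ m / (Real.sqrt n * Real.sqrt m * (Real.log n + Real.log m)) ≤
        C * N * Real.log N ^ 3 := by
  refine ⟨24, by norm_num, fun N hN => ?_⟩
  have hL : 0 ≤ Real.log N := Real.log_natCast_nonneg N
  have hH := HS_nonneg N
  have key : ∀ n ∈ Finset.range (N + 1), ∀ m ∈ Finset.range (N + 1),
      Λ n * Λ m / (Real.sqrt n * Real.sqrt m * (Real.log n + Real.log m)) ≤
      Real.log N * (1 / (m : ℝ) + 1 / (n : ℝ)) := by
    intro n hn m hm
    rcases Nat.eq_zero_or_pos n with h0 | hnpos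
    · subst h0
      simp only [ArithmeticFunction.map_zero, zero_mul, zero_div]
      positivity
    rcases Nat.eq_zero_or_pos m with h0 | hmpos
    · subst h0
      simp only [ArithmeticFunction.map_zero, mul_zero, zero_div]
      positivity
    have hm' : (0 : ℝ) < m := by exact_mod_cast hmpos
    have hn' : (0 : ℝ) < n := by exact_mod_cast hnpos
    have hsn : 0 < Real.sqrt n := Real.sqrt_pos.2 hn'
    have hsm : 0 < Real.sqrt m := Real.sqrt_pos.2 hm'
    have hln : 0 ≤ Real.log n := Real.log_natCast_nonneg n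
    have hlm : 0 ≤ Real.log m := Real.log_natCast_nonneg m
    have h1 : Λ n / (Real.log n + Real.log m) ≤ 1 := by
      apply div_le_one_of_le₀
      · exact ArithmeticFunction.vonMangoldt_le_log.trans (by linarith)
      · linarith
    have h1' : 0 ≤ Λ n / (Real.log n + Real.log m) :=
      div_nonneg ArithmeticFunction.vonMangoldt_nonneg (by linarith)
    have h2 : 1 / (Real.sqrt n * Real.sqrt m) ≤ 1 / (m : ℝ) + 1 / (n : ℝ) := by
      have h3 : 1 / (m : ℝ) = (1 / Real.sqrt m) ^ 2 := by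
        rw [div_pow, Real.sq_sqrt hm'.le, one_pow]
      have h4 : 1 / (n : ℝ) = (1 / Real.sqrt n) ^ 2 := by
        rw [div_pow, Real.sq_sqrt hn'.le, one_pow]
      have h5 : 1 / (Real.sqrt n * Real.sqrt m) = (1 / Real.sqrt n) * (1 / Real.sqrt m) := by
        rw [one_div_mul_one_div]
      rw [h3, h4, h5]
      have : 0 < 1 / Real.sqrt n := by positivity
      have : 0 < 1 / Real.sqrt m := by positivity
      nlinarith [sq_nonneg (1 / Real.sqrt n - 1 / Real.sqrt m)]
    have h6 : Λ n * Λ m / (Real.sqrt n * Real.sqrt m * (Real.log n + Real.log m)) =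
        (Λ n / (Real.log n + Real.log m)) * Λ m * (1 / (Real.sqrt n * Real.sqrt m)) := by
      rw [div_mul_eq_mul_div, div_mul_div_comm, mul_one]
      congr 1
      ring
    rw [h6]
    have h7 : (Λ n / (Real.log n + Real.log m)) * Λ m ≤ Real.log N := by
      calc (Λ n / (Real.log n + Real.log m)) * Λ m ≤ 1 * Λ m :=
            mul_le_mul_of_nonneg_right h1 ArithmeticFunction.vonMangoldt_nonneg
        _ ≤ Real.log N := by rw [one_mul]; exact vonMangoldt_le_logN hm
    exact mul_le_mul h7 h2 (by positivity) hL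
  refine (Finset.sum_le_sum fun n hn => Finset.sum_le_sum fun m hm => key n hn m hm).trans ?_
  simp only [← Finset.mul_sum]
  have hC : ∑ n ∈ Finset.range (N + 1), ∑ m ∈ Finset.range (N + 1), 1 / (m : ℝ) ≤
      (N + 1) * HS N := by
    simp [HS]
  have hD : ∑ n ∈ Finset.range (N + 1), ∑ m ∈ Finset.range (N + 1), 1 / (n : ℝ) ≤
      (N + 1) * HS N := by
    rw [Finset.sum_comm]; exact hC
  have hsum : ∑ n ∈ Finset.range (N + 1), ∑ m ∈ Finset.range (N + 1),
      (1 / (m : ℝ) + 1 / (n : ℝ)) ≤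
      2 * ((N + 1) * HS N) := by
    simp only [Finset.sum_add_distrib]
    linarith
  have hN1 : (1 : ℝ) ≤ N := by exact_mod_cast (by omega : 1 ≤ N)
  have hlog1 := one_le_log hN
  calc Real.log N * ∑ n ∈ Finset.range (N + 1), ∑ m ∈ Finset.range (N + 1),
      (1 / (m : ℝ) + 1 / (n : ℝ))
      ≤ Real.log N * (2 * ((N + 1) * HS N)) :=
        mul_le_mul_of_nonneg_left hsum hL
    _ ≤ Real.log N * (2 * ((2 * N) * (3 * Real.log N))) := by
        have := HS_le_log hN
        gcongr
        linarith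
    _ = 12 * N * Real.log N ^ 2 * 1 := by ring
    _ ≤ 12 * N * Real.log N ^ 2 * (2 * Real.log N) :=
        mul_le_mul_of_nonneg_left hlog1 (by positivity)
    _ = 24 * N * Real.log N ^ 3 := by ring

open OD92 in
/-- The linear terms. -/
theorem exists_linear : ∃ C : ℝ, 0 < C ∧ ∀ N : ℕ, 2 ≤ N →
    ∑ n ∈ Finset.range (N + 1), Λ n / (Real.sqrt n * Real.log n) ≤ C * N * Real.log N ^ 3 := by
  refine ⟨16, by norm_num, fun N hN => ?_⟩
  have hL : 0 ≤ Real.log N := Real.log_natCast_nonneg N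
  have key : ∀ n ∈ Finset.range (N + 1), Λ n / (Real.sqrt n * Real.log n) ≤ 1 := by
    intro n _
    rcases Nat.eq_zero_or_pos n with h0 | hnpos
    · subst h0
      simp
    have hn' : (1 : ℝ) ≤ n := by exact_mod_cast hnpos
    have hln : 0 ≤ Real.log n := Real.log_natCast_nonneg n
    have hsn : 1 ≤ Real.sqrt n := Real.one_le_sqrt.2 hn'
    apply div_le_one_of_le₀
    · refine ArithmeticFunction.vonMangoldt_le_log.trans ?_
      nlinarith
    · positivity
  refine (Finset.sum_le_sum key).trans ?_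
  simp only [Finset.sum_const, Finset.card_range, nsmul_eq_mul, mul_one]
  have hN1 : (1 : ℝ) ≤ N := by exact_mod_cast (by omega : 1 ≤ N)
  have h1 := one_le_log hN
  have h2 : 1 ≤ 8 * Real.log N ^ 3 := by
    have h3 : (1 : ℝ) ^ 3 ≤ (2 * Real.log N) ^ 3 := pow_le_pow_left₀ (by norm_num) h1 3
    calc (1 : ℝ) = 1 ^ 3 := by norm_num
      _ ≤ (2 * Real.log N) ^ 3 := h3
      _ = 8 * Real.log N ^ 3 := by ring
  push_cast
  calc (N : ℝ) + 1 ≤ 2 * N * 1 := by linarith
    _ ≤ 2 * N * (8 * Real.log N ^ 3) := mul_le_mul_of_nonneg_left h2 (by positivity)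
    _ = 16 * N * Real.log N ^ 3 := by ring

end Pool.Agent.MP_67227b_nt.Mo
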