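import Pool.Agent.MP_67227b_nt.Mo.PrimeSq
import Pool.Agent.MP_67227b_nt.Mo.OffDiag

set_option autoImplicit false

open Filter Topology Set MeasureTheory Complex
open scoped Real ContDiff ArithmeticFunction

namespace Pool.Agent.MP_67227b_nt.Mo

open Pool.Agent.Lib.ZetaCount_helper33 Pool.Agent.MP_67227b_nt

namespace MeanBBAux

/-- A bump function is bounded. -/
theorem bump_bdd {η : ℝ → ℂ} {δ : ℝ} (h : Bump δ η) : ∃ M : ℝ, 0 < M ∧ ∀ v, ‖η v‖ ≤ M := by
  obtain ⟨C, hC⟩ := (isCompact_Icc (a := -δ) (b := δ)).exists_bound_of_continuousOn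
    h.smooth.continuous.continuousOn
  refine ⟨max C 1, lt_of_lt_of_le one_pos (le_max_right _ _), fun v => ?_⟩
  by_cases hv : δ < |v|
  · rw [h.supp v hv, norm_zero]
    exact le_trans zero_le_one (le_max_right _ _)
  · push Not at hv
    rw [abs_le] at hv
    exact (hC v ⟨hv.1, hv.2⟩).trans (le_max_left _ _)

/-- The exponential `e^{i t l}`. -/
noncomputable def E (l t : ℝ) : ℂ := Complex.exp (I * t * l)

theorem E_continuous (l : ℝ) : Continuous (E l) := by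
  unfold E
  fun_prop

theorem E_mul (l k t : ℝ) : E l t * E k t = E (l + k) t := by
  unfold E
  rw [← Complex.exp_add]
  congr 1
  push_cast
  ring

theorem E_zero (t : ℝ) : E 0 t = 1 := by
  simp [E]

theorem E_norm (l t : ℝ) : ‖E l t‖ = 1 := by
  unfold E
  rw [show I * (t : ℂ) * (l : ℂ) = ((t * l : ℝ) : ℂ) * I by push_cast; ring]
  exact Complex.norm_exp_ofReal_mul_I _

theorem int_E_zero (A B : ℝ) : ∫ t in A..B, E 0 t = ((B - A : ℝ) : ℂ) := by
  simp [E_zero]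

theorem int_E_le {l : ℝ} (hl : l ≠ 0) (A B : ℝ) : ‖∫ t in A..B, E l t‖ ≤ 2 / |l| := by
  have hc : (I * (l : ℂ)) ≠ 0 := mul_ne_zero I_ne_zero (by exact_mod_cast hl)
  have h1 : ∫ t in A..B, E l t = ∫ t in A..B, Complex.exp (I * (l : ℂ) * t) := by
    refine intervalIntegral.integral_congr fun t _ => ?_
    simp only [E]
    congr 1
    ring
  rw [h1, integral_exp_mul_complex hc, norm_div]
  have h2 : ‖I * (l : ℂ)‖ = |l| := by simp
  rw [h2]
  have h3 : ∀ x : ℝ, ‖Complex.exp (I * (l : ℂ) * x)‖ = 1 := fun x => by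
    rw [show I * (l : ℂ) * (x : ℂ) = ((l * x : ℝ) : ℂ) * I by push_cast; ring]
    exact Complex.norm_exp_ofReal_mul_I _
  refine div_le_div_of_nonneg_right ?_ (abs_nonneg l)
  refine (norm_sub_le _ _).trans ?_
  rw [h3, h3]
  norm_num

/-- One pair of terms, different frequencies. -/
theorem pair_ne {l k M₁ M₂ : ℝ} (hs : l + k ≠ 0) (hd : l - k ≠ 0) {a₁ a₂ b₁ b₂ : ℂ}
    (ha₁ : ‖a₁‖ ≤ M₁) (ha₂ : ‖a₂‖ ≤ M₁) (hb₁ : ‖b₁‖ ≤ M₂) (hb₂ : ‖b₂‖ ≤ M₂) (A B : ℝ) :
    ‖∫ t in A..B, (a₁ * E (-l) t + a₂ * E l t) * (b₁ * E (-k) t + b₂ * E k t)‖ ≤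
      4 * (M₁ * M₂) / |l + k| + 4 * (M₁ * M₂) / |l - k| := by
  have hM₁ : 0 ≤ M₁ := (norm_nonneg _).trans ha₁
  have hM₂ : 0 ≤ M₂ := (norm_nonneg _).trans hb₁
  have h1 : ∀ t : ℝ, (a₁ * E (-l) t + a₂ * E l t) * (b₁ * E (-k) t + b₂ * E k t) =
      a₁ * b₁ * E (-(l + k)) t + a₁ * b₂ * E (-(l - k)) t + a₂ * b₁ * E (l - k) t +
        a₂ * b₂ * E (l + k) t := by
    intro t
    have e1 : E (-(l + k)) t = E (-l) t * E (-k) t := by rw [E_mul]; congr 1; ring
    have e2 : E (-(l - k)) t = E (-l) t * E k t := by rw [E_mul]; congr 1; ring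
    have e3 : E (l - k) t = E l t * E (-k) t := by rw [E_mul]; congr 1
    have e4 : E (l + k) t = E l t * E k t := by rw [E_mul]
    rw [e1, e2, e3, e4]
    ring
  have hc : ∀ (z : ℂ) (x : ℝ), IntervalIntegrable (fun t => z * E x t) volume A B := fun z x =>
    (continuous_const.mul (E_continuous x)).intervalIntegrable _ _
  rw [intervalIntegral.integral_congr (fun t _ => h1 t),
    intervalIntegral.integral_add (((hc _ _).add (hc _ _)).add (hc _ _)) (hc _ _),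
    intervalIntegral.integral_add ((hc _ _).add (hc _ _)) (hc _ _),
    intervalIntegral.integral_add (hc _ _) (hc _ _)]
  simp only [intervalIntegral.integral_const_mul]
  have hb : ∀ (z w : ℂ) (x : ℝ), x ≠ 0 → ‖z‖ ≤ M₁ → ‖w‖ ≤ M₂ →
      ‖z * w * ∫ t in A..B, E x t‖ ≤ M₁ * M₂ * (2 / |x|) := by
    intro z w x hx hz hw
    rw [norm_mul, norm_mul]
    have := int_E_le hx A B
    gcongr
  have b1 := hb a₁ b₁ (-(l + k)) (neg_ne_zero.mpr hs) ha₁ hb₁
  have b2 := hb a₁ b₂ (-(l - k)) (neg_ne_zero.mpr hd) ha₁ hb₂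
  have b3 := hb a₂ b₁ (l - k) hd ha₂ hb₁
  have b4 := hb a₂ b₂ (l + k) hs ha₂ hb₂
  rw [abs_neg] at b1 b2
  have htri : ∀ w x y z : ℂ, ‖w + x + y + z‖ ≤ ‖w‖ + ‖x‖ + ‖y‖ + ‖z‖ := fun w x y z => by
    refine (norm_add_le _ _).trans ?_
    have := norm_add₃_le (a := w) (b := x) (c := y)
    linarith
  refine (htri _ _ _ _).trans ?_
  have e : 4 * (M₁ * M₂) / |l + k| + 4 * (M₁ * M₂) / |l - k| =
      M₁ * M₂ * (2 / |l + k|) + M₁ * M₂ * (2 / |l - k|) + M₁ * M₂ * (2 / |l - k|) +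
        M₁ * M₂ * (2 / |l + k|) := by ring
  rw [e]
  linarith

/-- One pair of terms, equal frequencies. -/
theorem pair_eq {l M₁ M₂ : ℝ} (hs : l + l ≠ 0) {a₁ a₂ b₁ b₂ : ℂ}
    (ha₁ : ‖a₁‖ ≤ M₁) (ha₂ : ‖a₂‖ ≤ M₁) (hb₁ : ‖b₁‖ ≤ M₂) (hb₂ : ‖b₂‖ ≤ M₂) (A B : ℝ) :
    ‖(∫ t in A..B, (a₁ * E (-l) t + a₂ * E l t) * (b₁ * E (-l) t + b₂ * E l t)) -
      (a₁ * b₂ + a₂ * b₁) * ((B - A : ℝ) : ℂ)‖ ≤ 4 * (M₁ * M₂) / |l + l| := by
  have hM₁ : 0 ≤ M₁ := (norm_nonneg _).trans ha₁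
  have hM₂ : 0 ≤ M₂ := (norm_nonneg _).trans hb₁
  have h1 : ∀ t : ℝ, (a₁ * E (-l) t + a₂ * E l t) * (b₁ * E (-l) t + b₂ * E l t) =
      a₁ * b₁ * E (-(l + l)) t + (a₁ * b₂ + a₂ * b₁) * E 0 t + a₂ * b₂ * E (l + l) t := by
    intro t
    have e1 : E (-(l + l)) t = E (-l) t * E (-l) t := by rw [E_mul]; congr 1; ring
    have e2 : E (-l) t * E l t = E 0 t := by rw [E_mul]; congr 1; ring
    have e4 : E (l + l) t = E l t * E l t := by rw [E_mul]
    rw [e1, e4, ← e2]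
    ring
  have hc : ∀ (z : ℂ) (x : ℝ), IntervalIntegrable (fun t => z * E x t) volume A B := fun z x =>
    (continuous_const.mul (E_continuous x)).intervalIntegrable _ _
  rw [intervalIntegral.integral_congr (fun t _ => h1 t),
    intervalIntegral.integral_add ((hc _ _).add (hc _ _)) (hc _ _),
    intervalIntegral.integral_add (hc _ _) (hc _ _)]
  simp only [intervalIntegral.integral_const_mul]
  rw [int_E_zero]
  have hb : ∀ (z w : ℂ) (x : ℝ), x ≠ 0 → ‖z‖ ≤ M₁ → ‖w‖ ≤ M₂ →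
      ‖z * w * ∫ t in A..B, E x t‖ ≤ M₁ * M₂ * (2 / |x|) := by
    intro z w x hx hz hw
    rw [norm_mul, norm_mul]
    have := int_E_le hx A B
    gcongr
  have b1 := hb a₁ b₁ (-(l + l)) (neg_ne_zero.mpr hs) ha₁ hb₁
  have b4 := hb a₂ b₂ (l + l) hs ha₂ hb₂
  rw [abs_neg] at b1
  have e : 4 * (M₁ * M₂) / |l + l| = M₁ * M₂ * (2 / |l + l|) + M₁ * M₂ * (2 / |l + l|) := by ring
  rw [e]
  refine le_trans (le_of_eq ?_) ((norm_add_le (a₁ * b₁ * ∫ t in A..B, E (-(l + l)) t)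
    (a₂ * b₂ * ∫ t in A..B, E (l + l) t)).trans (add_le_add b1 b4))
  congr 1
  ring

/-- The coefficients. -/
noncomputable def cf (n : ℕ) : ℝ := Λ n / Real.sqrt n

theorem cf_nonneg (n : ℕ) : 0 ≤ cf n :=
  div_nonneg ArithmeticFunction.vonMangoldt_nonneg (Real.sqrt_nonneg _)

theorem two_le {n : ℕ} (h : Λ n ≠ 0) : 2 ≤ n := by
  by_contra hn
  push Not at hn
  interval_cases n
  · simp at h
  · simp at h

theorem log_pos' {n : ℕ} (h : Λ n ≠ 0) : 0 < Real.log n :=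
  Real.log_pos (by exact_mod_cast two_le h)

theorem cf_sq (n : ℕ) : cf n ^ 2 = Λ n ^ 2 / n := by
  unfold cf
  rw [div_pow, Real.sq_sqrt (Nat.cast_nonneg n)]

/-- The `n`-th term of the Dirichlet polynomial. -/
noncomputable def tm (L : ℝ) (η : ℝ → ℂ) (n : ℕ) (t : ℝ) : ℂ :=
  (cf n : ℂ) * (η (Real.log n / L) * E (-(Real.log n)) t + η (-(Real.log n / L)) * E (Real.log n) t)

theorem tm_continuous (L : ℝ) (η : ℝ → ℂ) (n : ℕ) : Continuous (tm L η n) := by
  unfold tm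
  exact continuous_const.mul ((continuous_const.mul (E_continuous _)).add
    (continuous_const.mul (E_continuous _)))

/-- Truncation of the Dirichlet polynomial. -/
theorem BT_eq {η : ℝ → ℂ} {δ : ℝ} (h : Bump δ η) {L : ℝ} (hL : 0 < L) {N : ℕ}
    (hN : N ≤ ⌊Real.exp L⌋₊) (hN2 : Real.exp (δ * L) < N + 1) (t : ℝ) :
    BT L η t = -(1 / L : ℂ) * ∑ n ∈ Finset.range (N + 1), tm L η n t := by
  unfold BT
  congr 1
  have hsub : Finset.range (N + 1) ⊆ Finset.range (⌊Real.exp L⌋₊ + 1) :=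
    Finset.range_subset_range.mpr (by omega)
  rw [← Finset.sum_subset hsub]
  · refine Finset.sum_congr rfl fun n _ => ?_
    unfold tm E cf
    congr 3
    · congr 1
      push_cast
      ring
  · intro n _ hn2
    have hn : (N : ℝ) + 1 ≤ n := by
      have : N + 1 ≤ n := by simpa using hn2
      exact_mod_cast this
    have h1 : δ * L < Real.log n := by
      rw [Real.lt_log_iff_exp_lt (by linarith [Real.exp_pos (δ * L)])]
      linarith
    have h2 : δ < |Real.log n / L| := by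
      refine lt_of_lt_of_le ?_ (le_abs_self _)
      rw [lt_div_iff₀ hL]
      exact h1
    rw [h.supp _ h2, h.supp (-(Real.log n / L)) (by rwa [abs_neg])]
    simp

/-- Expansion of the mean value of a product. -/
theorem int_prod {η₁ η₂ : ℝ → ℂ} {δ : ℝ} (h₁ : Bump δ η₁) (h₂ : Bump δ η₂) {M₁ M₂ : ℝ}
    (hM₁ : ∀ v, ‖η₁ v‖ ≤ M₁) (hM₂ : ∀ v, ‖η₂ v‖ ≤ M₂) {L : ℝ} (hL : 0 < L) {N : ℕ}
    (hN : N ≤ ⌊Real.exp L⌋₊) (hN2 : Real.exp (δ * L) < N + 1) (A B : ℝ) :
    ‖(∫ t in A..B, BT L η₁ t * BT L η₂ t) - (1 / (L : ℂ) ^ 2) *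
      (∑ n ∈ Finset.range (N + 1), ((cf n ^ 2 : ℝ) : ℂ) *
        (η₁ (Real.log n / L) * η₂ (-(Real.log n / L)) +
          η₁ (-(Real.log n / L)) * η₂ (Real.log n / L))) * ((B - A : ℝ) : ℂ)‖ ≤
      (1 / L ^ 2) * (4 * (M₁ * M₂)) * (∑ n ∈ Finset.range (N + 1), ∑ m ∈ Finset.range (N + 1),
          Λ n * Λ m / (Real.sqrt n * Real.sqrt m * (Real.log n + Real.log m)) +
        ∑ n ∈ Finset.range (N + 1), ∑ m ∈ Finset.range (N + 1),
          (if n = m then 0 else Λ n * Λ m / (Real.sqrt n * Real.sqrt m *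
            |Real.log n - Real.log m|))) := by
  have hM₁0 : 0 ≤ M₁ := (norm_nonneg _).trans (hM₁ 0)
  have hM₂0 : 0 ≤ M₂ := (norm_nonneg _).trans (hM₂ 0)
  -- the integral as a double sum
  have e1 : ∫ t in A..B, BT L η₁ t * BT L η₂ t = (1 / (L : ℂ) ^ 2) *
      ∑ n ∈ Finset.range (N + 1), ∑ m ∈ Finset.range (N + 1),
        ∫ t in A..B, tm L η₁ n t * tm L η₂ m t := by
    have : ∀ t : ℝ, BT L η₁ t * BT L η₂ t = (1 / (L : ℂ) ^ 2) *
        ∑ n ∈ Finset.range (N + 1), ∑ m ∈ Finset.range (N + 1), tm L η₁ n t * tm L η₂ m t := by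
      intro t
      rw [BT_eq h₁ hL hN hN2, BT_eq h₂ hL hN hN2, ← Finset.sum_mul_sum]
      ring
    rw [intervalIntegral.integral_congr (fun t _ => this t),
      intervalIntegral.integral_const_mul, intervalIntegral.integral_finsetSum]
    · congr 1
      refine Finset.sum_congr rfl fun n _ => ?_
      rw [intervalIntegral.integral_finsetSum]
      intro m _
      exact ((tm_continuous _ _ _).mul (tm_continuous _ _ _)).intervalIntegrable _ _
    · intro n _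
      exact (continuous_finsetSum _ fun m _ =>
        (tm_continuous _ _ _).mul (tm_continuous _ _ _)).intervalIntegrable _ _
  -- the diagonal as a double sum
  set W : ℕ → ℕ → ℂ := fun n m => if n = m then ((cf n ^ 2 : ℝ) : ℂ) *
        (η₁ (Real.log n / L) * η₂ (-(Real.log n / L)) +
          η₁ (-(Real.log n / L)) * η₂ (Real.log n / L)) * ((B - A : ℝ) : ℂ) else 0 with hW
  have e2 : (∑ n ∈ Finset.range (N + 1), ((cf n ^ 2 : ℝ) : ℂ) *
        (η₁ (Real.log n / L) * η₂ (-(Real.log n / L)) +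
          η₁ (-(Real.log n / L)) * η₂ (Real.log n / L))) * ((B - A : ℝ) : ℂ) =
      ∑ n ∈ Finset.range (N + 1), ∑ m ∈ Finset.range (N + 1), W n m := by
    rw [Finset.sum_mul]
    refine Finset.sum_congr rfl fun n hn => ?_
    rw [hW]
    simp only [Finset.sum_ite_eq, hn, if_true]
  have e3 : ∀ n m : ℕ, ‖(∫ t in A..B, tm L η₁ n t * tm L η₂ m t) - W n m‖ ≤
      4 * (M₁ * M₂) * (Λ n * Λ m / (Real.sqrt n * Real.sqrt m * (Real.log n + Real.log m)) +
        (if n = m then 0 else Λ n * Λ m / (Real.sqrt n * Real.sqrt m *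
            |Real.log n - Real.log m|))) := by
    intro n m
    by_cases hn : Λ n = 0
    · have hc : cf n = 0 := by simp [cf, hn]
      simp [hW, tm, hc, hn]
    by_cases hm : Λ m = 0
    · have hc : cf m = 0 := by simp [cf, hm]
      have hnm : n ≠ m := fun h => hn (h ▸ hm)
      simp [hW, tm, hc, hm, hnm]
    have hln := log_pos' hn
    have hlm := log_pos' hm
    have e4 : ∫ t in A..B, tm L η₁ n t * tm L η₂ m t = ((cf n * cf m : ℝ) : ℂ) *
        ∫ t in A..B, (η₁ (Real.log n / L) * E (-(Real.log n)) t +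
          η₁ (-(Real.log n / L)) * E (Real.log n) t) *
          (η₂ (Real.log m / L) * E (-(Real.log m)) t +
          η₂ (-(Real.log m / L)) * E (Real.log m) t) := by
      rw [← intervalIntegral.integral_const_mul]
      refine intervalIntegral.integral_congr fun t _ => ?_
      simp only [tm]
      push_cast
      ring
    have hcc : 0 ≤ cf n * cf m := mul_nonneg (cf_nonneg _) (cf_nonneg _)
    by_cases hnm : n = m
    · subst hnm
      have hb := pair_eq (l := Real.log n) (by linarith [hln] : Real.log n + Real.log n ≠ 0)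
        (hM₁ (Real.log n / L)) (hM₁ (-(Real.log n / L))) (hM₂ (Real.log n / L))
        (hM₂ (-(Real.log n / L))) A B
      rw [e4, hW]
      simp only [if_true, add_zero]
      have : ((cf n * cf n : ℝ) : ℂ) * (∫ t in A..B, (η₁ (Real.log n / L) * E (-(Real.log n)) t +
          η₁ (-(Real.log n / L)) * E (Real.log n) t) *
          (η₂ (Real.log n / L) * E (-(Real.log n)) t +
          η₂ (-(Real.log n / L)) * E (Real.log n) t)) - ((cf n ^ 2 : ℝ) : ℂ) *
        (η₁ (Real.log n / L) * η₂ (-(Real.log n / L)) +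
          η₁ (-(Real.log n / L)) * η₂ (Real.log n / L)) * ((B - A : ℝ) : ℂ) =
          ((cf n * cf n : ℝ) : ℂ) * ((∫ t in A..B, (η₁ (Real.log n / L) * E (-(Real.log n)) t +
          η₁ (-(Real.log n / L)) * E (Real.log n) t) *
          (η₂ (Real.log n / L) * E (-(Real.log n)) t +
          η₂ (-(Real.log n / L)) * E (Real.log n) t)) -
          (η₁ (Real.log n / L) * η₂ (-(Real.log n / L)) +
          η₁ (-(Real.log n / L)) * η₂ (Real.log n / L)) * ((B - A : ℝ) : ℂ)) := by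
        push_cast
        ring
      rw [this, norm_mul, Complex.norm_real, Real.norm_of_nonneg hcc]
      refine (mul_le_mul_of_nonneg_left hb hcc).trans (le_of_eq ?_)
      rw [abs_of_pos (by linarith : (0:ℝ) < Real.log n + Real.log n)]
      unfold cf
      ring
    · have hdiff : Real.log n - Real.log m ≠ 0 := by
        intro h0
        have hn2 : (0 : ℝ) < n := by exact_mod_cast (by have := two_le hn; omega : 0 < n)
        have hm2 : (0 : ℝ) < m := by exact_mod_cast (by have := two_le hm; omega : 0 < m)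
        have := Real.log_injOn_pos (Set.mem_Ioi.mpr hn2) (Set.mem_Ioi.mpr hm2) (sub_eq_zero.mp h0)
        exact hnm (by exact_mod_cast this)
      have hb := pair_ne (l := Real.log n) (k := Real.log m)
        (by linarith : Real.log n + Real.log m ≠ 0) hdiff
        (hM₁ (Real.log n / L)) (hM₁ (-(Real.log n / L))) (hM₂ (Real.log m / L))
        (hM₂ (-(Real.log m / L))) A B
      rw [e4, hW]
      simp only [hnm, if_false, sub_zero]
      rw [norm_mul, Complex.norm_real, Real.norm_of_nonneg hcc]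
      refine (mul_le_mul_of_nonneg_left hb hcc).trans (le_of_eq ?_)
      rw [abs_of_pos (by linarith : (0:ℝ) < Real.log n + Real.log m)]
      unfold cf
      have hab : |Real.log n - Real.log m| ≠ 0 := abs_ne_zero.mpr hdiff
      have hsn : Real.sqrt n ≠ 0 := by
        rw [Real.sqrt_ne_zero']
        exact_mod_cast (by have := two_le hn; omega : 0 < n)
      have hsm : Real.sqrt m ≠ 0 := by
        rw [Real.sqrt_ne_zero']
        exact_mod_cast (by have := two_le hm; omega : 0 < m)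
      have hsum : Real.log n + Real.log m ≠ 0 := by linarith
      field_simp
  rw [e1, mul_assoc, e2, ← mul_sub, ← Finset.sum_sub_distrib, norm_mul, mul_assoc (1 / L ^ 2)]
  have hn1 : ‖(1 / (L : ℂ) ^ 2)‖ = 1 / L ^ 2 := by
    rw [norm_div, norm_pow, Complex.norm_real, Real.norm_of_nonneg hL.le, norm_one]
  rw [hn1]
  refine mul_le_mul_of_nonneg_left ?_ (by positivity)
  rw [← Finset.sum_add_distrib, Finset.mul_sum]
  refine (norm_sum_le _ _).trans (Finset.sum_le_sum fun n _ => ?_)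
  rw [← Finset.sum_sub_distrib, ← Finset.sum_add_distrib, Finset.mul_sum]
  exact (norm_sum_le _ _).trans (Finset.sum_le_sum fun m _ => e3 n m)

/-- The symmetrised product of two bump functions. -/
noncomputable def psi (η₁ η₂ : ℝ → ℂ) (x : ℝ) : ℂ := η₁ x * η₂ (-x) + η₁ (-x) * η₂ x

theorem bump_psi {η₁ η₂ : ℝ → ℂ} {δ : ℝ} (h₁ : Bump δ η₁) (h₂ : Bump δ η₂) :
    Bump δ (psi η₁ η₂) where
  smooth := by
    have hn : ContDiff ℝ ∞ (fun x : ℝ => -x) := contDiff_neg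
    exact (h₁.smooth.mul (h₂.smooth.comp hn)).add ((h₁.smooth.comp hn).mul h₂.smooth)
  supp v hv := by
    unfold psi
    rw [h₁.supp v hv, h₁.supp (-v) (by rwa [abs_neg])]
    simp

theorem integral_psi {η₁ η₂ : ℝ → ℂ} {δ : ℝ} (h₁ : Bump δ η₁) (h₂ : Bump δ η₂) :
    ∫ x in Ioi (0 : ℝ), (x : ℂ) * psi η₁ η₂ x =
      ∫ x : ℝ, ((|x| : ℝ) : ℂ) * (η₁ x * η₂ (-x)) := by
  set f : ℝ → ℂ := fun x => ((|x| : ℝ) : ℂ) * (η₁ x * η₂ (-x)) with hf
  have hcont : Continuous f := by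
    rw [hf]
    have c1 := h₁.smooth.continuous
    have c2 := h₂.smooth.continuous
    fun_prop
  have hint : Integrable f := by
    refine hcont.integrable_of_hasCompactSupport ?_
    refine HasCompactSupport.of_support_subset_isCompact (isCompact_Icc (a := -δ) (b := δ)) ?_
    intro x hx
    by_contra hcon
    apply hx
    have : δ < |x| := by
      by_contra h
      push Not at h
      rw [abs_le] at h
      exact hcon ⟨h.1, h.2⟩
    simp only [hf]
    rw [h₁.supp x this]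
    simp
  rw [← intervalIntegral.integral_Iic_add_Ioi (b := 0) hint.integrableOn hint.integrableOn]
  have e1 : ∫ x in Iic (0 : ℝ), f x = ∫ x in Ioi (0 : ℝ), f (-x) := by
    rw [integral_comp_neg_Ioi]
    simp
  rw [e1, ← integral_add hint.comp_neg.integrableOn hint.integrableOn]
  refine setIntegral_congr_fun measurableSet_Ioi fun x hx => ?_
  have hx0 : (0 : ℝ) < x := hx
  simp only [hf, psi, abs_neg, abs_of_pos hx0, neg_neg]
  ring

/-- The truncation parameter. -/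
theorem trunc {δ : ℝ} (hδ : 0 ≤ δ) (hδ1 : δ < 1) : ∀ᶠ T : ℝ in atTop,
    1 ≤ T ∧ 0 < Real.log T ∧ 2 ≤ ⌊T ^ ((1 + δ) / 2)⌋₊ ∧
      ⌊T ^ ((1 + δ) / 2)⌋₊ ≤ ⌊Real.exp (Real.log T)⌋₊ ∧
      Real.exp (δ * Real.log T) < (⌊T ^ ((1 + δ) / 2)⌋₊ : ℝ) + 1 ∧
      (⌊T ^ ((1 + δ) / 2)⌋₊ : ℝ) * Real.log ⌊T ^ ((1 + δ) / 2)⌋₊ ^ 3 ≤
        T ^ ((1 + δ) / 2) * Real.log T ^ 3 := by
  have hd0 : 0 < (1 + δ) / 2 := by linarith
  have hd1 : (1 + δ) / 2 ≤ 1 := by linarith
  filter_upwards [eventually_gt_atTop (1 : ℝ), (tendsto_rpow_atTop hd0).eventually_ge_atTop 2]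
    with T hT hT2
  have hT0 : 0 < T := by linarith
  have hpos : 0 < T ^ ((1 + δ) / 2) := Real.rpow_pos_of_pos hT0 _
  have hle : T ^ ((1 + δ) / 2) ≤ T := by
    calc T ^ ((1 + δ) / 2) ≤ T ^ (1 : ℝ) := Real.rpow_le_rpow_of_exponent_le hT.le hd1
      _ = T := Real.rpow_one T
  have hN2 : 2 ≤ ⌊T ^ ((1 + δ) / 2)⌋₊ := Nat.le_floor (by exact_mod_cast hT2)
  have hNle : (⌊T ^ ((1 + δ) / 2)⌋₊ : ℝ) ≤ T ^ ((1 + δ) / 2) := Nat.floor_le hpos.le
  have hN1 : (1 : ℝ) ≤ ⌊T ^ ((1 + δ) / 2)⌋₊ := by exact_mod_cast (by omega : 1 ≤ ⌊T ^ ((1 + δ) / 2)⌋₊)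
  refine ⟨hT.le, Real.log_pos hT, hN2, ?_, ?_, ?_⟩
  · rw [Real.exp_log hT0]
    exact Nat.floor_le_floor hle
  · refine lt_of_le_of_lt ?_ (Nat.lt_floor_add_one _)
    rw [mul_comm, ← Real.rpow_def_of_pos hT0]
    exact Real.rpow_le_rpow_of_exponent_le hT.le (by linarith)
  · have hlog0 : 0 ≤ Real.log ⌊T ^ ((1 + δ) / 2)⌋₊ := Real.log_nonneg hN1
    have hlog : Real.log ⌊T ^ ((1 + δ) / 2)⌋₊ ≤ Real.log T :=
      Real.log_le_log (by linarith) (hNle.trans hle)
    gcongr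

theorem tendsto_err {δ : ℝ} (hδ1 : δ < 1) (K : ℝ) :
    Tendsto (fun T : ℝ => (1 / T) * ((1 / Real.log T ^ 2) * K *
      (T ^ ((1 + δ) / 2) * Real.log T ^ 3))) atTop (𝓝 0) := by
  have h1 : Tendsto (fun T : ℝ => K * (Real.log T / T ^ ((1 - δ) / 2))) atTop (𝓝 (K * 0)) := by
    refine Tendsto.const_mul K ?_
    exact (isLittleO_log_rpow_atTop (by linarith : (0:ℝ) < (1 - δ) / 2)).tendsto_div_nhds_zero
  rw [mul_zero] at h1
  refine h1.congr' ?_
  filter_upwards [eventually_gt_atTop (1 : ℝ)] with T hT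
  have hT0 : 0 < T := by linarith
  have hlog : Real.log T ≠ 0 := (Real.log_pos hT).ne'
  have e : T = T ^ ((1 + δ) / 2) * T ^ ((1 - δ) / 2) := by
    rw [← Real.rpow_add hT0]
    have : (1 + δ) / 2 + (1 - δ) / 2 = 1 := by ring
    rw [this, Real.rpow_one]
  have hp1 : T ^ ((1 + δ) / 2) ≠ 0 := (Real.rpow_pos_of_pos hT0 _).ne'
  have hp2 : T ^ ((1 - δ) / 2) ≠ 0 := (Real.rpow_pos_of_pos hT0 _).ne'
  have e2 : (1 / T) * T ^ ((1 + δ) / 2) = 1 / T ^ ((1 - δ) / 2) := by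
    rw [div_mul_eq_mul_div, one_mul, div_eq_div_iff hT0.ne' hp2, one_mul]
    exact e.symm
  calc K * (Real.log T / T ^ ((1 - δ) / 2)) = K * Real.log T * (1 / T ^ ((1 - δ) / 2)) := by ring
    _ = K * Real.log T * ((1 / T) * T ^ ((1 + δ) / 2)) := by rw [e2]
    _ = (1 / T) * ((1 / Real.log T ^ 2) * K * (T ^ ((1 + δ) / 2) * Real.log T ^ 3)) := by
      field_simp

theorem tendsto_err' {δ : ℝ} (hδ1 : δ < 1) (K : ℝ) :
    Tendsto (fun T : ℝ => (1 / T) * ((1 / Real.log T) * K *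
      (T ^ ((1 + δ) / 2) * Real.log T ^ 3))) atTop (𝓝 0) := by
  have h1 : Tendsto (fun T : ℝ => K * (Real.log T / T ^ ((1 - δ) / 4)) ^ 2) atTop
      (𝓝 (K * 0 ^ 2)) := by
    refine Tendsto.const_mul K (Tendsto.pow ?_ 2)
    exact (isLittleO_log_rpow_atTop (by linarith : (0:ℝ) < (1 - δ) / 4)).tendsto_div_nhds_zero
  rw [zero_pow two_ne_zero, mul_zero] at h1
  refine h1.congr' ?_
  filter_upwards [eventually_gt_atTop (1 : ℝ)] with T hT
  have hT0 : 0 < T := by linarith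
  have hlog : Real.log T ≠ 0 := (Real.log_pos hT).ne'
  have e : T = T ^ ((1 + δ) / 2) * (T ^ ((1 - δ) / 4)) ^ 2 := by
    rw [← Real.rpow_natCast, ← Real.rpow_mul hT0.le, ← Real.rpow_add hT0]
    have : (1 + δ) / 2 + (1 - δ) / 4 * ((2 : ℕ) : ℝ) = 1 := by push_cast; ring
    rw [this, Real.rpow_one]
  have hp1 : T ^ ((1 + δ) / 2) ≠ 0 := (Real.rpow_pos_of_pos hT0 _).ne'
  have hp2 : (T ^ ((1 - δ) / 4)) ^ 2 ≠ 0 := pow_ne_zero _ (Real.rpow_pos_of_pos hT0 _).ne'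
  have e2 : (1 / T) * T ^ ((1 + δ) / 2) = 1 / (T ^ ((1 - δ) / 4)) ^ 2 := by
    rw [div_mul_eq_mul_div, one_mul, div_eq_div_iff hT0.ne' hp2, one_mul]
    exact e.symm
  calc K * (Real.log T / T ^ ((1 - δ) / 4)) ^ 2 =
      K * Real.log T ^ 2 * (1 / (T ^ ((1 - δ) / 4)) ^ 2) := by ring
    _ = K * Real.log T ^ 2 * ((1 / T) * T ^ ((1 + δ) / 2)) := by rw [e2]
    _ = (1 / T) * ((1 / Real.log T) * K * (T ^ ((1 + δ) / 2) * Real.log T ^ 3)) := by
      field_simp

theorem tendsto_len {a : ℝ} (ha1 : a < 1) :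
    Tendsto (fun T : ℝ => (1 / (T : ℂ)) * (((T - T ^ a) - T ^ a : ℝ) : ℂ)) atTop (𝓝 1) := by
  have h1 : Tendsto (fun T : ℝ => T ^ (a - 1)) atTop (𝓝 0) := by
    have := tendsto_rpow_neg_atTop (by linarith : (0:ℝ) < 1 - a)
    simpa using this
  have h2 : Tendsto (fun T : ℝ => 1 - 2 * T ^ (a - 1)) atTop (𝓝 (1 - 2 * 0)) :=
    tendsto_const_nhds.sub (h1.const_mul 2)
  rw [mul_zero, sub_zero] at h2
  have h3 : Tendsto (fun T : ℝ => ((1 - 2 * T ^ (a - 1) : ℝ) : ℂ)) atTop (𝓝 ((1 : ℝ) : ℂ)) :=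
    (Complex.continuous_ofReal.tendsto _).comp h2
  rw [Complex.ofReal_one] at h3
  refine h3.congr' ?_
  filter_upwards [eventually_gt_atTop (1 : ℝ)] with T hT
  have hT0 : 0 < T := by linarith
  have e : T ^ a = T * T ^ (a - 1) := by
    rw [Real.rpow_sub_one hT0.ne']
    field_simp
  rw [e, show (1 / (T : ℂ)) * (((T - T * T ^ (a - 1)) - T * T ^ (a - 1) : ℝ) : ℂ) =
    (((1 / T) * ((T - T * T ^ (a - 1)) - T * T ^ (a - 1)) : ℝ) : ℂ) by push_cast; ring]
  congr 1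
  field_simp
  ring

end MeanBBAux

open MeanBBAux

theorem mean_BB {η₁ η₂ : ℝ → ℂ} {δ a : ℝ} (hδ : 0 ≤ δ) (hδ1 : δ < 1) (ha : 0 < a) (ha1 : a < 1)
    (h₁ : Bump δ η₁) (h₂ : Bump δ η₂) :
    Tendsto (fun T : ℝ => (1 / (T : ℂ)) * ∫ t in (T ^ a)..(T - T ^ a),
      BT (Real.log T) η₁ t * BT (Real.log T) η₂ t) atTop
      (𝓝 (∫ x : ℝ, ((|x| : ℝ) : ℂ) * (η₁ x * η₂ (-x)))) := by
  obtain ⟨M₁, hM₁0, hM₁⟩ := bump_bdd h₁
  obtain ⟨M₂, hM₂0, hM₂⟩ := bump_bdd h₂
  obtain ⟨C₁, hC₁, hoff⟩ := exists_offdiag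
  obtain ⟨C₂, hC₂, hprod⟩ := exists_offdiag_prod
  have hψ := bump_psi h₁ h₂
  -- the main term
  have hmain : Tendsto (fun T : ℝ => (1 / ((Real.log T : ℝ) : ℂ) ^ 2) *
      (∑ n ∈ Finset.range (⌊Real.exp (Real.log T)⌋₊ + 1),
        ((Λ n ^ 2 / n : ℝ) : ℂ) * psi η₁ η₂ (Real.log n / Real.log T)) *
      ((1 / (T : ℂ)) * (((T - T ^ a) - T ^ a : ℝ) : ℂ))) atTop
      (𝓝 ((∫ x in Ioi (0 : ℝ), (x : ℂ) * psi η₁ η₂ x) * 1)) :=
    ((tendsto_prime_sq hδ hδ1.le hψ).comp Real.tendsto_log_atTop).mul (tendsto_len ha1)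
  rw [mul_one, integral_psi h₁ h₂] at hmain
  rw [← sub_zero (∫ x : ℝ, ((|x| : ℝ) : ℂ) * (η₁ x * η₂ (-x)))]
  have hsub : Tendsto (fun T : ℝ => (1 / ((Real.log T : ℝ) : ℂ) ^ 2) *
      (∑ n ∈ Finset.range (⌊Real.exp (Real.log T)⌋₊ + 1),
        ((Λ n ^ 2 / n : ℝ) : ℂ) * psi η₁ η₂ (Real.log n / Real.log T)) *
      ((1 / (T : ℂ)) * (((T - T ^ a) - T ^ a : ℝ) : ℂ)) -
      (1 / (T : ℂ)) * ∫ t in (T ^ a)..(T - T ^ a),
      BT (Real.log T) η₁ t * BT (Real.log T) η₂ t) atTop (𝓝 0) := by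
    refine squeeze_zero_norm' ?_ (tendsto_err hδ1 (4 * (M₁ * M₂) * (C₂ + C₁)))
    filter_upwards [trunc hδ hδ1] with T hT
    obtain ⟨hT1, hL, hN2, hN3, hN4, hN5⟩ := hT
    set N := ⌊T ^ ((1 + δ) / 2)⌋₊ with hN
    have hT0 : 0 < T := by linarith
    have hb := int_prod h₁ h₂ hM₁ hM₂ hL hN3 hN4 (T ^ a) (T - T ^ a)
    have e1 : ∑ n ∈ Finset.range (⌊Real.exp (Real.log T)⌋₊ + 1),
        ((Λ n ^ 2 / n : ℝ) : ℂ) * psi η₁ η₂ (Real.log n / Real.log T) =
        ∑ n ∈ Finset.range (N + 1), ((cf n ^ 2 : ℝ) : ℂ) *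
        (η₁ (Real.log n / Real.log T) * η₂ (-(Real.log n / Real.log T)) +
          η₁ (-(Real.log n / Real.log T)) * η₂ (Real.log n / Real.log T)) := by
      have hsub : Finset.range (N + 1) ⊆ Finset.range (⌊Real.exp (Real.log T)⌋₊ + 1) :=
        Finset.range_subset_range.mpr (by omega)
      rw [← Finset.sum_subset hsub]
      · refine Finset.sum_congr rfl fun n _ => ?_
        rw [cf_sq]
        rfl
      · intro n _ hn2
        have hn : (N : ℝ) + 1 ≤ n := by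
          have : N + 1 ≤ n := by simpa using hn2
          exact_mod_cast this
        have h1 : δ * Real.log T < Real.log n := by
          rw [Real.lt_log_iff_exp_lt (by linarith [Real.exp_pos (δ * Real.log T)])]
          linarith
        have h2 : δ < |Real.log n / Real.log T| := by
          refine lt_of_lt_of_le ?_ (le_abs_self _)
          rw [lt_div_iff₀ hL]
          exact h1
        rw [hψ.supp _ h2, mul_zero]
    rw [e1]
    have e2 : ∀ (x S y J : ℂ), x * S * (y * J) - y * (∫ t in (T ^ a)..(T - T ^ a),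
      BT (Real.log T) η₁ t * BT (Real.log T) η₂ t) = -(y * ((∫ t in (T ^ a)..(T - T ^ a),
      BT (Real.log T) η₁ t * BT (Real.log T) η₂ t) - x * S * J)) := by
      intro x S y J
      ring
    rw [e2, norm_neg, norm_mul]
    have hn1 : ‖(1 / (T : ℂ))‖ = 1 / T := by
      rw [norm_div, Complex.norm_real, Real.norm_of_nonneg hT0.le, norm_one]
    rw [hn1]
    refine mul_le_mul_of_nonneg_left (hb.trans ?_) (by positivity)
    have h5 := hprod N hN2
    have h6 := hoff N hN2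
    have h7 : ∑ n ∈ Finset.range (N + 1), ∑ m ∈ Finset.range (N + 1),
          Λ n * Λ m / (Real.sqrt n * Real.sqrt m * (Real.log n + Real.log m)) +
        ∑ n ∈ Finset.range (N + 1), ∑ m ∈ Finset.range (N + 1),
          (if n = m then 0 else Λ n * Λ m / (Real.sqrt n * Real.sqrt m *
            |Real.log n - Real.log m|)) ≤ (C₂ + C₁) * (T ^ ((1 + δ) / 2) * Real.log T ^ 3) := by
      have h8 : C₂ * N * Real.log N ^ 3 + C₁ * N * Real.log N ^ 3 =
        (C₂ + C₁) * (N * Real.log N ^ 3) := by ring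
      refine (add_le_add h5 h6).trans ?_
      rw [h8]
      exact mul_le_mul_of_nonneg_left hN5 (by positivity)
    calc (1 / Real.log T ^ 2) * (4 * (M₁ * M₂)) * _ ≤
        (1 / Real.log T ^ 2) * (4 * (M₁ * M₂)) *
          ((C₂ + C₁) * (T ^ ((1 + δ) / 2) * Real.log T ^ 3)) :=
        mul_le_mul_of_nonneg_left h7 (by positivity)
      _ = _ := by ring
  refine (hmain.sub hsub).congr fun T => ?_
  ring

theorem mean_B {η : ℝ → ℂ} {δ a : ℝ} (hδ : 0 ≤ δ) (hδ1 : δ < 1) (ha : 0 < a) (ha1 : a < 1)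
    (h : Bump δ η) :
    Tendsto (fun T : ℝ => (1 / (T : ℂ)) * ∫ t in (T ^ a)..(T - T ^ a), BT (Real.log T) η t) atTop
      (𝓝 0) := by
  obtain ⟨M, hM0, hM⟩ := bump_bdd h
  obtain ⟨C, hC, hlin⟩ := exists_linear
  refine squeeze_zero_norm' ?_ (tendsto_err' hδ1 (4 * M * C))
  filter_upwards [trunc hδ hδ1] with T hT
  obtain ⟨hT1, hL, hN2, hN3, hN4, hN5⟩ := hT
  set N := ⌊T ^ ((1 + δ) / 2)⌋₊ with hN
  have hT0 : 0 < T := by linarith
  have hn1 : ‖(1 / (T : ℂ))‖ = 1 / T := by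
    rw [norm_div, Complex.norm_real, Real.norm_of_nonneg hT0.le, norm_one]
  rw [norm_mul, hn1]
  refine mul_le_mul_of_nonneg_left ?_ (by positivity)
  set L := Real.log T with hLdef
  have e1 : ∫ t in (T ^ a)..(T - T ^ a), BT L η t =
      -(1 / L : ℂ) * ∑ n ∈ Finset.range (N + 1), ∫ t in (T ^ a)..(T - T ^ a), tm L η n t := by
    rw [intervalIntegral.integral_congr (fun t _ => BT_eq h hL hN3 hN4 t),
      intervalIntegral.integral_const_mul, intervalIntegral.integral_finsetSum]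
    intro n _
    exact (tm_continuous _ _ _).intervalIntegrable _ _
  have e2 : ∀ n : ℕ, ‖∫ t in (T ^ a)..(T - T ^ a), tm L η n t‖ ≤
      4 * M * (Λ n / (Real.sqrt n * Real.log n)) := by
    intro n
    by_cases hn : Λ n = 0
    · have hc : cf n = 0 := by simp [cf, hn]
      simp [tm, hc, hn]
    have hln := log_pos' hn
    have hc : ∀ (z : ℂ) (x : ℝ), IntervalIntegrable (fun t => z * E x t) volume (T ^ a)
        (T - T ^ a) := fun z x => (continuous_const.mul (E_continuous x)).intervalIntegrable _ _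
    have e3 : ∫ t in (T ^ a)..(T - T ^ a), tm L η n t = (cf n : ℂ) *
        (η (Real.log n / L) * (∫ t in (T ^ a)..(T - T ^ a), E (-(Real.log n)) t) +
        η (-(Real.log n / L)) * ∫ t in (T ^ a)..(T - T ^ a), E (Real.log n) t) := by
      unfold tm
      rw [intervalIntegral.integral_const_mul, intervalIntegral.integral_add (hc _ _) (hc _ _)]
      simp only [intervalIntegral.integral_const_mul]
    have hb : ∀ (z : ℂ) (x : ℝ), x ≠ 0 → ‖z‖ ≤ M →
        ‖z * ∫ t in (T ^ a)..(T - T ^ a), E x t‖ ≤ M * (2 / |x|) := by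
      intro z x hx hz
      rw [norm_mul]
      have := int_E_le hx (T ^ a) (T - T ^ a)
      gcongr
    rw [e3, norm_mul, Complex.norm_real, Real.norm_of_nonneg (cf_nonneg n)]
    have b1 := hb (η (Real.log n / L)) (-(Real.log n)) (neg_ne_zero.mpr hln.ne') (hM _)
    have b2 := hb (η (-(Real.log n / L))) (Real.log n) hln.ne' (hM _)
    rw [abs_neg] at b1
    rw [abs_of_pos hln] at b1 b2
    refine (mul_le_mul_of_nonneg_left ((norm_add_le _ _).trans (add_le_add b1 b2))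
      (cf_nonneg n)).trans (le_of_eq ?_)
    unfold cf
    ring
  have hn2 : ‖-(1 / (L : ℂ))‖ = 1 / L := by
    rw [norm_neg, norm_div, Complex.norm_real, Real.norm_of_nonneg hL.le, norm_one]
  rw [e1, norm_mul, hn2]
  have e4 : ‖∑ n ∈ Finset.range (N + 1), ∫ t in (T ^ a)..(T - T ^ a), tm L η n t‖ ≤
      4 * M * C * (T ^ ((1 + δ) / 2) * L ^ 3) := by
    refine (norm_sum_le _ _).trans ((Finset.sum_le_sum fun n _ => e2 n).trans ?_)
    rw [← Finset.mul_sum]
    have h5 := hlin N hN2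
    calc 4 * M * ∑ n ∈ Finset.range (N + 1), Λ n / (Real.sqrt n * Real.log n) ≤
        4 * M * (C * N * Real.log N ^ 3) := mul_le_mul_of_nonneg_left h5 (by positivity)
      _ = 4 * M * C * (N * Real.log N ^ 3) := by ring
      _ ≤ _ := mul_le_mul_of_nonneg_left hN5 (by positivity)
  calc 1 / L * ‖∑ n ∈ Finset.range (N + 1), ∫ t in (T ^ a)..(T - T ^ a), tm L η n t‖ ≤
      1 / L * (4 * M * C * (T ^ ((1 + δ) / 2) * L ^ 3)) :=
        mul_le_mul_of_nonneg_left e4 (by positivity)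
    _ = _ := by ring

/-- The mean square of one Dirichlet polynomial is bounded. -/
theorem mean_normsq_B {η : ℝ → ℂ} {δ a : ℝ} (hδ : 0 ≤ δ) (hδ1 : δ < 1) (ha : 0 < a) (ha1 : a < 1)
    (h : Bump δ η) :
    ∃ C : ℝ, 0 < C ∧ ∀ᶠ T : ℝ in atTop,
      (∫ t in (T ^ a)..(T - T ^ a), ‖BT (Real.log T) η t‖ ^ 2) ≤ C * T := by
  set η₂ : ℝ → ℂ := fun x => (starRingEnd ℂ) (η (-x)) with hη₂
  have h₂ : Bump δ η₂ := by
    refine ⟨?_, fun v hv => ?_⟩
    · have hn : ContDiff ℝ ∞ (fun x : ℝ => -x) := contDiff_neg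
      exact (Complex.conjCLE.contDiff).comp (h.smooth.comp hn)
    · rw [hη₂]
      simp only
      rw [h.supp (-v) (by rwa [abs_neg]), map_zero]
  have hlim := mean_BB hδ hδ1 ha ha1 h h₂
  set J := ∫ x : ℝ, ((|x| : ℝ) : ℂ) * (η x * η₂ (-x)) with hJ
  refine ⟨‖J‖ + 1, by positivity, ?_⟩
  have hev : ∀ᶠ T : ℝ in atTop, ‖(1 / (T : ℂ)) * ∫ t in (T ^ a)..(T - T ^ a),
      BT (Real.log T) η t * BT (Real.log T) η₂ t‖ < ‖J‖ + 1 :=
    (hlim.norm).eventually (gt_mem_nhds (by linarith))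
  filter_upwards [hev, eventually_gt_atTop (1 : ℝ)] with T hT hT1
  have hT0 : 0 < T := by linarith
  have e1 : ∀ t : ℝ, BT (Real.log T) η₂ t = (starRingEnd ℂ) (BT (Real.log T) η t) := by
    intro t
    unfold BT
    rw [map_mul, map_neg, map_div₀, map_one, Complex.conj_ofReal, map_sum]
    congr 1
    refine Finset.sum_congr rfl fun n _ => ?_
    rw [map_mul, Complex.conj_ofReal, map_add, map_mul, map_mul, ← Complex.exp_conj,
      ← Complex.exp_conj]
    simp only [hη₂, map_neg, map_mul, Complex.conj_ofReal, Complex.conj_I, neg_neg, neg_mul]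
    ring
  have e2 : ∫ t in (T ^ a)..(T - T ^ a), BT (Real.log T) η t * BT (Real.log T) η₂ t =
      ((∫ t in (T ^ a)..(T - T ^ a), ‖BT (Real.log T) η t‖ ^ 2 : ℝ) : ℂ) := by
    rw [← intervalIntegral.integral_ofReal]
    refine intervalIntegral.integral_congr fun t _ => ?_
    rw [e1, Complex.mul_conj, Complex.normSq_eq_norm_sq]
  rw [e2, norm_mul, Complex.norm_real, norm_div, Complex.norm_real, Real.norm_of_nonneg hT0.le,
    norm_one, one_div, inv_mul_lt_iff₀ hT0] at hT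
  have := (le_abs_self _).trans hT.le
  linarith

end Pool.Agent.MP_67227b_nt.Mo
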