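import Pool.Agent.MP_67227b_nt.RegDefs67
import Pool.Agent.MP_67227b_nt.Mo.Montgomery
import Pool.Agent.MP_67227b_nt.Kap67

set_option autoImplicit false

open Filter Topology Set MeasureTheory Complex
open scoped Real ContDiff ArithmeticFunction FourierTransform

namespace Pool.Agent.MP_67227b_nt.Mo

open Pool.Agent.Lib.ZetaCount_helper33 Pool.Agent.MP_67227b_nt

namespace PairLLNAux

lemma exists_kernel0 : ∃ (η : ℝ → ℂ) (κ : ℝ → ℝ), Bump (1 / 2) η ∧
    (∀ u : ℝ, gs η (u : ℂ) = (κ u : ℂ)) ∧ (∀ u, 0 ≤ κ u) ∧ Continuous κ ∧ 0 < κ 0 := by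
  obtain ⟨φ, hφ, hs⟩ := exists_band_kap (m := 1) (1 / 8) (by norm_num)
  obtain ⟨hφ1, hφ2, hφ3⟩ := hφ
  refine ⟨fun v => φ (fun _ => v), fun u => kap 1 (1 / 8) (by norm_num) (fun _ => u),
    ⟨?_, ?_⟩, ?_, ?_, ?_, ?_⟩
  · apply hφ1.comp
    rw [contDiff_pi]
    intro _
    exact contDiff_id
  · intro v hv
    by_contra h
    have h1 : (fun _ => v : Fin 1 → ℝ) ∈ tsupport φ := subset_tsupport φ h
    have h2 := hφ3 h1
    rw [Metric.mem_closedBall, dist_zero_right, pi_norm_const, Real.norm_eq_abs] at h2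
    norm_num at h2
    linarith
  · intro u
    rw [← hs, synth_one]
  · intro u
    exact kap_nonneg _ _ _
  · exact (continuous_kap _ _).comp (by fun_prop)
  · have h := kap_ge (m := 1) (1 / 8) (by norm_num) (fun _ => (0 : ℝ))
    have h2 : ‖(fun _ => (0 : ℝ) : Fin 1 → ℝ)‖ = 0 := by
      rw [pi_norm_const, norm_zero]
    rw [h2] at h
    simp only [mul_zero, sub_zero] at h
    linarith

lemma kernel_int {η : ℝ → ℂ} {κ : ℝ → ℝ} (hη : Bump (1 / 2) η)
    (hκ : ∀ u : ℝ, gs η (u : ℂ) = (κ u : ℂ)) (hc : Continuous κ) :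
    Integrable κ ∧ Integrable (fun u => |u| * κ u) ∧ ((∫ u, κ u : ℝ) : ℂ) = η 0 := by
  obtain ⟨C, hC, hb⟩ := gs_real_bound (by norm_num : (0 : ℝ) ≤ 1 / 2) hη 2
  have hb' : ∀ x : ℝ, |κ x| ≤ C / (1 + x ^ 2) ^ 2 := by
    intro x
    have := hb x
    rwa [hκ, Complex.norm_real, Real.norm_eq_abs] at this
  refine ⟨?_, ?_, ?_⟩
  · refine ((integrable_inv_one_add_sq).const_mul C).mono' hc.aestronglyMeasurable
      (Eventually.of_forall fun x => ?_)
    rw [Real.norm_eq_abs]
    refine (hb' x).trans ?_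
    rw [div_eq_mul_inv]
    refine mul_le_mul_of_nonneg_left (inv_anti₀ (by positivity) ?_) hC.le
    nlinarith [sq_nonneg x, sq_nonneg (x ^ 2)]
  · refine ((integrable_inv_one_add_sq).const_mul C).mono'
      (by exact (continuous_abs.mul hc).aestronglyMeasurable)
      (Eventually.of_forall fun x => ?_)
    rw [Real.norm_eq_abs, abs_mul, abs_abs]
    have h1 : |x| ≤ 1 + x ^ 2 := by
      nlinarith [sq_nonneg (|x| - 1), sq_abs x, abs_nonneg x]
    have h2 : (0 : ℝ) < 1 + x ^ 2 := by positivity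
    calc |x| * |κ x| ≤ (1 + x ^ 2) * (C / (1 + x ^ 2) ^ 2) := by
          apply mul_le_mul h1 (hb' x) (abs_nonneg _) h2.le
      _ = C * (1 + x ^ 2)⁻¹ := by
          field_simp
  · have h := four_gs_exp (by norm_num : (0 : ℝ) ≤ 1 / 2) hη 0
    simp only [ofReal_zero, mul_zero, zero_mul, Complex.exp_zero, mul_one, neg_zero] at h
    rw [← h, ← integral_complex_ofReal]
    refine integral_congr_ae (Eventually.of_forall fun t => ?_)
    simp only
    rw [hκ]

/-- A nonnegative band-limited probability density. -/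
lemma exists_kernel : ∃ (η : ℝ → ℂ) (κ : ℝ → ℝ), Bump (1 / 2) η ∧
    (∀ u : ℝ, gs η (u : ℂ) = (κ u : ℂ)) ∧ (∀ u, 0 ≤ κ u) ∧ Continuous κ ∧
    Integrable κ ∧ Integrable (fun u => |u| * κ u) ∧ (∫ u, κ u) = 1 ∧ η 0 = 1 := by
  obtain ⟨η, κ, hη, hκ, h0, hc, hpos⟩ := exists_kernel0
  obtain ⟨hi, hi2, hval⟩ := kernel_int hη hκ hc
  have hI : 0 < ∫ u, κ u := by
    rw [integral_pos_iff_support_of_nonneg h0 hi]
    have : IsOpen (Function.support κ) := hc.isOpen_support
    exact this.measure_pos _ ⟨0, hpos.ne'⟩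
  set c := ∫ u, κ u with hcdef
  have hη' : Bump (1 / 2) (fun v => ((c⁻¹ : ℝ) : ℂ) * η v) :=
    ⟨contDiff_const.mul hη.smooth, fun v hv => by rw [hη.supp v hv, mul_zero]⟩
  have hκ' : ∀ u : ℝ, gs (fun v => ((c⁻¹ : ℝ) : ℂ) * η v) (u : ℂ) = ((c⁻¹ * κ u : ℝ) : ℂ) := by
    intro u
    rw [gs]
    simp only [mul_assoc]
    rw [integral_const_mul]
    have : ∫ v : ℝ, η v * Complex.exp (2 * (π * (I * (v * (u : ℂ))))) = gs η u := by
      rw [gs]
      congr 1
      ext v
      congr 2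
      ring
    rw [this, hκ]
    push_cast
    rfl
  refine ⟨fun v => ((c⁻¹ : ℝ) : ℂ) * η v, fun u => c⁻¹ * κ u, hη', hκ', ?_, ?_, ?_, ?_, ?_, ?_⟩
  · intro u
    have := h0 u
    positivity
  · exact continuous_const.mul hc
  · exact hi.const_mul _
  · refine (hi2.const_mul c⁻¹).congr (Eventually.of_forall fun u => ?_)
    simp only
    ring
  · rw [integral_const_mul]
    exact inv_mul_cancel₀ hI.ne'
  · show ((c⁻¹ : ℝ) : ℂ) * η 0 = 1
    rw [← hval, ← ofReal_mul, inv_mul_cancel₀ hI.ne', ofReal_one]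

/-- The triangle function. -/
noncomputable def tri (w : ℝ) : ℝ := max (1 - |w|) 0

lemma continuous_tri : Continuous tri := by
  unfold tri
  fun_prop

lemma tri_nonneg (w : ℝ) : 0 ≤ tri w := le_max_right _ _

lemma tri_zero {w : ℝ} (hw : w ∉ Icc (-1 : ℝ) 1) : tri w = 0 := by
  unfold tri
  apply max_eq_right
  have : ¬ |w| ≤ 1 := fun h => hw (abs_le.1 h)
  linarith [not_le.1 this]

lemma hasCompactSupport_tri : HasCompactSupport tri :=
  HasCompactSupport.intro (isCompact_Icc (a := (-1 : ℝ)) (b := 1)) (fun _ hx => tri_zero hx)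

lemma tri_exp (u : ℝ) :
    ∫ w : ℝ, ((tri w : ℝ) : ℂ) * Complex.exp (2 * π * I * w * u) =
      ((Real.sinc (π * u) ^ 2 : ℝ) : ℂ) := by
  rw [← four_tri_exp u, intervalIntegral.integral_of_le (by norm_num),
    ← integral_Icc_eq_integral_Ioc]
  rw [← setIntegral_eq_integral_of_forall_compl_eq_zero (s := Icc (-1 : ℝ) 1)]
  · apply setIntegral_congr_fun measurableSet_Icc
    intro w hw
    simp only
    have : tri w = 1 - |w| := max_eq_left (by linarith [abs_le.2 hw])
    rw [this]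
  · intro w hw
    rw [tri_zero hw]
    simp

/-- The square of sinc as a smooth function. -/
noncomputable def sq (x : ℝ) : ℂ := ((Real.sinc (π * x) ^ 2 : ℝ) : ℂ)

lemma contDiff_sq : ContDiff ℝ ∞ sq := by
  have h1 : ContDiff ℝ ∞ (𝓕 (fun w : ℝ => ((tri w : ℝ) : ℂ))) := by
    apply Real.contDiff_fourier
    intro n _
    apply Continuous.integrable_of_hasCompactSupport
    · have := continuous_tri
      fun_prop
    · refine HasCompactSupport.intro (isCompact_Icc (a := (-1 : ℝ)) (b := 1)) ?_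
      intro w hw
      rw [tri_zero hw]
      simp
  have h2 : sq = fun x => 𝓕 (fun w : ℝ => ((tri w : ℝ) : ℂ)) (-x) := by
    ext x
    rw [sq, ← tri_exp, Real.fourier_eq']
    apply integral_congr_ae
    apply Eventually.of_forall
    intro w
    simp only [smul_eq_mul]
    rw [mul_comm]
    congr 2
    simp
    ring
  rw [h2]
  exact h1.comp contDiff_neg

/-- The band-limited majorant on the Fourier side. -/
noncomputable def bw (W : ℝ) (η : ℝ → ℂ) (x : ℝ) : ℂ := ((W ^ 2 : ℝ) : ℂ) * (sq (W * x) * η x)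

lemma bump_bw (W : ℝ) {η : ℝ → ℂ} (hη : Bump (1 / 2) η) : Bump (1 / 2) (bw W η) := by
  refine ⟨?_, fun v hv => ?_⟩
  · unfold bw
    refine contDiff_const.mul (ContDiff.mul ?_ hη.smooth)
    exact contDiff_sq.comp (contDiff_const.mul contDiff_id)
  · rw [bw, hη.supp v hv, mul_zero, mul_zero]

lemma bw_formula {W : ℝ} {η : ℝ → ℂ} {κ : ℝ → ℝ} (hη : Bump (1 / 2) η)
    (hκ : ∀ u : ℝ, gs η (u : ℂ) = (κ u : ℂ)) (u : ℝ) :
    gs (bw W η) (u : ℂ) = ((W ^ 2 * ∫ w, tri w * κ (u + W * w) : ℝ) : ℂ) := by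
  have hη1 : Integrable η := four_integrable hη
  have htri : Integrable tri :=
    continuous_tri.integrable_of_hasCompactSupport hasCompactSupport_tri
  have e1 : ∀ x : ℝ, bw W η x * Complex.exp (2 * π * I * x * (u : ℂ)) =
      ((W ^ 2 : ℝ) : ℂ) * ∫ w : ℝ, ((tri w : ℝ) : ℂ) *
        Complex.exp (2 * π * I * w * ((W * x : ℝ) : ℂ)) *
          (η x * Complex.exp (2 * π * I * x * (u : ℂ))) := by
    intro x
    rw [integral_mul_const, tri_exp, bw, sq]
    ring
  rw [gs]
  simp only [e1]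
  rw [integral_const_mul, ofReal_mul]
  congr 1
  rw [integral_integral_swap]
  · rw [← integral_complex_ofReal]
    refine integral_congr_ae (Eventually.of_forall fun w => ?_)
    simp only
    have e2 : ∀ x : ℝ, ((tri w : ℝ) : ℂ) * Complex.exp (2 * π * I * w * ((W * x : ℝ) : ℂ)) *
        (η x * Complex.exp (2 * π * I * x * (u : ℂ))) =
        ((tri w : ℝ) : ℂ) * (η x * Complex.exp (2 * π * I * x * ((u + W * w : ℝ) : ℂ))) := by
      intro x
      have : Complex.exp (2 * π * I * x * ((u + W * w : ℝ) : ℂ)) =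
          Complex.exp (2 * π * I * w * ((W * x : ℝ) : ℂ)) *
            Complex.exp (2 * π * I * x * (u : ℂ)) := by
        rw [← Complex.exp_add]
        congr 1
        push_cast
        ring
      rw [this]
      ring
    simp only [e2]
    rw [integral_const_mul]
    change ((tri w : ℝ) : ℂ) * gs η ((u + W * w : ℝ) : ℂ) = _
    rw [hκ]
    push_cast
    rfl
  · have hdom : Integrable (fun z : ℝ × ℝ => ‖η z.1‖ * ‖tri z.2‖)
        (volume.prod volume) := Integrable.mul_prod hη1.norm htri.norm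
    have hcont : Continuous (Function.uncurry fun (x w : ℝ) =>
        ((tri w : ℝ) : ℂ) * Complex.exp (2 * π * I * w * ((W * x : ℝ) : ℂ)) *
        (η x * Complex.exp (2 * π * I * x * (u : ℂ)))) := by
      have hA : Continuous fun z : ℝ × ℝ => η z.1 := hη.smooth.continuous.comp continuous_fst
      have hB : Continuous fun z : ℝ × ℝ => ((tri z.2 : ℝ) : ℂ) :=
        continuous_ofReal.comp (continuous_tri.comp continuous_snd)
      simp only [Function.uncurry_def]
      exact (hB.mul (by fun_prop)).mul (hA.mul (by fun_prop))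
    refine hdom.mono' hcont.aestronglyMeasurable (Eventually.of_forall fun z => ?_)
    simp only [Function.uncurry_def, norm_mul]
    have h3 : ‖Complex.exp (2 * π * I * z.2 * ((W * z.1 : ℝ) : ℂ))‖ = 1 := by
      rw [show 2 * (π : ℂ) * I * z.2 * ((W * z.1 : ℝ) : ℂ) =
        ((2 * π * z.2 * (W * z.1) : ℝ) : ℂ) * I by push_cast; ring]
      exact norm_exp_ofReal_mul_I _
    have h4 : ‖Complex.exp (2 * π * I * z.1 * (u : ℂ))‖ = 1 := by
      rw [show 2 * (π : ℂ) * I * z.1 * (u : ℂ) =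
        ((2 * π * z.1 * u : ℝ) : ℂ) * I by push_cast; ring]
      exact norm_exp_ofReal_mul_I _
    rw [h3, h4, mul_one, mul_one, mul_comm, Complex.norm_real]

/-- The majorant of the triangle. -/
noncomputable def GG (W : ℝ) (κ : ℝ → ℝ) (u : ℝ) : ℝ := W ^ 2 * ∫ w, tri w * κ (u + W * w)

lemma GG_nonneg {W : ℝ} {κ : ℝ → ℝ} (h0 : ∀ u, 0 ≤ κ u) (u : ℝ) : 0 ≤ GG W κ u :=
  mul_nonneg (sq_nonneg _) (integral_nonneg fun _ => mul_nonneg (tri_nonneg _) (h0 _))

lemma GG_eq {W : ℝ} (hW : 0 < W) (κ : ℝ → ℝ) (u : ℝ) :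
    GG W κ u = ∫ s, (W * tri ((s - u) / W)) * κ s := by
  set g : ℝ → ℝ := fun y => tri (y / W) * κ (u + y) with hg
  have e1 : ∀ w, tri w * κ (u + W * w) = g (W * w) := by
    intro w
    simp only [hg]
    congr 2
    field_simp
  rw [GG]
  simp only [e1]
  rw [Measure.integral_comp_mul_left g W, abs_of_pos (inv_pos.2 hW), smul_eq_mul]
  have e2 : ∫ y, g y = ∫ s, g (s - u) := (integral_sub_right_eq_self g u).symm
  rw [e2]
  have e3 : ∀ s, (W * tri ((s - u) / W)) * κ s = W * g (s - u) := by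
    intro s
    simp only [hg]
    rw [add_sub_cancel]
    ring
  simp only [e3]
  rw [integral_const_mul]
  field_simp

lemma GG_ge {W : ℝ} (hW : 0 < W) {κ : ℝ → ℝ} (h0 : ∀ u, 0 ≤ κ u) (hc : Continuous κ)
    (hi : Integrable κ) (hi2 : Integrable (fun u => |u| * κ u)) (h1 : ∫ u, κ u = 1) (u : ℝ) :
    W - |u| - (∫ u, |u| * κ u) ≤ GG W κ u := by
  rw [GG_eq hW]
  have hle1 : ∀ s, W * tri ((s - u) / W) ≤ W := by
    intro s
    have : tri ((s - u) / W) ≤ 1 := by
      unfold tri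
      exact max_le (by linarith [abs_nonneg ((s - u) / W)]) zero_le_one
    nlinarith
  have hge : ∀ s, W - |u| - |s| ≤ W * tri ((s - u) / W) := by
    intro s
    have h2 : 1 - |(s - u) / W| ≤ tri ((s - u) / W) := le_max_left _ _
    have h3 : W * (1 - |(s - u) / W|) = W - |s - u| := by
      rw [abs_div, abs_of_pos hW]
      field_simp
    have h4 := mul_le_mul_of_nonneg_left h2 hW.le
    rw [h3] at h4
    have h5 : |s - u| ≤ |s| + |u| := abs_sub s u
    linarith
  have hint : Integrable (fun s => (W * tri ((s - u) / W)) * κ s) := by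
    have hcc : Continuous fun s => (W * tri ((s - u) / W)) * κ s := by
      have := continuous_tri
      fun_prop
    refine (hi.const_mul W).mono' hcc.aestronglyMeasurable (Eventually.of_forall fun s => ?_)
    rw [Real.norm_eq_abs, abs_mul, abs_of_nonneg (h0 s),
      abs_of_nonneg (mul_nonneg hW.le (tri_nonneg _))]
    exact mul_le_mul_of_nonneg_right (hle1 s) (h0 s)
  have hint2 : Integrable (fun s => (W - |u|) * κ s - |s| * κ s) := (hi.const_mul _).sub hi2
  have h6 : ∫ s, ((W - |u|) * κ s - |s| * κ s) = W - |u| - ∫ u, |u| * κ u := by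
    rw [integral_sub (hi.const_mul _) hi2, integral_const_mul, h1, mul_one]
  rw [← h6]
  apply integral_mono hint2 hint
  intro s
  simp only
  have := mul_le_mul_of_nonneg_right (hge s) (h0 s)
  linarith

lemma sinc_bound {W : ℝ} (hW : 0 < W) (x : ℝ) :
    |x| * (W ^ 2 * Real.sinc (π * (W * x)) ^ 2) ≤ W := by
  set y := π * (W * x) with hy
  have h1 : |y| * |Real.sinc y| ≤ 1 := by
    rw [← abs_mul]
    by_cases hy0 : y = 0
    · rw [hy0]; simp
    · rw [Real.sinc_of_ne_zero hy0, mul_div_cancel₀ _ hy0]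
      exact Real.abs_sin_le_one y
  have h2 : |Real.sinc y| ≤ 1 := Real.abs_sinc_le_one y
  have h3 : |x| * W ≤ |y| := by
    rw [hy, abs_mul, abs_mul, abs_of_pos hW, abs_of_pos Real.pi_pos]
    nlinarith [Real.pi_gt_three, mul_nonneg hW.le (abs_nonneg x)]
  have h4 : Real.sinc y ^ 2 = |Real.sinc y| * |Real.sinc y| := by
    rw [← sq_abs, _root_.sq]
  rw [h4]
  have h5 : |x| * W * |Real.sinc y| ≤ 1 :=
    (mul_le_mul_of_nonneg_right h3 (abs_nonneg _)).trans h1
  have h6 : |x| * W * |Real.sinc y| * |Real.sinc y| ≤ 1 * 1 :=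
    mul_le_mul h5 h2 (abs_nonneg _) zero_le_one
  nlinarith

lemma bw_limit {W : ℝ} (hW : 0 < W) {η : ℝ → ℂ} (hη : Bump (1 / 2) η) (h1 : η 0 = 1) :
    (bw W η 0 + ∫ x : ℝ, ((|x| : ℝ) : ℂ) * bw W η x).re ≤ W ^ 2 + W * ∫ x, ‖η x‖ := by
  have hη1 : Integrable η := four_integrable hη
  refine (Complex.re_le_norm _).trans ((norm_add_le _ _).trans (add_le_add ?_ ?_))
  · rw [bw, h1, sq]
    simp
  · refine (norm_integral_le_integral_norm _).trans ?_
    rw [← integral_const_mul]
    apply integral_mono_of_nonneg (Eventually.of_forall fun _ => norm_nonneg _)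
      (hη1.norm.const_mul W)
    refine Eventually.of_forall fun x => ?_
    simp only
    rw [bw, sq, norm_mul, norm_mul, norm_mul, Complex.norm_real, Complex.norm_real,
      Complex.norm_real, Real.norm_eq_abs, Real.norm_eq_abs, Real.norm_eq_abs, abs_abs,
      abs_of_nonneg (sq_nonneg W), abs_of_nonneg (sq_nonneg (Real.sinc _)), ← mul_assoc,
      ← mul_assoc, mul_assoc |x|]
    exact mul_le_mul_of_nonneg_right (sinc_bound hW x) (norm_nonneg _)

end PairLLNAux

open PairLLNAux in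
/-- The number variance of the zeta zeros in long windows is small, under RH. -/
theorem pairLLN_zeta (hRH : RiemannHypothesis) : PairLLN goodFamily_zeta := by
  intro ε hε
  obtain ⟨η, κ, hη, hκ, h0, hc, hi, hi2, h1, hη0⟩ := exists_kernel
  set R := ∫ u, |u| * κ u with hR
  set C := ∫ x, ‖η x‖ with hC
  have hR0 : 0 ≤ R := integral_nonneg fun u => mul_nonneg (abs_nonneg _) (h0 _)
  have hC0 : 0 ≤ C := integral_nonneg fun u => norm_nonneg _
  refine ⟨1 + (2 * R + R ^ 2 + C + C * R) / ε, by positivity, fun V hV => ?_⟩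
  have hV1 : 1 ≤ V := le_trans (by
    have : 0 ≤ (2 * R + R ^ 2 + C + C * R) / ε := by positivity
    linarith) hV
  have hV2 : (2 * R + R ^ 2 + C + C * R) ≤ ε * V := by
    have : (2 * R + R ^ 2 + C + C * R) / ε ≤ V := by linarith
    rw [div_le_iff₀ hε] at this
    linarith
  set W := V + R with hW
  have hW0 : 0 < W := by linarith
  have hlim := tendsto_pairs hRH (by norm_num : (0 : ℝ) ≤ 1 / 2) (by norm_num) (bump_bw W hη)
  have hlim2 := (Complex.continuous_re.tendsto _).comp hlim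
  have hbd := bw_limit hW0 hη hη0
  have hfin : W ^ 2 + W * C ≤ (1 + ε) * V ^ 2 := by
    rw [hW]
    nlinarith [mul_le_mul_of_nonneg_right hV2 (by linarith : (0 : ℝ) ≤ V),
      mul_nonneg hR0 (sub_nonneg.2 hV1), mul_nonneg (mul_nonneg hR0 hR0) (sub_nonneg.2 hV1),
      mul_nonneg (mul_nonneg hC0 hR0) (sub_nonneg.2 hV1)]
  intro e he
  have hev := hlim2.eventually_lt_const (u := (1 + ε) * V ^ 2 + e) (by
    have : W * ∫ x, ‖η x‖ = W * C := rfl
    linarith)
  filter_upwards [hev, eventually_gt_atTop (1 : ℝ)] with T hT hT1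
  refine le_trans ?_ hT.le
  have hZ : 0 < zeroScale T := zeroScale_pos hT1
  have hsum : (∑ i ∈ PT goodFamily_zeta T, ∑ j ∈ PT goodFamily_zeta T,
      gs (bw W η) (((zetaOrdinate i - zetaOrdinate j) * Real.log T / (2 * π) : ℝ) : ℂ)) /
        (zeroScale T : ℂ) = (((∑ i ∈ PT goodFamily_zeta T, ∑ j ∈ PT goodFamily_zeta T,
          GG W κ ((zetaOrdinate i - zetaOrdinate j) * Real.log T / (2 * π))) / zeroScale T : ℝ) : ℂ) := by
    have hg : ∀ u : ℝ, gs (bw W η) (u : ℂ) = ((GG W κ u : ℝ) : ℂ) := fun u =>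
      bw_formula hη hκ u
    simp only [hg]
    push_cast
    rfl
  simp only [Function.comp_apply]
  rw [hsum, Complex.ofReal_re]
  apply div_le_div_of_nonneg_right _ hZ.le
  apply Finset.sum_le_sum
  intro i _
  apply Finset.sum_le_sum
  intro j _
  have hx : xT zetaOrdinate T i - xT zetaOrdinate T j =
      (zetaOrdinate i - zetaOrdinate j) * Real.log T / (2 * π) := by
    unfold xT
    ring
  rw [hx]
  apply max_le _ (GG_nonneg h0 _)
  have := GG_ge hW0 h0 hc hi hi2 h1 ((zetaOrdinate i - zetaOrdinate j) * Real.log T / (2 * π))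
  have hRR : (∫ u, |u| * κ u) = R := rfl
  linarith

end Pool.Agent.MP_67227b_nt.Mo
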