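import Pool.Agent.MP_67227b_nt.Mo.Zeros
import Pool.Agent.MP_67227b_nt.Mo.Decay

set_option autoImplicit false

open Filter Topology Set MeasureTheory Complex
open scoped Real ContDiff ArithmeticFunction

namespace Pool.Agent.MP_67227b_nt.Mo

open Pool.Agent.Lib.ZetaCount_helper33 Pool.Agent.MP_67227b_nt

/-- The Laplace transform which represents `1/(1+ix)`. -/
lemma inv_eq_integral (x : ℝ) :
    1 / (1 + (x : ℂ) * I) =
      ∫ v in Ioi (0 : ℝ), (2 * π : ℂ) * Complex.exp (-(2 * π * (1 + x * I)) * v) := by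
  have hre : (-(2 * π * (1 + x * I)) : ℂ).re < 0 := by
    simp
    positivity
  rw [integral_const_mul, integral_exp_mul_complex_Ioi hre 0]
  have h1 : (1 + (x : ℂ) * I) ≠ 0 := by
    intro h
    have := congrArg Complex.re h
    simp at this
  have h2 : (π : ℂ) ≠ 0 := by exact_mod_cast Real.pi_ne_zero
  simp only [ofReal_zero, mul_zero, Complex.exp_zero]
  field_simp

/-- One zero, positive frequencies. -/
lemma single_pos {h : ℝ → ℂ} {δ : ℝ} (hδ : 0 ≤ δ) (hh : Bump δ h) (γ : ℝ) :
    ∫ t : ℝ, 1 / (1 + ((t - γ : ℝ) : ℂ) * I) * gs h ((t : ℂ) + ((-1 : ℝ) : ℂ) * I) =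
      2 * π * ∫ v in Ioi (0 : ℝ), h v * Complex.exp (2 * π * I * v * γ) := by
  set G : ℝ → ℂ := fun t => gs h ((t : ℂ) + ((-1 : ℝ) : ℂ) * I) with hG
  have hGi : Integrable G := integrable_gs hδ hh (-1)
  have hGc : Continuous G := by
    apply (continuous_gs hδ hh).comp
    fun_prop
  set F : ℝ → ℝ → ℂ := fun t v =>
    G t * ((2 * π : ℂ) * Complex.exp (-(2 * π * (1 + ((t - γ : ℝ) : ℂ) * I)) * v)) with hF
  have hFi : Integrable (Function.uncurry F) (volume.prod (volume.restrict (Ioi (0 : ℝ)))) := by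
    have h1 : Integrable (fun v : ℝ => (2 * π : ℂ) * Complex.exp ((-(2 * π) : ℂ) * v))
        (volume.restrict (Ioi (0 : ℝ))) := by
      apply Integrable.const_mul
      exact integrableOn_exp_mul_complex_Ioi (by simp; positivity) 0
    have h2 := hGi.mul_prod h1
    apply h2.mono
    · apply Continuous.aestronglyMeasurable
      rw [hF]
      unfold Function.uncurry
      fun_prop
    · apply Eventually.of_forall
      rintro ⟨t, v⟩
      simp only [Function.uncurry, hF, norm_mul]
      apply le_of_eq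
      congr 2
      rw [Complex.norm_exp, Complex.norm_exp]
      congr 1
      simp
  have e1 : ∀ t : ℝ, 1 / (1 + ((t - γ : ℝ) : ℂ) * I) * G t = ∫ v in Ioi (0 : ℝ), F t v := by
    intro t
    rw [inv_eq_integral, mul_comm, ← integral_const_mul]
  calc ∫ t : ℝ, 1 / (1 + ((t - γ : ℝ) : ℂ) * I) * G t
      = ∫ t : ℝ, ∫ v in Ioi (0 : ℝ), F t v := by
        apply integral_congr_ae
        exact Eventually.of_forall e1
    _ = ∫ v in Ioi (0 : ℝ), ∫ t : ℝ, F t v := integral_integral_swap hFi
    _ = ∫ v in Ioi (0 : ℝ), 2 * π * (h v * Complex.exp (2 * π * I * v * γ)) := by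
        apply integral_congr_ae
        apply Eventually.of_forall
        intro v
        have e2 : ∀ t : ℝ, F t v = (2 * π * Complex.exp (-(2 * π * v)) *
            Complex.exp (2 * π * I * v * γ)) * (G t * Complex.exp (-(2 * π * I * v * t))) := by
          intro t
          simp only [hF]
          have : Complex.exp (-(2 * π * (1 + ((t - γ : ℝ) : ℂ) * I)) * v) =
              Complex.exp (-(2 * π * v)) * Complex.exp (2 * π * I * v * γ) *
                Complex.exp (-(2 * π * I * v * t)) := by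
            rw [← Complex.exp_add, ← Complex.exp_add]
            congr 1
            push_cast
            ring
          rw [this]
          ring
        simp only [e2]
        rw [integral_const_mul]
        have e3 : ∫ t : ℝ, G t * Complex.exp (-(2 * π * I * v * t)) =
            h v * ((Real.exp (-(2 * π * v * (-1))) : ℝ) : ℂ) := integral_gs_exp hδ hh (-1) v
        rw [e3]
        have e4 : Complex.exp (-(2 * π * v)) * ((Real.exp (-(2 * π * v * (-1))) : ℝ) : ℂ) = 1 := by
          rw [ofReal_exp, ← Complex.exp_add, ← Complex.exp_zero]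
          congr 1
          push_cast
          ring
        linear_combination (2 * π * Complex.exp (2 * π * I * v * γ) * h v) * e4
    _ = 2 * π * ∫ v in Ioi (0 : ℝ), h v * Complex.exp (2 * π * I * v * γ) := by
        rw [integral_const_mul]

lemma Bump.refl {h : ℝ → ℂ} {δ : ℝ} (hh : Bump δ h) : Bump δ (fun v => h (-v)) where
  smooth := hh.smooth.comp contDiff_neg
  supp := fun v hv => hh.supp (-v) (by rwa [abs_neg])

lemma gs_refl (h : ℝ → ℂ) (z : ℂ) : gs (fun v => h (-v)) z = gs h (-z) := by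
  unfold gs
  rw [← integral_neg_eq_self]
  apply integral_congr_ae
  apply Eventually.of_forall
  intro v
  simp only [neg_neg]
  congr 2
  push_cast
  ring

/-- One zero, negative frequencies. -/
lemma single_neg {h : ℝ → ℂ} {δ : ℝ} (hδ : 0 ≤ δ) (hh : Bump δ h) (γ : ℝ) :
    ∫ t : ℝ, 1 / (1 + ((-t - -γ : ℝ) : ℂ) * I) * gs h ((t : ℂ) + ((1 : ℝ) : ℂ) * I) =
      2 * π * ∫ v in Iic (0 : ℝ), h v * Complex.exp (2 * π * I * v * γ) := by
  have h1 := single_pos hδ hh.refl (-γ)
  have h2 : ∫ t : ℝ, 1 / (1 + ((t - -γ : ℝ) : ℂ) * I) *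
      gs (fun v => h (-v)) ((t : ℂ) + ((-1 : ℝ) : ℂ) * I) =
      ∫ t : ℝ, 1 / (1 + ((-t - -γ : ℝ) : ℂ) * I) * gs h ((t : ℂ) + ((1 : ℝ) : ℂ) * I) := by
    rw [← integral_neg_eq_self]
    apply integral_congr_ae
    apply Eventually.of_forall
    intro t
    simp only [gs_refl]
    congr 2
    push_cast
    ring
  rw [h2] at h1
  rw [h1]
  congr 1
  have h3 := integral_comp_neg_Iic (0 : ℝ)
    (fun v : ℝ => h (-v) * Complex.exp (2 * π * I * v * ((-γ : ℝ) : ℂ)))
  rw [neg_zero] at h3
  rw [← h3]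
  apply integral_congr_ae
  apply Eventually.of_forall
  intro v
  simp only [neg_neg]
  congr 2
  push_cast
  ring

lemma Bump.integrable {h : ℝ → ℂ} {δ : ℝ} (hh : Bump δ h) : Integrable h := by
  apply hh.smooth.continuous.integrable_of_hasCompactSupport
  apply HasCompactSupport.intro (isCompact_Icc (a := -δ) (b := δ))
  intro x hx
  apply hh.supp
  by_contra hc
  exact hx ⟨(abs_le.mp (not_lt.mp hc)).1, (abs_le.mp (not_lt.mp hc)).2⟩

/-- One zero. -/
lemma single {h : ℝ → ℂ} {δ : ℝ} (hδ : 0 ≤ δ) (hh : Bump δ h) (γ : ℝ) :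
    (∫ t : ℝ, 1 / (1 + ((t - γ : ℝ) : ℂ) * I) * gs h ((t : ℂ) + ((-1 : ℝ) : ℂ) * I)) +
      (∫ t : ℝ, 1 / (1 + ((-t - -γ : ℝ) : ℂ) * I) * gs h ((t : ℂ) + ((1 : ℝ) : ℂ) * I)) =
      2 * π * gs h γ := by
  rw [single_pos hδ hh, single_neg hδ hh, ← mul_add, gs]
  congr 1
  have h1 : Integrable fun v : ℝ => h v * Complex.exp (2 * π * I * v * γ) := by
    apply hh.integrable.mul_bdd (c := 1)
    · apply Continuous.aestronglyMeasurable
      fun_prop
    · apply Eventually.of_forall
      intro v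
      rw [Complex.norm_exp]
      simp
  rw [add_comm]
  exact intervalIntegral.integral_Iic_add_Ioi h1.integrableOn h1.integrableOn

end Pool.Agent.MP_67227b_nt.Mo
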