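import Pool.Agent.MP_67227b_nt.Mo.MoDefs

set_option autoImplicit false

open Filter Topology Set MeasureTheory Complex
open scoped Real ContDiff ArithmeticFunction

namespace Pool.Agent.MP_67227b_nt.Mo

open Pool.Agent.Lib.ZetaCount_helper33 Pool.Agent.MP_67227b_nt

lemma mu_nonneg (u : Zer) : 0 ≤ mu u := Nat.cast_nonneg _

/-- The zeros up to height `T` in absolute value, as elements of `Zer`. -/
noncomputable def ZZ (T : ℝ) : Finset Zer := by
  classical
  exact (ZT T).subtype (fun u => xi u = 0)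

lemma mem_ZZ (hRH : RiemannHypothesis) {T : ℝ} (hT : 0 ≤ T) {u : Zer} :
    u ∈ ZZ T ↔ |ord u| ≤ T := by
  classical
  rw [ZZ, Finset.mem_subtype, mem_ZT hRH hT]
  exact ⟨fun h => h.2, fun h => ⟨u.2, h⟩⟩

lemma sum_ZZ {M : Type*} [AddCommMonoid M] (hRH : RiemannHypothesis) {T : ℝ} (hT : 0 ≤ T)
    (f : ℂ → M) : ∑ u ∈ ZZ T, f u.1 = ∑ u ∈ ZT T, f u := by
  classical
  rw [ZZ]
  exact Finset.sum_subtype_of_mem f (fun x hx => ((mem_ZT hRH hT).mp hx).1)

lemma tendsto_ZZ (hRH : RiemannHypothesis) : Tendsto ZZ atTop atTop := by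
  rw [tendsto_atTop]
  intro s
  have h1 : ∀ᶠ T : ℝ in atTop, ∀ u ∈ s, u ∈ ZZ T := by
    rw [Finset.eventually_all]
    intro u _
    filter_upwards [eventually_ge_atTop 0, eventually_ge_atTop |ord u|] with T hT hu
    exact (mem_ZZ hRH hT).mpr hu
  filter_upwards [h1] with T hT
  exact hT

lemma mono_ZZ (hRH : RiemannHypothesis) {T T' : ℝ} (hT : 0 ≤ T) (h : T ≤ T') : ZZ T ⊆ ZZ T' := by
  intro u hu
  rw [mem_ZZ hRH hT] at hu
  exact (mem_ZZ hRH (hT.trans h)).mpr (hu.trans h)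

/-- A zero of `xi` has the form `1/2 + i ord u`. -/
lemma zer_eq (hRH : RiemannHypothesis) (u : Zer) : u.1 = 1 / 2 + (ord u : ℂ) * I := by
  apply Complex.ext
  · rw [xi_zero_re hRH u.2]
    simp
  · simp [ord]

lemma pt32_sub (hRH : RiemannHypothesis) (t : ℝ) (u : Zer) :
    pt32 t - u.1 = 1 + ((t - ord u : ℝ) : ℂ) * I := by
  rw [zer_eq hRH u, pt32]
  push_cast
  ring

lemma re_inv_one_add (y : ℝ) : (1 / (1 + (y : ℂ) * I)).re = 1 / (1 + y ^ 2) := by
  rw [one_div, inv_re]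
  simp [normSq_apply]
  ring

lemma norm_inv_one_add_le (y : ℝ) : ‖1 / (1 + (y : ℂ) * I)‖ ≤ 1 := by
  rw [norm_div, norm_one]
  have h1 : (1 : ℝ) ≤ ‖1 + (y : ℂ) * I‖ := by
    have := abs_re_le_norm (1 + (y : ℂ) * I)
    simpa using this
  exact (div_le_one (by linarith)).mpr h1

/-- The partial sums at `3/2 + it`. -/
lemma ST_pt32 (hRH : RiemannHypothesis) {T : ℝ} (hT : 0 ≤ T) (t : ℝ) :
    ST T (pt32 t) = ∑ u ∈ ZZ T, (mu u : ℂ) * (1 / (1 + ((t - ord u : ℝ) : ℂ) * I)) := by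
  have h1 : ST T (pt32 t) = ∑ u ∈ ZZ T, (analyticOrderNatAt xi u.1 : ℂ) / (pt32 t - u.1) :=
    (sum_ZZ hRH hT (fun u => (analyticOrderNatAt xi u : ℂ) / (pt32 t - u))).symm
  rw [h1]
  apply Finset.sum_congr rfl
  intro u _
  rw [pt32_sub hRH t u, mu]
  push_cast
  ring

lemma re_ST (hRH : RiemannHypothesis) {T : ℝ} (hT : 0 ≤ T) (t : ℝ) :
    (ST T (pt32 t)).re = ∑ u ∈ ZZ T, mu u / (1 + (t - ord u) ^ 2) := by
  rw [ST_pt32 hRH hT, re_sum]
  apply Finset.sum_congr rfl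
  intro u _
  rw [re_ofReal_mul, re_inv_one_add]
  ring

lemma tendsto_ST_pt32 (hRH : RiemannHypothesis) (t : ℝ) :
    Tendsto (fun T : ℝ => ST T (pt32 t)) atTop (𝓝 (Fl t)) :=
  tendsto_ST hRH (by rw [pt32_re]; norm_num)

lemma term_nonneg (t : ℝ) (u : Zer) : 0 ≤ mu u / (1 + (t - ord u) ^ 2) :=
  div_nonneg (mu_nonneg u) (by positivity)

lemma sum_ZZ_le (hRH : RiemannHypothesis) {T : ℝ} (hT : 0 ≤ T) (t : ℝ) :
    ∑ u ∈ ZZ T, mu u / (1 + (t - ord u) ^ 2) ≤ (Fl t).re := by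
  have h1 : Tendsto (fun T : ℝ => (ST T (pt32 t)).re) atTop (𝓝 (Fl t).re) :=
    (Complex.continuous_re.tendsto _).comp (tendsto_ST_pt32 hRH t)
  apply ge_of_tendsto h1
  filter_upwards [eventually_ge_atTop T] with T' hT'
  rw [re_ST hRH (hT.trans hT')]
  exact Finset.sum_le_sum_of_subset_of_nonneg (mono_ZZ hRH hT hT') (fun u _ _ => term_nonneg t u)

lemma finset_sum_le (hRH : RiemannHypothesis) (t : ℝ) (s : Finset Zer) :
    ∑ u ∈ s, mu u / (1 + (t - ord u) ^ 2) ≤ (Fl t).re := by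
  have h1 : ∀ᶠ T : ℝ in atTop, s ≤ ZZ T := (tendsto_ZZ hRH).eventually_ge_atTop s
  obtain ⟨T, hT, hT0⟩ := (h1.and (eventually_ge_atTop 0)).exists
  exact (Finset.sum_le_sum_of_subset_of_nonneg hT (fun u _ _ => term_nonneg t u)).trans
    (sum_ZZ_le hRH hT0 t)

theorem summable_zer (hRH : RiemannHypothesis) (t : ℝ) :
    Summable fun u : Zer => mu u / (1 + (t - ord u) ^ 2) :=
  summable_of_sum_le (fun u => term_nonneg t u) (finset_sum_le hRH t)

lemma tsum_zer_le (hRH : RiemannHypothesis) (t : ℝ) :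
    ∑' u : Zer, mu u / (1 + (t - ord u) ^ 2) ≤ (Fl t).re :=
  (summable_zer hRH t).tsum_le_of_sum_le (finset_sum_le hRH t)

/-- `xi'/xi` on the line `Re s = 3/2`. -/
lemma Fl_eq (t : ℝ) : Fl t = archF (pt32 t) - LSeries (fun n => (Λ n : ℂ)) (pt32 t) := by
  have hre : 1 < (pt32 t).re := by rw [pt32_re]; norm_num
  rw [Fl, logDeriv_xi hre, ArithmeticFunction.LSeries_vonMangoldt_eq_deriv_riemannZeta_div hre,
    logDeriv_apply]
  ring

/-- The sum of `Λ(n) n^{-3/2}`. -/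
noncomputable def lam32 : ℝ := ∑' n : ℕ, ‖LSeries.term (fun n => (Λ n : ℂ)) (3 / 2) n‖

lemma norm_LSeries_le (t : ℝ) : ‖LSeries (fun n => (Λ n : ℂ)) (pt32 t)‖ ≤ lam32 := by
  have hre : 1 < (pt32 t).re := by rw [pt32_re]; norm_num
  have h1 := ArithmeticFunction.LSeriesSummable_vonMangoldt hre
  have h2 : ∀ n, ‖LSeries.term (fun n => (Λ n : ℂ)) (pt32 t) n‖ =
      ‖LSeries.term (fun n => (Λ n : ℂ)) (3 / 2) n‖ := by
    intro n
    rw [LSeries.norm_term_eq, LSeries.norm_term_eq, pt32_re]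
    norm_num
  rw [LSeries, lam32]
  refine (norm_tsum_le_tsum_norm h1.norm).trans ?_
  exact (tsum_congr h2).le

lemma lam32_nonneg : 0 ≤ lam32 := tsum_nonneg (fun _ => norm_nonneg _)

lemma exists_Fl_bound : ∃ C : ℝ, 0 < C ∧ ∀ t : ℝ, ‖Fl t‖ ≤ C * Real.log (|t| + 3) := by
  obtain ⟨C, hC, hb⟩ := exists_arch_bound
  refine ⟨1 + C + lam32, by have := lam32_nonneg; positivity, fun t => ?_⟩
  have h3 : (1 : ℝ) ≤ Real.log (|t| + 3) := by
    have h31 : (1 : ℝ) ≤ Real.log 3 := by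
      rw [Real.le_log_iff_exp_le (by norm_num)]
      have := Real.exp_one_lt_d9
      linarith
    refine h31.trans (Real.log_le_log (by norm_num) ?_)
    have := abs_nonneg t
    linarith
  have h4 : Real.log (|t| + 2) ≤ Real.log (|t| + 3) := by
    apply Real.log_le_log
    · positivity
    · linarith
  have h5 : 0 ≤ Real.log (|t| + 2) := by
    apply Real.log_nonneg
    have := abs_nonneg t
    linarith
  have h6 : ‖archF (pt32 t)‖ ≤ C + Real.log (|t| + 2) / 2 := by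
    have h7 := norm_sub_norm_le (archF (pt32 t)) ((Real.log (|t| + 2) / 2 : ℝ) : ℂ)
    have h8 : ‖((Real.log (|t| + 2) / 2 : ℝ) : ℂ)‖ = Real.log (|t| + 2) / 2 := by
      rw [norm_real, Real.norm_of_nonneg (by positivity)]
    have h9 : ‖archF (pt32 t) - ((Real.log (|t| + 2) / 2 : ℝ) : ℂ)‖ ≤ C := by
      have := hb t
      push_cast at this ⊢
      exact this
    rw [h8] at h7
    linarith
  rw [Fl_eq]
  refine (norm_sub_le _ _).trans ?_
  have h10 := norm_LSeries_le t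
  have h11 := lam32_nonneg
  nlinarith

/-- The local density of the zeros. -/
theorem exists_density (hRH : RiemannHypothesis) : ∃ C : ℝ, 0 < C ∧ ∀ t : ℝ,
    ∑' u : Zer, mu u / (1 + (t - ord u) ^ 2) ≤ C * Real.log (|t| + 3) := by
  obtain ⟨C, hC, hb⟩ := exists_Fl_bound
  refine ⟨C, hC, fun t => ?_⟩
  exact ((tsum_zer_le hRH t).trans (re_le_norm _)).trans (hb t)

lemma sum_PT_idx {M : Type*} [AddCommMonoid M] (T : ℝ) (G : ℝ → M) :
    ∑ j ∈ PT goodFamily_zeta T, G (zetaOrdinate j) = ∑ p ∈ idxFinset T, G p.1.im := by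
  classical
  have h1 : (PT goodFamily_zeta T).image (fun j : ZetaZeroIdx => j.1) = idxFinset T := by
    apply Finset.coe_injective
    rw [Finset.coe_image, ← image_val_zeros]
    congr 1
    ext j
    simp [mem_PT]
  rw [← h1, Finset.sum_image (fun x _ y _ h => val_injective h)]
  rfl

lemma sum_idx_eq {M : Type*} [AddCommMonoid M] (T : ℝ) (G : ℝ → M) :
    ∑ p ∈ idxFinset T, G p.1.im = ∑ s ∈ Zp T, analyticOrderNatAt xi s • G s.im := by
  rw [idxFinset, Finset.sum_map, Finset.sum_sigma]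
  apply Finset.sum_congr rfl
  intro s hs
  rw [mem_Zp] at hs
  simp [xi_order_eq hs.2.1.ne']

/-- Sums over the indices of the zeta zeros as sums over the zeros of `xi`. -/
theorem sum_PT_eq (T : ℝ) (G : ℝ → ℂ) :
    ∑ j ∈ PT goodFamily_zeta T, G (zetaOrdinate j) =
      ∑' u : Zer, (mu u : ℂ) * (if 0 < ord u ∧ ord u ≤ T then G (ord u) else 0) := by
  classical
  rw [sum_PT_idx, sum_idx_eq, tsum_eq_sum (s := (Zp T).subtype (fun u => xi u = 0))]
  · rw [← Finset.sum_subtype_of_mem (p := fun u => xi u = 0)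
      (fun s => analyticOrderNatAt xi s • G s.im) (fun x hx => (mem_Zp'.mp hx).1)]
    apply Finset.sum_congr rfl
    intro u hu
    rw [Finset.mem_subtype, mem_Zp'] at hu
    have hu2 : 0 < ord u ∧ ord u ≤ T := hu.2
    rw [if_pos hu2, mu, nsmul_eq_mul]
    push_cast
    rfl
  · intro u hu
    rw [Finset.mem_subtype, mem_Zp'] at hu
    have hu2 : ¬ (0 < ord u ∧ ord u ≤ T) := fun h => hu ⟨u.2, h⟩
    rw [if_neg hu2, mul_zero]

theorem sum_PT_eq_real (T : ℝ) (G : ℝ → ℝ) :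
    ∑ j ∈ PT goodFamily_zeta T, G (zetaOrdinate j) =
      ∑' u : Zer, mu u * (if 0 < ord u ∧ ord u ≤ T then G (ord u) else 0) := by
  classical
  rw [sum_PT_idx, sum_idx_eq, tsum_eq_sum (s := (Zp T).subtype (fun u => xi u = 0))]
  · rw [← Finset.sum_subtype_of_mem (p := fun u => xi u = 0)
      (fun s => analyticOrderNatAt xi s • G s.im) (fun x hx => (mem_Zp'.mp hx).1)]
    apply Finset.sum_congr rfl
    intro u hu
    rw [Finset.mem_subtype, mem_Zp'] at hu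
    have hu2 : 0 < ord u ∧ ord u ≤ T := hu.2
    rw [if_pos hu2, mu, nsmul_eq_mul]
    rfl
  · intro u hu
    rw [Finset.mem_subtype, mem_Zp'] at hu
    have hu2 : ¬ (0 < ord u ∧ ord u ≤ T) := fun h => hu ⟨u.2, h⟩
    rw [if_neg hu2, mul_zero]

end Pool.Agent.MP_67227b_nt.Mo
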